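import Pool.Agent.R902.TriGen

/-!
The convolution form of the generalised central trinomial coefficients.
-/

set_option linter.unusedSectionVars false

namespace Pool.Agent.R902.Alpha

open Finset Polynomial

/-- `C(2k,k) / 4^k` -/
def al (k : ℕ) : ℚ := ((2 * k).choose k : ℚ) / 4 ^ k

theorem al_zero : al 0 = 1 := by simp [al]

theorem al_succ (k : ℕ) : 2 * ((k : ℚ) + 1) * al (k + 1) = (2 * k + 1) * al k := by
  have h := congrArg (fun x : ℕ => (x : ℚ)) (Nat.succ_mul_centralBinom_succ k)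
  rw [Nat.centralBinom, Nat.centralBinom] at h
  push_cast at h
  rw [al, al, pow_succ]
  have h4 : (4 : ℚ) ^ k ≠ 0 := by positivity
  field_simp
  linear_combination 2 * h

/-- the convolution `∑ al(N-i) al(i) u^i` -/
def R (u : ℚ) (N : ℕ) : ℚ := ∑ i ∈ range (N + 1), al (N - i) * al i * u ^ i

theorem R_zero (u : ℚ) : R u 0 = 1 := by simp [R, al_zero]

theorem al_one : al 1 = 1 / 2 := by
  have := al_succ 0
  rw [al_zero] at this
  norm_num at this
  linarith

theorem R_one (u : ℚ) : R u 1 = (1 + u) / 2 := by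
  rw [R, Finset.sum_range_succ, Finset.sum_range_one]
  simp [al_zero, al_one]
  ring

theorem R_rec (u : ℚ) (N : ℕ) : ((N : ℚ) + 2) * R u (N + 2)
    = (N + 3 / 2) * (1 + u) * R u (N + 1) - (N + 1) * u * R u N := by
  have e2 : R u (N + 2) = al (N + 2) + ∑ j ∈ range (N + 1), al (N + 1 - j) * al (j + 1) * u ^ (j + 1)
      + al (N + 2) * u ^ (N + 2) := by
    rw [R, Finset.sum_range_succ, Finset.sum_range_succ']
    have : ∀ j ∈ range (N + 1), al (N + 2 - (j + 1)) * al (j + 1) * u ^ (j + 1)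
        = al (N + 1 - j) * al (j + 1) * u ^ (j + 1) := by
      intro j _
      rw [show N + 2 - (j + 1) = N + 1 - j by omega]
    rw [Finset.sum_congr rfl this]
    simp [al_zero]
    ring
  have e1 : R u (N + 1) = al (N + 1) + ∑ j ∈ range (N + 1), al (N - j) * al (j + 1) * u ^ (j + 1)
      := by
    rw [R, Finset.sum_range_succ']
    have : ∀ j ∈ range (N + 1), al (N + 1 - (j + 1)) * al (j + 1) * u ^ (j + 1)
        = al (N - j) * al (j + 1) * u ^ (j + 1) := by
      intro j _
      rw [show N + 1 - (j + 1) = N - j by omega]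
    rw [Finset.sum_congr rfl this]
    simp [al_zero]
    ring
  have e1' : u * R u (N + 1) = ∑ j ∈ range (N + 1), al (N + 1 - j) * al j * u ^ (j + 1)
      + al (N + 1) * u ^ (N + 2) := by
    rw [R, Finset.sum_range_succ, mul_add, Finset.mul_sum]
    congr 1
    · refine Finset.sum_congr rfl fun j _ => by rw [pow_succ]; ring
    · rw [Nat.sub_self, al_zero, pow_succ u (N + 1)]
      ring
  have e0 : u * R u N = ∑ j ∈ range (N + 1), al (N - j) * al j * u ^ (j + 1) := by
    rw [R, Finset.mul_sum]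
    refine Finset.sum_congr rfl fun j _ => by rw [pow_succ]; ring
  have hs := al_succ (N + 1)
  have hmid : ((N : ℚ) + 2) * ∑ j ∈ range (N + 1), al (N + 1 - j) * al (j + 1) * u ^ (j + 1)
      = (N + 3 / 2) * (∑ j ∈ range (N + 1), al (N - j) * al (j + 1) * u ^ (j + 1)
        + ∑ j ∈ range (N + 1), al (N + 1 - j) * al j * u ^ (j + 1))
        - (N + 1) * ∑ j ∈ range (N + 1), al (N - j) * al j * u ^ (j + 1) := by
    rw [← Finset.sum_add_distrib, Finset.mul_sum, Finset.mul_sum, Finset.mul_sum,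
      ← Finset.sum_sub_distrib]
    refine Finset.sum_congr rfl fun j hj => ?_
    have hj := Finset.mem_range.1 hj
    obtain ⟨l, rfl⟩ : ∃ l, N = j + l := ⟨N - j, by omega⟩
    rw [show j + l + 1 - j = l + 1 by omega, show j + l - j = l by omega]
    have h1 := al_succ j
    have h2 := al_succ l
    have hl : ((l : ℚ) + 1) ≠ 0 := by positivity
    have hj' : ((j : ℚ) + 1) ≠ 0 := by positivity
    have g1 : al (j + 1) = (2 * j + 1) / (2 * (j + 1)) * al j := by
      field_simp
      linear_combination h1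
    have g2 : al (l + 1) = (2 * l + 1) / (2 * (l + 1)) * al l := by
      field_simp
      linear_combination h2
    rw [g1, g2]
    push_cast
    field_simp
    ring
  rw [e2]
  have e3 : ((N : ℚ) + 3 / 2) * (1 + u) * R u (N + 1) = (N + 3 / 2) * (R u (N + 1) + u * R u (N + 1))
      := by ring
  rw [e3, mul_assoc ((N : ℚ) + 1) u, e1', e1, e0]
  push_cast at hs
  linear_combination hmid + (1 + u ^ (N + 2)) / 2 * hs

/-- the alternating sum as a trinomial coefficient -/
theorem T_two_sub (m : ℚ) (N : ℕ) : TriGen.T (2 - m) 1 N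
    = ∑ k ∈ range (N + 1), (N.choose k : ℚ) * ((2 * k).choose k : ℚ) * (-m) ^ (N - k) := by
  rw [TriGen.T_coeff]
  have h : (X ^ 2 + C (2 - m) * X + C 1 : ℚ[X]) = (X + C 1) ^ 2 + C (-m) * X := by
    have h2 : (C (2 : ℚ)) = (2 : ℚ[X]) := map_ofNat C 2
    simp only [C_sub, C_neg, h2, C_1]
    ring
  rw [h, add_pow, finsetSum_coeff]
  refine Finset.sum_congr rfl fun k hk => ?_
  have hk := Finset.mem_range.1 hk
  have h2 : ((X + C 1) ^ 2) ^ k * (C (-m) * X) ^ (N - k) * (N.choose k : ℚ[X])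
      = C ((-m) ^ (N - k) * (N.choose k : ℚ)) * (X + C 1) ^ (2 * k) * X ^ (N - k) := by
    rw [mul_pow, ← C_pow, C_mul, ← C_eq_natCast, ← pow_mul]
    ring
  rw [h2, coeff_mul_X_pow', if_pos (by omega), coeff_C_mul, show N - (N - k) = k by omega,
    coeff_X_add_C_pow, one_pow]
  ring

/-- `∑ (-1)^k C(N,k) C(2k,k) m^{-k}` -/
def L (m : ℚ) (N : ℕ) : ℚ := ∑ k ∈ range (N + 1), (-1) ^ k * (N.choose k : ℚ) *
  ((2 * k).choose k : ℚ) / m ^ k

theorem L_eq (m : ℚ) (hm : m ≠ 0) (N : ℕ) : (-m) ^ N * L m N = TriGen.T (2 - m) 1 N := by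
  rw [T_two_sub, L, Finset.mul_sum]
  refine Finset.sum_congr rfl fun k hk => ?_
  have hk := Finset.mem_range.1 hk
  have h1 : (-m) ^ N = (-m) ^ (N - k) * ((-1) ^ k * m ^ k) := by
    rw [← mul_pow, show (-1 : ℚ) * m = -m by ring, ← pow_add]; congr 1; omega
  rw [h1]
  have h2 : m ^ k ≠ 0 := pow_ne_zero _ hm
  have h3 : ((-1 : ℚ) ^ k) * (-1) ^ k = 1 := by rw [← mul_pow]; norm_num
  field_simp
  linear_combination ((-m) ^ (N - k) * (N.choose k : ℚ) * ((2 * k).choose k : ℚ)) * h3

theorem L_rec (m : ℚ) (hm : m ≠ 0) (N : ℕ) : ((N : ℚ) + 2) * L m (N + 2)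
    = (N + 3 / 2) * (1 + (m - 4) / m) * L m (N + 1) - (N + 1) * ((m - 4) / m) * L m N := by
  have h := TriGen.T_rec (2 - m) (1 : ℚ) N
  rw [← L_eq m hm, ← L_eq m hm, ← L_eq m hm] at h
  have h2 : (-m) ^ N ≠ 0 := pow_ne_zero _ (neg_ne_zero.2 hm)
  rw [pow_succ (-m) (N + 1), pow_succ (-m) N] at h
  have h' : ((N : ℚ) + 2) * (m * m * L m (N + 2)) = (2 - m) * (2 * N + 3) * (-m * L m (N + 1))
      - ((2 - m) ^ 2 - 4) * (N + 1) * L m N := by
    apply mul_left_cancel₀ h2
    linear_combination h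
  apply mul_left_cancel₀ hm
  apply mul_left_cancel₀ hm
  have e : m * (m * ((N + 3 / 2) * (1 + (m - 4) / m) * L m (N + 1)
      - (N + 1) * ((m - 4) / m) * L m N)) = (N + 3 / 2) * (m * (2 * m - 4)) * L m (N + 1)
      - (N + 1) * (m * (m - 4)) * L m N := by
    field_simp
    ring
  rw [e]
  linear_combination h'

/-- the convolution form -/
theorem L_eq_R (m : ℚ) (hm : m ≠ 0) (N : ℕ) : L m N = R ((m - 4) / m) N := by
  induction N using Nat.strong_induction_on with
  | _ N ih =>
    rcases N with _ | _ | N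
    · simp [L, R_zero]
    · rw [R_one, L, Finset.sum_range_succ, Finset.sum_range_one]
      simp
      field_simp
      ring
    · have h1 := ih (N + 1) (by omega)
      have h0 := ih N (by omega)
      have r1 := L_rec m hm N
      have r2 := R_rec ((m - 4) / m) N
      rw [h1, h0, ← r2] at r1
      have : ((N : ℚ) + 2) ≠ 0 := by positivity
      exact mul_left_cancel₀ this r1

end Pool.Agent.R902.Alpha
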