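import Mathlib

/-!
Block congruences.

If `n ∣ ∑_{k<n} ((-1)^k C(n-1,k))^r h(k)` for all `n ≥ 1` then `n ∣ ∑_{k<n} h(k)` for all `n ≥ 1`.
The argument works prime by prime, and a refined form is kept for the prime `2`.
-/

namespace Pool.Agent.R902.Block

open Finset

/-- `c n k = (-1)^k C(n-1,k)`. -/
def c (n k : ℕ) : ℤ := (-1) ^ k * ((n - 1).choose k : ℤ)

theorem c_zero (n : ℕ) : c n 0 = 1 := by simp [c]

/-- `c n (k+1) (k+1) = c n k (k+1-n)` for `n ≥ 1`. -/
theorem c_succ (n k : ℕ) (hn : 1 ≤ n) :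
    c n (k + 1) * ((k : ℤ) + 1) = c n k * ((k : ℤ) + 1 - n) := by
  obtain ⟨m, rfl⟩ : ∃ m, n = m + 1 := ⟨n - 1, by omega⟩
  simp only [c, Nat.add_sub_cancel]
  have h := Nat.choose_succ_right_eq m k
  rcases Nat.lt_or_ge m k with hk | hk
  · rw [Nat.choose_eq_zero_of_lt hk, Nat.choose_eq_zero_of_lt (by omega)]
    simp
  · have h' : ((m.choose (k + 1) : ℕ) : ℤ) * ((k : ℤ) + 1) = (m.choose k : ℤ) * ((m : ℤ) - k) := by
      have := congrArg (fun x : ℕ => (x : ℤ)) h
      rw [Nat.cast_mul, Nat.cast_mul, Nat.cast_sub hk] at this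
      push_cast at this
      exact this
    push_cast
    rw [pow_succ]
    linear_combination (-(-1) ^ k) * h'

/-- product of the `i ≤ k` prime to `p`. -/
def A (p : ℕ) (k : ℕ) : ℤ := ∏ i ∈ (Finset.range (k + 1)).filter (fun i => ¬ p ∣ i), (i : ℤ)

/-- product of `i - pn` over the `i ≤ k` prime to `p`. -/
def B (p n : ℕ) (k : ℕ) : ℤ :=
  ∏ i ∈ (Finset.range (k + 1)).filter (fun i => ¬ p ∣ i), ((i : ℤ) - (p * n : ℕ))

theorem A_zero (p : ℕ) : A p 0 = 1 := by
  simp [A, Finset.filter_singleton]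

theorem B_zero (p n : ℕ) : B p n 0 = 1 := by
  simp [B, Finset.filter_singleton]

theorem A_succ_of_dvd (p k : ℕ) (h : p ∣ k + 1) : A p (k + 1) = A p k := by
  simp only [A]
  rw [Finset.range_add_one, Finset.filter_insert, if_neg (by simpa using h)]

theorem B_succ_of_dvd (p n k : ℕ) (h : p ∣ k + 1) : B p n (k + 1) = B p n k := by
  simp only [B]
  rw [Finset.range_add_one, Finset.filter_insert, if_neg (by simpa using h)]

theorem A_succ_of_not_dvd (p k : ℕ) (h : ¬ p ∣ k + 1) :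
    A p (k + 1) = ((k : ℤ) + 1) * A p k := by
  simp only [A]
  rw [Finset.range_add_one, Finset.filter_insert, if_pos h, Finset.prod_insert (by simp)]
  push_cast
  rfl

theorem B_succ_of_not_dvd (p n k : ℕ) (h : ¬ p ∣ k + 1) :
    B p n (k + 1) = ((k : ℤ) + 1 - (p * n : ℕ)) * B p n k := by
  simp only [B]
  rw [Finset.range_add_one, Finset.filter_insert, if_pos h, Finset.prod_insert (by simp)]
  push_cast
  rfl

/-- exact relation between `c (p n) k` and `c n (k / p)`. -/
theorem c_mul_A (p n k : ℕ) (hp : p.Prime) (hn : 1 ≤ n) :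
    c (p * n) k * A p k = c n (k / p) * B p n k := by
  have hpn : 1 ≤ p * n := Nat.mul_pos hp.pos hn
  induction k with
  | zero => simp [A_zero, B_zero, c_zero]
  | succ k ih =>
    by_cases h : p ∣ k + 1
    · rw [A_succ_of_dvd p k h, B_succ_of_dvd p n k h]
      obtain ⟨j', hj'⟩ := h
      obtain ⟨j, rfl⟩ : ∃ j, j' = j + 1 := by
        refine ⟨j' - 1, ?_⟩
        have : j' ≠ 0 := by rintro rfl; simp at hj'
        omega
      have hk1 : (k + 1) / p = j + 1 := by rw [hj']; exact Nat.mul_div_cancel_left _ hp.pos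
      have hk : k / p = j := by
        have : k = p * j + (p - 1) := by
          have := hp.pos
          rw [Nat.mul_add, mul_one] at hj'
          omega
        rw [this, Nat.mul_add_div hp.pos, Nat.div_eq_of_lt (by have := hp.pos; omega), add_zero]
      rw [hk] at ih
      rw [hk1]
      have e1 := c_succ (p * n) k hpn
      have e2 := c_succ n j hn
      have hk' : (k : ℤ) + 1 = p * ((j : ℤ) + 1) := by exact_mod_cast hj'
      rw [hk'] at e1
      have hp0 : (p : ℤ) ≠ 0 := by exact_mod_cast hp.ne_zero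
      have hj0 : ((j : ℤ) + 1) ≠ 0 := by positivity
      apply mul_left_cancel₀ (mul_ne_zero hp0 hj0)
      push_cast at e1
      linear_combination A p k * e1 + p * ((j : ℤ) + 1 - n) * ih - p * B p n k * e2
    · rw [A_succ_of_not_dvd p k h, B_succ_of_not_dvd p n k h]
      have hk : (k + 1) / p = k / p := by
        rw [Nat.succ_div, if_neg h, add_zero]
      rw [hk]
      have e1 := c_succ (p * n) k hpn
      linear_combination A p k * e1 + ((k : ℤ) + 1 - (p * n : ℕ)) * ih

theorem A_coprime (p k : ℕ) (hp : p.Prime) : IsCoprime (p : ℤ) (A p k) := by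
  rw [A]
  apply IsCoprime.prod_right
  intro i hi
  have hi := (Finset.mem_filter.1 hi).2
  exact Nat.isCoprime_iff_coprime.2 ((Nat.Prime.coprime_iff_not_dvd hp).2 hi)

theorem A_sub_B (p n k : ℕ) : ((p * n : ℕ) : ℤ) ∣ B p n k - A p k := by
  rw [← Int.modEq_iff_dvd, A, B]
  apply Int.ModEq.symm
  apply Int.ModEq.prod
  intro i _
  rw [Int.modEq_iff_dvd]
  simp

/-- `c (p n) k ≡ c n (k / p)` modulo `p ^ v` if `p ^ v ∣ p n`. -/
theorem c_congr (p n k v : ℕ) (hp : p.Prime) (hn : 1 ≤ n) (hv : p ^ v ∣ p * n) :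
    ((p : ℤ) ^ v) ∣ c (p * n) k - c n (k / p) := by
  have h1 := c_mul_A p n k hp hn
  have h2 : ((p : ℤ) ^ v) ∣ B p n k - A p k :=
    dvd_trans (by exact_mod_cast hv) (A_sub_B p n k)
  have h3 : ((p : ℤ) ^ v) ∣ A p k * (c (p * n) k - c n (k / p)) := by
    have : A p k * (c (p * n) k - c n (k / p)) = c n (k / p) * (B p n k - A p k) := by
      linear_combination h1
    rw [this]
    exact Dvd.dvd.mul_left h2 _
  exact ((A_coprime p k hp).pow_left).dvd_of_dvd_mul_left h3

/-- block sum -/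
def blk (h : ℕ → ℤ) (L q : ℕ) : ℤ := ∑ j ∈ range L, h (L * q + j)

theorem sum_blocks (h : ℕ → ℤ) (g : ℕ → ℤ) (L Q : ℕ) (hL : 0 < L) :
    ∑ k ∈ range (L * Q), g (k / L) * h k = ∑ q ∈ range Q, g q * blk h L q := by
  induction Q with
  | zero => simp
  | succ Q ih =>
    rw [Nat.mul_succ, Finset.sum_range_add, ih, Finset.sum_range_succ]
    congr 1
    rw [blk, Finset.mul_sum]
    refine Finset.sum_congr rfl fun j hj => ?_
    have hj := Finset.mem_range.1 hj
    rw [Nat.mul_add_div hL, Nat.div_eq_of_lt hj, add_zero]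

theorem sum_blocks' (h : ℕ → ℤ) (L Q : ℕ) (hL : 0 < L) :
    ∑ k ∈ range (L * Q), h k = ∑ q ∈ range Q, blk h L q := by
  have := sum_blocks h (fun _ => 1) L Q hL
  simpa using this

/-- The descent step: from level `s0` to level `a`. -/
theorem step (p r : ℕ) (hp : p.Prime) (h : ℕ → ℤ) (e s0 a : ℕ) (hs : s0 ≤ a)
    (hβ : ∀ s, s0 ≤ s → s < a → ∀ q, (p : ℤ) ^ (s + e) ∣ blk h (p ^ s) q)
    (H : ∀ N, 1 ≤ N → (p : ℤ) ^ (a + e) ∣
      ∑ k ∈ range (p ^ a * N), c (p ^ (a - s0) * N) (k / p ^ s0) ^ r * h k) :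
    ∀ q, (p : ℤ) ^ (a + e) ∣ blk h (p ^ a) q := by
  -- first: the same with `s` in place of `s0`, for all `s0 ≤ s ≤ a`
  have main : ∀ s, s0 ≤ s → s ≤ a → ∀ N, 1 ≤ N → (p : ℤ) ^ (a + e) ∣
      ∑ k ∈ range (p ^ a * N), c (p ^ (a - s) * N) (k / p ^ s) ^ r * h k := by
    intro s hs0
    induction s, hs0 using Nat.le_induction with
    | base => intro _; exact H
    | succ s hs1 ih =>
      intro hsa N hN
      have ih' := ih (by omega) N hN
      -- the difference
      have hps : 0 < p ^ s := pow_pos hp.pos _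
      have hlen : p ^ a * N = p ^ s * (p ^ (a - s) * N) := by
        rw [← mul_assoc, ← pow_add]; congr 2; omega
      have hexp : p ^ (a - s) * N = p * (p ^ (a - (s + 1)) * N) := by
        rw [← mul_assoc, ← pow_succ']; congr 2; omega
      have hdiff : (p : ℤ) ^ (a + e) ∣
          ∑ k ∈ range (p ^ a * N), (c (p ^ (a - s) * N) (k / p ^ s) ^ r -
            c (p ^ (a - (s + 1)) * N) (k / p ^ (s + 1)) ^ r) * h k := by
        have e1 : ∑ k ∈ range (p ^ a * N), (c (p ^ (a - s) * N) (k / p ^ s) ^ r -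
            c (p ^ (a - (s + 1)) * N) (k / p ^ (s + 1)) ^ r) * h k
            = ∑ q ∈ range (p ^ (a - s) * N), (c (p ^ (a - s) * N) q ^ r -
              c (p ^ (a - (s + 1)) * N) (q / p) ^ r) * blk h (p ^ s) q := by
          rw [hlen, ← sum_blocks h (fun q => c (p ^ (a - s) * N) q ^ r -
              c (p ^ (a - (s + 1)) * N) (q / p) ^ r) (p ^ s) (p ^ (a - s) * N) hps]
          refine Finset.sum_congr rfl fun k _ => ?_
          rw [Nat.div_div_eq_div_mul, ← pow_succ]
        rw [e1]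
        apply Finset.dvd_sum
        intro q _
        have d1 : (p : ℤ) ^ (a - s) ∣ c (p ^ (a - s) * N) q ^ r -
              c (p ^ (a - (s + 1)) * N) (q / p) ^ r := by
          refine dvd_trans ?_ (sub_dvd_pow_sub_pow _ _ r)
          rw [hexp]
          refine c_congr p (p ^ (a - (s + 1)) * N) q (a - s) hp
            (Nat.mul_pos (pow_pos hp.pos _) hN) ?_
          rw [← hexp]
          exact Dvd.intro _ rfl
        have d2 := hβ s hs1 (by omega) q
        have := mul_dvd_mul d1 d2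
        rw [← pow_add] at this
        rwa [show a - s + (s + e) = a + e by omega] at this
      have : ∑ k ∈ range (p ^ a * N), c (p ^ (a - (s + 1)) * N) (k / p ^ (s + 1)) ^ r * h k
          = ∑ k ∈ range (p ^ a * N), c (p ^ (a - s) * N) (k / p ^ s) ^ r * h k
            - ∑ k ∈ range (p ^ a * N), (c (p ^ (a - s) * N) (k / p ^ s) ^ r -
            c (p ^ (a - (s + 1)) * N) (k / p ^ (s + 1)) ^ r) * h k := by
        rw [← Finset.sum_sub_distrib]
        refine Finset.sum_congr rfl fun k _ => ?_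
        ring
      rw [this]
      exact dvd_sub ih' hdiff
  have hfin := main a hs le_rfl
  intro q
  induction q using Nat.strong_induction_on with
  | _ q ih =>
    have h1 := hfin (q + 1) (by omega)
    rw [Nat.sub_self, pow_zero, one_mul,
      sum_blocks h (fun i => c (q + 1) i ^ r) (p ^ a) (q + 1) (pow_pos hp.pos _),
      Finset.sum_range_succ] at h1
    have h2 : (p : ℤ) ^ (a + e) ∣ ∑ i ∈ range q, c (q + 1) i ^ r * blk h (p ^ a) i := by
      apply Finset.dvd_sum
      intro i hi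
      exact Dvd.dvd.mul_left (ih i (Finset.mem_range.1 hi)) _
    have h3 := (dvd_add_right h2).1 h1
    have h4 : c (q + 1) q ^ r = 1 ∨ c (q + 1) q ^ r = -1 := by
      rw [c, Nat.add_sub_cancel, Nat.choose_self, Nat.cast_one, mul_one, ← pow_mul]
      exact neg_one_pow_eq_or ℤ (q * r)
    rcases h4 with h4 | h4
    · rwa [h4, one_mul] at h3
    · rw [h4, neg_one_mul, dvd_neg] at h3
      exact h3

theorem dvd_of_prime_pow (n : ℕ) (x : ℤ)
    (h : ∀ p a : ℕ, p.Prime → p ^ a ∣ n → (p : ℤ) ^ a ∣ x) : (n : ℤ) ∣ x := by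
  rw [Int.natCast_dvd]
  rw [Nat.dvd_iff_prime_pow_dvd_dvd]
  intro p k hp hk
  have := h p k hp hk
  rw [← Nat.cast_pow, Int.natCast_dvd] at this
  exact this

/-- Block statement for one prime. -/
theorem blk_dvd (p r : ℕ) (hp : p.Prime) (h : ℕ → ℤ)
    (H : ∀ n : ℕ, 1 ≤ n → (n : ℤ) ∣ ∑ k ∈ range n, c n k ^ r * h k) (a : ℕ) :
    ∀ q, (p : ℤ) ^ a ∣ blk h (p ^ a) q := by
  induction a using Nat.strong_induction_on with
  | _ a ih =>
    have := step p r hp h 0 0 a (Nat.zero_le _) (fun s _ hs q => ih s hs q) (by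
      intro N hN
      have := H (p ^ a * N) (Nat.mul_pos (pow_pos hp.pos _) hN)
      refine dvd_trans ?_ (by simpa using this)
      exact Dvd.intro _ rfl)
    simpa using this

/-- **Lemma A.** -/
theorem dvd_sum_of_dvd_twisted (r : ℕ) (h : ℕ → ℤ)
    (H : ∀ n : ℕ, 1 ≤ n → (n : ℤ) ∣ ∑ k ∈ range n, c n k ^ r * h k) (n : ℕ) :
    (n : ℤ) ∣ ∑ k ∈ range n, h k := by
  apply dvd_of_prime_pow
  intro p a hp ha
  obtain ⟨Q, rfl⟩ := ha
  rw [sum_blocks' h (p ^ a) Q (pow_pos hp.pos _)]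
  apply Finset.dvd_sum
  intro q _
  exact blk_dvd p r hp h H a q

end Pool.Agent.R902.Block
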