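import Pool.Agent.R902.Poly

/-!
`∑_{k<p} C(2k,k) C(3k,k) / ((2k+1) 27^k)` modulo `p^2`.
-/

namespace Pool.Agent.R902.Cat27

open Finset

section general

variable {R : Type*} [CommRing R] (v : ℕ → R)

/-- `f x k = (-1)^k C(x,k) C(x+k,k)` when `v j = 1/(j+1)` -/
def f (x : R) (k : ℕ) : R := ∏ j ∈ range k, (((j : R) - x) * ((j : R) + 1 + x) * (v j) ^ 2)

def g (x : R) (k : ℕ) : R := ∏ j ∈ range k, (((j : R) ^ 2 - x ^ 2) * (v j) ^ 2)

theorem f_zero (x : R) : f v x 0 = 1 := by simp [f]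

theorem f_succ (x : R) (k : ℕ) :
    f v x (k + 1) = f v x k * (((k : R) - x) * ((k : R) + 1 + x) * (v k) ^ 2) := by
  rw [f, Finset.prod_range_succ, ← f]

theorem g_succ (x : R) (k : ℕ) :
    g v x (k + 1) = g v x k * (((k : R) ^ 2 - x ^ 2) * (v k) ^ 2) := by
  rw [g, Finset.prod_range_succ, ← g]

theorem fg (x : R) (k : ℕ) : f v x k + f v (x - 1) k = 2 * g v x k ∧
    x * (f v x k - f v (x - 1) k) = 2 * k * g v x k := by
  induction k with
  | zero => simp [f, g]; norm_num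
  | succ k ih =>
    obtain ⟨h1, h2⟩ := ih
    rw [f_succ, f_succ, g_succ]
    push_cast
    constructor
    · linear_combination (v k) ^ 2 * ((k : R) ^ 2 - x ^ 2 + k) * h1 - (v k) ^ 2 * h2
    · linear_combination (v k) ^ 2 * ((k : R) ^ 2 - x ^ 2 + k) * h2 - (v k) ^ 2 * x ^ 2 * h1

theorem step (x : R) (k : ℕ) : (2 * x + 1) * f v x k - (2 * x - 1) * f v (x - 1) k
    = 2 * ((2 * k + 1) * g v x k) := by
  obtain ⟨h1, h2⟩ := fg v x k
  linear_combination 2 * h2 + h1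

theorem g_eq (x : R) (n N : ℕ) (hv : ∀ j < N, ((j : R) + 1) * v j = 1) (hn : n + 1 ≤ N) :
    g v x (n + 1) = - x ^ 2 * (v n) ^ 2 * ∏ j ∈ range n, (1 - x ^ 2 * (v j) ^ 2) := by
  induction n with
  | zero => simp [g]
  | succ n ih =>
    rw [g_succ, ih (by omega), Finset.prod_range_succ]
    have h := hv n (by omega)
    push_cast
    linear_combination (-x ^ 2 * (∏ j ∈ range n, (1 - x ^ 2 * (v j) ^ 2)) * (v (n + 1)) ^ 2) *
      ((((n : R) + 1) * v n + 1) * h)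

theorem sum_g (x : R) (n N : ℕ) (hv : ∀ j < N, ((j : R) + 1) * v j = 1) (hn : n ≤ N) :
    ∑ k ∈ range (n + 1), g v x k = ∏ j ∈ range n, (1 - x ^ 2 * (v j) ^ 2) := by
  induction n with
  | zero => simp [g]
  | succ n ih =>
    rw [Finset.sum_range_succ, ih (by omega), g_eq v x n N hv hn, Finset.prod_range_succ]
    ring

/-- values at a cube-zero element -/
theorem f_tau (x : R) (hx : x ^ 3 = 0) (k N : ℕ) (hv : ∀ j < N, ((j : R) + 1) * v j = 1)
    (hk : k + 1 ≤ N) : f v x (k + 1) = - (x * v k + x ^ 2 * (v k) ^ 2) := by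
  induction k with
  | zero =>
    have h := hv 0 (by omega)
    simp only [Nat.cast_zero, zero_add, one_mul] at h
    simp [f, h]
    ring
  | succ k ih =>
    rw [f_succ, ih (by omega)]
    have h := hv k (by omega)
    have h' := hv (k + 1) (by omega)
    push_cast at h' ⊢
    -- (x I + x^2 I^2)(k+1-x) = x
    have h1 : (x * v k + x ^ 2 * (v k) ^ 2) * ((k : R) + 1 - x) = x := by
      linear_combination (x + x ^ 2 * v k) * h - (v k) ^ 2 * hx
    linear_combination (-((k : R) + 1 + 1 + x) * (v (k + 1)) ^ 2) * h1 - x * v (k + 1) * h'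

end general

section prime

variable (p : ℕ) [hp : Fact p.Prime]

/-- `1/(j+1)` -/
noncomputable def v (j : ℕ) : ZMod (p ^ 3) := ((j + 1 : ℕ) : ZMod (p ^ 3))⁻¹

theorem hv (j : ℕ) (hj : j < p - 1) : ((j : ZMod (p ^ 3)) + 1) * v p j = 1 := by
  have := mul_inv_natCast p 3 (j + 1) (by omega) (by omega)
  rw [v]
  rw [Nat.cast_add j 1, Nat.cast_one] at this
  rw [Nat.cast_add j 1, Nat.cast_one]
  exact this

/-- `p/(2k+1)` -/
noncomputable def w (m k : ℕ) : ZMod (p ^ 3) :=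
  if k = m then 1 else (p : ZMod (p ^ 3)) * ((2 * k + 1 : ℕ) : ZMod (p ^ 3))⁻¹

omit hp in
theorem not_dvd (m k : ℕ) (hm : p = 2 * m + 1) (hk : k < p) (hkm : k ≠ m) : ¬ p ∣ 2 * k + 1 := by
  rintro ⟨q, hq⟩
  have hq2 : q < 2 := by
    by_contra h
    push Not at h
    have : p * 2 ≤ p * q := Nat.mul_le_mul_left _ h
    omega
  interval_cases q <;> omega

theorem unit3 (k : ℕ) (hk : ¬ p ∣ k) :
    (k : ZMod (p ^ 3)) * (k : ZMod (p ^ 3))⁻¹ = 1 := by
  apply ZMod.mul_inv_of_unit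
  rw [ZMod.isUnit_iff_coprime]
  exact Nat.Coprime.pow_right _ ((Nat.Prime.coprime_iff_not_dvd hp.1).2 hk).symm

theorem hw (m k : ℕ) (hm : p = 2 * m + 1) (hk : k < p) :
    (2 * (k : ZMod (p ^ 3)) + 1) * w p m k = (p : ZMod (p ^ 3)) := by
  rw [w]
  by_cases h : k = m
  · rw [if_pos h, h, mul_one]
    have h1 := congrArg (fun x : ℕ => (x : ZMod (p ^ 3))) hm
    simp only [Nat.cast_add, Nat.cast_mul, Nat.cast_ofNat, Nat.cast_one] at h1
    exact h1.symm
  · rw [if_neg h]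
    have h1 := unit3 p (2 * k + 1) (not_dvd p m k hm hk h)
    rw [Nat.cast_add (2 * k) 1, Nat.cast_mul 2 k, Nat.cast_one, Nat.cast_ofNat] at h1 ⊢
    linear_combination (p : ZMod (p ^ 3)) * h1

omit hp in
theorem p_cube : (p : ZMod (p ^ 3)) ^ 3 = 0 := by
  rw [← Nat.cast_pow]
  exact ZMod.natCast_self (p ^ 3)

theorem prod_zero (m i : ℕ) (hm : p = 2 * m + 1) (hi : i < p - 1) (t : ZMod (p ^ 3)) :
    (p : ZMod (p ^ 3)) * ∏ j ∈ range (p - 1),
      (1 - (((i + 1 : ℕ) : ZMod (p ^ 3)) + (p : ZMod (p ^ 3)) * t) ^ 2 * (v p j) ^ 2) = 0 := by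
  set x := ((i + 1 : ℕ) : ZMod (p ^ 3)) + (p : ZMod (p ^ 3)) * t with hx
  have hsub : ({i, p - 2 - i} : Finset ℕ) ⊆ range (p - 1) := by
    intro j hj
    rw [Finset.mem_insert, Finset.mem_singleton] at hj
    rw [Finset.mem_range]
    omega
  obtain ⟨c, hc⟩ := Finset.prod_dvd_prod_of_subset _ _
    (fun j => 1 - x ^ 2 * (v p j) ^ 2) hsub
  rw [hc, Finset.prod_pair (by omega)]
  have h1 := hv p i hi
  have h2 := hv p (p - 2 - i) (by omega)
  have h3 : ((p - 2 - i : ℕ) : ZMod (p ^ 3)) + 1 = p - ((i : ZMod (p ^ 3)) + 1) := by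
    have := congrArg (fun y : ℕ => (y : ZMod (p ^ 3))) (show p - 2 - i + 1 + (i + 1) = p by omega)
    simp only [Nat.cast_add, Nat.cast_one] at this
    linear_combination this
  have hxi : x = ((i : ZMod (p ^ 3)) + 1) + (p : ZMod (p ^ 3)) * t := by
    rw [hx, Nat.cast_add i 1, Nat.cast_one]
  have h4 : 1 - x ^ 2 * (v p i) ^ 2 = (v p i) ^ 2 * (-((p : ZMod (p ^ 3)) * t)) * ((i : ZMod (p ^ 3)) + 1 + x) := by
    rw [hxi]
    linear_combination (-1 - ((i : ZMod (p ^ 3)) + 1) * v p i) * h1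
  have h5 : 1 - x ^ 2 * (v p (p - 2 - i)) ^ 2 = (v p (p - 2 - i)) ^ 2 *
      ((p : ZMod (p ^ 3)) * (1 + t)) * (((p - 2 - i : ℕ) : ZMod (p ^ 3)) + 1 - x) := by
    rw [hxi]
    rw [h3] at h2 ⊢
    linear_combination (-1 - (p - ((i : ZMod (p ^ 3)) + 1)) * v p (p - 2 - i)) * h2
  rw [h4, h5]
  linear_combination (-((v p i) ^ 2 * t * ((i : ZMod (p ^ 3)) + 1 + x) *
    ((v p (p - 2 - i)) ^ 2 * (1 + t) * (((p - 2 - i : ℕ) : ZMod (p ^ 3)) + 1 - x)) * c)) * p_cube p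

noncomputable def P (m : ℕ) (x : ZMod (p ^ 3)) : ZMod (p ^ 3) :=
  ∑ k ∈ range p, f (v p) x k * w p m k

theorem P_step (m : ℕ) (hm : p = 2 * m + 1) (x : ZMod (p ^ 3)) :
    (2 * x + 1) * P p m x - (2 * x - 1) * P p m (x - 1)
      = 2 * (p * ∏ j ∈ range (p - 1), (1 - x ^ 2 * (v p j) ^ 2)) := by
  rw [← sum_g (v p) x (p - 1) (p - 1) (hv p) le_rfl, show p - 1 + 1 = p by omega, P, P,
    Finset.mul_sum, Finset.mul_sum, ← Finset.sum_sub_distrib, Finset.mul_sum, Finset.mul_sum]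
  refine Finset.sum_congr rfl fun k hk => ?_
  have h1 := step (v p) x k
  have h2 := hw p m k hm (Finset.mem_range.1 hk)
  linear_combination w p m k * h1 + 2 * g (v p) x k * h2

theorem P_shift (m : ℕ) (hm : p = 2 * m + 1) (t : ZMod (p ^ 3)) (i : ℕ) (hi : i < p) :
    (2 * ((i : ZMod (p ^ 3)) + (p : ZMod (p ^ 3)) * t) + 1) *
        P p m ((i : ZMod (p ^ 3)) + (p : ZMod (p ^ 3)) * t)
      = (2 * ((p : ZMod (p ^ 3)) * t) + 1) * P p m ((p : ZMod (p ^ 3)) * t) := by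
  induction i with
  | zero => simp
  | succ i ih =>
    have ih := ih (by omega)
    rw [← ih]
    have h1 := P_step p m hm (((i + 1 : ℕ) : ZMod (p ^ 3)) + (p : ZMod (p ^ 3)) * t)
    rw [prod_zero p m i hm (by omega) t] at h1
    have h2 : ((i + 1 : ℕ) : ZMod (p ^ 3)) + (p : ZMod (p ^ 3)) * t - 1
      = (i : ZMod (p ^ 3)) + (p : ZMod (p ^ 3)) * t := by
      rw [Nat.cast_add i 1, Nat.cast_one]; ring
    have h3 : 2 * (((i + 1 : ℕ) : ZMod (p ^ 3)) + (p : ZMod (p ^ 3)) * t) - 1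
      = 2 * ((i : ZMod (p ^ 3)) + (p : ZMod (p ^ 3)) * t) + 1 := by
      rw [Nat.cast_add i 1, Nat.cast_one]; ring
    rw [h2, h3] at h1
    linear_combination h1

/-- `∑_{0 < k < p, 2k+1 ≠ p} 1/(k(2k+1)) = 4` in `ZMod p` -/
theorem sum_four (m : ℕ) (hm : p = 2 * m + 1) (h5 : 5 ≤ p) :
    ∑ k ∈ range p, (k : ZMod p)⁻¹ * ((2 * k + 1 : ℕ) : ZMod p)⁻¹ = 4 := by
  have h2 : (2 : ZMod p) ≠ 0 := by
    have : ((2 : ℕ) : ZMod p) ≠ 0 := by
      rw [Ne, ZMod.natCast_eq_zero_iff]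
      exact Nat.not_dvd_of_pos_of_lt (by norm_num) (by omega)
    simpa using this
  have hmm : (m : ZMod p) = - (2 : ZMod p)⁻¹ := by
    have h1 := congrArg (fun x : ℕ => (x : ZMod p)) hm
    simp only [Nat.cast_add, Nat.cast_mul, Nat.cast_ofNat, Nat.cast_one, ZMod.natCast_self] at h1
    have h3 : (2 : ZMod p) * (2 : ZMod p)⁻¹ = 1 := mul_inv_cancel₀ h2
    apply mul_left_cancel₀ h2
    linear_combination -h1 + h3
  have key : ∀ x : ZMod p, x⁻¹ * (2 * x + 1)⁻¹ = x⁻¹ - 2 * (2 * x + 1)⁻¹ +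
      ((if x = 0 then 2 else 0) + (if x = (m : ZMod p) then 2 else 0)) := by
    intro x
    by_cases h0 : x = 0
    · have h0m : ¬ ((0 : ZMod p) = (m : ZMod p)) := by
        rw [hmm]
        intro h
        have := congrArg (fun y => y * 2) h
        simp [h2] at this
      rw [h0, if_pos rfl, if_neg h0m]
      simp
    · rw [if_neg h0]
      by_cases h1 : x = (m : ZMod p)
      · rw [if_pos h1, h1, hmm]
        have : 2 * (-(2 : ZMod p)⁻¹) + 1 = 0 := by
          rw [mul_neg, mul_inv_cancel₀ h2]; ring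
        rw [this]
        simp
      · rw [if_neg h1]
        have h3 : 2 * x + 1 ≠ 0 := by
          intro h
          apply h1
          rw [hmm]
          apply mul_left_cancel₀ h2
          rw [mul_neg, mul_inv_cancel₀ h2]
          linear_combination h
        have h4 : (2 * x + 1) * (2 * x + 1)⁻¹ = 1 := mul_inv_cancel₀ h3
        have h5 : x * x⁻¹ = 1 := mul_inv_cancel₀ h0
        linear_combination x⁻¹ * h4 - 2 * (2 * x + 1)⁻¹ * h5
  have e1 : ∑ k ∈ range p, (k : ZMod p)⁻¹ * ((2 * k + 1 : ℕ) : ZMod p)⁻¹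
      = ∑ x : ZMod p, x⁻¹ * (2 * x + 1)⁻¹ := by
    rw [← sum_range_zmod p (fun x => x⁻¹ * (2 * x + 1)⁻¹)]
    refine Finset.sum_congr rfl fun k _ => ?_
    push_cast
    rfl
  have hinv : ∑ x : ZMod p, x⁻¹ = 0 := by
    rw [← sum_range_zmod p (fun x => x⁻¹)]
    have := sum_range_inv_pow p 1 (by norm_num) (by omega)
    simpa using this
  have hinv2 : ∑ x : ZMod p, (2 * x + 1)⁻¹ = ∑ x : ZMod p, x⁻¹ := by
    let e : ZMod p ≃ ZMod p := {
      toFun := fun x => 2 * x + 1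
      invFun := fun y => (2 : ZMod p)⁻¹ * (y - 1)
      left_inv := by intro x; field_simp; ring
      right_inv := by intro x; field_simp; ring }
    exact Equiv.sum_comp e (fun y => y⁻¹)
  rw [e1, Finset.sum_congr rfl fun x _ => key x, Finset.sum_add_distrib, Finset.sum_sub_distrib,
    ← Finset.mul_sum, hinv2, hinv, Finset.sum_add_distrib, Finset.sum_ite_eq', Finset.sum_ite_eq',
    if_pos (Finset.mem_univ _), if_pos (Finset.mem_univ _)]
  ring

/-- `1/(2j+1)`, zero if `2j+1 = p` -/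
noncomputable def u (m j : ℕ) : ZMod (p ^ 3) :=
  if j = m then 0 else ((2 * j + 1 : ℕ) : ZMod (p ^ 3))⁻¹

theorem castHom_inv' (k : ℕ) (hk : ¬ p ∣ k) (hd : p ∣ p ^ 3) :
    ZMod.castHom hd (ZMod p) ((k : ZMod (p ^ 3))⁻¹) = (k : ZMod p)⁻¹ := by
  have h1 := congrArg (ZMod.castHom hd (ZMod p)) (unit3 p k hk)
  rw [map_mul, map_natCast, map_one] at h1
  exact eq_inv_of_mul_eq_one_right h1

theorem psq_sum (m : ℕ) (hm : p = 2 * m + 1) (h5 : 5 ≤ p) :
    (p : ZMod (p ^ 3)) ^ 2 * (∑ k ∈ range (p - 1), v p k * u p m (k + 1) - 4) = 0 := by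
  apply pow_mul_eq_zero_one p 2
  rw [map_sub, map_sum, map_ofNat, sub_eq_zero, ← sum_four p m hm h5]
  have h1 := Finset.sum_range_succ' (fun k : ℕ => (k : ZMod p)⁻¹ *
    ((2 * k + 1 : ℕ) : ZMod p)⁻¹) (p - 1)
  rw [show p - 1 + 1 = p by omega] at h1
  rw [h1]
  simp only [Nat.cast_zero, inv_zero, zero_mul, add_zero]
  refine Finset.sum_congr rfl fun k hk => ?_
  have hk := Finset.mem_range.1 hk
  rw [map_mul]
  congr 1
  · exact castHom_inv p 3 (k + 1) (by omega) (by omega) _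
  · rw [u]
    by_cases h : k + 1 = m
    · rw [if_pos h, map_zero, h, ← hm, ZMod.natCast_self, inv_zero]
    · rw [if_neg h]
      exact castHom_inv' p _ (not_dvd p m (k + 1) hm (by omega) h) _

theorem P_tau (m : ℕ) (hm : p = 2 * m + 1) (h5 : 5 ≤ p) (t : ZMod (p ^ 3)) :
    P p m ((p : ZMod (p ^ 3)) * t) = (p : ZMod (p ^ 3)) + 2 * ((p : ZMod (p ^ 3)) * t)
      - 2 * ((p : ZMod (p ^ 3)) * t) * (p : ZMod (p ^ 3)) - 4 * ((p : ZMod (p ^ 3)) * t) ^ 2 := by
  set τ := (p : ZMod (p ^ 3)) * t with hτ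
  have hp3 := p_cube p
  have hτ3 : τ ^ 3 = 0 := by rw [hτ, mul_pow, hp3, zero_mul]
  have h1 := Finset.sum_range_succ' (fun k : ℕ => f (v p) τ k * w p m k) (p - 1)
  rw [show p - 1 + 1 = p by omega] at h1
  rw [P, h1, f_zero, one_mul]
  have hw0 := hw p m 0 hm (by omega)
  simp only [Nat.cast_zero, mul_zero, zero_add, one_mul] at hw0
  rw [hw0]
  have h2 : ∀ k ∈ range (p - 1), f (v p) τ (k + 1) * w p m (k + 1)
      = (-τ * p) * (v p k * u p m (k + 1)) +
        (if k = m - 1 then -(τ * v p k + τ ^ 2 * (v p k) ^ 2) else 0) := by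
    intro k hk
    have hk := Finset.mem_range.1 hk
    rw [f_tau (v p) τ hτ3 k (p - 1) (hv p) (by omega), w, u]
    by_cases h : k + 1 = m
    · rw [if_pos h, if_pos h, if_pos (by omega : k = m - 1)]
      ring
    · rw [if_neg h, if_neg h, if_neg (by omega : ¬ k = m - 1), hτ]
      linear_combination (-(t ^ 2 * (v p k) ^ 2 * ((2 * (k + 1) + 1 : ℕ) : ZMod (p ^ 3))⁻¹)) * hp3
  rw [Finset.sum_congr rfl h2, Finset.sum_add_distrib, ← Finset.mul_sum, Finset.sum_ite_eq',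
    if_pos (Finset.mem_range.2 (by omega))]
  have h3 := psq_sum p m hm h5
  have h4 := hv p (m - 1) (by omega)
  have h5 : 2 * (((m - 1 : ℕ) : ZMod (p ^ 3)) + 1) = p - 1 := by
    have := congrArg (fun y : ℕ => (y : ZMod (p ^ 3))) (show 2 * (m - 1 + 1) + 1 = p by omega)
    simp only [Nat.cast_add, Nat.cast_mul, Nat.cast_ofNat, Nat.cast_one] at this
    linear_combination this
  have e : (p : ZMod (p ^ 3)) * v p (m - 1) - v p (m - 1) - 2 = 0 := by
    linear_combination 2 * h4 - v p (m - 1) * h5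
  generalize v p (m - 1) = V at e ⊢
  generalize ∑ k ∈ range (p - 1), v p k * u p m (k + 1) = Y at h3 ⊢
  rw [hτ]
  linear_combination (-t) * h3 - t * V * hp3 + t * p * (p + 1) * e - t ^ 2 * (V - 2) * V * hp3 +
    t ^ 2 * p ^ 2 * (V - 2) * e

/-- the value of `P` at `α = -1/3` -/
theorem P_alpha (m : ℕ) (hm : p = 2 * m + 1) (h5 : 5 ≤ p) (α : ZMod (p ^ 3))
    (hα : 3 * α = -1) : P p m α = (p : ZMod (p ^ 3)) * (if p % 3 = 1 then 1 else -1) := by
  have hp3 := p_cube p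
  have hnd : ¬ p ∣ 3 := by
    intro h
    have := Nat.le_of_dvd (by norm_num) h
    omega
  have hu := unit3 p 3 hnd
  rw [Nat.cast_ofNat] at hu
  have hmod : p % 3 = 1 ∨ p % 3 = 2 := by
    have h0 : p % 3 ≠ 0 := by
      intro h
      have h3 : 3 ∣ p := Nat.dvd_of_mod_eq_zero h
      have := (Nat.prime_dvd_prime_iff_eq Nat.prime_three hp.1).1 h3
      omega
    omega
  have main : ∀ (i : ℕ) (t : ZMod (p ^ 3)), i < p →
      α = (i : ZMod (p ^ 3)) + (p : ZMod (p ^ 3)) * t →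
      P p m α = 3 * ((p : ZMod (p ^ 3)) + 2 * ((p : ZMod (p ^ 3)) * t)) := by
    intro i t hi hit
    have h1 := P_shift p m hm t i hi
    rw [P_tau p m hm h5 t, ← hit] at h1
    linear_combination 3 * h1 - 2 * P p m α * hα + (-(24 * t ^ 3 + 12 * t ^ 2)) * hp3
  rcases hmod with h | h
  · obtain ⟨q, hq⟩ : ∃ q, p = 3 * q + 1 := ⟨p / 3, by omega⟩
    have hc := congrArg (fun y : ℕ => (y : ZMod (p ^ 3))) hq
    simp only [Nat.cast_add, Nat.cast_mul, Nat.cast_ofNat, Nat.cast_one] at hc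
    have := main q (-(3 : ZMod (p ^ 3))⁻¹) (by omega) (by
      linear_combination (hc + hα) * (3 : ZMod (p ^ 3))⁻¹ + ((q : ZMod (p ^ 3)) - α) * hu)
    rw [this, if_pos h]
    linear_combination (-2 * (p : ZMod (p ^ 3))) * hu
  · obtain ⟨q, hq⟩ : ∃ q, 2 * p = 3 * q + 1 := ⟨2 * p / 3, by omega⟩
    have hc := congrArg (fun y : ℕ => (y : ZMod (p ^ 3))) hq
    simp only [Nat.cast_add, Nat.cast_mul, Nat.cast_ofNat, Nat.cast_one] at hc
    have := main q (-2 * (3 : ZMod (p ^ 3))⁻¹) (by omega) (by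
      linear_combination (hc + hα) * (3 : ZMod (p ^ 3))⁻¹ + ((q : ZMod (p ^ 3)) - α) * hu)
    rw [this, if_neg (by omega)]
    linear_combination (-4 * (p : ZMod (p ^ 3))) * hu

end prime

end Pool.Agent.R902.Cat27
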