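import Pool.Agent.R902.Cat27

/-!
Products of Catalan numbers and second order Catalan numbers modulo `p^2`.
-/

namespace Pool.Agent.R902.Cat27Sum

open Finset Pool.Agent.R902.Cat27

def T (k : ℕ) : ℕ := (2 * k).choose k * (3 * k).choose k

theorem T_fact (k : ℕ) : T k * k.factorial ^ 3 = (3 * k).factorial := by
  have h1 := Nat.choose_mul_factorial_mul_factorial (show k ≤ 3 * k by omega)
  have h2 := Nat.choose_mul_factorial_mul_factorial (show k ≤ 2 * k by omega)
  rw [show 3 * k - k = 2 * k by omega] at h1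
  rw [show 2 * k - k = k by omega] at h2
  rw [← h1, ← h2, T]
  ring

theorem T_succ (k : ℕ) : T (k + 1) * (k + 1) ^ 2 = 3 * (3 * k + 1) * (3 * k + 2) * T k := by
  have h1 := T_fact k
  have h2 := T_fact (k + 1)
  rw [show 3 * (k + 1) = 3 * k + 1 + 1 + 1 by ring, Nat.factorial_succ (3 * k + 1 + 1),
    Nat.factorial_succ (3 * k + 1), Nat.factorial_succ (3 * k), ← h1, Nat.factorial_succ k] at h2
  have h3 : 0 < (k + 1) * k.factorial ^ 3 := by positivity
  apply Nat.eq_of_mul_eq_mul_right h3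
  linarith [h2, show T (k + 1) * (k + 1) ^ 2 * ((k + 1) * k.factorial ^ 3)
    = T (k + 1) * ((k + 1) * k.factorial) ^ 3 by ring,
    show 3 * (3 * k + 1) * (3 * k + 2) * T k * ((k + 1) * k.factorial ^ 3)
    = (3 * k + 1 + 1 + 1) * ((3 * k + 1 + 1) * ((3 * k + 1) * (T k * k.factorial ^ 3))) by ring]

theorem dvd_choose (k : ℕ) : (2 * k + 1) ∣ (3 * k).choose k := by
  rcases k with _ | k
  · simp
  · have h1 := Nat.choose_succ_right_eq (3 * (k + 1)) k
    rw [show 3 * (k + 1) - k = 2 * (k + 1) + 1 by omega] at h1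
    have h2 : (2 * (k + 1) + 1).Coprime (k + 1) := by
      have : (2 * (k + 1) + 1) = 1 + (k + 1) * 2 := by ring
      rw [this]
      simp
    exact h2.dvd_of_dvd_mul_right (Dvd.intro_left _ h1.symm)

/-- `C(3k,k)/(2k+1)` -/
def D (k : ℕ) : ℕ := (3 * k).choose k / (2 * k + 1)

theorem D_mul (k : ℕ) : (2 * k + 1) * D k = (3 * k).choose k :=
  Nat.mul_div_cancel' (dvd_choose k)

/-- Catalan numbers -/
def Ca (k : ℕ) : ℕ := (2 * k).choose k / (k + 1)

theorem Ca_mul (k : ℕ) : (k + 1) * Ca k = (2 * k).choose k :=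
  Nat.mul_div_cancel' (Nat.succ_dvd_centralBinom k)

/-- closed form of the sum of `T k / ((k+1) 27^k)` -/
theorem sum_Y (n : ℕ) : 2 * ∑ k ∈ range n, Ca k * (3 * k).choose k * 27 ^ (n - k)
    = 9 * n * T n := by
  induction n with
  | zero => simp
  | succ n ih =>
    rw [Finset.sum_range_succ]
    have h1 : ∑ k ∈ range n, Ca k * (3 * k).choose k * 27 ^ (n + 1 - k)
        = 27 * ∑ k ∈ range n, Ca k * (3 * k).choose k * 27 ^ (n - k) := by
      rw [Finset.mul_sum]
      refine Finset.sum_congr rfl fun k hk => ?_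
      have hk := Finset.mem_range.1 hk
      rw [show n + 1 - k = n - k + 1 by omega, pow_succ]
      ring
    rw [h1, show n + 1 - n = 1 by omega, pow_one]
    have h2 := Ca_mul n
    have h3 := T_succ n
    have h4 : T n = (n + 1) * (Ca n * (3 * n).choose n) := by rw [T, ← h2]; ring
    generalize ∑ k ∈ range n, Ca k * (3 * k).choose k * 27 ^ (n - k) = S at ih ⊢
    generalize Ca n * (3 * n).choose n = Y at h4 ⊢
    apply Nat.eq_of_mul_eq_mul_left (show 0 < n + 1 by omega)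
    have h5 : (n + 1) * (2 * (27 * S + Y * 27)) = 27 * (n + 1) * (2 * S) + 54 * ((n + 1) * Y) := by
      ring
    rw [h5, ih, ← h4]
    have h6 : (n + 1) * (9 * (n + 1) * T (n + 1)) = 9 * (T (n + 1) * (n + 1) ^ 2) := by ring
    rw [h6, h3]
    ring

section prime

variable (p : ℕ) [hp : Fact p.Prime]

theorem T_eq (α : ZMod (p ^ 3)) (hα : 3 * α = -1) (k : ℕ) (hk : k < p) :
    (T k : ZMod (p ^ 3)) = 27 ^ k * f (v p) α k := by
  induction k with
  | zero => simp [T, f]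
  | succ k ih =>
    have ih := ih (by omega)
    have h1 := congrArg (fun y : ℕ => (y : ZMod (p ^ 3))) (T_succ k)
    simp only [Nat.cast_add, Nat.cast_mul, Nat.cast_ofNat, Nat.cast_one, Nat.cast_pow] at h1
    have h2 := hv p k (by omega)
    rw [f_succ]
    rw [ih] at h1
    have h3 : (T (k + 1) : ZMod (p ^ 3)) * (((k : ZMod (p ^ 3)) + 1) * v p k) ^ 2
        = 3 * (3 * (k : ZMod (p ^ 3)) + 1) * (3 * k + 2) * (27 ^ k * f (v p) α k) *
          (v p k) ^ 2 := by
      linear_combination (v p k) ^ 2 * h1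
    rw [h2, one_pow, mul_one] at h3
    rw [h3, pow_succ (27 : ZMod (p ^ 3)) k]
    linear_combination (27 ^ k * f (v p) α k * (v p k) ^ 2 * 3 * (3 * α + 2)) * hα

/-- the first sum modulo `p^2` -/
theorem sum_X (h5 : 5 ≤ p) : ((p : ℤ) ^ 2) ∣
    (∑ k ∈ range p, (((2 * k).choose k * D k * 27 ^ (p - 1 - k) : ℕ) : ℤ))
      - (if p % 3 = 1 then 1 else -1) * 27 ^ (p - 1) := by
  obtain ⟨m, hm⟩ : ∃ m, p = 2 * m + 1 := by
    rcases hp.1.eq_two_or_odd' with h | h
    · omega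
    · exact h
  have hnd : ¬ p ∣ 3 := by
    intro h
    have := Nat.le_of_dvd (by norm_num) h
    omega
  have hu := unit3 p 3 hnd
  rw [Nat.cast_ofNat] at hu
  set α : ZMod (p ^ 3) := -(3 : ZMod (p ^ 3))⁻¹ with hαd
  have hα : 3 * α = -1 := by rw [hαd]; linear_combination -hu
  have h1 := P_alpha p m hm h5 α hα
  have h2 : (p : ℤ) * ((∑ k ∈ range p, (((2 * k).choose k * D k * 27 ^ (p - 1 - k) : ℕ) : ℤ))
      - (if p % 3 = 1 then 1 else -1) * 27 ^ (p - 1)) = (p : ℤ) *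
      ((∑ k ∈ range p, (((2 * k).choose k * D k * 27 ^ (p - 1 - k) : ℕ) : ℤ))
      - (if p % 3 = 1 then 1 else -1) * 27 ^ (p - 1)) := rfl
  have h3 := (ZMod.intCast_zmod_eq_zero_iff_dvd ((p : ℤ) *
      ((∑ k ∈ range p, (((2 * k).choose k * D k * 27 ^ (p - 1 - k) : ℕ) : ℤ))
      - (if p % 3 = 1 then 1 else -1) * 27 ^ (p - 1))) (p ^ 3)).1 (by
    rw [Int.cast_mul, Int.cast_sub, Int.cast_sum, Int.cast_natCast, mul_sub, Finset.mul_sum]
    have h4 : ∀ k ∈ range p, (p : ZMod (p ^ 3)) *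
        (((((2 * k).choose k * D k * 27 ^ (p - 1 - k) : ℕ) : ℤ)) : ZMod (p ^ 3))
        = 27 ^ (p - 1) * (f (v p) α k * w p m k) := by
      intro k hk
      have hk := Finset.mem_range.1 hk
      have h5 := hw p m k hm hk
      have h6 := T_eq p α hα k hk
      have h7 := congrArg (fun y : ℕ => (y : ZMod (p ^ 3))) (D_mul k)
      simp only [Nat.cast_add, Nat.cast_mul, Nat.cast_ofNat, Nat.cast_one] at h7
      rw [T, Nat.cast_mul ((2 * k).choose k), ← h7] at h6
      have h8 : (27 : ZMod (p ^ 3)) ^ (p - 1) = 27 ^ k * 27 ^ (p - 1 - k) := by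
        rw [← pow_add]; congr 1; omega
      rw [Int.cast_natCast, Nat.cast_mul ((2 * k).choose k * D k),
        Nat.cast_mul ((2 * k).choose k), Nat.cast_pow, Nat.cast_ofNat, h8]
      linear_combination (-(((2 * k).choose k : ZMod (p ^ 3)) * (D k : ZMod (p ^ 3)) *
        27 ^ (p - 1 - k))) * h5 + 27 ^ (p - 1 - k) * w p m k * h6
    rw [Finset.sum_congr rfl h4, ← Finset.mul_sum]
    have h9 : ∑ k ∈ range p, f (v p) α k * w p m k = P p m α := rfl
    rw [h9, h1]
    split_ifs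
    · push_cast
      ring
    · push_cast
      ring)
  have h10 : ((p ^ 3 : ℕ) : ℤ) = (p : ℤ) * (p : ℤ) ^ 2 := by push_cast; ring
  rw [h10] at h3
  exact (mul_dvd_mul_iff_left (by exact_mod_cast hp.1.ne_zero)).1 h3

theorem T_mod : (T p : ZMod p) = 6 := by
  have h1 := Choose.choose_modEq_choose_mod_mul_choose_div_nat (n := 2 * p) (k := p) (p := p)
  have h2 := Choose.choose_modEq_choose_mod_mul_choose_div_nat (n := 3 * p) (k := p) (p := p)
  rw [Nat.mul_mod_left, Nat.mod_self, Nat.mul_div_cancel _ hp.1.pos, Nat.div_self hp.1.pos,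
    Nat.choose_zero_right, one_mul, Nat.choose_one_right] at h1 h2
  have e1 := (ZMod.natCast_eq_natCast_iff _ _ _).2 h1
  have e2 := (ZMod.natCast_eq_natCast_iff _ _ _).2 h2
  rw [T, Nat.cast_mul, e1, e2]
  push_cast
  norm_num

/-- the second sum modulo `p^2` -/
theorem sum_Y' (h5 : 5 ≤ p) : ((p : ℤ) ^ 2) ∣
    (∑ k ∈ range p, ((Ca k * (3 * k).choose k * 27 ^ (p - 1 - k) : ℕ) : ℤ))
      - p * 27 ^ (p - 1) := by
  have h1 := sum_Y p
  have h2 : ∑ k ∈ range p, Ca k * (3 * k).choose k * 27 ^ (p - k)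
      = 27 * ∑ k ∈ range p, Ca k * (3 * k).choose k * 27 ^ (p - 1 - k) := by
    rw [Finset.mul_sum]
    refine Finset.sum_congr rfl fun k hk => ?_
    have hk := Finset.mem_range.1 hk
    rw [show p - k = p - 1 - k + 1 by omega, pow_succ]
    ring
  rw [h2] at h1
  rw [← Nat.cast_sum]
  generalize ∑ k ∈ range p, Ca k * (3 * k).choose k * 27 ^ (p - 1 - k) = S at h1 ⊢
  have h3 : (54 : ℤ) * ((S : ℤ) - p * 27 ^ (p - 1)) = p * (9 * (T p : ℤ) - 2 * 27 ^ p) := by
    have h4 : (27 : ℤ) ^ p = 27 * 27 ^ (p - 1) := by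
      rw [← pow_succ', show p - 1 + 1 = p by omega]
    have h1' : (2 : ℤ) * (27 * S) = 9 * p * T p := by exact_mod_cast h1
    rw [h4]
    linear_combination h1'
  have h4 : (p : ℤ) ∣ 9 * (T p : ℤ) - 2 * 27 ^ p := by
    rw [← ZMod.intCast_zmod_eq_zero_iff_dvd]
    push_cast
    rw [T_mod p, ZMod.pow_card]
    norm_num
  have h6 : ((p : ℤ) ^ 2) ∣ 54 * ((S : ℤ) - p * 27 ^ (p - 1)) := by
    rw [h3, sq]
    exact mul_dvd_mul_left _ h4
  have h7 : IsCoprime ((p : ℤ) ^ 2) 54 := by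
    apply IsCoprime.pow_left
    rw [show (54 : ℤ) = ((54 : ℕ) : ℤ) by norm_num, Nat.isCoprime_iff_coprime,
      Nat.Prime.coprime_iff_not_dvd hp.1]
    intro h
    rw [show 54 = 2 * 3 ^ 3 by norm_num] at h
    rcases (Nat.Prime.dvd_mul hp.1).1 h with h | h
    · have := Nat.le_of_dvd (by norm_num) h
      omega
    · have := Nat.le_of_dvd (by norm_num) (hp.1.dvd_of_dvd_pow h)
      omega
  exact h7.dvd_of_dvd_mul_left h6

end prime

theorem num_dvd (p a : ℕ) (q : ℚ) (d : ℕ) (M : ℤ) (h : q * d = M) (hM : (p : ℤ) ^ a ∣ M)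
    (hc : p.Coprime d) : (p : ℤ) ^ a ∣ q.num := by
  have h1 : (q.num : ℚ) * d = M * q.den := by
    rw [← h, mul_right_comm, Rat.mul_den_eq_num]
  have h2 : q.num * d = M * q.den := by exact_mod_cast h1
  have h3 : (p : ℤ) ^ a ∣ q.num * d := by
    rw [h2]
    exact Dvd.dvd.mul_right hM _
  have h4 : IsCoprime ((p : ℤ) ^ a) (d : ℤ) := by
    apply IsCoprime.pow_left
    rw [Nat.isCoprime_iff_coprime]
    exact hc
  exact h4.dvd_of_dvd_mul_right h3

/-- closed form of the second kind sum -/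
theorem sum_Z (n : ℕ) : ∑ k ∈ range n, ((2 * k).choose k / ((k : ℚ) + 1)) *
    (2 * ((3 * k).choose k : ℚ) / ((k : ℚ) + 1)) / 27 ^ k
      = -9 + (9 + 81 * (n : ℚ) / 2) * (T n / 27 ^ n) := by
  induction n with
  | zero => simp [T]
  | succ n ih =>
    rw [Finset.sum_range_succ, ih]
    have h1 : (T (n + 1) : ℚ) * ((n : ℚ) + 1) ^ 2 = 3 * (3 * n + 1) * (3 * n + 2) * T n := by
      exact_mod_cast T_succ n
    have h2 : ((2 * n).choose n : ℚ) * ((3 * n).choose n : ℚ) = T n := by rw [T]; push_cast; ring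
    have hn : ((n : ℚ) + 1) ≠ 0 := by positivity
    have h3 : ((2 * n).choose n / ((n : ℚ) + 1)) * (2 * ((3 * n).choose n : ℚ) / ((n : ℚ) + 1))
        / 27 ^ n = 2 * (T n : ℚ) / (((n : ℚ) + 1) ^ 2 * 27 ^ n) := by
      rw [← h2]
      field_simp
    have h4 : (T (n + 1) : ℚ) = 3 * (3 * n + 1) * (3 * n + 2) * T n / ((n : ℚ) + 1) ^ 2 := by
      rw [eq_div_iff (pow_ne_zero 2 hn), h1]
    rw [h3, h4, pow_succ]
    push_cast
    field_simp
    ring

end Pool.Agent.R902.Cat27Sum
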