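import Pool.Agent.R902.ZM

/-!
The cubic modular equation modulo `p` for `H(x) = ∑ C(n,k)^2 x^k`, `p = 2n+1`.
-/

set_option linter.unusedSectionVars false

namespace Pool.Agent.R902.Cubic

open Finset Polynomial

section

variable (p : ℕ) [hp : Fact p.Prime] (n : ℕ)

/-- `c_k = C(n,k)^2` -/
noncomputable def c (k : ℕ) : ZMod p := (n.choose k : ZMod p) ^ 2

/-- `∑_k C(n,k)^2 w(k) A^k B^(n-k)` -/
noncomputable def Hw (w : ℕ → ZMod p) (A B : (ZMod p)[X]) : (ZMod p)[X] :=
  ∑ k ∈ range (n + 1), C (c p n k * w k) * (A ^ k * B ^ (n - k))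

noncomputable def H0 (A B : (ZMod p)[X]) := Hw p n (fun _ => 1) A B
noncomputable def H1 (A B : (ZMod p)[X]) := Hw p n (fun k => (k : ZMod p)) A B
noncomputable def H2 (A B : (ZMod p)[X]) := Hw p n (fun k => (k : ZMod p) ^ 2) A B

theorem c_succ (k : ℕ) (hk : k < n + 1) :
    c p n (k + 1) * ((k : ZMod p) + 1) ^ 2 = c p n k * ((n : ZMod p) - k) ^ 2 := by
  have h := congrArg (fun x : ℕ => (x : ZMod p)) (Nat.choose_succ_right_eq n k)
  simp only [Nat.cast_mul] at h
  rw [Nat.cast_sub (by omega)] at h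
  push_cast at h
  rw [c, c, ← mul_pow, h, mul_pow]

theorem H2_eq (A B : (ZMod p)[X]) : B * H2 p n A B
    = A * (C ((n : ZMod p) ^ 2) * H0 p n A B - C (2 * (n : ZMod p)) * H1 p n A B + H2 p n A B) := by
  have h1 : C ((n : ZMod p) ^ 2) * H0 p n A B - C (2 * (n : ZMod p)) * H1 p n A B + H2 p n A B
      = ∑ k ∈ range (n + 1), C (c p n k * ((n : ZMod p) - k) ^ 2) * (A ^ k * B ^ (n - k)) := by
    rw [H0, H1, H2, Hw, Hw, Hw, Finset.mul_sum, Finset.mul_sum, ← Finset.sum_sub_distrib,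
      ← Finset.sum_add_distrib]
    refine Finset.sum_congr rfl fun k _ => ?_
    simp only [map_mul, map_sub, map_pow, map_one, map_ofNat]
    ring
  rw [h1, H2, Hw, Finset.sum_range_succ', Finset.sum_range_succ _ n]
  simp only [Nat.cast_zero, ne_eq, OfNat.ofNat_ne_zero, not_false_eq_true, zero_pow, mul_zero,
    C_0, zero_mul, add_zero, sub_self]
  rw [Finset.mul_sum, Finset.mul_sum]
  refine Finset.sum_congr rfl fun k hk => ?_
  have hk := Finset.mem_range.1 hk
  rw [← c_succ p n k (by omega)]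
  push_cast
  have e : B * B ^ (n - (k + 1)) = B ^ (n - k) := by
    rw [← pow_succ']; congr 1; omega
  rw [← e, pow_succ]
  ring

theorem H2_eq' (hpn : p = 2 * n + 1) (A B : (ZMod p)[X]) :
    4 * ((B - A) * H2 p n A B) = A * (H0 p n A B + 4 * H1 p n A B) := by
  have h := H2_eq p n A B
  have h2n : 2 * (n : ZMod p) = -1 := by
    have h1 := congrArg (fun x : ℕ => (x : ZMod p)) hpn
    simp only [Nat.cast_add, Nat.cast_mul, Nat.cast_ofNat, Nat.cast_one, ZMod.natCast_self] at h1
    linear_combination -h1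
  have e1 : (C (2 * (n : ZMod p)) : (ZMod p)[X]) = -1 := by rw [h2n]; simp
  have e2 : 4 * (C ((n : ZMod p) ^ 2) : (ZMod p)[X]) = 1 := by
    have : (4 : (ZMod p)[X]) = C 4 := (map_ofNat C 4).symm
    rw [this, ← C_mul, ← C_1]
    congr 1
    linear_combination (2 * (n : ZMod p) - 1) * h2n
  rw [e1] at h
  linear_combination 4 * h + A * H0 p n A B * e2

theorem deriv_Hw (w : ℕ → ZMod p) (A B : (ZMod p)[X]) :
    A * B * derivative (Hw p n w A B)
      = (derivative A * B - A * derivative B) * Hw p n (fun k => w k * k) A B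
        + C (n : ZMod p) * (A * derivative B) * Hw p n w A B := by
  rw [Hw, Hw, derivative_sum, Finset.mul_sum, Finset.mul_sum, Finset.mul_sum,
    ← Finset.sum_add_distrib]
  refine Finset.sum_congr rfl fun k hk => ?_
  have hk := Finset.mem_range.1 hk
  have e1 : A * derivative (A ^ k) = C (k : ZMod p) * A ^ k * derivative A := by
    rcases k with _ | k
    · simp
    · rw [derivative_pow, Nat.add_sub_cancel, pow_succ]
      ring
  have e2 : B * derivative (B ^ (n - k)) = C ((n : ZMod p) - k) * B ^ (n - k) * derivative B := by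
    rw [← Nat.cast_sub (by omega)]
    rcases (n - k) with _ | j
    · simp
    · rw [derivative_pow, Nat.add_sub_cancel, pow_succ]
      ring
  rw [derivative_C_mul, derivative_mul]
  have e3 : (C (c p n k * (w k * k)) : (ZMod p)[X]) = C (c p n k * w k) * C (k : ZMod p) := by
    rw [← C_mul]; congr 1; ring
  rw [e3]
  rw [C_sub] at e2
  linear_combination (C (c p n k * w k) * (B * B ^ (n - k))) * e1 +
    (C (c p n k * w k) * (A * A ^ k)) * e2

theorem deriv_H0 (A B : (ZMod p)[X]) :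
    A * B * derivative (H0 p n A B)
      = (derivative A * B - A * derivative B) * H1 p n A B
        + C (n : ZMod p) * (A * derivative B) * H0 p n A B := by
  have h := deriv_Hw p n (fun _ => 1) A B
  simp only [one_mul] at h
  exact h

theorem deriv_H1 (A B : (ZMod p)[X]) :
    A * B * derivative (H1 p n A B)
      = (derivative A * B - A * derivative B) * H2 p n A B
        + C (n : ZMod p) * (A * derivative B) * H1 p n A B := by
  have h := deriv_Hw p n (fun k => (k : ZMod p)) A B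
  simp only [← sq] at h
  exact h

/-! ### the two systems -/

noncomputable def A1 : (ZMod p)[X] := X * (X + 2) ^ 3
noncomputable def B1 : (ZMod p)[X] := (2 * X + 1) ^ 3
noncomputable def A2 : (ZMod p)[X] := X ^ 3 * (X + 2)
noncomputable def B2 : (ZMod p)[X] := 2 * X + 1

theorem ne_zero_lin (a b : (ZMod p)[X]) (x : ZMod p) (h : (a * X + b).eval x ≠ 0) :
    a * X + b ≠ 0 := by
  intro h0
  rw [h0] at h
  simp at h

theorem n6 (hpn : p = 2 * n + 1) : 2 * (C (n : ZMod p) : (ZMod p)[X]) = -1 := by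
  have h1 := congrArg (fun x : ℕ => (x : ZMod p)) hpn
  simp only [Nat.cast_add, Nat.cast_mul, Nat.cast_ofNat, Nat.cast_one, ZMod.natCast_self] at h1
  have : (2 : (ZMod p)[X]) = C 2 := (map_ofNat C 2).symm
  rw [this, ← C_mul, ← C_1, ← C_neg]
  congr 1
  linear_combination -h1

theorem h2X : (2 * X + 1 : (ZMod p)[X]) ≠ 0 := by
  intro h
  have := congrArg (fun q => eval 0 q) h
  simp at this

theorem hX2 : (X + 2 : (ZMod p)[X]) ≠ 0 := by
  intro h
  have := congrArg (fun q => eval (-1) q) h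
  simp only [eval_add, eval_X, eval_ofNat, eval_zero] at this
  have h1 : (1 : ZMod p) = 0 := by linear_combination this
  exact one_ne_zero h1

theorem S1a (hpn : p = 2 * n + 1) :
    X * (X + 2) * (2 * X + 1) * derivative (H0 p n (A1 p) (B1 p))
      = 2 * (1 - X) ^ 2 * H1 p n (A1 p) (B1 p) - 3 * X * (X + 2) * H0 p n (A1 p) (B1 p) := by
  have h := deriv_H0 p n (A1 p) (B1 p)
  have dA : derivative (A1 p) = 2 * (X + 2) ^ 2 * (2 * X + 1) := by
    rw [A1]
    simp only [derivative_mul, derivative_X, derivative_pow, derivative_add, derivative_ofNat]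
    simp only [Nat.cast_ofNat, map_ofNat]
    ring
  have dB : derivative (B1 p) = 6 * (2 * X + 1) ^ 2 := by
    rw [B1]
    simp only [derivative_mul, derivative_X, derivative_pow, derivative_add, derivative_ofNat,
      derivative_one]
    simp only [Nat.cast_ofNat, map_ofNat]
    ring
  rw [dA, dB] at h
  have h6 := n6 p n hpn
  apply mul_left_cancel₀ (mul_ne_zero (pow_ne_zero 2 (hX2 p)) (pow_ne_zero 2 (h2X p)))
  generalize derivative (H0 p n (A1 p) (B1 p)) = D at h ⊢
  generalize H0 p n (A1 p) (B1 p) = h0 at h ⊢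
  generalize H1 p n (A1 p) (B1 p) = h1 at h ⊢
  rw [A1, B1] at h
  linear_combination h + (3 * X * (X + 2) ^ 3 * (2 * X + 1) ^ 2 * h0) * h6

theorem S1b (hpn : p = 2 * n + 1) :
    2 * ((2 * X + 1) * (1 - X ^ 2) * derivative (H1 p n (A1 p) (B1 p)))
      = (X + 2) ^ 2 * (H0 p n (A1 p) (B1 p) + 4 * H1 p n (A1 p) (B1 p))
        - 6 * (1 - X ^ 2) * H1 p n (A1 p) (B1 p) := by
  have h := deriv_H1 p n (A1 p) (B1 p)
  have h' := H2_eq' p n hpn (A1 p) (B1 p)
  have dA : derivative (A1 p) = 2 * (X + 2) ^ 2 * (2 * X + 1) := by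
    rw [A1]
    simp only [derivative_mul, derivative_X, derivative_pow, derivative_add, derivative_ofNat]
    simp only [Nat.cast_ofNat, map_ofNat]
    ring
  have dB : derivative (B1 p) = 6 * (2 * X + 1) ^ 2 := by
    rw [B1]
    simp only [derivative_mul, derivative_X, derivative_pow, derivative_add, derivative_ofNat,
      derivative_one]
    simp only [Nat.cast_ofNat, map_ofNat]
    ring
  rw [dA, dB] at h
  have h6 := n6 p n hpn
  apply mul_left_cancel₀ (mul_ne_zero (mul_ne_zero (pow_ne_zero 2 (hX2 p))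
    (pow_ne_zero 2 (h2X p))) (mul_ne_zero X_ne_zero (hX2 p)))
  generalize derivative (H1 p n (A1 p) (B1 p)) = D at h ⊢
  generalize H0 p n (A1 p) (B1 p) = h0 at h h' ⊢
  generalize H1 p n (A1 p) (B1 p) = h1 at h h' ⊢
  generalize H2 p n (A1 p) (B1 p) = h2 at h h' ⊢
  rw [A1, B1] at h h'
  linear_combination (2 * (1 - X ^ 2)) * h +
    (X + 2) ^ 2 * (2 * X + 1) ^ 2 * h' + (6 * X * (X + 2) ^ 3 * (2 * X + 1) ^ 2 *
      (1 - X ^ 2) * h1) * h6

theorem S2a (hpn : p = 2 * n + 1) :
    X * (X + 2) * (2 * X + 1) * derivative (H0 p n (A2 p) (B2 p))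
      = 6 * (X + 1) ^ 2 * H1 p n (A2 p) (B2 p) - X * (X + 2) * H0 p n (A2 p) (B2 p) := by
  have h := deriv_H0 p n (A2 p) (B2 p)
  have dA : derivative (A2 p) = 2 * X ^ 2 * (2 * X + 3) := by
    rw [A2]
    simp only [derivative_mul, derivative_X, derivative_pow, derivative_add, derivative_ofNat]
    simp only [Nat.cast_ofNat, map_ofNat]
    ring
  have dB : derivative (B2 p) = 2 := by
    rw [B2]
    simp only [derivative_mul, derivative_X, derivative_add, derivative_ofNat,
      derivative_one]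
    ring
  rw [dA, dB] at h
  have h6 := n6 p n hpn
  apply mul_left_cancel₀ (pow_ne_zero 2 (X_ne_zero (R := ZMod p)))
  generalize derivative (H0 p n (A2 p) (B2 p)) = D at h ⊢
  generalize H0 p n (A2 p) (B2 p) = h0 at h ⊢
  generalize H1 p n (A2 p) (B2 p) = h1 at h ⊢
  rw [A2, B2] at h
  linear_combination h + (X ^ 3 * (X + 2) * h0) * h6

theorem S2b (hpn : p = 2 * n + 1) :
    2 * ((2 * X + 1) * (1 - X ^ 2) * derivative (H1 p n (A2 p) (B2 p)))
      = 3 * X ^ 2 * (H0 p n (A2 p) (B2 p) + 4 * H1 p n (A2 p) (B2 p))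
        - 2 * (1 - X ^ 2) * H1 p n (A2 p) (B2 p) := by
  have h := deriv_H1 p n (A2 p) (B2 p)
  have h' := H2_eq' p n hpn (A2 p) (B2 p)
  have dA : derivative (A2 p) = 2 * X ^ 2 * (2 * X + 3) := by
    rw [A2]
    simp only [derivative_mul, derivative_X, derivative_pow, derivative_add, derivative_ofNat]
    simp only [Nat.cast_ofNat, map_ofNat]
    ring
  have dB : derivative (B2 p) = 2 := by
    rw [B2]
    simp only [derivative_mul, derivative_X, derivative_add, derivative_ofNat,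
      derivative_one]
    ring
  rw [dA, dB] at h
  have h6 := n6 p n hpn
  apply mul_left_cancel₀ (mul_ne_zero (pow_ne_zero 3 (X_ne_zero (R := ZMod p))) (hX2 p))
  generalize derivative (H1 p n (A2 p) (B2 p)) = D at h ⊢
  generalize H0 p n (A2 p) (B2 p) = h0 at h h' ⊢
  generalize H1 p n (A2 p) (B2 p) = h1 at h h' ⊢
  generalize H2 p n (A2 p) (B2 p) = h2 at h h' ⊢
  rw [A2, B2] at h h'
  linear_combination (2 * (1 - X ^ 2)) * h + 3 * X ^ 2 * h' +
    (2 * X ^ 3 * (X + 2) * (1 - X ^ 2) * h1) * h6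

/-- the difference -/
noncomputable def D0 : (ZMod p)[X] := H0 p n (A1 p) (B1 p) - H0 p n (A2 p) (B2 p)

noncomputable def D1 : (ZMod p)[X] := 2 * (1 - X) ^ 2 * H1 p n (A1 p) (B1 p) -
  (6 * (X + 1) ^ 2 * H1 p n (A2 p) (B2 p) + 2 * X * (X + 2) * H0 p n (A2 p) (B2 p))

theorem sys0 (hpn : p = 2 * n + 1) :
    X * (X + 2) * (2 * X + 1) * derivative (D0 p n) = D1 p n - 3 * X * (X + 2) * D0 p n := by
  have a := S1a p n hpn
  have b := S2a p n hpn
  rw [D0, D1, derivative_sub]
  linear_combination a - b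

theorem sys1 (hpn : p = 2 * n + 1) :
    (2 * X + 1) * (1 - X ^ 2) * derivative (D1 p n)
      = (1 - X) ^ 2 * (X + 2) ^ 2 * D0 p n + (X ^ 2 + 2 * X + 3) * D1 p n := by
  have a := S1b p n hpn
  have b := S2b p n hpn
  have d := S2a p n hpn
  have e : derivative (D1 p n) = 2 * (1 - X) ^ 2 * derivative (H1 p n (A1 p) (B1 p))
      - 4 * (1 - X) * H1 p n (A1 p) (B1 p)
      - (6 * (X + 1) ^ 2 * derivative (H1 p n (A2 p) (B2 p)) + 12 * (X + 1) *
        H1 p n (A2 p) (B2 p) + 2 * X * (X + 2) * derivative (H0 p n (A2 p) (B2 p))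
        + 4 * (X + 1) * H0 p n (A2 p) (B2 p)) := by
    rw [D1]
    simp only [derivative_mul, derivative_X, derivative_pow, derivative_add, derivative_sub,
      derivative_ofNat, derivative_one]
    simp only [Nat.cast_ofNat, map_ofNat]
    ring
  rw [e, D0, D1]
  linear_combination (1 - X) ^ 2 * a - 3 * (X + 1) ^ 2 * b - 2 * (1 - X ^ 2) * d

/-! ### the difference vanishes -/

noncomputable def T (Q : (ZMod p)[X]) : (ZMod p)[X] := X * derivative Q

theorem coeff_T (Q : (ZMod p)[X]) (k : ℕ) : (T p Q).coeff k = (k : ZMod p) * Q.coeff k := by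
  rw [T]
  rcases k with _ | k
  · simp
  · rw [coeff_X_mul, coeff_derivative]
    push_cast
    ring

theorem sys0' (hpn : p = 2 * n + 1) :
    2 * T p (D0 p n) + X * (5 * T p (D0 p n)) + X ^ 2 * (2 * T p (D0 p n))
      = D1 p n - X * (6 * D0 p n) - X ^ 2 * (3 * D0 p n) := by
  have h := sys0 p n hpn
  rw [T]
  linear_combination h

theorem sys1' (hpn : p = 2 * n + 1) :
    T p (D1 p n) + X * (2 * T p (D1 p n)) - X ^ 2 * T p (D1 p n) - X ^ 3 * (2 * T p (D1 p n))
      = X * (4 * D0 p n) - X ^ 2 * (4 * D0 p n) - X ^ 3 * (3 * D0 p n) + X ^ 4 * (2 * D0 p n)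
        + X ^ 5 * D0 p n + X * (3 * D1 p n) + X ^ 2 * (2 * D1 p n) + X ^ 3 * D1 p n := by
  have h := sys1 p n hpn
  rw [T]
  linear_combination X * h

theorem low (Q : (ZMod p)[X]) (j m : ℕ) (hm : 1 ≤ m) (h : ∀ i < j, Q.coeff i = 0) :
    (X ^ m * Q).coeff j = 0 := by
  rw [coeff_X_pow_mul']
  split_ifs with h1
  · exact h _ (by omega)
  · rfl

theorem low1 (Q : (ZMod p)[X]) (j : ℕ) (h : ∀ i < j, Q.coeff i = 0) :
    (X * Q).coeff j = 0 := by
  have := low p Q j 1 le_rfl h
  rwa [pow_one] at this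

theorem coeff_ofNat_mul' (a : ℕ) [a.AtLeastTwo] (Q : (ZMod p)[X]) (j : ℕ) :
    ((OfNat.ofNat a : (ZMod p)[X]) * Q).coeff j = (OfNat.ofNat a : ZMod p) * Q.coeff j := by
  rw [show (OfNat.ofNat a : (ZMod p)[X]) = C (OfNat.ofNat a) from (map_ofNat C a).symm, coeff_C_mul]

theorem bottom (hpn : p = 2 * n + 1) (h0 : (D0 p n).coeff 0 = 0) (j : ℕ) (hj : j < p) :
    (D0 p n).coeff j = 0 ∧ (D1 p n).coeff j = 0 := by
  induction j using Nat.strong_induction_on with
  | _ j ih =>
    have i0 : ∀ i < j, (D0 p n).coeff i = 0 := fun i hi => (ih i hi (by omega)).1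
    have i1 : ∀ i < j, (D1 p n).coeff i = 0 := fun i hi => (ih i hi (by omega)).2
    have t0 : ∀ i < j, (T p (D0 p n)).coeff i = 0 := fun i hi => by
      rw [coeff_T, i0 i hi, mul_zero]
    have t1 : ∀ i < j, (T p (D1 p n)).coeff i = 0 := fun i hi => by
      rw [coeff_T, i1 i hi, mul_zero]
    have m : ∀ (Q : (ZMod p)[X]) (a : ℕ) [a.AtLeastTwo], (∀ i < j, Q.coeff i = 0) →
        ∀ i < j, ((OfNat.ofNat a : (ZMod p)[X]) * Q).coeff i = 0 := fun Q a _ hQ i hi => by
      rw [coeff_ofNat_mul', hQ i hi, mul_zero]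
    have a := congrArg (fun q : (ZMod p)[X] => q.coeff j) (sys0' p n hpn)
    have b := congrArg (fun q : (ZMod p)[X] => q.coeff j) (sys1' p n hpn)
    simp only [coeff_add, coeff_sub] at a b
    rw [low1 p _ j (m _ 5 t0), low p _ j 2 (by norm_num) (m _ 2 t0), low1 p _ j (m _ 6 i0),
      low p _ j 2 (by norm_num) (m _ 3 i0), coeff_ofNat_mul', coeff_T] at a
    rw [low1 p _ j (m _ 2 t1), low p _ j 2 (by norm_num) t1, low p _ j 3 (by norm_num) (m _ 2 t1),
      low1 p _ j (m _ 4 i0), low p _ j 2 (by norm_num) (m _ 4 i0),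
      low p _ j 3 (by norm_num) (m _ 3 i0), low p _ j 4 (by norm_num) (m _ 2 i0),
      low p _ j 5 (by norm_num) i0, low1 p _ j (m _ 3 i1), low p _ j 2 (by norm_num) (m _ 2 i1),
      low p _ j 3 (by norm_num) i1, coeff_T] at b
    rcases Nat.eq_zero_or_pos j with hz | hz
    · subst hz
      refine ⟨h0, ?_⟩
      rw [h0] at a
      linear_combination -a
    · have hjne : (j : ZMod p) ≠ 0 := by
        rw [Ne, ZMod.natCast_eq_zero_iff]
        exact Nat.not_dvd_of_pos_of_lt hz hj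
      have h2 : (2 : ZMod p) ≠ 0 := by
        have : ((2 : ℕ) : ZMod p) ≠ 0 := by
          rw [Ne, ZMod.natCast_eq_zero_iff]
          intro h
          have := Nat.le_of_dvd (by norm_num) h
          have := hp.1.two_le
          omega
        simpa using this
      have e1 : (D1 p n).coeff j = 0 := by
        have : (j : ZMod p) * (D1 p n).coeff j = 0 := by linear_combination b
        exact (mul_eq_zero.1 this).resolve_left hjne
      refine ⟨?_, e1⟩
      rw [e1] at a
      have : (2 * (j : ZMod p)) * (D0 p n).coeff j = 0 := by linear_combination a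
      exact (mul_eq_zero.1 this).resolve_left (mul_ne_zero h2 hjne)

theorem high (Q : (ZMod p)[X]) (j m : ℕ) (h : ∀ i > j, Q.coeff i = 0) :
    (X ^ m * Q).coeff (j + 1 + m) = 0 := by
  rw [coeff_X_pow_mul]
  exact h _ (by omega)

theorem high' (Q : (ZMod p)[X]) (J j m : ℕ) (hJ : j + m < J) (h : ∀ i > j, Q.coeff i = 0) :
    (X ^ m * Q).coeff J = 0 := by
  obtain ⟨t, rfl⟩ : ∃ t, J = t + m := ⟨J - m, by omega⟩
  rw [coeff_X_pow_mul]
  exact h _ (by omega)

theorem high1 (Q : (ZMod p)[X]) (J j : ℕ) (hJ : j + 1 < J) (h : ∀ i > j, Q.coeff i = 0) :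
    (X * Q).coeff J = 0 := by
  have := high' p Q J j 1 hJ h
  rwa [pow_one] at this

theorem top (hpn : p = 2 * n + 1) (hn : 1 ≤ n) (hd : ∀ j, 4 * n ≤ j → (D0 p n).coeff j = 0)
    (t : ℕ) (ht : t < p) (j : ℕ)
    (hj : 4 * n ≤ j + t) : (D0 p n).coeff j = 0 ∧ (D1 p n).coeff (j + 2) = 0 := by
  induction t generalizing j with
  | zero =>
    have i0 : ∀ i > j, (D0 p n).coeff i = 0 := fun i hi => hd i (by omega)
    have t0 : ∀ i > j, (T p (D0 p n)).coeff i = 0 := fun i hi => by
      rw [coeff_T, i0 i hi, mul_zero]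
    have m : ∀ (Q : (ZMod p)[X]) (a : ℕ) [a.AtLeastTwo], (∀ i > j, Q.coeff i = 0) →
        ∀ i > j, ((OfNat.ofNat a : (ZMod p)[X]) * Q).coeff i = 0 := fun Q a _ hQ i hi => by
      rw [coeff_ofNat_mul', hQ i hi, mul_zero]
    refine ⟨hd j (by omega), ?_⟩
    have a := congrArg (fun q : (ZMod p)[X] => q.coeff (j + 2)) (sys0' p n hpn)
    simp only [coeff_add, coeff_sub] at a
    rw [high1 p _ (j + 2) j (by omega) (m _ 5 t0), high1 p _ (j + 2) j (by omega) (m _ 6 i0),
      coeff_X_pow_mul, coeff_X_pow_mul, coeff_ofNat_mul', coeff_ofNat_mul', coeff_ofNat_mul',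
      coeff_T, coeff_T, hd j (by omega), hd (j + 2) (by omega)] at a
    linear_combination -a
  | succ t ih =>
    by_cases hlast : 4 * n ≤ j + t
    · exact ih (by omega) j hlast
    have hjt : j + (t + 1) = 4 * n := by omega
    have i0 : ∀ i > j, (D0 p n).coeff i = 0 := fun i hi => (ih (by omega) i (by omega)).1
    have i1 : ∀ i > j + 2, (D1 p n).coeff i = 0 := fun i hi => by
      have := (ih (by omega) (i - 2) (by omega)).2
      rwa [show i - 2 + 2 = i by omega] at this
    have t0 : ∀ i > j, (T p (D0 p n)).coeff i = 0 := fun i hi => by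
      rw [coeff_T, i0 i hi, mul_zero]
    have t1 : ∀ i > j + 2, (T p (D1 p n)).coeff i = 0 := fun i hi => by
      rw [coeff_T, i1 i hi, mul_zero]
    have m : ∀ (Q : (ZMod p)[X]) (J : ℕ) (a : ℕ) [a.AtLeastTwo], (∀ i > J, Q.coeff i = 0) →
        ∀ i > J, ((OfNat.ofNat a : (ZMod p)[X]) * Q).coeff i = 0 := fun Q J a _ hQ i hi => by
      rw [coeff_ofNat_mul', hQ i hi, mul_zero]
    have a := congrArg (fun q : (ZMod p)[X] => q.coeff (j + 2)) (sys0' p n hpn)
    simp only [coeff_add, coeff_sub] at a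
    rw [high1 p _ (j + 2) j (by omega) (m _ j 5 t0),
      high1 p _ (j + 2) j (by omega) (m _ j 6 i0),
      coeff_X_pow_mul, coeff_X_pow_mul, coeff_ofNat_mul', coeff_ofNat_mul', coeff_ofNat_mul',
      coeff_T, coeff_T, i0 (j + 2) (by omega)] at a
    have b := congrArg (fun q : (ZMod p)[X] => q.coeff (j + 2 + 3)) (sys1' p n hpn)
    simp only [coeff_add, coeff_sub] at b
    rw [coeff_T, i1 (j + 2 + 3) (by omega), high1 p _ (j + 2 + 3) (j + 2) (by omega) (m _ _ 2 t1),
      high' p _ (j + 2 + 3) (j + 2) 2 (by omega) t1, coeff_X_pow_mul, coeff_ofNat_mul', coeff_T,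
      high1 p _ (j + 2 + 3) j (by omega) (m _ _ 4 i0),
      high' p _ (j + 2 + 3) j 2 (by omega) (m _ _ 4 i0),
      high' p _ (j + 2 + 3) j 3 (by omega) (m _ _ 3 i0),
      high' p _ (j + 2 + 3) j 4 (by omega) (m _ _ 2 i0),
      show j + 2 + 3 = j + 5 by ring, coeff_X_pow_mul,
      high1 p _ (j + 5) (j + 2) (by omega) (m _ _ 3 i1),
      high' p _ (j + 5) (j + 2) 2 (by omega) (m _ _ 2 i1),
      show j + 5 = j + 2 + 3 by ring, coeff_X_pow_mul] at b
    have hj2 : ((j + 2 : ℕ) : ZMod p) ≠ 0 := by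
      rw [Ne, ZMod.natCast_eq_zero_iff]
      rintro ⟨q, hq⟩
      -- j + 2 = 2p - (t+1)
      have h1 : j + 2 + (t + 1) = 2 * p := by omega
      have hq2 : q < 2 := by
        by_contra h
        push Not at h
        have : p * 2 ≤ p * q := Nat.mul_le_mul_left _ h
        omega
      interval_cases q <;> omega
    have h2 : (2 : ZMod p) ≠ 0 := by
      have : ((2 : ℕ) : ZMod p) ≠ 0 := by
        rw [Ne, ZMod.natCast_eq_zero_iff]
        intro h
        have := Nat.le_of_dvd (by norm_num) h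
        omega
      simpa using this
    push_cast at a b hj2
    have key : (2 * 2 * ((j : ZMod p) + 2) * ((j : ZMod p) + 2)) * (D0 p n).coeff j = 0 := by
      linear_combination (2 * ((j : ZMod p) + 2) + 1) * a - b
    have d0 : (D0 p n).coeff j = 0 :=
      (mul_eq_zero.1 key).resolve_left (mul_ne_zero (mul_ne_zero (mul_ne_zero h2 h2) hj2) hj2)
    refine ⟨d0, ?_⟩
    rw [d0] at a
    linear_combination -a

theorem natDegree_A1 : (A1 p).natDegree = 4 := by
  rw [A1]; compute_degree!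

theorem monic_A1 : (A1 p).Monic := by
  rw [A1]; monicity!

theorem natDegree_B1 : (B1 p).natDegree ≤ 3 := by
  rw [B1]; compute_degree!

theorem natDegree_A2 : (A2 p).natDegree = 4 := by
  rw [A2]; compute_degree!

theorem monic_A2 : (A2 p).Monic := by
  rw [A2]; monicity!

theorem natDegree_B2 : (B2 p).natDegree ≤ 1 := by
  rw [B2]; compute_degree!

theorem degree_Hw (w : ℕ → ZMod p) (A B : (ZMod p)[X]) (hA : A.natDegree = 4)
    (hB : B.natDegree ≤ 3) : (Hw p n w A B).natDegree ≤ 4 * n := by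
  rw [Hw]
  refine natDegree_sum_le_of_forall_le _ _ fun k hk => ?_
  have hk := Finset.mem_range.1 hk
  refine (natDegree_C_mul_le _ _).trans (natDegree_mul_le.trans ?_)
  have h1 : (A ^ k).natDegree ≤ k * 4 := hA ▸ natDegree_pow_le
  have h2 : (B ^ (n - k)).natDegree ≤ (n - k) * 3 :=
    natDegree_pow_le.trans (Nat.mul_le_mul_left _ hB)
  omega

theorem coeff_Hw (w : ℕ → ZMod p) (A B : (ZMod p)[X]) (hA : A.natDegree = 4)
    (hm : A.Monic) (hB : B.natDegree ≤ 3) : (Hw p n w A B).coeff (4 * n) = w n := by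
  rw [Hw, finsetSum_coeff, Finset.sum_eq_single n]
  · rw [coeff_C_mul, Nat.sub_self, pow_zero, mul_one, c, Nat.choose_self]
    have h1 : (A ^ n).natDegree = 4 * n := by rw [hm.natDegree_pow, hA]; ring
    have h2 : (A ^ n).coeff (4 * n) = 1 := by
      rw [← h1]; exact (hm.pow n).coeff_natDegree
    rw [h2]
    simp
  · intro k hk hkn
    have hk := Finset.mem_range.1 hk
    apply coeff_eq_zero_of_natDegree_lt
    refine lt_of_le_of_lt ((natDegree_C_mul_le _ _).trans natDegree_mul_le) ?_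
    have h1 : (A ^ k).natDegree ≤ k * 4 := hA ▸ natDegree_pow_le
    have h2 : (B ^ (n - k)).natDegree ≤ (n - k) * 3 :=
      natDegree_pow_le.trans (Nat.mul_le_mul_left _ hB)
    omega
  · intro h
    exact absurd (Finset.mem_range.2 (Nat.lt_succ_self n)) h

theorem coeff0_Hw (w : ℕ → ZMod p) (A B : (ZMod p)[X]) (hA : A.eval 0 = 0)
    (hB : B.eval 0 = 1) : (Hw p n w A B).coeff 0 = w 0 := by
  rw [coeff_zero_eq_eval_zero, Hw, eval_finsetSum, Finset.sum_eq_single 0]
  · simp [hB, c]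
  · intro k _ hk
    rw [eval_mul, eval_mul, eval_pow, hA, zero_pow hk, zero_mul, mul_zero]
  · intro h
    exact absurd (Finset.mem_range.2 (Nat.succ_pos n)) h

/-- the polynomial identity -/
theorem main (hpn : p = 2 * n + 1) (hn : 1 ≤ n) :
    H0 p n (A1 p) (B1 p) = H0 p n (A2 p) (B2 p) := by
  have hB2 := (natDegree_B2 p).trans (by norm_num : 1 ≤ 3)
  have d1 := degree_Hw p n (fun _ => 1) _ _ (natDegree_A1 p) (natDegree_B1 p)
  have d2 := degree_Hw p n (fun _ => 1) _ _ (natDegree_A2 p) hB2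
  have hd : ∀ j, 4 * n ≤ j → (D0 p n).coeff j = 0 := by
    intro j hj
    rw [D0, coeff_sub]
    rcases Nat.eq_or_lt_of_le hj with h | h
    · rw [← h, H0, H0, coeff_Hw p n _ _ _ (natDegree_A1 p) (monic_A1 p) (natDegree_B1 p),
        coeff_Hw p n _ _ _ (natDegree_A2 p) (monic_A2 p) hB2, sub_self]
    · rw [H0, H0, coeff_eq_zero_of_natDegree_lt (lt_of_le_of_lt d1 h),
        coeff_eq_zero_of_natDegree_lt (lt_of_le_of_lt d2 h), sub_self]
  have h0 : (D0 p n).coeff 0 = 0 := by
    rw [D0, coeff_sub, H0, H0, coeff0_Hw p n _ _ _ (by simp [A1]) (by simp [B1]),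
      coeff0_Hw p n _ _ _ (by simp [A2]) (by simp [B2]), sub_self]
  rw [← sub_eq_zero]
  change D0 p n = 0
  ext j
  rw [coeff_zero]
  rcases Nat.lt_or_ge j p with h | h
  · exact (bottom p n hpn h0 j h).1
  · exact (top p n hpn hn hd (p - 1) (by omega) j (by omega)).1

theorem eval_H0 (A B : (ZMod p)[X]) (q l : ZMod p) (h : A.eval q = l * B.eval q) :
    (H0 p n A B).eval q = (B.eval q) ^ n * ∑ k ∈ range (n + 1), c p n k * l ^ k := by
  rw [H0, Hw, eval_finsetSum, Finset.mul_sum]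
  refine Finset.sum_congr rfl fun k hk => ?_
  have hk := Finset.mem_range.1 hk
  rw [eval_mul, eval_C, eval_mul, eval_pow, eval_pow, h, mul_pow]
  have e : (B.eval q) ^ n = (B.eval q) ^ k * (B.eval q) ^ (n - k) := by
    rw [← pow_add]; congr 1; omega
  rw [e]
  ring

/-- the special value -/
theorem special (hpn : p = 2 * n + 1) (h5 : 5 ≤ p) (s : ZMod p) (hs : s ^ 2 = 13) :
    ∑ k ∈ range (n + 1), c p n k * (88 - 24 * s) ^ k
      = ∑ k ∈ range (n + 1), c p n k * (88 + 24 * s) ^ k := by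
  have hm := main p n hpn (by omega)
  have e1 := eval_H0 p n (A1 p) (B1 p) (3 + s) (88 - 24 * s) (by
    rw [A1, B1]
    simp only [eval_mul, eval_pow, eval_add, eval_X, eval_ofNat, eval_one]
    linear_combination ((s ^ 2 + 18 * s + 120 + 13) + 8 * (24 * s ^ 2 + 164 * s + 182 + 24 * 13)
      - 1792) * hs)
  have e2 := eval_H0 p n (A2 p) (B2 p) (3 + s) (88 + 24 * s) (by
    rw [A2, B2]
    simp only [eval_mul, eval_pow, eval_add, eval_X, eval_ofNat, eval_one]
    linear_combination (s ^ 2 + 14 * s + 72 - 48 + 13) * hs)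
  rw [hm, e2] at e1
  have hb : (B1 p).eval (3 + s) = (2 * (3 + s) + 1) ^ 3 := by
    rw [B1]; simp only [eval_mul, eval_pow, eval_add, eval_X, eval_ofNat, eval_one]
  have hb2 : (B2 p).eval (3 + s) = 2 * (3 + s) + 1 := by
    rw [B2]; simp only [eval_mul, eval_add, eval_X, eval_ofNat, eval_one]
  have h3 : (3 : ZMod p) ≠ 0 := by
    have : ((3 : ℕ) : ZMod p) ≠ 0 := by
      rw [Ne, ZMod.natCast_eq_zero_iff]
      intro h
      have := Nat.le_of_dvd (by norm_num) h
      omega
    simpa using this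
  have hne : (2 * (3 + s) + 1 : ZMod p) ≠ 0 := by
    intro h
    apply h3
    have : (2 * (3 + s) + 1) * (7 - 2 * s) = -(3 : ZMod p) := by linear_combination (-4) * hs
    rw [h, zero_mul] at this
    linear_combination this
  have hpow : (2 * (3 + s) + 1 : ZMod p) ^ (2 * n) = 1 := by
    rw [show 2 * n = p - 1 by omega]
    exact ZMod.pow_card_sub_one_eq_one hne
  rw [hb, hb2, ← pow_mul, show 3 * n = 2 * n + n by ring, pow_add, hpow, one_mul] at e1
  exact (mul_left_cancel₀ (pow_ne_zero n hne) e1).symm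

end

end Pool.Agent.R902.Cubic
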