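import Pool.Agent.R902.Sym2

/-!
Products of Legendre type polynomials and alternating sums of fourth powers.
-/

set_option linter.unusedSectionVars false

namespace Pool.Agent.R902.Del1

open Finset Pool.Agent.R902.Sym2

/-- `C(k,l) C(k+l,l)` -/
def w (l k : ℕ) : ℤ := (k.choose l : ℤ) * ((k + l).choose l : ℤ)

theorem w_gt {l k : ℕ} (h : k < l) : w l k = 0 := by
  rw [w, Nat.choose_eq_zero_of_lt h]
  simp

theorem ch_rec (k d : ℕ) : ((d : ℤ) + 1) * (k.choose (d + 1) : ℤ) = (k - d) * (k.choose d : ℤ) := by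
  rcases Nat.lt_or_ge k d with h | h
  · rw [Nat.choose_eq_zero_of_lt h, Nat.choose_eq_zero_of_lt (by omega)]
    simp
  · have := congrArg (fun x : ℕ => (x : ℤ)) (Nat.choose_succ_right_eq k d)
    simp only [Nat.cast_mul, Nat.cast_sub h] at this
    push_cast at this
    linear_combination this

theorem ch_rec' (k d : ℕ) : ((k : ℤ) + 1 - d) * ((k + 1).choose d : ℤ)
    = (k + 1) * (k.choose d : ℤ) := by
  cases d with
  | zero => simp
  | succ d =>
    have h2 := ch_rec k d
    have h3 : ((k + 1).choose (d + 1) : ℤ) = (k.choose d : ℤ) + (k.choose (d + 1) : ℤ) := by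
      rw [Nat.choose_succ_succ]
      push_cast
      ring
    rw [h3]
    push_cast
    linear_combination (-1 : ℤ) * h2

theorem w_succ (l k : ℕ) : ((l : ℤ) + 1) ^ 2 * w (l + 1) k
    = ((k : ℤ) * (k + 1) - l * (l + 1)) * w l k := by
  have h1 := ch_rec k l
  have h2 : ((l : ℤ) + 1) * ((k + (l + 1)).choose (l + 1) : ℤ)
      = (k + l + 1) * ((k + l).choose l : ℤ) := by
    have := congrArg (fun x : ℕ => (x : ℤ)) (Nat.add_one_mul_choose_eq (k + l) l)
    push_cast at this
    rw [show k + (l + 1) = k + l + 1 by ring]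
    linear_combination -this
  rw [w, w]
  linear_combination ((l : ℤ) + 1) * ((k + (l + 1)).choose (l + 1) : ℤ) * h1
    + ((k : ℤ) - l) * (k.choose l : ℤ) * h2

/-- structure constants -/
def cc (i j l : ℕ) : ℤ := (l.choose i : ℤ) * (l.choose j : ℤ) * ((i + j).choose l : ℤ)

theorem cc_succ (i j l : ℕ) : ((i : ℤ) + 1) ^ 2 * cc (i + 1) j (l + 1)
    = ((l : ℤ) + 1) ^ 2 * cc i j l
      + (((l : ℤ) + 1) * (l + 2) - i * (i + 1)) * cc i j (l + 1) := by
  have a1 : ((i : ℤ) + 1) * ((l + 1).choose (i + 1) : ℤ) = (l + 1) * (l.choose i : ℤ) := by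
    have := congrArg (fun x : ℕ => (x : ℤ)) (Nat.add_one_mul_choose_eq l i)
    push_cast at this
    linear_combination -this
  have a2 := ch_rec' l i
  have a3 := ch_rec' l j
  have a4 := ch_rec (i + j) l
  have a5 : ((i + 1 + j).choose (l + 1) : ℤ) = ((i + j).choose l : ℤ)
      + ((i + j).choose (l + 1) : ℤ) := by
    rw [show i + 1 + j = i + j + 1 by ring, Nat.choose_succ_succ]
    push_cast
    ring
  rw [cc, cc, cc, a5]
  push_cast at a4
  -- rewrite everything in terms of C(l+1,i), C(l+1,j)
  set X : ℤ := ((l + 1).choose i : ℤ)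
  set Y : ℤ := ((l + 1).choose j : ℤ)
  set U : ℤ := ((i + j).choose l : ℤ)
  set V : ℤ := ((i + j).choose (l + 1) : ℤ)
  linear_combination ((i : ℤ) + 1) * Y * (U + V) * a1 - ((i : ℤ) + 1) * Y * (U + V) * a2
    + ((l : ℤ) + 1 - j) * Y * U * a2 + ((l : ℤ) + 1) * (l.choose i : ℤ) * U * a3
    - ((l : ℤ) + 1 - i) * X * Y * a4

theorem cc_zero (i j : ℕ) : cc (i + 1) j 0 = 0 := by
  rw [cc]; simp

theorem cc_zero' (i j : ℕ) : (i : ℤ) * (i + 1) * cc i j 0 = 0 := by
  cases i with
  | zero => simp
  | succ i => rw [cc_zero]; ring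

/-- product formula -/
theorem w_mul (j k L : ℕ) (h : k < L) (i : ℕ) : w i k * w j k = ∑ l ∈ range L, cc i j l * w l k := by
  obtain ⟨M, rfl⟩ : ∃ M, L = M + 1 := ⟨L - 1, by omega⟩
  induction i with
  | zero =>
    have e : ∀ l ∈ range (M + 1), l ≠ j → cc 0 j l * w l k = 0 := by
      intro l _ hl
      rw [cc]
      rcases Nat.lt_or_ge l j with h1 | h1
      · rw [Nat.choose_eq_zero_of_lt h1]; simp
      · rw [Nat.choose_eq_zero_of_lt (by omega : 0 + j < l)]; simp
    rcases Nat.lt_or_ge j (M + 1) with h2 | h2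
    · rw [Finset.sum_eq_single j e (by
        intro h3
        exact absurd (Finset.mem_range.2 h2) h3)]
      rw [cc, w]
      simp
    · rw [w_gt (by omega : k < j), mul_zero, Finset.sum_eq_zero]
      intro l hl
      exact e l hl (by
        have := Finset.mem_range.1 hl
        omega)
  | succ i ih =>
    have hi : ((i : ℤ) + 1) ^ 2 ≠ 0 := by positivity
    apply mul_left_cancel₀ hi
    have h1 : ((i : ℤ) + 1) ^ 2 * (w (i + 1) k * w j k)
        = ((k : ℤ) * (k + 1) - i * (i + 1)) * (w i k * w j k) := by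
      linear_combination (w j k) * w_succ i k
    rw [h1, ih, Finset.mul_sum, Finset.mul_sum]
    have h2 : ∀ l ∈ range (M + 1), ((k : ℤ) * (k + 1) - i * (i + 1)) * (cc i j l * w l k)
        = cc i j l * ((l : ℤ) + 1) ^ 2 * w (l + 1) k
          + (((l : ℤ) * (l + 1) - i * (i + 1)) * cc i j l) * w l k := by
      intro l _
      linear_combination (-(cc i j l)) * w_succ l k
    rw [Finset.sum_congr rfl h2, Finset.sum_add_distrib, Finset.sum_range_succ _ M,
      w_gt (by omega : k < M + 1), mul_zero, add_zero, Finset.sum_range_succ' _ M,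
      Finset.sum_range_succ' _ M, cc_zero]
    have h3 := cc_zero' i j
    have h4 : ((((0 : ℕ) : ℤ) * (((0 : ℕ) : ℤ) + 1) - i * (i + 1)) * cc i j 0) * w 0 k = 0 := by
      push_cast
      linear_combination (-(w 0 k)) * h3
    rw [h4, add_zero, mul_comm (0 : ℤ), mul_zero, mul_zero, add_zero, ← Finset.sum_add_distrib]
    refine Finset.sum_congr rfl fun l _ => ?_
    have h5 := cc_succ i j l
    push_cast
    linear_combination (-(w (l + 1) k)) * h5

/-- squares in the basis `w_l` -/
def E (e : ℕ → ℤ) (l : ℕ) : ℤ := ∑ i ∈ range (l + 1), ∑ j ∈ range (l + 1), cc i j l * (e i * e j)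

theorem E_ext (e : ℕ → ℤ) (l L : ℕ) (h : l < L) : E e l
    = ∑ i ∈ range L, ∑ j ∈ range L, cc i j l * (e i * e j) := by
  rw [E]
  have h1 : ∀ i, ∑ j ∈ range (l + 1), cc i j l * (e i * e j)
      = ∑ j ∈ range L, cc i j l * (e i * e j) := by
    intro i
    apply Finset.sum_subset (Finset.range_mono (by omega))
    intro j _ hj
    have hj : l + 1 ≤ j := by simpa using hj
    rw [cc, Nat.choose_eq_zero_of_lt (by omega : l < j)]
    simp
  simp only [h1]
  apply Finset.sum_subset (Finset.range_mono (by omega))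
  intro i _ hi
  have hi : l + 1 ≤ i := by simpa using hi
  apply Finset.sum_eq_zero
  intro j _
  rw [cc, Nat.choose_eq_zero_of_lt (by omega : l < i)]
  simp

theorem square (e : ℕ → ℤ) (k L : ℕ) (h : k < L) : (∑ i ∈ range L, w i k * e i) ^ 2
    = ∑ l ∈ range L, w l k * E e l := by
  rw [sq, Finset.sum_mul_sum]
  have h1 : ∀ i ∈ range L, ∑ j ∈ range L, w i k * e i * (w j k * e j)
      = ∑ l ∈ range L, ∑ j ∈ range L, w l k * (cc i j l * (e i * e j)) := by
    intro i _
    rw [Finset.sum_comm]
    refine Finset.sum_congr rfl fun j _ => ?_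
    have := w_mul j k L h i
    have e1 : w i k * e i * (w j k * e j) = (w i k * w j k) * (e i * e j) := by ring
    rw [e1, this, Finset.sum_mul]
    refine Finset.sum_congr rfl fun l _ => by ring
  rw [Finset.sum_congr rfl h1, Finset.sum_comm]
  refine Finset.sum_congr rfl fun l hl => ?_
  have hl := Finset.mem_range.1 hl
  rw [E_ext e l L hl, Finset.mul_sum]
  refine Finset.sum_congr rfl fun i _ => ?_
  rw [Finset.mul_sum]

/-! ### the first square -/

theorem B_B (φ : ℕ → ℤ) (n l : ℕ) : B (fun i => B (fun j => φ (i + j)) n) l = B φ (l + n) := by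
  induction l generalizing φ with
  | zero =>
    rw [zero_add]
    simp [B]
  | succ l ih =>
    rw [B_succ, ih φ, show l + 1 + n = l + n + 1 by ring, B_succ]
    congr 1
    rw [← ih (fun k => φ (k + 1))]
    congr 1
    funext i
    congr 1
    funext j
    congr 1
    ring

theorem B_choose (x : ℤ) (n : ℕ) : ∀ l ≤ n, B (fun m => (m.choose l : ℤ) * x ^ m) n
    = (n.choose l : ℤ) * x ^ l * (1 + x) ^ (n - l) := by
  induction n with
  | zero =>
    intro l hl
    obtain rfl : l = 0 := by omega
    simp [B]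
  | succ n ih =>
    intro l hl
    rw [B_succ]
    cases l with
    | zero =>
      have h1 := ih 0 (by omega)
      have h2 : B (fun k => ((k + 1).choose 0 : ℤ) * x ^ (k + 1)) n
          = x * B (fun m => (m.choose 0 : ℤ) * x ^ m) n := by
        rw [← B_smul]
        congr 1
        funext k
        rw [Nat.choose_zero_right, Nat.choose_zero_right, pow_succ]
        ring
      rw [h2, h1, Nat.sub_zero, Nat.sub_zero, pow_succ]
      simp
      ring
    | succ l =>
      have h2 : B (fun k => ((k + 1).choose (l + 1) : ℤ) * x ^ (k + 1)) n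
          = x * (B (fun m => (m.choose l : ℤ) * x ^ m) n
            + B (fun m => (m.choose (l + 1) : ℤ) * x ^ m) n) := by
        rw [← B_add, ← B_smul]
        congr 1
        funext k
        rw [Nat.choose_succ_succ, pow_succ]
        push_cast
        ring
      rw [h2, ih l (by omega)]
      rcases Nat.lt_or_ge n (l + 1) with h3 | h3
      · obtain rfl : l = n := by omega
        have h4 : B (fun m => (m.choose (l + 1) : ℤ) * x ^ m) l = 0 := by
          rw [B]
          apply Finset.sum_eq_zero
          intro m hm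
          have hm := Finset.mem_range.1 hm
          rw [Nat.choose_eq_zero_of_lt (by omega : m < l + 1)]
          simp
        rw [h4]
        simp
        ring
      · rw [ih (l + 1) h3, show n + 1 - (l + 1) = (n - (l + 1)) + 1 by omega,
          show n - l = (n - (l + 1)) + 1 by omega, Nat.choose_succ_succ n l]
        push_cast
        ring

theorem E_pow (x : ℤ) (l : ℕ) : E (fun i => x ^ i) l
    = ((2 * l).choose l : ℤ) * (x * (x + 1)) ^ l := by
  have h1 : E (fun i => x ^ i) l
      = B (fun i => B (fun j => ((i + j).choose l : ℤ) * x ^ (i + j)) l) l := by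
    rw [E, B]
    refine Finset.sum_congr rfl fun i _ => ?_
    rw [B, Finset.mul_sum]
    refine Finset.sum_congr rfl fun j _ => ?_
    rw [cc, pow_add]
    ring
  rw [h1, B_B (fun m => (m.choose l : ℤ) * x ^ m) l l, ← two_mul,
    B_choose x (2 * l) l (by omega), show 2 * l - l = l by omega, mul_pow]
  ring

/-! ### alternating sum over `k` -/

theorem alt_sum (l n : ℕ) : ∑ k ∈ range (n + 1), (-1) ^ k * (2 * (k : ℤ) + 1) * w l k
    = (-1) ^ n * (n + 1) * (n.choose l : ℤ) * ((n + 1 + l).choose l : ℤ) := by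
  induction n with
  | zero =>
    cases l with
    | zero => simp [w]
    | succ l => simp [w]
  | succ n ih =>
    rw [Finset.sum_range_succ, ih, w, pow_succ]
    have h1 := ch_rec' n l
    have h2 : ((n : ℤ) + 1 + 1) * ((n + 1 + 1 + l).choose l : ℤ)
        = (n + 1 + l + 1) * ((n + 1 + l).choose l : ℤ) := by
      have := ch_rec' (n + 1 + l) l
      rw [show n + 1 + l + 1 = n + 1 + 1 + l by ring] at this
      push_cast at this
      linear_combination this
    push_cast
    linear_combination (-((-1) ^ n * ((n + 1 + l).choose l : ℤ))) * h1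
      + ((-1) ^ n * ((n + 1).choose l : ℤ)) * h2

/-! ### alternating sum over `l` -/

theorem B_alt (i m : ℕ) : ∀ j, m ≤ j → B (fun t => (-1) ^ t * ((i + t).choose j : ℤ)) m
    = (-1) ^ m * (i.choose (j - m) : ℤ) := by
  induction m generalizing i with
  | zero => intro j _; simp [B]
  | succ m ih =>
    intro j hj
    rw [B_succ, ih i j (by omega)]
    have h : B (fun k => (-1) ^ (k + 1) * ((i + (k + 1)).choose j : ℤ)) m
        = -1 * B (fun t => (-1) ^ t * ((i + 1 + t).choose j : ℤ)) m := by
      rw [← B_smul]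
      congr 1
      funext k
      rw [show i + (k + 1) = i + 1 + k by ring, pow_succ]
      ring
    rw [h, ih (i + 1) j (by omega), show j - m = (j - (m + 1)) + 1 by omega,
      Nat.choose_succ_succ, pow_succ]
    push_cast
    ring

theorem alt_l (i j : ℕ) : ∑ l ∈ range (i + j + 1), (-1) ^ l * cc i j l
    = (-1) ^ (i + j) * ((i + j).choose i : ℤ) := by
  have h0 : ∑ l ∈ range (i + j + 1), (-1) ^ l * cc i j l
      = ∑ t ∈ range (j + 1), (-1) ^ (i + t) * cc i j (i + t) := by
    rw [add_assoc, Finset.sum_range_add]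
    have : ∑ l ∈ range i, (-1) ^ l * cc i j l = 0 := by
      apply Finset.sum_eq_zero
      intro l hl
      have hl := Finset.mem_range.1 hl
      rw [cc, Nat.choose_eq_zero_of_lt hl]
      simp
    rw [this, zero_add]
  rw [h0]
  have h1 : ∀ t ∈ range (j + 1), (-1 : ℤ) ^ (i + t) * cc i j (i + t)
      = ((-1) ^ i * ((i + j).choose i : ℤ)) * ((j.choose t : ℤ) *
        ((-1) ^ t * ((i + t).choose j : ℤ))) := by
    intro t ht
    have ht := Finset.mem_range.1 ht
    have h2 := Nat.choose_mul (n := i + j) (k := i + t) (s := i) (by omega)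
    rw [Nat.add_sub_cancel_left, Nat.add_sub_cancel_left] at h2
    have h3 := congrArg (fun x : ℕ => (x : ℤ)) h2
    push_cast at h3
    rw [cc, pow_add]
    linear_combination ((-1) ^ i * (-1) ^ t * ((i + t).choose j : ℤ)) * h3
  rw [Finset.sum_congr rfl h1, ← Finset.mul_sum]
  have h4 := B_alt i j j le_rfl
  rw [B] at h4
  rw [h4, Nat.sub_self, Nat.choose_zero_right, pow_add]
  push_cast
  ring

end Pool.Agent.R902.Del1
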