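import Pool.Agent.R902.Del1

/-!
`∑_i C(m,i) C(2i,i) C(2(m-i),m-i) = ∑_k (-4)^{m-k} C(k,m-k) C(2k,k)^2`.
-/

set_option linter.unusedSectionVars false

namespace Pool.Agent.R902.Del2

open Finset

/-- `C(2i,i)/i!` -/
def u (i : ℕ) : ℚ := ((2 * i).choose i : ℚ) / (i.factorial : ℚ)

theorem cb_succ (k : ℕ) : ((k : ℚ) + 1) * ((2 * (k + 1)).choose (k + 1) : ℚ)
    = 2 * (2 * k + 1) * ((2 * k).choose k : ℚ) := by
  have := Nat.succ_mul_centralBinom_succ k
  rw [Nat.centralBinom, Nat.centralBinom] at this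
  have := congrArg (fun x : ℕ => (x : ℚ)) this
  push_cast at this
  linear_combination this

theorem u_succ (k : ℕ) : u (k + 1) = 2 * (2 * k + 1) / ((k : ℚ) + 1) ^ 2 * u k := by
  have h := cb_succ k
  have h0 : (k.factorial : ℚ) ≠ 0 := by exact_mod_cast (Nat.factorial_ne_zero k)
  have h1 : ((2 * (k + 1)).choose (k + 1) : ℚ) = 2 * (2 * k + 1) * ((2 * k).choose k : ℚ)
      / ((k : ℚ) + 1) := by
    rw [eq_div_iff (by positivity)]
    linear_combination h
  rw [u, u, Nat.factorial_succ, h1]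
  push_cast
  field_simp

theorem u_zero : u 0 = 1 := by simp [u]

theorem u_one : u 1 = 2 := by
  have := u_succ 0
  rw [u_zero] at this
  norm_num at this
  exact this

/-- convolution square -/
def al (m : ℕ) : ℚ := ∑ i ∈ range (m + 1), u i * u (m - i)

/-- the constant `3x^2+3x+1` at `m+1` -/
def cst (m : ℕ) : ℚ := 3 * ((m : ℚ) + 1) ^ 2 + 3 * (m + 1) + 1

theorem tel (m : ℕ) : ∀ K ≤ m + 1, ∑ i ∈ range K, (((m : ℚ) + 2) ^ 3 * (u i * u (m + 2 - i))
    - 4 * cst m * (u i * u (m + 1 - i)) + 32 * ((m : ℚ) + 1) * (u i * u (m - i)))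
    = (K : ℚ) ^ 2 * (4 * ((m : ℚ) + 1) * K - 2 * (2 * m + 1) * (m + 2)) / ((m : ℚ) + 2 - K) ^ 2 *
      (u K * u (m + 1 - K)) := by
  intro K
  induction K with
  | zero => intro _; simp
  | succ K ih =>
    intro hK
    rw [Finset.sum_range_succ, ih (by omega)]
    obtain ⟨j, hj⟩ : ∃ j, m = K + j := ⟨m - K, by omega⟩
    rw [show m + 2 - K = j + 1 + 1 by omega, show m + 1 - K = j + 1 by omega,
      show m - K = j by omega, show m + 1 - (K + 1) = j by omega, u_succ (j + 1), u_succ j,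
      u_succ K, cst, hj]
    push_cast
    have e1 : (K : ℚ) + j + 2 - K = j + 2 := by ring
    have e2 : (K : ℚ) + j + 2 - (K + 1) = j + 1 := by ring
    rw [e1, e2]
    have h1 : ((j : ℚ) + 2) ≠ 0 := by positivity
    have h2 : ((j : ℚ) + 1) ≠ 0 := by positivity
    have h3 : ((K : ℚ) + 1) ≠ 0 := by positivity
    have h4 : ((j : ℚ) + 1 + 1) ≠ 0 := by positivity
    field_simp
    ring

theorem al_rec (m : ℕ) : ((m : ℚ) + 2) ^ 3 * al (m + 2) - 4 * cst m * al (m + 1)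
    + 32 * ((m : ℚ) + 1) * al m = 0 := by
  have h := tel m (m + 1) le_rfl
  rw [Finset.sum_add_distrib, Finset.sum_sub_distrib, ← Finset.mul_sum, ← Finset.mul_sum,
    ← Finset.mul_sum] at h
  rw [al, al, al, Finset.sum_range_succ _ (m + 2), Finset.sum_range_succ _ (m + 1),
    Finset.sum_range_succ _ (m + 1), show m + 2 - (m + 1) = 1 by omega, Nat.sub_self, Nat.sub_self,
    u_zero, u_one, u_succ (m + 1)]
  rw [Nat.sub_self, u_zero] at h
  have e1 : (m : ℚ) + 2 - ((m + 1 : ℕ) : ℚ) = 1 := by push_cast; ring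
  rw [e1] at h
  push_cast at h ⊢
  have h5 : ((m : ℚ) + 1 + 1) ≠ 0 := by positivity
  have e2 : ((m : ℚ) + 2) ^ 3 * (2 * (2 * ((m : ℚ) + 1) + 1) / ((m : ℚ) + 1 + 1) ^ 2 * u (m + 1) * 1)
      = (m + 2) * (2 * (2 * (m + 1) + 1)) * u (m + 1) := by
    field_simp
    ring
  rw [cst] at h ⊢
  linear_combination h + e2

/-- the integers `a_m` -/
def a (m : ℕ) : ℚ := ∑ i ∈ range (m + 1), (m.choose i : ℚ) * ((2 * i).choose i : ℚ) *
  ((2 * (m - i)).choose (m - i) : ℚ)

theorem a_eq (m : ℕ) : a m = (m.factorial : ℚ) * al m := by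
  rw [a, al, Finset.mul_sum]
  refine Finset.sum_congr rfl fun i hi => ?_
  have hi := Finset.mem_range.1 hi
  have h := congrArg (fun x : ℕ => (x : ℚ)) (Nat.choose_mul_factorial_mul_factorial
    (n := m) (k := i) (by omega))
  push_cast at h
  rw [← h, u, u]
  have h0 : (i.factorial : ℚ) ≠ 0 := by exact_mod_cast (Nat.factorial_ne_zero i)
  have h1 : ((m - i).factorial : ℚ) ≠ 0 := by exact_mod_cast (Nat.factorial_ne_zero _)
  field_simp

theorem a_rec (m : ℕ) : ((m : ℚ) + 2) ^ 2 * a (m + 2) - 4 * cst m * a (m + 1)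
    + 32 * ((m : ℚ) + 1) ^ 2 * a m = 0 := by
  have h := al_rec m
  rw [a_eq, a_eq, a_eq, Nat.factorial_succ (m + 1), Nat.factorial_succ m]
  push_cast
  linear_combination (((m : ℚ) + 1) * (m.factorial : ℚ)) * h

/-- coefficient of `z^m` in `(z(1-4z))^k` -/
def P (m k : ℕ) : ℚ := if k ≤ m then (-4) ^ (m - k) * (k.choose (m - k) : ℚ) else 0

theorem P_gt {m k : ℕ} (h : m < k) : P m k = 0 := by rw [P, if_neg (by omega)]

theorem P_add (k d : ℕ) : P (k + d) k = (-4) ^ d * (k.choose d : ℚ) := by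
  rw [P, if_pos (by omega), show k + d - k = d by omega]

theorem P_zero (m : ℕ) : P (m + 1) 0 = 0 := by
  have := P_add 0 (m + 1)
  rw [zero_add] at this
  rw [this]
  simp

theorem ch_rec (k d : ℕ) : ((d : ℚ) + 1) * (k.choose (d + 1) : ℚ) = (k - d) * (k.choose d : ℚ) := by
  exact_mod_cast congrArg (fun x : ℤ => (x : ℚ)) (Del1.ch_rec k d)

theorem ch_rec' (k d : ℕ) : ((k : ℚ) + 1 - d) * ((k + 1).choose d : ℚ)
    = (k + 1) * (k.choose d : ℚ) := by
  exact_mod_cast congrArg (fun x : ℤ => (x : ℚ)) (Del1.ch_rec' k d)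

theorem P_rel (m k : ℕ) : ((m : ℚ) + 2) ^ 2 * P (m + 2) (k + 1) - 4 * cst m * P (m + 1) (k + 1)
    + 32 * ((m : ℚ) + 1) ^ 2 * P m (k + 1)
    = ((k : ℚ) + 1) ^ 2 * (P (m + 1) k - 8 * P m k)
      - 4 * (2 * ((k : ℚ) + 1) + 1) ^ 2 * (P (m + 1) (k + 1) - 8 * P m (k + 1)) := by
  rcases Nat.lt_or_ge m (k + 1) with h | h
  · rcases Nat.lt_or_ge (m + 1) (k + 1) with h1 | h1
    · rcases Nat.lt_or_ge (m + 2) (k + 1) with h2 | h2
      · rw [P_gt h, P_gt h1, P_gt h2, P_gt (by omega : m + 1 < k), P_gt (by omega : m < k)]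
        ring
      · -- k = m + 1
        obtain rfl : k = m + 1 := by omega
        rw [P_gt h, P_gt h1, P_gt (by omega : m < m + 1)]
        have e1 := P_add (m + 1 + 1) 0
        have e2 := P_add (m + 1) 0
        rw [add_zero] at e1 e2
        rw [show m + 2 = m + 1 + 1 by ring, e1, e2]
        simp
        ring
    · -- k = m
      obtain rfl : k = m := by omega
      rw [P_gt h]
      have e1 := P_add (k + 1) 1
      have e2 := P_add (k + 1) 0
      have e3 := P_add k 1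
      have e4 := P_add k 0
      rw [add_zero] at e2 e4
      rw [show k + 2 = k + 1 + 1 by ring, e1, e2, e3, e4, cst]
      simp
      ring
  · obtain ⟨d, rfl⟩ := Nat.exists_eq_add_of_le h
    rw [show k + 1 + d + 2 = (k + 1) + (d + 2) by ring, P_add (k + 1) (d + 2),
      show k + 1 + d + 1 = (k + 1) + (d + 1) by ring, P_add (k + 1) (d + 1), P_add (k + 1) d,
      show k + 1 + (d + 1) = k + (d + 2) by ring, P_add k (d + 2),
      show k + 1 + d = k + (d + 1) by ring, P_add k (d + 1), cst]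
    have a1 := ch_rec (k + 1) d
    have a2 := ch_rec (k + 1) (d + 1)
    have a3 := ch_rec' k (d + 1)
    have a4 := ch_rec' k (d + 2)
    push_cast at a1 a2 a3 a4 ⊢
    rw [show (d : ℕ) + 2 = d + 1 + 1 by ring] at *
    rw [pow_succ, pow_succ]
    set X : ℚ := ((k + 1).choose d : ℚ)
    set Y : ℚ := ((k + 1).choose (d + 1) : ℚ)
    set Z : ℚ := ((k + 1).choose (d + 1 + 1) : ℚ)
    set U : ℚ := (k.choose (d + 1) : ℚ)
    set V : ℚ := (k.choose (d + 1 + 1) : ℚ)
    set s : ℚ := (-4) ^ d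
    linear_combination (16 * s * ((k : ℚ) + 1)) * a4 + (32 * s * ((k : ℚ) + 1)) * a3
      + (16 * s * (3 * ((k : ℚ) + 1) + d + 2)) * a2 + (32 * s * (3 * ((k : ℚ) + 1) + d + 2)) * a1

theorem P_rel_zero (m : ℕ) : ((m : ℚ) + 2) ^ 2 * P (m + 2) 0 - 4 * cst m * P (m + 1) 0
    + 32 * ((m : ℚ) + 1) ^ 2 * P m 0
    = - 4 * (P (m + 1) 0 - 8 * P m 0) := by
  rw [P_zero, P_zero]
  cases m with
  | zero => simp [P]; norm_num
  | succ m => rw [P_zero]; ring

/-- `C(2k,k)^2` -/
def d (k : ℕ) : ℚ := ((2 * k).choose k : ℚ) ^ 2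

theorem d_succ (k : ℕ) : ((k : ℚ) + 1) ^ 2 * d (k + 1) = 4 * (2 * k + 1) ^ 2 * d k := by
  have h := cb_succ k
  rw [d, d]
  linear_combination (((k : ℚ) + 1) * ((2 * (k + 1)).choose (k + 1) : ℚ)
    + 2 * (2 * k + 1) * ((2 * k).choose k : ℚ)) * h

/-- the other side -/
def b (m : ℕ) : ℚ := ∑ k ∈ range (m + 1), P m k * d k

theorem b_rec (m : ℕ) : ((m : ℚ) + 2) ^ 2 * b (m + 2) - 4 * cst m * b (m + 1)
    + 32 * ((m : ℚ) + 1) ^ 2 * b m = 0 := by
  have tel : ∀ K : ℕ, ∑ k ∈ range (K + 1), (((m : ℚ) + 2) ^ 2 * P (m + 2) k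
      - 4 * cst m * P (m + 1) k + 32 * ((m : ℚ) + 1) ^ 2 * P m k) * d k
      = -4 * (2 * (K : ℚ) + 1) ^ 2 * d K * (P (m + 1) K - 8 * P m K) := by
    intro K
    induction K with
    | zero =>
      rw [Finset.sum_range_one, P_rel_zero]
      push_cast
      ring
    | succ K ih =>
      rw [Finset.sum_range_succ, ih, P_rel]
      have := d_succ K
      push_cast
      linear_combination (P (m + 1) K - 8 * P m K) * this
  have h := tel (m + 2)
  rw [P_gt (by omega : m + 1 < m + 2), P_gt (by omega : m < m + 2)] at h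
  have h2 : ∑ k ∈ range (m + 2 + 1), (((m : ℚ) + 2) ^ 2 * P (m + 2) k
      - 4 * cst m * P (m + 1) k + 32 * ((m : ℚ) + 1) ^ 2 * P m k) * d k
      = ((m : ℚ) + 2) ^ 2 * (∑ k ∈ range (m + 2 + 1), P (m + 2) k * d k)
        - 4 * cst m * (∑ k ∈ range (m + 2 + 1), P (m + 1) k * d k)
        + 32 * ((m : ℚ) + 1) ^ 2 * (∑ k ∈ range (m + 2 + 1), P m k * d k) := by
    rw [Finset.mul_sum, Finset.mul_sum, Finset.mul_sum, ← Finset.sum_sub_distrib,
      ← Finset.sum_add_distrib]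
    refine Finset.sum_congr rfl fun k _ => by ring
  rw [h2, Finset.sum_range_succ (fun k => P (m + 1) k * d k) (m + 2),
    Finset.sum_range_succ (fun k => P m k * d k) (m + 2),
    Finset.sum_range_succ (fun k => P m k * d k) (m + 1),
    P_gt (by omega : m + 1 < m + 2), P_gt (by omega : m < m + 2), P_gt (by omega : m < m + 1)] at h
  rw [b, b, b]
  linear_combination h

theorem a_eq_b (m : ℕ) : a m = b m := by
  induction m using Nat.twoStepInduction with
  | zero => simp [a, b, P, d]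
  | one =>
    rw [a, b, Finset.sum_range_succ, Finset.sum_range_one, Finset.sum_range_succ,
      Finset.sum_range_one]
    simp [P, d]
    norm_num
  | more m h0 h1 =>
    have h2 := a_rec m
    have h3 := b_rec m
    rw [h0, h1] at h2
    have h4 : ((m : ℚ) + 2) ^ 2 ≠ 0 := by positivity
    apply mul_left_cancel₀ h4
    linear_combination h2 - h3

end Pool.Agent.R902.Del2
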