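import Pool.Agent.R902.Del2

/-!
Alternating sums of fourth powers of Delannoy polynomials modulo `p^3`.
-/

set_option linter.unusedSectionVars false

namespace Pool.Agent.R902.Del3

open Finset Pool.Agent.R902 Pool.Agent.R902.Del1

theorem aZ_eq (m : ℕ) : ∑ i ∈ range (m + 1), (m.choose i : ℤ) * ((2 * i).choose i : ℤ) *
      ((2 * (m - i)).choose (m - i) : ℤ)
    = ∑ k ∈ range (m + 1), (-4) ^ (m - k) * (k.choose (m - k) : ℤ) * ((2 * k).choose k : ℤ) ^ 2 := by
  have h := Del2.a_eq_b m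
  have h1 : ((∑ i ∈ range (m + 1), (m.choose i : ℤ) * ((2 * i).choose i : ℤ) *
      ((2 * (m - i)).choose (m - i) : ℤ) : ℤ) : ℚ) = Del2.a m := by
    rw [Del2.a]
    push_cast
    rfl
  have h2 : ((∑ k ∈ range (m + 1), (-4) ^ (m - k) * (k.choose (m - k) : ℤ) *
      ((2 * k).choose k : ℤ) ^ 2 : ℤ) : ℚ) = Del2.b m := by
    rw [Del2.b]
    push_cast
    refine Finset.sum_congr rfl fun k hk => ?_
    have hk := Finset.mem_range.1 hk
    rw [Del2.P, if_pos (by omega), Del2.d]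
  have h3 := h1.trans (h.trans h2.symm)
  exact_mod_cast h3

/-- the Delannoy polynomial -/
def D (n : ℕ) (x : ℤ) : ℤ := ∑ k ∈ range (n + 1), (n.choose k : ℤ) * ((n + k).choose k : ℤ) * x ^ k

theorem D_ext (n L : ℕ) (h : n < L) (x : ℤ) : D n x = ∑ i ∈ range L, w i n * x ^ i := by
  rw [D]
  apply Finset.sum_subset (Finset.range_mono (by omega))
  intro k _ hk
  have hk : n + 1 ≤ k := by simpa using hk
  rw [Nat.choose_eq_zero_of_lt (by omega : n < k)]
  simp

/-- the coefficients `C(2l,l) z^l` -/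
def e (z : ℤ) (l : ℕ) : ℤ := ((2 * l).choose l : ℤ) * z ^ l

theorem D_four (n L : ℕ) (h : n < L) (x : ℤ) : D n x ^ 4
    = ∑ l ∈ range L, w l n * E (e (x * (x + 1))) l := by
  have h1 : D n x ^ 2 = ∑ l ∈ range L, w l n * e (x * (x + 1)) l := by
    rw [D_ext n L h, square (fun i => x ^ i) n L h]
    refine Finset.sum_congr rfl fun l _ => ?_
    rw [E_pow, e]
  rw [show D n x ^ 4 = (D n x ^ 2) ^ 2 by ring, h1, square _ n L h]

/-- the exact formula -/
theorem S_eq (q : ℕ) (x : ℤ) : ∑ k ∈ range (q + 1), (-1) ^ k * (2 * (k : ℤ) + 1) * D k x ^ 4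
    = (-1) ^ q * ((q : ℤ) + 1) * ∑ l ∈ range (q + 1), (q.choose l : ℤ) *
      ((q + 1 + l).choose l : ℤ) * E (e (x * (x + 1))) l := by
  have h1 : ∀ k ∈ range (q + 1), (-1) ^ k * (2 * (k : ℤ) + 1) * D k x ^ 4
      = ∑ l ∈ range (q + 1), ((-1) ^ k * (2 * (k : ℤ) + 1) * w l k) * E (e (x * (x + 1))) l := by
    intro k hk
    rw [D_four k (q + 1) (Finset.mem_range.1 hk), Finset.mul_sum]
    refine Finset.sum_congr rfl fun l _ => by ring
  rw [Finset.sum_congr rfl h1, Finset.sum_comm, Finset.mul_sum]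
  refine Finset.sum_congr rfl fun l _ => ?_
  rw [← Finset.sum_mul, alt_sum]
  ring

section modp

variable (p : ℕ) [hp : Fact p.Prime]

theorem p_sq : ((p : ZMod (p ^ 2)) : ZMod (p ^ 2)) ^ 2 = 0 := by
  have := ZMod.natCast_self (p ^ 2)
  push_cast at this
  exact this

theorem ch_mod (l : ℕ) (hl : l < p) : ((p - 1).choose l : ZMod (p ^ 2)) *
    ((p - 1 + 1 + l).choose l : ZMod (p ^ 2)) = (-1) ^ l := by
  have hp1 := hp.1.one_le
  induction l with
  | zero => simp
  | succ l ih =>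
    have ih := ih (by omega)
    have hu := isUnit_natCast p 2 (l + 1) (by omega) hl
    have a1 := congrArg (fun x : ℤ => (x : ZMod (p ^ 2))) (ch_rec (p - 1) l)
    have a2 := congrArg (fun x : ℕ => (x : ZMod (p ^ 2)))
      (Nat.add_one_mul_choose_eq (p - 1 + 1 + l) l)
    have e1 : (((p - 1 : ℕ) : ℕ) : ZMod (p ^ 2)) = (p : ZMod (p ^ 2)) - 1 := by
      rw [Nat.cast_sub hp1]
      simp
    push_cast at a1 a2
    rw [e1] at a1 a2
    rw [show p - 1 + 1 + (l + 1) = p - 1 + 1 + l + 1 by ring]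
    have hu2 := hu.mul hu
    apply hu2.mul_left_cancel
    have hp2 := p_sq p
    push_cast
    rw [pow_succ (-1 : ZMod (p ^ 2)) l]
    linear_combination ((l : ZMod (p ^ 2)) + 1) * ((p - 1 + 1 + l + 1).choose (l + 1) : ZMod (p ^ 2)) * a1
      - ((p : ZMod (p ^ 2)) - 1 - l) * ((p - 1).choose l : ZMod (p ^ 2)) * a2
      + ((p : ZMod (p ^ 2)) - 1 - l) * ((p : ZMod (p ^ 2)) + 1 + l) * ih
      + (-1) ^ l * hp2

theorem cb_dvd (k : ℕ) (h1 : p ≤ 2 * k) (h2 : k < p) : p ∣ (2 * k).choose k := by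
  rw [two_mul]
  exact hp.1.dvd_choose_add h2 h2 (by omega)

theorem zero_of_dvd (a b : ℤ) (ha : (p : ℤ) ∣ a) (hb : (p : ℤ) ∣ b) :
    ((a * b : ℤ) : ZMod (p ^ 2)) = 0 := by
  rw [ZMod.intCast_zmod_eq_zero_iff_dvd]
  push_cast
  rw [sq]
  exact mul_dvd_mul ha hb

/-- vanishing for `i + j ≥ p` -/
theorem vanish (z : ℤ) (i j l : ℕ) (hi : i < p) (hj : j < p) (hl : l < p) (hij : p ≤ i + j) :
    ((cc i j l * (e z i * e z j) : ℤ) : ZMod (p ^ 2)) = 0 := by
  rcases Nat.lt_or_ge l i with h | h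
  · rw [cc, Nat.choose_eq_zero_of_lt h]; simp
  rcases Nat.lt_or_ge l j with h' | h'
  · rw [cc, Nat.choose_eq_zero_of_lt h']; simp
  have h1 : (p : ℤ) ∣ cc i j l := by
    rw [cc]
    apply Dvd.dvd.mul_left
    have : p ∣ (l + (i + j - l)).choose l := hp.1.dvd_choose_add hl (by omega) (by omega)
    rw [show l + (i + j - l) = i + j by omega] at this
    exact_mod_cast this
  have h2 : (p : ℤ) ∣ e z i * e z j := by
    rcases Nat.lt_or_ge (2 * i) p with h3 | h3
    · apply Dvd.dvd.mul_left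
      rw [e]
      apply Dvd.dvd.mul_right
      exact_mod_cast cb_dvd p j (by omega) hj
    · apply Dvd.dvd.mul_right
      rw [e]
      apply Dvd.dvd.mul_right
      exact_mod_cast cb_dvd p i h3 hi
  exact zero_of_dvd p _ _ h1 h2

theorem inner_lt (z : ℤ) (i j : ℕ) (h : i + j < p) :
    ∑ l ∈ range p, (-1) ^ l * (cc i j l * (e z i * e z j))
      = ((i + j).choose i : ℤ) * ((2 * i).choose i : ℤ) * ((2 * j).choose j : ℤ) * (-z) ^ (i + j) := by
  have h1 : ∑ l ∈ range p, (-1) ^ l * (cc i j l * (e z i * e z j))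
      = (∑ l ∈ range (i + j + 1), (-1) ^ l * cc i j l) * (e z i * e z j) := by
    rw [Finset.sum_mul]
    symm
    have h2 : ∑ l ∈ range (i + j + 1), (-1) ^ l * cc i j l * (e z i * e z j)
        = ∑ l ∈ range p, (-1) ^ l * cc i j l * (e z i * e z j) := by
      apply Finset.sum_subset (Finset.range_mono (by omega))
      intro l _ hl
      have hl : i + j + 1 ≤ l := by simpa using hl
      rw [cc, Nat.choose_eq_zero_of_lt (by omega : i + j < l)]
      simp
    rw [h2]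
    refine Finset.sum_congr rfl fun l _ => by ring
  rw [h1, alt_l, e, e, neg_pow z, pow_add z]
  ring

theorem main (n : ℕ) (hn : p = 2 * n + 1) (z : ℤ) :
    ((∑ l ∈ range p, ((p - 1).choose l : ℤ) * ((p - 1 + 1 + l).choose l : ℤ) * E (e z) l : ℤ) :
      ZMod (p ^ 2))
    = ((∑ k ∈ range (n + 1), ((2 * k).choose k : ℤ) ^ 2 * ((-z) * (1 - 4 * (-z))) ^ k : ℤ) :
      ZMod (p ^ 2)) := by
  -- step 1
  have s1 : ((∑ l ∈ range p, ((p - 1).choose l : ℤ) * ((p - 1 + 1 + l).choose l : ℤ) * E (e z) l : ℤ) :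
      ZMod (p ^ 2)) = ((∑ i ∈ range p, ∑ j ∈ range p, ∑ l ∈ range p,
        (-1) ^ l * (cc i j l * (e z i * e z j)) : ℤ) : ZMod (p ^ 2)) := by
    have h0 : (∑ i ∈ range p, ∑ j ∈ range p, ∑ l ∈ range p,
        (-1) ^ l * (cc i j l * (e z i * e z j)) : ℤ) = ∑ l ∈ range p, (-1) ^ l * E (e z) l := by
      have h1 : ∀ i ∈ range p, ∑ j ∈ range p, ∑ l ∈ range p,
          (-1) ^ l * (cc i j l * (e z i * e z j)) = ∑ l ∈ range p, ∑ j ∈ range p,
          (-1) ^ l * (cc i j l * (e z i * e z j)) := fun i _ => Finset.sum_comm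
      rw [Finset.sum_congr rfl h1, Finset.sum_comm]
      refine Finset.sum_congr rfl fun l hl => ?_
      rw [E_ext (e z) l p (Finset.mem_range.1 hl), Finset.mul_sum]
      refine Finset.sum_congr rfl fun i _ => ?_
      rw [Finset.mul_sum]
    rw [h0, Int.cast_sum, Int.cast_sum]
    refine Finset.sum_congr rfl fun l hl => ?_
    have := ch_mod p l (Finset.mem_range.1 hl)
    push_cast
    rw [this]
  -- step 2
  have s2 : ∀ i ∈ range p, ((∑ j ∈ range p, ∑ l ∈ range p,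
      (-1) ^ l * (cc i j l * (e z i * e z j)) : ℤ) : ZMod (p ^ 2))
      = ((∑ j ∈ range (p - i), ((i + j).choose i : ℤ) * ((2 * i).choose i : ℤ) *
        ((2 * j).choose j : ℤ) * (-z) ^ (i + j) : ℤ) : ZMod (p ^ 2)) := by
    intro i hi
    have hi := Finset.mem_range.1 hi
    have hsub : ∑ j ∈ range (p - i), ((∑ l ∈ range p,
        (-1) ^ l * (cc i j l * (e z i * e z j)) : ℤ) : ZMod (p ^ 2))
        = ∑ j ∈ range p, ((∑ l ∈ range p,
        (-1) ^ l * (cc i j l * (e z i * e z j)) : ℤ) : ZMod (p ^ 2)) := by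
      apply Finset.sum_subset (Finset.range_mono (by omega))
      intro j hj hj'
      have hj := Finset.mem_range.1 hj
      have hj' : p - i ≤ j := by simpa using hj'
      rw [Int.cast_sum]
      apply Finset.sum_eq_zero
      intro l hl
      have := vanish p z i j l hi hj (Finset.mem_range.1 hl) (by omega)
      rw [Int.cast_mul, this, mul_zero]
    rw [Int.cast_sum, ← hsub, Int.cast_sum]
    refine Finset.sum_congr rfl fun j hj => ?_
    have hj := Finset.mem_range.1 hj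
    rw [inner_lt p z i j (by omega)]
  rw [s1, Int.cast_sum, Finset.sum_congr rfl s2, ← Int.cast_sum]
  rw [← Finset.sum_range_diag_flip p (fun i j => ((i + j).choose i : ℤ) * ((2 * i).choose i : ℤ) *
        ((2 * j).choose j : ℤ) * (-z) ^ (i + j))]
  -- step 3
  have s3 : ∀ m ∈ range p, ∑ k ∈ range (m + 1), ((k + (m - k)).choose k : ℤ) *
      ((2 * k).choose k : ℤ) * ((2 * (m - k)).choose (m - k) : ℤ) * (-z) ^ (k + (m - k))
      = ∑ k ∈ range (m + 1), ((2 * k).choose k : ℤ) ^ 2 * (k.choose (m - k) : ℤ) * (-4) ^ (m - k) *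
        (-z) ^ (k + (m - k)) := by
    intro m _
    have h := aZ_eq m
    have h1 : ∀ k ∈ range (m + 1), ((k + (m - k)).choose k : ℤ) *
      ((2 * k).choose k : ℤ) * ((2 * (m - k)).choose (m - k) : ℤ) * (-z) ^ (k + (m - k))
      = (m.choose k : ℤ) * ((2 * k).choose k : ℤ) * ((2 * (m - k)).choose (m - k) : ℤ) * (-z) ^ m := by
      intro k hk
      have hk := Finset.mem_range.1 hk
      rw [show k + (m - k) = m by omega]
    have h2 : ∀ k ∈ range (m + 1), ((2 * k).choose k : ℤ) ^ 2 * (k.choose (m - k) : ℤ) *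
        (-4) ^ (m - k) * (-z) ^ (k + (m - k))
      = (-4) ^ (m - k) * (k.choose (m - k) : ℤ) * ((2 * k).choose k : ℤ) ^ 2 * (-z) ^ m := by
      intro k hk
      have hk := Finset.mem_range.1 hk
      rw [show k + (m - k) = m by omega]
      ring
    rw [Finset.sum_congr rfl h1, Finset.sum_congr rfl h2, ← Finset.sum_mul, ← Finset.sum_mul, h]
  rw [Finset.sum_congr rfl s3, Finset.sum_range_diag_flip p (fun k d => ((2 * k).choose k : ℤ) ^ 2 *
    (k.choose d : ℤ) * (-4) ^ d * (-z) ^ (k + d))]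
  -- step 4
  rw [Int.cast_sum, Int.cast_sum]
  symm
  have s4 : ∑ k ∈ range (n + 1), ((∑ d ∈ range (p - k), ((2 * k).choose k : ℤ) ^ 2 *
      (k.choose d : ℤ) * (-4) ^ d * (-z) ^ (k + d) : ℤ) : ZMod (p ^ 2))
      = ∑ k ∈ range p, ((∑ d ∈ range (p - k), ((2 * k).choose k : ℤ) ^ 2 *
      (k.choose d : ℤ) * (-4) ^ d * (-z) ^ (k + d) : ℤ) : ZMod (p ^ 2)) := by
    apply Finset.sum_subset (Finset.range_mono (by omega))
    intro k hk hk'
    have hk := Finset.mem_range.1 hk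
    have hk' : n + 1 ≤ k := by simpa using hk'
    rw [Int.cast_sum]
    apply Finset.sum_eq_zero
    intro d _
    have h1 : (p : ℤ) ∣ ((2 * k).choose k : ℤ) := by
      exact_mod_cast cb_dvd p k (by omega) hk
    have h2 := zero_of_dvd p _ _ h1 h1
    rw [show ((2 * k).choose k : ℤ) ^ 2 * (k.choose d : ℤ) * (-4) ^ d * (-z) ^ (k + d)
      = (((2 * k).choose k : ℤ) * ((2 * k).choose k : ℤ)) * ((k.choose d : ℤ) * (-4) ^ d *
        (-z) ^ (k + d)) by ring, Int.cast_mul, h2, zero_mul]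
  rw [← s4]
  refine Finset.sum_congr rfl fun k hk => ?_
  have hk := Finset.mem_range.1 hk
  congr 1
  have h1 : ∑ d ∈ range (p - k), ((2 * k).choose k : ℤ) ^ 2 *
      (k.choose d : ℤ) * (-4) ^ d * (-z) ^ (k + d)
      = ∑ d ∈ range (k + 1), ((2 * k).choose k : ℤ) ^ 2 *
      (k.choose d : ℤ) * (-4) ^ d * (-z) ^ (k + d) := by
    symm
    apply Finset.sum_subset (Finset.range_mono (by omega))
    intro d _ hd
    have hd : k + 1 ≤ d := by simpa using hd
    rw [Nat.choose_eq_zero_of_lt (by omega : k < d)]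
    simp
  rw [h1, mul_pow, show (1 : ℤ) - 4 * (-z) = (-4) * (-z) + 1 by ring, add_pow, Finset.mul_sum,
    Finset.mul_sum]
  refine Finset.sum_congr rfl fun d _ => ?_
  rw [one_pow, mul_pow, pow_add]
  ring

end modp

end Pool.Agent.R902.Del3
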