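import Pool.Agent.R902.FibVal

/-!
The four congruences for Fibonacci and Lucas sums.
-/

namespace Pool.Agent.R902.FibFinal

open Finset Pool.Agent.R902 Pool.Agent.R902.FibSum Pool.Agent.R902.FibVal

section

variable (p : ℕ) [hp : Fact p.Prime]

omit hp in
theorem rel (N : ℕ) (hN : (eps p = 1 ∧ p = N + 1) ∨ (eps p = -1 ∧ N = p + 1)) :
    2 * F p = eps p * F N + L N ∧ 2 * L p = eps p * L N + 5 * F N := by
  rcases hN with ⟨h1, h2⟩ | ⟨h1, h2⟩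
  · rw [h1, h2]
    have a := hF N
    rw [L_eq N, L_eq (N + 1)]
    constructor
    · ring
    · rw [show N + 1 + 1 = N + 2 by ring, a]; ring
  · rw [h1, h2]
    have a := hF p
    rw [L_eq (p + 1), L_eq p, show p + 1 + 1 = p + 2 by ring, a]
    constructor <;> ring

theorem final (n N : ℕ) (hn : p = 2 * n + 1) (h5 : p % 5 ≠ 0)
    (hN : (eps p = 1 ∧ p = N + 1) ∨ (eps p = -1 ∧ N = p + 1)) (q : ℚ) (hq : (p : ℚ) * q = F N) :
    Dv p 2 ((p : ℚ) * (∑ k ∈ Ico 1 p, (F (2 * k) : ℚ) / (k ^ 2 * (2 * k).choose k)) -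
      (-(eps p : ℚ) * (3 * q / 2 + 5 * p * q ^ 2 / 4))) ∧
    Dv p 2 ((p : ℚ) * (∑ k ∈ Ico 1 p, (L (2 * k) : ℚ) / (k ^ 2 * (2 * k).choose k)) -
      (-(5 * q / 2) - 15 * p * q ^ 2 / 4)) ∧
    Dv p 2 ((∑ k ∈ range n, ((2 * k).choose k : ℚ) * F (2 * k + 1) / ((2 * k + 1) * 16 ^ k)) -
      (-1) ^ (n + 1) * eps p * (q / 2 + 5 * p * q ^ 2 / 8)) ∧
    Dv p 2 ((∑ k ∈ range n, ((2 * k).choose k : ℚ) * L (2 * k + 1) / ((2 * k + 1) * 16 ^ k)) -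
      (-1) ^ (n + 1) * (5 * q / 2 + 5 * p * q ^ 2 / 8)) := by
  have hp2 : p ≠ 2 := by omega
  have hp0 : (p : ℚ) ≠ 0 := by exact_mod_cast hp.1.ne_zero
  have h3 : 2 < p := by
    have := hp.1.two_le
    omega
  have hnd : ¬ p ∣ 2 := fun h => by
    have := Nat.le_of_dvd (by norm_num) h
    omega
  have hnd4 : ¬ p ∣ 4 := fun h => hnd (hp.1.dvd_of_dvd_pow (show p ∣ 2 ^ 2 from h))
  obtain ⟨r2, r3⟩ := rel p N hN
  obtain ⟨m1, m2⟩ := mod_p p n hn h5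
  obtain ⟨o1, o2⟩ := val_odd p n hn h5
  obtain ⟨v1, v2⟩ := val_even p n hn h5
  have hNe : (-1 : ℤ) ^ N = 1 := by
    have : Even N := by
      rcases hN with ⟨_, h⟩ | ⟨_, h⟩
      · exact ⟨n, by omega⟩
      · exact ⟨n + 1, by omega⟩
    exact this.neg_one_pow
  have r1 : L N ^ 2 = 5 * F N ^ 2 + 4 := by rw [L_sq, hNe]; ring
  have heps : eps p * eps p = 1 := by
    rcases hN with ⟨h, _⟩ | ⟨h, _⟩ <;> rw [h] <;> norm_num
  set ε : ℤ := eps p with hε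
  set f : ℤ := F N with hf
  set l : ℤ := L N with hl
  -- `p ∣ f`
  have hpf : Dv p 1 (f : ℚ) := by
    have h : (2 : ℤ) * f = (L p - 1) - ε * (F p - ε) := by
      have : (4 : ℤ) * f = 2 * L p - ε * (2 * F p) := by
        rw [r2, r3]; linear_combination f * heps
      have h' : (2 : ℤ) * (2 * f) = 2 * ((L p - 1) - ε * (F p - ε)) := by
        linear_combination this - 2 * heps
      linarith
    have h1 : (p : ℤ) ^ 1 ∣ 2 * f := by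
      rw [h, pow_one]
      exact m2.sub (m1.mul_left _)
    have := Dv.of_dvd h1
    refine Dv.of_mul hnd ?_
    push_cast at this ⊢
    exact this
  have hpl : Dv p 1 ((l : ℚ) - 2 * ε) := by
    have h : l - 2 * ε = 2 * (F p - ε) - ε * f := by linear_combination -r2
    have h1 : ((l : ℚ) - 2 * ε) = 2 * ((F p - ε : ℤ) : ℚ) - (ε : ℚ) * f := by
      push_cast
      exact_mod_cast h
    rw [h1]
    have h2 : Dv p 1 ((F p - ε : ℤ) : ℚ) := Dv.of_dvd (by rw [pow_one]; exact m1)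
    exact (Dv.mul_left (Dv.ofNat 2) h2).sub (Dv.mul_left (Dv.int ε) hpf)
  -- `X = l - 2ε - 5εf²/4`
  have r1' : (l : ℚ) ^ 2 = 5 * (f : ℚ) ^ 2 + 4 := by exact_mod_cast r1
  have heps' : (ε : ℚ) * ε = 1 := by exact_mod_cast heps
  set X : ℚ := (l : ℚ) - 2 * ε - 5 * ε * (f : ℚ) ^ 2 / 4 with hX
  have hX1 : X = -(ε * ((l : ℚ) - 2 * ε) ^ 2 / ((4 : ℕ) : ℚ)) := by
    rw [hX]
    push_cast
    linear_combination ((ε : ℚ) / 4) * r1' + ((ε : ℚ) - (l : ℚ)) * heps'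
  have hf2 : Dv p 2 ((f : ℚ) ^ 2) := by rw [sq]; exact Dv.mul hpf hpf
  have hX2 : Dv p 2 X := by
    rw [hX1]
    refine (Dv.div (Dv.mul_left (Dv.int ε) ?_) hnd4).neg
    rw [sq]
    exact Dv.mul hpl hpl
  have hl2 : Dv p 2 ((l : ℚ) - 2 * ε) := by
    have : (l : ℚ) - 2 * ε = X + 5 * ε * (f : ℚ) ^ 2 / ((4 : ℕ) : ℚ) := by
      rw [hX]; push_cast; ring
    rw [this]
    refine hX2.add (Dv.div ?_ hnd4)
    exact Dv.mul_left ((Dv.ofNat 5).mul_left (Dv.int ε)) hf2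
  have hX4 : Dv p 4 X := by
    rw [hX1]
    refine (Dv.div (Dv.mul_left (Dv.int ε) ?_) hnd4).neg
    rw [sq]
    exact Dv.mul hl2 hl2
  have hX3 : Dv p 3 X := hX4.mono (by norm_num)
  have hf3 : Dv p 3 ((f : ℚ) ^ 3) := by
    rw [pow_succ]; exact Dv.mul hf2 hpf
  have hFp : (F p : ℚ) = ε * (1 + f / 2 + 5 * (f : ℚ) ^ 2 / 8 * (ε * ε)) * 1 + X / 2
      + (ε * (5 * (f : ℚ) ^ 2 / 8) - ε * (5 * (f : ℚ) ^ 2 / 8 * (ε * ε))) := by
    have h : (2 : ℚ) * F p = ε * f + l := by exact_mod_cast r2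
    rw [hX]
    linear_combination h / 2
  rw [heps'] at hFp
  have hLp : (L p : ℚ) = 1 + 5 * f / 2 + 5 * (f : ℚ) ^ 2 / 8 + ε * X / 2 := by
    have h : (2 : ℚ) * L p = ε * l + 5 * f := by exact_mod_cast r3
    rw [hX]
    linear_combination h / 2 + (1 + 5 * (f : ℚ) ^ 2 / 8) * heps'
  have hodd : (-1 : ℤ) ^ p = -1 := (hp.1.odd_of_ne_two hp2).neg_one_pow
  have hF2 : (F (2 * p) : ℚ) = F p * L p := by exact_mod_cast F_double p
  have hL2 : (L (2 * p) : ℚ) = (L p : ℚ) ^ 2 + 2 := by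
    have := L_double p
    rw [hodd] at this
    have h : L (2 * p) = L p ^ 2 + 2 := by rw [this]; ring
    exact_mod_cast h
  have e1 := even_sum p F h3
  have e2 := even_sum p L h3
  have e3 := odd_sum p F n hn
  have e4 := odd_sum p L n hn
  rw [v1] at e1
  rw [v2] at e2
  rw [o1] at e3
  rw [o2] at e4
  have hF0 : F 0 = 0 := rfl
  have hL0 : L 0 = 2 := rfl
  rw [hF0] at e1
  rw [hL0] at e2
  generalize ∑ k ∈ Ico 1 p, (F (2 * k) : ℚ) / (k ^ 2 * (2 * k).choose k) = S1 at e1 ⊢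
  generalize ∑ k ∈ Ico 1 p, (L (2 * k) : ℚ) / (k ^ 2 * (2 * k).choose k) = S2 at e2 ⊢
  generalize ∑ k ∈ range n, ((2 * k).choose k : ℚ) * F (2 * k + 1) / ((2 * k + 1) * 16 ^ k) = S3
    at e3 ⊢
  generalize ∑ k ∈ range n, ((2 * k).choose k : ℚ) * L (2 * k + 1) / ((2 * k + 1) * 16 ^ k) = S4
    at e4 ⊢
  push_cast at e1 e2 e3 e4
  rw [hF2] at e1
  rw [hL2] at e2
  -- integrality of the auxiliary numbers
  have iF : Dv p 0 (f : ℚ) := Dv.int _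
  have iε : Dv p 0 (ε : ℚ) := Dv.int _
  have iX : Dv p 0 X := hX4.mono (by norm_num)
  have i1 : Dv p 0 ((-1 : ℚ) ^ n) := by exact_mod_cast Dv.int (p := p) ((-1) ^ n)
  have half : Dv p 0 ((2 : ℚ)⁻¹) := by exact_mod_cast Dv.inv hnd
  have quarter : Dv p 0 ((4 : ℚ)⁻¹) := by exact_mod_cast Dv.inv hnd4
  have h8 : Dv p 0 ((8 : ℚ)⁻¹) := by
    have : (8 : ℚ)⁻¹ = 2⁻¹ * 4⁻¹ := by norm_num
    rw [this]
    exact half.mul_left quarter
  have i2 : Dv p 0 (2 : ℚ) := Dv.ofNat 2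
  have i5 : Dv p 0 (5 : ℚ) := Dv.ofNat 5
  have iA : Dv p 0 (1 + f * 2⁻¹ + 5 * (f : ℚ) ^ 2 * 8⁻¹) :=
    (Dv.one.add (iF.mul_left half)).add ((i5.mul_left iF.pow).mul_left h8)
  have iB : Dv p 0 (1 + 5 * f * 2⁻¹ + 5 * (f : ℚ) ^ 2 * 8⁻¹) :=
    (Dv.one.add ((i5.mul_left iF).mul_left half)).add ((i5.mul_left iF.pow).mul_left h8)
  refine ⟨?_, ?_, ?_, ?_⟩
  · apply Dv.of_p_mul
    have h : (p : ℚ) * ((p : ℚ) * S1 - (-(ε : ℚ) * (3 * q / 2 + 5 * p * q ^ 2 / 4)))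
        = 2⁻¹ * (2 * ((p : ℚ) ^ 2 * S1) + (-(ε : ℚ) - 0 + F p * L p))
          - 2⁻¹ * (ε * ((15 * 8⁻¹ + 25 * 8⁻¹ * 8⁻¹ * f) * (f : ℚ) ^ 3)
            + 2⁻¹ * ((1 + f * 2⁻¹ + 5 * (f : ℚ) ^ 2 * 8⁻¹) + (1 + 5 * f * 2⁻¹ +
              5 * (f : ℚ) ^ 2 * 8⁻¹) + ε * X * 2⁻¹) * X) := by
      rw [hFp, hLp]
      linear_combination (ε : ℚ) * (3 / 2 + 5 * ((p : ℚ) * q + f) / 4) * hq
        - (X / 4) * (1 + f / 2 + 5 * (f : ℚ) ^ 2 / 8) * heps'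
    rw [h]
    refine (half.mul_left e1).sub (half.mul_left (Dv.add (iε.mul_left ?_) ?_))
    · exact Dv.mul_left (((Dv.ofNat 15).mul_left h8).add
        ((((Dv.ofNat 25).mul_left h8).mul_left h8).mul_left iF)) hf3
    · refine Dv.mul_left (half.mul_left ?_) hX3
      exact (iA.add iB).add ((iε.mul_left iX).mul_left half)
  · apply Dv.of_p_mul
    have h : (p : ℚ) * ((p : ℚ) * S2 - (-(5 * q / 2) - 15 * p * q ^ 2 / 4))
        = 2⁻¹ * (2 * ((p : ℚ) ^ 2 * S2) + (-3 + ((L p : ℚ) ^ 2 + 2)))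
          - 2⁻¹ * ((25 * 8⁻¹ + 25 * 8⁻¹ * 8⁻¹ * f) * (f : ℚ) ^ 3
            + ((1 + 5 * f * 2⁻¹ + 5 * (f : ℚ) ^ 2 * 8⁻¹) * ε + X * 4⁻¹ * (ε * ε)) * X) := by
      rw [hLp]
      linear_combination (5 / 2 + 15 * ((p : ℚ) * q + f) / 4) * hq
    rw [h]
    refine (half.mul_left e2).sub (half.mul_left (Dv.add ?_ ?_))
    · exact Dv.mul_left (((Dv.ofNat 25).mul_left h8).add
        ((((Dv.ofNat 25).mul_left h8).mul_left h8).mul_left iF)) hf3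
    · refine Dv.mul_left ?_ hX3
      exact (iB.mul_left iε).add ((iX.mul_left quarter).mul_left (iε.mul_left iε))
  · apply Dv.of_p_mul
    have h : (p : ℚ) * (S3 - (-1) ^ (n + 1) * ε * (q / 2 + 5 * p * q ^ 2 / 8))
        = ((p : ℚ) * S3 - ((-1) ^ n * ε - (-1) ^ n * F p)) - (-1) ^ n * (2⁻¹ * X) := by
      rw [hFp, pow_succ]
      linear_combination ((-1) ^ n * (ε : ℚ) * (1 / 2 + 5 * ((p : ℚ) * q + f) / 8)) * hq
    rw [h]
    exact e3.sub (Dv.mul_left i1 (Dv.mul_left half hX3))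
  · apply Dv.of_p_mul
    have h : (p : ℚ) * (S4 - (-1) ^ (n + 1) * (5 * q / 2 + 5 * p * q ^ 2 / 8))
        = ((p : ℚ) * S4 - ((-1) ^ n - (-1) ^ n * L p)) - (-1) ^ n * (2⁻¹ * (ε * X)) := by
      rw [hLp, pow_succ]
      linear_combination ((-1) ^ n * (5 / 2 + 5 * ((p : ℚ) * q + f) / 8)) * hq
    rw [h]
    exact e4.sub (Dv.mul_left i1 (Dv.mul_left half (Dv.mul_left iε hX3)))

end

end Pool.Agent.R902.FibFinal
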