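import Pool.Agent.R902.PI

/-!
Chebyshev type identities for Fibonacci like sequences.
-/

set_option linter.unusedSectionVars false

namespace Pool.Agent.R902.FibSum

open Finset

/-- second difference of binomial coefficients -/
theorem choose_diff (N K : ℕ) : (N + 2).choose (K + 2) + N.choose (K + 2)
    = 2 * (N + 1).choose (K + 2) + N.choose K := by
  rw [Nat.choose_succ_succ' (N + 1) (K + 1), Nat.choose_succ_succ' N (K + 1),
    Nat.choose_succ_succ' N K]
  ring

/-- `∑_k (-1)^k C(n+k, 2k+r) G(2k+r+s)` -/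
def E (G : ℕ → ℤ) (r n s : ℕ) : ℤ :=
  ∑ k ∈ range (n + 1), (-1) ^ k * ((n + k).choose (2 * k + r) : ℤ) * G (2 * k + r + s)

theorem E_ext (G : ℕ → ℤ) (r n s N : ℕ) (h : n < N) :
    E G r n s = ∑ k ∈ range N, (-1) ^ k * ((n + k).choose (2 * k + r) : ℤ) * G (2 * k + r + s) := by
  rw [E]
  apply Finset.sum_subset (Finset.range_mono (by omega))
  intro k _ hk
  have hk : n + 1 ≤ k := by simpa using hk
  rw [Nat.choose_eq_zero_of_lt (by omega)]
  simp

theorem E_rec (G : ℕ → ℤ) (r n s : ℕ) (hr : r ≤ 1) :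
    E G r (n + 2) s = 2 * E G r (n + 1) s - E G r (n + 1) (s + 2) - E G r n s := by
  have hr01 : ∀ m : ℕ, ((m + 2).choose r : ℤ) + m.choose r = 2 * (m + 1).choose r := by
    intro m
    interval_cases r
    · simp
    · simp
      ring
  rw [E_ext G r (n + 2) s (n + 4) (by omega), E_ext G r (n + 1) s (n + 4) (by omega),
    E_ext G r n s (n + 4) (by omega), E_ext G r (n + 1) (s + 2) (n + 3) (by omega),
    Finset.sum_range_succ' _ (n + 3), Finset.sum_range_succ' _ (n + 3),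
    Finset.sum_range_succ' _ (n + 3)]
  have h1 : ∑ k ∈ range (n + 3), (-1 : ℤ) ^ (k + 1) *
      ((n + 2 + (k + 1)).choose (2 * (k + 1) + r) : ℤ) * G (2 * (k + 1) + r + s)
      = 2 * (∑ k ∈ range (n + 3), (-1 : ℤ) ^ (k + 1) *
        ((n + 1 + (k + 1)).choose (2 * (k + 1) + r) : ℤ) * G (2 * (k + 1) + r + s))
      - (∑ k ∈ range (n + 3), (-1 : ℤ) ^ k * ((n + 1 + k).choose (2 * k + r) : ℤ) *
          G (2 * k + r + (s + 2)))
      - ∑ k ∈ range (n + 3), (-1 : ℤ) ^ (k + 1) *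
        ((n + (k + 1)).choose (2 * (k + 1) + r) : ℤ) * G (2 * (k + 1) + r + s) := by
    rw [Finset.mul_sum, ← Finset.sum_sub_distrib, ← Finset.sum_sub_distrib]
    refine Finset.sum_congr rfl fun k _ => ?_
    have h2 := choose_diff (n + 1 + k) (2 * k + r)
    have e1 : n + 2 + (k + 1) = n + 1 + k + 2 := by ring
    have e2 : n + 1 + (k + 1) = n + 1 + k + 1 := by ring
    have e3 : n + (k + 1) = n + 1 + k := by ring
    have e4 : 2 * (k + 1) + r = 2 * k + r + 2 := by ring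
    have e5 : 2 * k + r + (s + 2) = 2 * k + r + 2 + s := by ring
    rw [e1, e2, e3, e4, e5]
    have h3 : (((n + 1 + k + 2).choose (2 * k + r + 2) : ℤ)) =
        2 * (n + 1 + k + 1).choose (2 * k + r + 2) + (n + 1 + k).choose (2 * k + r)
        - (n + 1 + k).choose (2 * k + r + 2) := by
      have := congrArg (fun x : ℕ => (x : ℤ)) h2
      push_cast at this
      linear_combination this
    rw [h3, pow_succ]
    ring
  rw [h1]
  have h4 := hr01 n
  simp only [mul_zero, zero_add, add_zero, pow_zero, one_mul]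
  linear_combination G (r + s) * h4

/-- the golden section case -/
theorem E_rec' (G : ℕ → ℤ) (hG : ∀ n, G (n + 2) = G (n + 1) + G n) (r n s : ℕ) (hr : r ≤ 1) :
    E G r (n + 2) s = E G r (n + 1) s - E G r (n + 1) (s + 1) - E G r n s := by
  have h1 : E G r (n + 1) (s + 2) = E G r (n + 1) (s + 1) + E G r (n + 1) s := by
    rw [E, E, E, ← Finset.sum_add_distrib]
    refine Finset.sum_congr rfl fun k _ => ?_
    have := hG (2 * k + r + s)
    rw [show 2 * k + r + (s + 2) = 2 * k + r + s + 2 by ring,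
      show 2 * k + r + (s + 1) = 2 * k + r + s + 1 by ring, this]
    ring
  rw [E_rec G r n s hr, h1]
  ring

theorem E_five (G : ℕ → ℤ) (hG : ∀ n, G (n + 2) = G (n + 1) + G n) (r n s : ℕ) (hr : r ≤ 1) :
    E G r (n + 5) s = - E G r n s := by
  have key : ∀ m t, E G r m (t + 2) = E G r m (t + 1) + E G r m t := by
    intro m t
    rw [E, E, E, ← Finset.sum_add_distrib]
    refine Finset.sum_congr rfl fun k _ => ?_
    have := hG (2 * k + r + t)
    rw [show 2 * k + r + (t + 2) = 2 * k + r + t + 2 by ring,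
      show 2 * k + r + (t + 1) = 2 * k + r + t + 1 by ring, this]
    ring
  have a1 := E_rec' G hG r n s hr
  have a2 := E_rec' G hG r (n + 1) s hr
  have a3 := E_rec' G hG r (n + 2) s hr
  have a4 := E_rec' G hG r (n + 3) s hr
  have b1 := E_rec' G hG r n (s + 1) hr
  have b2 := E_rec' G hG r (n + 1) (s + 1) hr
  have b3 := E_rec' G hG r (n + 2) (s + 1) hr
  have c1 := key n s
  have c2 := key (n + 1) s
  have c3 := key (n + 2) s
  have c4 := key (n + 3) s
  have d1 := E_rec' G hG r n (s + 2) hr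
  have d2 := E_rec' G hG r (n + 1) (s + 2) hr
  have f1 := key n (s + 1)
  have f2 := key (n + 1) (s + 1)
  have f3 := key (n + 2) (s + 1)
  have g1 := key (n + 1) (s + 2)
  have i1 := E_rec' G hG r n (s + 3) hr
  linarith

theorem E_ten (G : ℕ → ℤ) (hG : ∀ n, G (n + 2) = G (n + 1) + G n) (r j q s : ℕ) (hr : r ≤ 1) :
    E G r (10 * q + j) s = E G r j s := by
  induction q with
  | zero => simp
  | succ q ih =>
    rw [show 10 * (q + 1) + j = 10 * q + j + 5 + 5 by ring, E_five G hG r _ s hr,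
      E_five G hG r _ s hr, neg_neg, ih]

/-! ### the odd sum -/

section odd

variable (p : ℕ) [hp : Fact p.Prime]

theorem dv_a_sub_e (n : ℕ) (hn : p = 2 * n + 1) (k : ℕ) (hk : k ≤ n) :
    Dv p 2 (((2 * k).choose k : ℚ) / 16 ^ k - (-1) ^ k * ((n + k).choose (2 * k) : ℚ)) := by
  induction k with
  | zero => simpa using Dv.zero 2
  | succ k ih =>
    have ih := ih (by omega)
    have hk1 : ((k : ℚ) + 1) ≠ 0 := by positivity
    have hk2 : (2 * (k : ℚ) + 1) ≠ 0 := by positivity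
    have h1 : (((2 * (k + 1)).choose (k + 1) : ℕ) : ℚ) = 2 * (2 * k + 1) / (k + 1) *
        ((2 * k).choose k : ℚ) := by
      have := Nat.succ_mul_centralBinom_succ k
      rw [Nat.centralBinom, Nat.centralBinom] at this
      have h := congrArg (fun x : ℕ => (x : ℚ)) this
      push_cast at h
      field_simp
      linear_combination h
    have h2 : (((n + (k + 1)).choose (2 * (k + 1)) : ℕ) : ℚ)
        = ((p : ℚ) ^ 2 - (2 * k + 1) ^ 2) / (4 * (2 * k + 1) * (2 * k + 2)) *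
          ((n + k).choose (2 * k) : ℚ) := by
      have e1 := Nat.add_one_mul_choose_eq (n + k) (2 * k + 1)
      have e2 := Nat.choose_succ_right_eq (n + k) (2 * k)
      rw [show n + k - 2 * k = n - k by omega] at e2
      have f1 := congrArg (fun x : ℕ => (x : ℚ)) e1
      have f2 := congrArg (fun x : ℕ => (x : ℚ)) e2
      have hnk : ((n - k : ℕ) : ℚ) = n - k := by
        rw [Nat.cast_sub (by omega)]
      simp only [Nat.cast_mul, hnk] at f1 f2
      push_cast at f1 f2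
      rw [show n + (k + 1) = n + k + 1 by ring, show 2 * (k + 1) = 2 * k + 1 + 1 by ring]
      have hpn : (p : ℚ) = 2 * n + 1 := by rw [hn]; push_cast; ring
      rw [hpn]
      field_simp
      linear_combination (-4 * (2 * (k : ℚ) + 1)) * f1 + (4 * ((n : ℚ) + k + 1)) * f2
    rw [h1, h2, pow_succ, pow_succ]
    have h3 : 2 * (2 * (k : ℚ) + 1) / (k + 1) * ((2 * k).choose k : ℚ) / (16 ^ k * 16)
        - (-1) ^ k * -1 * (((p : ℚ) ^ 2 - (2 * k + 1) ^ 2) / (4 * (2 * k + 1) * (2 * k + 2)) *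
          ((n + k).choose (2 * k) : ℚ))
        = (2 * (k : ℚ) + 1) / ((8 * (k + 1) : ℕ) : ℚ) * (((2 * k).choose k : ℚ) / 16 ^ k -
          (-1) ^ k * ((n + k).choose (2 * k) : ℚ))
          + (p : ℚ) ^ 2 * ((-1) ^ k * ((n + k).choose (2 * k) : ℚ) /
            ((8 * (k + 1) * (2 * k + 1) : ℕ) : ℚ)) := by
      push_cast
      field_simp
      ring
    rw [h3]
    have h8 : ¬ p ∣ 8 := by
      intro h
      have : p ∣ 2 ^ 3 := h
      have := Nat.le_of_dvd (by norm_num) (hp.1.dvd_of_dvd_pow this)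
      have := hp.1.two_le
      omega
    have hk1' : ¬ p ∣ k + 1 := Nat.not_dvd_of_pos_of_lt (by omega) (by omega)
    have hk2' : ¬ p ∣ 2 * k + 1 := Nat.not_dvd_of_pos_of_lt (by omega) (by omega)
    have hu1 : ¬ p ∣ 8 * (k + 1) := fun h => ((hp.1.dvd_mul).1 h).elim h8 hk1'
    have hu2 : ¬ p ∣ 8 * (k + 1) * (2 * k + 1) := fun h => ((hp.1.dvd_mul).1 h).elim hu1 hk2'
    apply Dv.add
    · refine Dv.mul_left (Dv.div ?_ hu1) ih
      exact_mod_cast Dv.nat (p := p) (2 * k + 1)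
    · refine Dv.mul_right (Dv.pow_self 2) (Dv.div ?_ hu2)
      exact_mod_cast Dv.int (p := p) ((-1) ^ k * ((n + k).choose (2 * k) : ℤ))

theorem odd_sum (G : ℕ → ℤ) (n : ℕ) (hn : p = 2 * n + 1) :
    Dv p 3 ((p : ℚ) * (∑ k ∈ range n, ((2 * k).choose k : ℚ) * G (2 * k + 1) /
      ((2 * k + 1) * 16 ^ k)) - ((E G 1 (n + 1) 0 + E G 1 n 0 - (-1) ^ n * G p : ℤ) : ℚ)) := by
  have h1 : ((E G 1 (n + 1) 0 + E G 1 n 0 : ℤ) : ℚ) = ∑ k ∈ range (n + 1), (p : ℚ) *
      ((-1) ^ k * ((n + k).choose (2 * k) : ℚ) * G (2 * k + 1) / (2 * k + 1)) := by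
    rw [E_ext G 1 n 0 (n + 2) (by omega), E, ← Finset.sum_add_distrib,
      Finset.sum_range_succ _ (n + 1)]
    rw [Nat.choose_eq_zero_of_lt (show n + 1 + (n + 1) < 2 * (n + 1) + 1 by omega),
      Nat.choose_eq_zero_of_lt (show n + (n + 1) < 2 * (n + 1) + 1 by omega)]
    simp only [Nat.cast_zero, mul_zero, zero_mul, add_zero, Int.cast_sum]
    refine Finset.sum_congr rfl fun k hk => ?_
    have hk := Finset.mem_range.1 hk
    have e1 := Nat.add_one_mul_choose_eq (n + k) (2 * k)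
    have e2 := Nat.choose_succ_right_eq (n + k) (2 * k)
    rw [show n + k - 2 * k = n - k by omega] at e2
    have f1 := congrArg (fun x : ℕ => (x : ℚ)) e1
    have f2 := congrArg (fun x : ℕ => (x : ℚ)) e2
    have hnk : ((n - k : ℕ) : ℚ) = n - k := by
      rw [Nat.cast_sub (by omega)]
    simp only [Nat.cast_mul, hnk] at f1 f2
    push_cast at f1 f2
    have hk2 : (2 * (k : ℚ) + 1) ≠ 0 := by positivity
    have hpn : (p : ℚ) = 2 * n + 1 := by rw [hn]; push_cast; ring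
    rw [hpn, show n + 1 + k = n + k + 1 by ring]
    push_cast
    field_simp
    linear_combination ((G (2 * k + 1) : ℚ)) * (f2 - f1)
  have hp2 : ∀ k, k < n → ¬ p ∣ 2 * k + 1 := fun k hk =>
    Nat.not_dvd_of_pos_of_lt (by omega) (by omega)
  have h2 : (p : ℚ) * (∑ k ∈ range n, ((2 * k).choose k : ℚ) * G (2 * k + 1) /
      ((2 * k + 1) * 16 ^ k)) - ((E G 1 (n + 1) 0 + E G 1 n 0 - (-1) ^ n * G p : ℤ) : ℚ)
      = ∑ k ∈ range n, (p : ℚ) * ((((2 * k).choose k : ℚ) / 16 ^ k -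
          (-1) ^ k * ((n + k).choose (2 * k) : ℚ)) * (G (2 * k + 1) / ((2 * k + 1 : ℕ) : ℚ))) := by
    rw [Int.cast_sub, h1, Finset.sum_range_succ, Finset.mul_sum]
    have h3 : (p : ℚ) * ((-1) ^ n * ((n + n).choose (2 * n) : ℚ) * G (2 * n + 1) / (2 * n + 1))
        = ((-1) ^ n * G p : ℤ) := by
      have hpn : (p : ℚ) = 2 * n + 1 := by rw [hn]; push_cast; ring
      have hk2 : (2 * (n : ℚ) + 1) ≠ 0 := by positivity
      rw [← two_mul, Nat.choose_self, hpn, ← hn]
      push_cast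
      field_simp
    rw [h3, add_sub_cancel_right, ← Finset.sum_sub_distrib]
    refine Finset.sum_congr rfl fun k _ => ?_
    have hk2 : (2 * (k : ℚ) + 1) ≠ 0 := by positivity
    push_cast
    field_simp
  rw [h2]
  apply Dv.sum
  intro k hk
  have hk := Finset.mem_range.1 hk
  apply Dv.p_mul
  apply Dv.mul_right (dv_a_sub_e p n hn k (by omega))
  exact Dv.div (Dv.int _) (hp2 k hk)

/-- integrality of the sum -/
theorem odd_int (G : ℕ → ℤ) (n : ℕ) (hn : p = 2 * n + 1) :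
    Dv p 0 (∑ k ∈ range n, ((2 * k).choose k : ℚ) * G (2 * k + 1) /
      ((2 * k + 1) * 16 ^ k)) := by
  apply Dv.sum
  intro k hk
  have hk := Finset.mem_range.1 hk
  have h2 : ¬ p ∣ 16 := by
    intro h
    have : p ∣ 2 ^ 4 := h
    have := Nat.le_of_dvd (by norm_num) (hp.1.dvd_of_dvd_pow this)
    have := hp.1.two_le
    omega
  have h3 : ¬ p ∣ (2 * k + 1) * 16 ^ k := by
    intro h
    rcases (hp.1.dvd_mul).1 h with h | h
    · exact Nat.not_dvd_of_pos_of_lt (by omega) (by omega) h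
    · exact h2 (hp.1.dvd_of_dvd_pow h)
  have h4 := Dv.div (p := p) (Dv.int (((2 * k).choose k : ℤ) * G (2 * k + 1))) h3
  push_cast at h4
  exact h4

end odd

/-! ### the even sum -/

section even

variable (p : ℕ) [hp : Fact p.Prime]

/-- the coefficient `2p/(p+k) C(p+k,2k)` -/
def a (k : ℕ) : ℕ := (p + k).choose (2 * k) + (p - 1 + k).choose (2 * k)

theorem a_mul (k : ℕ) (hk : k ≤ p) : (p + k) * a p k = 2 * p * (p + k).choose (2 * k) := by
  have hp1 := hp.1.pos
  have h1 := Nat.choose_mul_succ_eq (p - 1 + k) (2 * k)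
  rw [show p - 1 + k + 1 = p + k by omega, show p + k - 2 * k = p - k by omega] at h1
  rw [a, mul_add, mul_comm (p + k) ((p - 1 + k).choose (2 * k)), h1]
  have : p + k + (p - k) = 2 * p := by omega
  calc (p + k) * (p + k).choose (2 * k) + (p + k).choose (2 * k) * (p - k)
      = (p + k + (p - k)) * (p + k).choose (2 * k) := by ring
    _ = _ := by rw [this]

/-- `g_k = k^2 C(2k,k) (-1)^k a(k)` -/
def g (k : ℕ) : ℚ := (k : ℚ) ^ 2 * (2 * k).choose k * ((-1) ^ k * a p k)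

theorem g_one : g p 1 = -2 * (p : ℚ) ^ 2 := by
  have hp1 := hp.1.pos
  rw [g, a]
  have h1 : ((p + 1).choose (2 * 1) : ℚ) = (p + 1) * p / 2 := by
    rw [Nat.cast_choose_two]; push_cast; ring
  have h2 : ((p - 1 + 1).choose (2 * 1) : ℚ) = p * (p - 1) / 2 := by
    rw [show p - 1 + 1 = p by omega, Nat.cast_choose_two]
  push_cast
  rw [h1, h2]
  norm_num
  ring

theorem g_succ (k : ℕ) (hk0 : 0 < k) (hk : k < p) :
    g p (k + 1) = g p k - (p : ℚ) ^ 2 * (g p k / ((k ^ 2 : ℕ) : ℚ)) := by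
  have hk1 : ((k : ℚ) + 1) ≠ 0 := by positivity
  have hk2 : (2 * (k : ℚ) + 1) ≠ 0 := by positivity
  have hk3 : (k : ℚ) ≠ 0 := by
    have : (0 : ℚ) < k := by exact_mod_cast hk0
    exact this.ne'
  have h1 : (((2 * (k + 1)).choose (k + 1) : ℕ) : ℚ) = 2 * (2 * k + 1) / (k + 1) *
      ((2 * k).choose k : ℚ) := by
    have := Nat.succ_mul_centralBinom_succ k
    rw [Nat.centralBinom, Nat.centralBinom] at this
    have h := congrArg (fun x : ℕ => (x : ℚ)) this
    push_cast at h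
    field_simp
    linear_combination h
  have h2 : (a p (k + 1) : ℚ) = ((p : ℚ) ^ 2 - k ^ 2) / ((2 * k + 1) * (2 * k + 2)) * a p k := by
    have e1 := a_mul p k (by omega)
    have e2 := a_mul p (k + 1) (by omega)
    have e3 := Nat.add_one_mul_choose_eq (p + k) (2 * k + 1)
    have e4 := Nat.choose_succ_right_eq (p + k) (2 * k)
    rw [show p + k - 2 * k = p - k by omega] at e4
    have f1 := congrArg (fun x : ℕ => (x : ℚ)) e1
    have f2 := congrArg (fun x : ℕ => (x : ℚ)) e2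
    have f3 := congrArg (fun x : ℕ => (x : ℚ)) e3
    have f4 := congrArg (fun x : ℕ => (x : ℚ)) e4
    have hnk : ((p - k : ℕ) : ℚ) = p - k := by
      rw [Nat.cast_sub (by omega)]
    simp only [Nat.cast_mul, hnk] at f1 f2 f3 f4
    push_cast at f1 f2 f3 f4
    have hpk : ((p : ℚ) + k + 1) ≠ 0 := by positivity
    rw [show p + (k + 1) = p + k + 1 by ring, show 2 * (k + 1) = 2 * k + 1 + 1 by ring] at f2
    rw [div_mul_eq_mul_div, eq_div_iff (by positivity)]
    apply mul_left_cancel₀ hpk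
    have f5 : (p : ℚ) * ((p + k + 1).choose (2 * k + 1 + 1) : ℚ) * (2 * k + 1 + 1) * (2 * k + 1)
        = (p : ℚ) * ((p : ℚ) + k + 1) * (((p + k).choose (2 * k) : ℚ) * (p - k)) := by
      linear_combination (-(p : ℚ) * (2 * (k : ℚ) + 1)) * f3 + ((p : ℚ) * (p + k + 1)) * f4
    linear_combination ((2 * (k : ℚ) + 1) * (2 * k + 2)) * f2 + 2 * f5 -
      ((p : ℚ) + k + 1) * (p - k) * f1
  rw [g, h1, h2, g, pow_succ]
  push_cast
  field_simp
  ring

theorem dv_g (k : ℕ) (hk0 : 0 < k) (hk : k ≤ p) : Dv p 4 (g p k + 2 * (p : ℚ) ^ 2) := by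
  induction k with
  | zero => omega
  | succ k ih =>
    rcases Nat.eq_zero_or_pos k with h | h
    · subst h
      rw [zero_add, g_one]
      have := Dv.zero (p := p) 4
      have h0 : (-2 * (p : ℚ) ^ 2 + 2 * (p : ℚ) ^ 2) = 0 := by ring
      rwa [h0]
    · have ih := ih h (by omega)
      rw [g_succ p k h (by omega)]
      have h1 : g p k - (p : ℚ) ^ 2 * (g p k / ((k ^ 2 : ℕ) : ℚ)) + 2 * (p : ℚ) ^ 2
          = (g p k + 2 * (p : ℚ) ^ 2) - (p : ℚ) ^ 2 * (g p k / ((k ^ 2 : ℕ) : ℚ)) := by ring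
      rw [h1]
      apply Dv.sub ih
      refine Dv.mul' (a := 2) (b := 2) (Dv.pow_self 2) (Dv.div ?_ ?_) rfl
      · have h2 : g p k = (g p k + 2 * (p : ℚ) ^ 2) - 2 * (p : ℚ) ^ 2 := by ring
        rw [h2]
        exact (Dv.mono (by norm_num) ih).sub (Dv.mul_left (Dv.ofNat 2) (Dv.pow_self 2))
      · intro h2
        exact Nat.not_dvd_of_pos_of_lt h (by omega) (hp.1.dvd_of_dvd_pow h2)

theorem dv_p_div (c : ℕ) (hc : ¬ p ^ 2 ∣ c) : Dv p 0 ((p : ℚ) / c) := by
  by_cases h : p ∣ c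
  · obtain ⟨m, rfl⟩ := h
    have hm : ¬ p ∣ m := by
      rintro ⟨l, rfl⟩
      exact hc ⟨l, by ring⟩
    have hp0 : (p : ℚ) ≠ 0 := by exact_mod_cast hp.1.ne_zero
    have : (p : ℚ) / ((p * m : ℕ) : ℚ) = (m : ℚ)⁻¹ := by
      push_cast
      field_simp
    rw [this]
    exact Dv.inv hm
  · exact Dv.div (Dv.nat p) h

theorem not_sq_dvd (k : ℕ) (hk0 : 0 < k) (hk : k < p) (hp3 : 2 < p) :
    ¬ p ^ 2 ∣ k ^ 2 * (2 * k).choose k := by
  intro h
  have h1 : (p ^ 2).Coprime (k ^ 2) := by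
    apply Nat.Coprime.pow
    exact (Nat.Prime.coprime_iff_not_dvd hp.1).2 (Nat.not_dvd_of_pos_of_lt hk0 hk)
  have h2 := h1.dvd_of_dvd_mul_left h
  have h3 : ((2 * k).choose k).factorization p ≤ 1 := by
    apply Nat.factorization_choose_le_one
    nlinarith
  have h4 : (2 * k).choose k ≠ 0 := (Nat.choose_pos (by omega)).ne'
  have h5 := (hp.1.pow_dvd_iff_le_factorization h4).1 h2
  omega

theorem even_sum (G : ℕ → ℤ) (hp3 : 2 < p) :
    Dv p 3 (2 * ((p : ℚ) ^ 2 * ∑ k ∈ Ico 1 p, (G (2 * k) : ℚ) / (k ^ 2 * (2 * k).choose k)) +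
      ((E G 0 p 0 + E G 0 (p - 1) 0 - 2 * G 0 + G (2 * p) : ℤ) : ℚ)) := by
  have hodd : Odd p := hp.1.odd_of_ne_two (by omega)
  have h1 : (E G 0 p 0 + E G 0 (p - 1) 0 - 2 * G 0 + G (2 * p) : ℤ)
      = ∑ k ∈ Ico 1 p, (-1) ^ k * (a p k : ℤ) * G (2 * k) := by
    have h2 : E G 0 p 0 + E G 0 (p - 1) 0 = ∑ k ∈ range (p + 1), (-1) ^ k * (a p k : ℤ) *
        G (2 * k) := by
      rw [E_ext G 0 (p - 1) 0 (p + 1) (by omega), E, ← Finset.sum_add_distrib]
      refine Finset.sum_congr rfl fun k _ => ?_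
      rw [a]
      push_cast
      ring
    rw [h2, Finset.sum_range_succ, Finset.range_eq_Ico,
      Finset.sum_eq_sum_Ico_succ_bot (by omega : 0 < p)]
    have h3 : a p p = 1 := by
      rw [a, ← two_mul, Nat.choose_self, Nat.choose_eq_zero_of_lt (by omega)]
    have h4 : a p 0 = 2 := by simp [a]
    rw [h3, h4, hodd.neg_one_pow]
    push_cast
    ring
  rw [h1]
  push_cast
  rw [Finset.mul_sum, Finset.mul_sum, ← Finset.sum_add_distrib]
  apply Dv.sum
  intro k hk
  have hk := Finset.mem_Ico.1 hk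
  have hk3 : (k : ℚ) ≠ 0 := by
    have : (0 : ℚ) < k := by exact_mod_cast hk.1
    exact this.ne'
  have hp0 : (p : ℚ) ≠ 0 := by exact_mod_cast hp.1.ne_zero
  have hc : (((2 * k).choose k : ℕ) : ℚ) ≠ 0 := by
    exact_mod_cast (Nat.choose_pos (by omega : k ≤ 2 * k)).ne'
  have h5 : 2 * ((p : ℚ) ^ 2 * ((G (2 * k) : ℚ) / (k ^ 2 * (2 * k).choose k))) +
      (-1) ^ k * (a p k : ℚ) * G (2 * k)
      = ((g p k + 2 * (p : ℚ) ^ 2) / p) * ((p : ℚ) / ((k ^ 2 * (2 * k).choose k : ℕ) : ℚ)) *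
        G (2 * k) := by
    rw [g]
    push_cast
    field_simp
    ring
  rw [h5]
  refine Dv.mul_right (Dv.mul_right ?_ (dv_p_div p _ (not_sq_dvd p k hk.1 hk.2 hp3))) (Dv.int _)
  apply Dv.of_p_mul
  rw [mul_div_cancel₀ _ hp0]
  exact dv_g p k hk.1 hk.2.le

end even

end Pool.Agent.R902.FibSum
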