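import Pool.Agent.R902.FibSum

/-!
The Fibonacci and Lucas cases.
-/

namespace Pool.Agent.R902.FibVal

open Finset Pool.Agent.R902 Pool.Agent.R902.FibSum

/-- Fibonacci numbers -/
def F (n : ℕ) : ℤ := (Nat.fib n : ℤ)

/-- Lucas numbers -/
def L : ℕ → ℤ
  | 0 => 2
  | 1 => 1
  | n + 2 => L n + L (n + 1)

theorem hF (n : ℕ) : F (n + 2) = F (n + 1) + F n := by
  rw [F, Nat.fib_add_two, F, F]; push_cast; ring

theorem hL (n : ℕ) : L (n + 2) = L (n + 1) + L n := by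
  rw [L]; ring

theorem L_eq (n : ℕ) : L n = 2 * F (n + 1) - F n := by
  induction n using Nat.strong_induction_on with
  | _ n ih =>
    rcases n with _ | _ | n
    · simp [L, F]
    · simp [L, F]
    · rw [L, ih n (by omega), ih (n + 1) (by omega), show n + 1 + 1 = n + 2 by ring]
      have h1 := hF (n + 1)
      have h2 := hF n
      linarith

theorem cassini (n : ℕ) : F (n + 1) ^ 2 - F n * F (n + 1) - F n ^ 2 = (-1) ^ n := by
  induction n with
  | zero => simp [F]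
  | succ n ih =>
    have h := hF n
    rw [show n + 1 + 1 = n + 2 by ring, h, pow_succ]
    linear_combination -ih

theorem L_sq (n : ℕ) : L n ^ 2 = 5 * F n ^ 2 + 4 * (-1) ^ n := by
  rw [L_eq, ← cassini]; ring

theorem F_double (n : ℕ) : F (2 * n) = F n * L n := by
  rw [L_eq, F, Nat.fib_two_mul, F, F]
  have h : Nat.fib n ≤ 2 * Nat.fib (n + 1) := by
    have := Nat.fib_le_fib_succ (n := n)
    omega
  push_cast [Nat.cast_sub h]
  ring

theorem L_double (n : ℕ) : L (2 * n) = L n ^ 2 - 2 * (-1) ^ n := by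
  have h1 : F (2 * n + 1) = F (n + 1) ^ 2 + F n ^ 2 := by
    rw [F, Nat.fib_two_mul_add_one, F, F]; push_cast; ring
  rw [L_eq, h1, F_double, L_eq, ← cassini]
  ring

/-- Legendre symbol `(p/5)` -/
def eps (p : ℕ) : ℤ := if p % 5 = 1 ∨ p % 5 = 4 then 1 else -1

theorem val_odd (p n : ℕ) (hn : p = 2 * n + 1) (h5 : p % 5 ≠ 0) :
    E F 1 (n + 1) 0 + E F 1 n 0 = (-1) ^ n * eps p ∧
    E L 1 (n + 1) 0 + E L 1 n 0 = (-1) ^ n := by
  obtain ⟨q, j, hj, hqj⟩ : ∃ q j, j < 10 ∧ n = 10 * q + j := ⟨n / 10, n % 10, by omega, by omega⟩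
  have e1 : n + 1 = 10 * q + (j + 1) := by omega
  have e2 : (-1 : ℤ) ^ n = (-1) ^ j := by
    rw [hqj, pow_add, pow_mul]
    norm_num
  rw [e2, e1, hqj, E_ten F hF 1 _ q 0 le_rfl, E_ten F hF 1 _ q 0 le_rfl,
    E_ten L hL 1 _ q 0 le_rfl, E_ten L hL 1 _ q 0 le_rfl]
  have e3 : ∀ i, p % 5 = i → eps p = if i = 1 ∨ i = 4 then 1 else -1 := by
    intro i hi
    rw [eps, hi]
  interval_cases j
  · rw [e3 1 (by omega)]; decide +kernel
  · rw [e3 3 (by omega)]; decide +kernel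
  · omega
  · rw [e3 2 (by omega)]; decide +kernel
  · rw [e3 4 (by omega)]; decide +kernel
  · rw [e3 1 (by omega)]; decide +kernel
  · rw [e3 3 (by omega)]; decide +kernel
  · omega
  · rw [e3 2 (by omega)]; decide +kernel
  · rw [e3 4 (by omega)]; decide +kernel

theorem val_even (p n : ℕ) (hn : p = 2 * n + 1) (h5 : p % 5 ≠ 0) :
    E F 0 p 0 + E F 0 (p - 1) 0 = - eps p ∧
    E L 0 p 0 + E L 0 (p - 1) 0 = 1 := by
  obtain ⟨q, j, hj, hqj⟩ : ∃ q j, j < 10 ∧ p = 10 * q + (j + 1) :=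
    ⟨(p - 1) / 10, (p - 1) % 10, by omega, by omega⟩
  have e1 : p - 1 = 10 * q + j := by omega
  have e3 : ∀ i, p % 5 = i → eps p = if i = 1 ∨ i = 4 then 1 else -1 := by
    intro i hi
    rw [eps, hi]
  have a1 := E_ten F hF 0 (j + 1) q 0 (by norm_num)
  have a2 := E_ten F hF 0 j q 0 (by norm_num)
  have a3 := E_ten L hL 0 (j + 1) q 0 (by norm_num)
  have a4 := E_ten L hL 0 j q 0 (by norm_num)
  rw [← hqj] at a1 a3
  rw [← e1] at a2 a4
  rw [a1, a2, a3, a4]
  interval_cases j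
  · rw [e3 1 (by omega)]; decide +kernel
  · omega
  · rw [e3 3 (by omega)]; decide +kernel
  · omega
  · omega
  · omega
  · rw [e3 2 (by omega)]; decide +kernel
  · omega
  · rw [e3 4 (by omega)]; decide +kernel
  · omega

section

variable (p : ℕ) [hp : Fact p.Prime]

/-- `F_p = (p/5)` and `L_p = 1` modulo `p` -/
theorem mod_p (n : ℕ) (hn : p = 2 * n + 1) (h5 : p % 5 ≠ 0) :
    (p : ℤ) ∣ F p - eps p ∧ (p : ℤ) ∣ L p - 1 := by
  have h2 : p ≠ 2 := by omega
  obtain ⟨v1, v2⟩ := val_odd p n hn h5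
  have key : ∀ (G : ℕ → ℤ) (B : ℤ), E G 1 (n + 1) 0 + E G 1 n 0 = (-1) ^ n * B →
      (p : ℤ) ∣ G p - B := by
    intro G B hB
    have a1 := odd_sum p G n hn
    have a2 := Dv.p_mul (odd_int p G n hn)
    rw [hB] at a1
    have a3 := a2.sub (a1.mono (by norm_num : 0 + 1 ≤ 3))
    rw [sub_sub_cancel] at a3
    have a4 := Dv.to_zmod a3
    rw [zero_add, pow_one] at a4
    have a5 : G p - B = -(-1) ^ n * ((-1) ^ n * B - (-1) ^ n * G p) := by
      have : (-1 : ℤ) ^ n * (-1) ^ n = 1 := by rw [← mul_pow]; simp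
      linear_combination (G p - B) * (-this)
    rw [a5]
    exact Dvd.dvd.mul_left a4 _
  exact ⟨key F _ v1, key L 1 (by rw [v2]; ring)⟩

end

end Pool.Agent.R902.FibVal
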