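import Pool.Agent.R902.Poly

/-!
The finite logarithm `W(y) = ∑_{0<i<p} y^i / i` modulo `p`.
-/

namespace Pool.Agent.R902.FinLog

open Finset Polynomial

section

variable (p : ℕ) [hp : Fact p.Prime]

/-- `W(y) = ∑_{i<p} y^i / i` in `ZMod p` (the term `i = 0` is `0` because `0⁻¹ = 0`). -/
noncomputable def W (y : ZMod p) : ZMod p := ∑ i ∈ range p, y ^ i * (i : ZMod p)⁻¹

theorem W_eq (y : ZMod p) : W p y = ∑ i ∈ range (p - 1), y ^ (i + 1) * ((i + 1 : ℕ) : ZMod p)⁻¹ := by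
  rw [W]
  obtain ⟨q, hq⟩ : ∃ q, p = q + 1 := ⟨p - 1, by have := hp.1.pos; omega⟩
  have h := Finset.sum_range_succ' (fun i : ℕ => y ^ i * (i : ZMod p)⁻¹) (p - 1)
  rw [show p - 1 + 1 = p by omega] at h
  rw [h]
  simp

/-- lift to `ZMod (p^2)` -/
noncomputable def W2 (y : ℤ) : ZMod (p ^ (1 + 1)) :=
  ∑ i ∈ range (p - 1), (y : ZMod (p ^ (1 + 1))) ^ (i + 1) * ((i + 1 : ℕ) : ZMod (p ^ (1 + 1)))⁻¹

theorem choose_pred (k : ℕ) (hk : k < p) : ((p - 1).choose k : ZMod p) = (-1) ^ k := by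
  induction k with
  | zero => simp
  | succ k ih =>
    have h1 : p.choose (k + 1) = (p - 1).choose k + (p - 1).choose (k + 1) := by
      obtain ⟨q, hq⟩ : ∃ q, p = q + 1 := ⟨p - 1, by omega⟩
      rw [hq, Nat.choose_succ_succ', Nat.add_sub_cancel]
    have h2 : (p.choose (k + 1) : ZMod p) = 0 := by
      rw [ZMod.natCast_eq_zero_iff]
      exact hp.1.dvd_choose_self (by omega) hk
    rw [h1] at h2
    push_cast at h2
    rw [ih (by omega)] at h2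
    rw [pow_succ]
    linear_combination h2

/-- `C(p,i+1) = p (-1)^i / (i+1)` modulo `p^2` -/
theorem choose_mod (i : ℕ) (hi : i < p - 1) : (p.choose (i + 1) : ZMod (p ^ (1 + 1)))
    = (p : ZMod (p ^ (1 + 1))) * ((-1) ^ i * ((i + 1 : ℕ) : ZMod (p ^ (1 + 1)))⁻¹) := by
  have hinv := mul_inv_natCast p (1 + 1) (i + 1) (by omega) (by omega)
  have h1 := Nat.add_one_mul_choose_eq (p - 1) i
  rw [show p - 1 + 1 = p by omega] at h1
  have h2 := congrArg (fun x : ℕ => (x : ZMod (p ^ (1 + 1)))) h1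
  simp only [Nat.cast_mul] at h2
  have h3 : (p : ZMod (p ^ (1 + 1))) ^ 1 * (((p - 1).choose i : ZMod (p ^ (1 + 1))) -
      (-1) ^ i) = 0 := by
    apply pow_mul_eq_zero_one p 1
    rw [map_sub, map_natCast, map_pow, map_neg, map_one, choose_pred p i (by omega), sub_self]
  rw [pow_one] at h3
  generalize ((i + 1 : ℕ) : ZMod (p ^ (1 + 1)))⁻¹ = u at *
  generalize ((i + 1 : ℕ) : ZMod (p ^ (1 + 1))) = x at *
  linear_combination (-(p.choose (i + 1) : ZMod (p ^ (1 + 1)))) * hinv - u * h2 + u * h3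

/-- `p W(y) = 1 - y^p - (1-y)^p` modulo `p^2` for odd `p`. -/
theorem p_mul_W2 (hp2 : p ≠ 2) (y : ℤ) : (p : ZMod (p ^ (1 + 1))) * W2 p y
    = 1 - (y : ZMod (p ^ (1 + 1))) ^ p - (1 - (y : ZMod (p ^ (1 + 1)))) ^ p := by
  have hodd : Odd p := hp.1.odd_of_ne_two hp2
  have h1 : (1 - (y : ZMod (p ^ (1 + 1)))) ^ p = ∑ i ∈ range (p + 1),
      (-(y : ZMod (p ^ (1 + 1)))) ^ i * (p.choose i : ZMod (p ^ (1 + 1))) := by
    rw [show (1 - (y : ZMod (p ^ (1 + 1)))) = -(y : ZMod (p ^ (1 + 1))) + 1 by ring,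
      (Commute.all _ _).add_pow]
    refine Finset.sum_congr rfl fun i _ => ?_
    rw [one_pow, mul_one]
  rw [h1, Finset.sum_range_succ, Nat.choose_self]
  have h2 := Finset.sum_range_succ' (fun i : ℕ => (-(y : ZMod (p ^ (1 + 1)))) ^ i *
    (p.choose i : ZMod (p ^ (1 + 1)))) (p - 1)
  rw [show p - 1 + 1 = p by have := hp.1.pos; omega] at h2
  rw [h2, W2, Finset.mul_sum]
  have h3 : ∑ i ∈ range (p - 1), (-(y : ZMod (p ^ (1 + 1)))) ^ (i + 1) *
      (p.choose (i + 1) : ZMod (p ^ (1 + 1)))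
      = - ∑ i ∈ range (p - 1), (p : ZMod (p ^ (1 + 1))) * ((y : ZMod (p ^ (1 + 1))) ^ (i + 1) *
        ((i + 1 : ℕ) : ZMod (p ^ (1 + 1)))⁻¹) := by
    rw [← Finset.sum_neg_distrib]
    refine Finset.sum_congr rfl fun i hi => ?_
    have hi := Finset.mem_range.1 hi
    rw [choose_mod p i hi, neg_pow]
    have h4 : ((-1 : ZMod (p ^ (1 + 1))) ^ i) * (-1) ^ i = 1 := by
      rw [← mul_pow]; simp
    rw [pow_succ (-1 : ZMod (p ^ (1 + 1))) i]
    linear_combination (-(y : ZMod (p ^ (1 + 1))) ^ (i + 1) * (p : ZMod (p ^ (1 + 1))) *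
      ((i + 1 : ℕ) : ZMod (p ^ (1 + 1)))⁻¹) * h4
  rw [h3, hodd.neg_pow]
  simp
  ring

theorem castHom_W2 (y : ℤ) (hd : p ∣ p ^ (1 + 1)) :
    ZMod.castHom hd (ZMod p) (W2 p y) = W p (y : ZMod p) := by
  rw [W2, W_eq, map_sum]
  refine Finset.sum_congr rfl fun i hi => ?_
  have hi := Finset.mem_range.1 hi
  rw [map_mul, map_pow, map_intCast, castHom_inv p (1 + 1) (i + 1) (by omega) (by omega)]

/-- if `p x = 0` modulo `p^2` then `x = 0` modulo `p` -/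
theorem castHom_eq_zero (x : ZMod (p ^ (1 + 1))) (h : (p : ZMod (p ^ (1 + 1))) * x = 0)
    (hd : p ∣ p ^ (1 + 1)) : ZMod.castHom hd (ZMod p) x = 0 := by
  have : NeZero (p ^ (1 + 1)) := ⟨pow_ne_zero _ hp.1.ne_zero⟩
  have hx : ((x.val : ℕ) : ZMod (p ^ (1 + 1))) = x := ZMod.natCast_zmod_val x
  rw [← hx, ← Nat.cast_mul, ZMod.natCast_eq_zero_iff] at h
  have h' : p * p ∣ p * x.val := by
    rw [show p * p = p ^ (1 + 1) by ring]; exact h
  have h2 := Nat.dvd_of_mul_dvd_mul_left hp.1.pos h'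
  rw [← hx, map_natCast, ZMod.natCast_eq_zero_iff]
  exact h2

/-- `W(1-y) = W(y)` -/
theorem W_one_sub (hp2 : p ≠ 2) (y : ZMod p) : W p (1 - y) = W p y := by
  obtain ⟨z, rfl⟩ : ∃ z : ℤ, (z : ZMod p) = y := ⟨y.val, by simp⟩
  have hd : p ∣ p ^ (1 + 1) := dvd_pow_self p (by norm_num)
  have h1 := p_mul_W2 p hp2 z
  have h2 := p_mul_W2 p hp2 (1 - z)
  push_cast at h2
  have h3 : (p : ZMod (p ^ (1 + 1))) * (W2 p (1 - z) - W2 p z) = 0 := by
    rw [mul_sub, h1, h2]; ring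
  have h4 := castHom_eq_zero p _ h3 hd
  rw [map_sub, castHom_W2, castHom_W2, sub_eq_zero] at h4
  push_cast at h4
  exact h4

/-- `y W(1/y) = - W(y)` -/
theorem W_inv (y : ZMod p) (hy : y ≠ 0) : y * W p y⁻¹ = - W p y := by
  rw [W_eq, W_eq, Finset.mul_sum, ← Finset.sum_neg_distrib, ← Finset.sum_range_reflect]
  refine Finset.sum_congr rfl fun i hi => ?_
  have hi := Finset.mem_range.1 hi
  have h1 : ((p - 1 - 1 - i + 1 : ℕ) : ZMod p) = - ((i + 1 : ℕ) : ZMod p) := by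
    have h : ((p - 1 - 1 - i + 1 + (i + 1) : ℕ) : ZMod p) = 0 := by
      rw [show p - 1 - 1 - i + 1 + (i + 1) = p by omega]; exact ZMod.natCast_self p
    rw [Nat.cast_add] at h
    exact eq_neg_of_add_eq_zero_left h
  have h2 : y * y⁻¹ ^ (p - 1 - 1 - i + 1) = y ^ (i + 1) := by
    have h3 : y ^ (p - 1 - 1 - i + 1) ≠ 0 := pow_ne_zero _ hy
    rw [inv_pow]
    apply mul_right_cancel₀ h3
    rw [mul_assoc, inv_mul_cancel₀ h3, mul_one, ← pow_add,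
      show i + 1 + (p - 1 - 1 - i + 1) = p by omega, ZMod.pow_card]
  rw [h1, inv_neg, ← mul_assoc, h2]
  ring

/-- `W(4) + W(-2) = 3 W(-1)` -/
theorem W_four (hp2 : p ≠ 2) : W p 4 + W p (-2) = 3 * W p (-1) := by
  have hd : p ∣ p ^ (1 + 1) := dvd_pow_self p (by norm_num)
  have hodd : Odd p := hp.1.odd_of_ne_two hp2
  have h1 := p_mul_W2 p hp2 4
  have h2 := p_mul_W2 p hp2 (-2)
  have h3 := p_mul_W2 p hp2 (-1)
  push_cast at h1 h2 h3
  rw [show (1 - 4 : ZMod (p ^ (1 + 1))) = -3 by norm_num, hodd.neg_pow] at h1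
  rw [show (1 - -2 : ZMod (p ^ (1 + 1))) = 3 by norm_num, hodd.neg_pow] at h2
  rw [show (1 - -1 : ZMod (p ^ (1 + 1))) = 2 by norm_num, hodd.neg_pow, one_pow] at h3
  have h5 : ((2 : ZMod (p ^ (1 + 1))) ^ p - 2) ^ 2 = 0 := by
    have h6 : (p : ℤ) ∣ (2 : ℤ) ^ p - 2 := by
      rw [← ZMod.intCast_zmod_eq_zero_iff_dvd]
      push_cast
      rw [ZMod.pow_card, sub_self]
    obtain ⟨c, hc⟩ := h6
    have h7 := congrArg (fun x : ℤ => (x : ZMod (p ^ (1 + 1)))) hc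
    push_cast at h7
    rw [h7, mul_pow]
    have h8 : (p : ZMod (p ^ (1 + 1))) ^ 2 = 0 := by
      rw [← Nat.cast_pow]; exact ZMod.natCast_self _
    rw [h8, zero_mul]
  have h9 : (p : ZMod (p ^ (1 + 1))) * (W2 p 4 + W2 p (-2) - 3 * W2 p (-1)) = 0 := by
    have h10 : (4 : ZMod (p ^ (1 + 1))) ^ p = (2 ^ p) ^ 2 := by
      rw [← pow_mul, mul_comm, pow_mul]; norm_num
    rw [h10] at h1
    linear_combination h1 + h2 - 3 * h3 - h5
  have h11 := castHom_eq_zero p _ h9 hd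
  rw [map_sub, map_add, map_mul, castHom_W2, castHom_W2, castHom_W2, map_ofNat, sub_eq_zero] at h11
  push_cast at h11
  exact h11

/-- `W(-ω) = 0` for a primitive cube root of unity -/
theorem W_omega (hp2 : p ≠ 2) (ω : ZMod p) (hω : ω ^ 2 + ω + 1 = 0) (h3 : (3 : ZMod p) ≠ 0) :
    W p (-ω) = 0 := by
  have hω0 : ω ≠ 0 := by
    rintro rfl
    simp at hω
  have h1 : (-ω)⁻¹ = 1 - (-ω) := by
    apply inv_eq_of_mul_eq_one_right
    linear_combination -hω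
  have h2 := W_inv p (-ω) (neg_ne_zero.2 hω0)
  rw [h1, W_one_sub p hp2] at h2
  have h4 : (1 - ω) * W p (-ω) = 0 := by linear_combination h2
  rcases mul_eq_zero.1 h4 with h5 | h5
  · exfalso
    have : ω = 1 := (sub_eq_zero.1 h5).symm
    rw [this] at hω
    norm_num at hω
    exact h3 hω
  · exact h5

/-- `W(-1) = H_ℓ - H_{2ℓ}` for `p = 6ℓ + 1`. -/
theorem W_neg_one (l : ℕ) (hl : p = 6 * l + 1) (hp2 : p ≠ 2) :
    W p (-1) = ∑ i ∈ range l, ((i + 1 : ℕ) : ZMod p)⁻¹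
      - ∑ i ∈ range (2 * l), ((i + 1 : ℕ) : ZMod p)⁻¹ := by
  have hp5 : 5 ≤ p := by
    have := hp.1.two_le
    have : l ≠ 0 := by rintro rfl; omega
    omega
  have h3 : (3 : ZMod p) ≠ 0 := by
    have : ((3 : ℕ) : ZMod p) ≠ 0 := by
      rw [Ne, ZMod.natCast_eq_zero_iff]
      exact Nat.not_dvd_of_pos_of_lt (by norm_num) (by omega)
    exact_mod_cast this
  have h2 : (2 : ZMod p) ≠ 0 := by
    have : ((2 : ℕ) : ZMod p) ≠ 0 := by
      rw [Ne, ZMod.natCast_eq_zero_iff]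
      exact Nat.not_dvd_of_pos_of_lt (by norm_num) (by omega)
    exact_mod_cast this
  -- primitive cube root of unity
  obtain ⟨ω, hω⟩ : ∃ ω : ZMod p, ω ^ 2 + ω + 1 = 0 := by
    have : Fact (Nat.Prime 3) := ⟨Nat.prime_three⟩
    obtain ⟨u, hu⟩ := exists_prime_orderOf_dvd_card (G := (ZMod p)ˣ) 3 (by
      rw [ZMod.card_units_eq_totient, Nat.totient_prime hp.1]
      omega)
    refine ⟨(u : ZMod p), ?_⟩
    have h4 : (u : ZMod p) ^ 3 = 1 := by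
      have h5 := pow_orderOf_eq_one u
      rw [hu] at h5
      rw [← Units.val_pow_eq_pow_val, h5, Units.val_one]
    have h5 : (u : ZMod p) ≠ 1 := by
      intro h
      have h6 : u = 1 := Units.ext h
      rw [h6, orderOf_one] at hu
      omega
    have h6 : ((u : ZMod p) - 1) * ((u : ZMod p) ^ 2 + (u : ZMod p) + 1) = 0 := by
      linear_combination h4
    exact (mul_eq_zero.1 h6).resolve_left (sub_ne_zero.2 h5)
  have hω3 : ω ^ 3 = 1 := by linear_combination (ω - 1) * hω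
  have hω2 : (ω ^ 2) ^ 2 + ω ^ 2 + 1 = 0 := by linear_combination (ω ^ 2 - ω + 1) * hω
  have e1 := W_omega p hp2 ω hω h3
  have e2 := W_omega p hp2 (ω ^ 2) hω2 h3
  have e3 : W p (-1) = ∑ i ∈ range p, (-1 : ZMod p) ^ i * (i : ZMod p)⁻¹ *
      (1 + ω ^ i + (ω ^ i) ^ 2) := by
    have : ∑ i ∈ range p, (-1 : ZMod p) ^ i * (i : ZMod p)⁻¹ * (1 + ω ^ i + (ω ^ i) ^ 2)
        = W p (-1) + W p (-ω) + W p (-ω ^ 2) := by
      rw [W, W, W, ← Finset.sum_add_distrib, ← Finset.sum_add_distrib]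
      refine Finset.sum_congr rfl fun i _ => ?_
      rw [neg_pow ω i, neg_pow (ω ^ 2) i, ← pow_mul, ← pow_mul, mul_comm 2 i]
      ring
    rw [this, e1, e2, add_zero, add_zero]
  have e4 : ∀ K : ℕ, ∀ g : ℕ → ZMod p, ∑ i ∈ range (3 * K + 1), g i
      = g 0 + ∑ k ∈ range K, (g (3 * k + 1) + g (3 * k + 2) + g (3 * k + 3)) := by
    intro K g
    induction K with
    | zero => simp
    | succ K ih =>
      rw [show 3 * (K + 1) + 1 = 3 * K + 1 + 1 + 1 + 1 by ring, Finset.sum_range_succ,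
        Finset.sum_range_succ, Finset.sum_range_succ, ih, Finset.sum_range_succ]
      ring
  have e5 := e4 (2 * l) (fun i : ℕ => (-1 : ZMod p) ^ i * (i : ZMod p)⁻¹ *
      (1 + ω ^ i + (ω ^ i) ^ 2))
  rw [show 3 * (2 * l) + 1 = p by omega] at e5
  rw [e3, e5]
  have e6 : ∀ k ∈ range (2 * l), (-1 : ZMod p) ^ (3 * k + 1) * ((3 * k + 1 : ℕ) : ZMod p)⁻¹ *
      (1 + ω ^ (3 * k + 1) + (ω ^ (3 * k + 1)) ^ 2) +
      (-1 : ZMod p) ^ (3 * k + 2) * ((3 * k + 2 : ℕ) : ZMod p)⁻¹ *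
      (1 + ω ^ (3 * k + 2) + (ω ^ (3 * k + 2)) ^ 2) +
      (-1 : ZMod p) ^ (3 * k + 3) * ((3 * k + 3 : ℕ) : ZMod p)⁻¹ *
      (1 + ω ^ (3 * k + 3) + (ω ^ (3 * k + 3)) ^ 2)
      = (-1) ^ (k + 1) * ((k + 1 : ℕ) : ZMod p)⁻¹ := by
    intro k _
    have f1 : ω ^ (3 * k + 1) = ω := by rw [pow_add, pow_mul, hω3]; simp
    have f2 : ω ^ (3 * k + 2) = ω ^ 2 := by rw [pow_add, pow_mul, hω3]; simp
    have f3 : ω ^ (3 * k + 3) = 1 := by rw [pow_add, pow_mul, hω3]; simp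
    have f4 : (3 : ZMod p) * ((3 * k + 3 : ℕ) : ZMod p)⁻¹ = ((k + 1 : ℕ) : ZMod p)⁻¹ := by
      rw [show 3 * k + 3 = 3 * (k + 1) by ring, Nat.cast_mul, mul_inv, ← mul_assoc]
      push_cast
      rw [mul_inv_cancel₀ h3, one_mul]
    have f5 : (-1 : ZMod p) ^ (3 * k + 3) = (-1) ^ (k + 1) := by
      rw [show 3 * k + 3 = (k + 1) + 2 * (k + 1) by ring, pow_add, pow_mul]
      simp
    rw [f1, f2, f3, f5, ← f4]
    linear_combination ((-1 : ZMod p) ^ (3 * k + 1) * ((3 * k + 1 : ℕ) : ZMod p)⁻¹) * hω +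
      ((-1 : ZMod p) ^ (3 * k + 2) * ((3 * k + 2 : ℕ) : ZMod p)⁻¹) * hω2
  rw [Finset.sum_congr rfl e6]
  have e7 : ∀ l : ℕ, ∑ k ∈ range (2 * l), (-1 : ZMod p) ^ (k + 1) * ((k + 1 : ℕ) : ZMod p)⁻¹
      = ∑ i ∈ range l, ((i + 1 : ℕ) : ZMod p)⁻¹
      - ∑ i ∈ range (2 * l), ((i + 1 : ℕ) : ZMod p)⁻¹ := by
    intro l
    induction l with
    | zero => simp
    | succ l ih =>
      rw [show 2 * (l + 1) = 2 * l + 1 + 1 by ring, Finset.sum_range_succ, Finset.sum_range_succ,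
        ih, Finset.sum_range_succ _ l, Finset.sum_range_succ _ (2 * l + 1),
        Finset.sum_range_succ _ (2 * l)]
      have g1 : (2 : ZMod p) * ((2 * l + 1 + 1 : ℕ) : ZMod p)⁻¹ = ((l + 1 : ℕ) : ZMod p)⁻¹ := by
        rw [show 2 * l + 1 + 1 = 2 * (l + 1) by ring, Nat.cast_mul, mul_inv, ← mul_assoc]
        push_cast
        rw [mul_inv_cancel₀ h2, one_mul]
      have g2 : (-1 : ZMod p) ^ (2 * l + 1) = -1 := by
        rw [pow_succ, pow_mul]; simp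
      have g3 : (-1 : ZMod p) ^ (2 * l + 1 + 1) = 1 := by
        rw [pow_succ, g2]; ring
      rw [g2, g3, ← g1]
      ring
  rw [e7]
  simp

end

end Pool.Agent.R902.FinLog
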