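import Pool.Agent.R902.Sym2

/-!
The numbers `g_n = ∑_k C(n,k)^2 C(2k,k) (-1)^k` and their binomial transforms.
-/

set_option linter.unusedSectionVars false

namespace Pool.Agent.R902.Franel1

open Finset Pool.Agent.R902.Sym2

/-- `g_n` -/
def g (n : ℕ) : ℤ := ∑ j ∈ range (n + 1), (n.choose j : ℤ) ^ 2 * ((2 * j).choose j : ℤ) * (-1) ^ j

/-- `x_{n+1}` -/
def X (n : ℕ) : ℤ := ∑ j ∈ range (n + 1), (n.choose j : ℤ) ^ 2 * (-1) ^ j *
  (5 * ((2 * j).choose j : ℤ) + 2 * n * (catalan j : ℤ))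

/-- `v_{n+1}` -/
def V (n : ℕ) : ℤ := ∑ j ∈ range (n + 1), ((n + 1).choose (j + 1) : ℤ) * (n.choose j : ℤ) *
  (catalan j : ℤ) * (-1) ^ j

theorem cb (j : ℕ) : ((2 * j).choose j : ℤ) = (j + 1) * (catalan j : ℤ) := by
  have := congrArg (fun x : ℕ => (x : ℤ)) (succ_mul_catalan_eq_centralBinom j)
  rw [Nat.centralBinom] at this
  push_cast at this
  linear_combination -this

theorem cb_succ (j : ℕ) : ((2 * (j + 1)).choose (j + 1) : ℤ) = 2 * (2 * j + 1) * (catalan j : ℤ) := by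
  have h1 := congrArg (fun x : ℕ => (x : ℤ)) (Nat.succ_mul_centralBinom_succ j)
  rw [Nat.centralBinom, Nat.centralBinom] at h1
  push_cast at h1
  have h2 := cb j
  have h3 : ((j : ℤ) + 1) ≠ 0 := by positivity
  apply mul_left_cancel₀ h3
  rw [h1, h2]
  ring

theorem choose_rel (n j : ℕ) : ((j : ℤ) + 1) * (n.choose (j + 1) : ℤ) = (n - j) * (n.choose j : ℤ) :=
    by
  rcases Nat.lt_or_ge n j with h | h
  · rw [Nat.choose_eq_zero_of_lt h, Nat.choose_eq_zero_of_lt (by omega : n < j + 1)]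
    simp
  · have h1 := congrArg (fun x : ℕ => (x : ℤ)) (Nat.choose_succ_right_eq n j)
    simp only [Nat.cast_mul] at h1
    rw [Nat.cast_sub h] at h1
    push_cast at h1
    linear_combination h1

/-- the telescoping relation -/
theorem Z (n : ℕ) : ∑ j ∈ range (n + 1), (n.choose j : ℤ) ^ 2 * (-1) ^ j * (catalan j : ℤ) *
    ((j : ℤ) ^ 2 * (j + 1) + 2 * (2 * j + 1) * (n - j) ^ 2) = 0 := by
  have h1 : ∑ j ∈ range (n + 1), (n.choose j : ℤ) ^ 2 * (-1) ^ j * (catalan j : ℤ) *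
      ((j : ℤ) ^ 2 * (j + 1)) = ∑ j ∈ range n, ((n.choose (j + 1) : ℤ) ^ 2 * (-1) ^ (j + 1) *
        ((j : ℤ) + 1) ^ 2 * ((2 * (j + 1)).choose (j + 1) : ℤ)) := by
    rw [Finset.sum_range_succ']
    simp only [Nat.cast_zero, ne_eq, OfNat.ofNat_ne_zero, not_false_eq_true, zero_pow, zero_mul,
      mul_zero, add_zero]
    refine Finset.sum_congr rfl fun j _ => ?_
    have := cb (j + 1)
    rw [this]
    push_cast
    ring
  have h2 : ∑ j ∈ range (n + 1), (n.choose j : ℤ) ^ 2 * (-1) ^ j * (catalan j : ℤ) *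
      (2 * (2 * j + 1) * (n - j) ^ 2) = -∑ j ∈ range n, ((n.choose (j + 1) : ℤ) ^ 2 *
        (-1) ^ (j + 1) * ((j : ℤ) + 1) ^ 2 * ((2 * (j + 1)).choose (j + 1) : ℤ)) := by
    rw [Finset.sum_range_succ, sub_self, ← Finset.sum_neg_distrib]
    simp only [ne_eq, OfNat.ofNat_ne_zero, not_false_eq_true, zero_pow, mul_zero, add_zero]
    refine Finset.sum_congr rfl fun j _ => ?_
    rw [cb_succ, pow_succ (-1 : ℤ) j]
    have h := choose_rel n j
    have h' : (((j : ℤ) + 1) * (n.choose (j + 1) : ℤ)) ^ 2 = ((n - j) * (n.choose j : ℤ)) ^ 2 := by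
      rw [h]
    linear_combination (-(-1) ^ j * (2 * (2 * j + 1) * (catalan j : ℤ))) * h'
  have h3 : ∑ j ∈ range (n + 1), (n.choose j : ℤ) ^ 2 * (-1) ^ j * (catalan j : ℤ) *
      ((j : ℤ) ^ 2 * (j + 1) + 2 * (2 * j + 1) * (n - j) ^ 2)
      = ∑ j ∈ range (n + 1), (n.choose j : ℤ) ^ 2 * (-1) ^ j * (catalan j : ℤ) *
        ((j : ℤ) ^ 2 * (j + 1)) + ∑ j ∈ range (n + 1), (n.choose j : ℤ) ^ 2 * (-1) ^ j *
        (catalan j : ℤ) * (2 * (2 * j + 1) * (n - j) ^ 2) := by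
    rw [← Finset.sum_add_distrib]
    refine Finset.sum_congr rfl fun j _ => by ring
  rw [h3, h1, h2]
  ring

theorem pred_choose (n j : ℕ) : ((n : ℤ) + 1) * (n.choose j : ℤ) = (n + 1 - j) *
    ((n + 1).choose j : ℤ) := by
  rcases Nat.lt_or_ge (n + 1) j with h | h
  · rw [Nat.choose_eq_zero_of_lt h, Nat.choose_eq_zero_of_lt (by omega : n < j)]
    simp
  · have h1 := congrArg (fun x : ℕ => (x : ℤ)) (Nat.choose_mul_succ_eq n j)
    simp only [Nat.cast_mul] at h1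
    rw [Nat.cast_sub h] at h1
    push_cast at h1
    linear_combination h1

theorem X_ext (n : ℕ) : X n = ∑ j ∈ range (n + 2), (n.choose j : ℤ) ^ 2 * (-1) ^ j *
    (5 * ((2 * j).choose j : ℤ) + 2 * n * (catalan j : ℤ)) := by
  rw [Finset.sum_range_succ _ (n + 1), Nat.choose_succ_self, X]
  simp

theorem V_ext (n : ℕ) : V n = ∑ j ∈ range (n + 2), ((n + 1).choose (j + 1) : ℤ) *
    (n.choose j : ℤ) * (catalan j : ℤ) * (-1) ^ j := by
  rw [Finset.sum_range_succ _ (n + 1), Nat.choose_succ_self, V]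
  simp

/-- first recurrence -/
theorem recI (m : ℕ) : ((m : ℤ) + 2) ^ 2 * X (m + 1) - (m + 1) ^ 2 * X m
    = (8 * (m + 1) ^ 2 + 12 * (m + 1) + 5) * g (m + 1) := by
  have hz := Z (m + 1)
  rw [X_ext m, X, g, Finset.mul_sum, Finset.mul_sum, Finset.mul_sum, ← Finset.sum_sub_distrib,
    ← sub_eq_zero, ← Finset.sum_sub_distrib, ← neg_eq_zero, ← Finset.sum_neg_distrib, ← hz]
  refine Finset.sum_congr rfl fun j _ => ?_
  have h1 := pred_choose m j
  have h2 : (((m : ℤ) + 1) * (m.choose j : ℤ)) ^ 2 = ((m + 1 - j) * ((m + 1).choose j : ℤ)) ^ 2 := by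
    rw [h1]
  rw [cb j]
  push_cast
  linear_combination ((-1) ^ j * (5 * ((j + 1) * (catalan j : ℤ)) + 2 * m * (catalan j : ℤ))) * h2

/-- second recurrence -/
theorem recII (m : ℕ) : ((m : ℤ) + 2) * (X (m + 1) + V (m + 1)) - (m + 1) * (X m + V m)
    = (8 * (m + 1) + 6) * g (m + 1) := by
  have hz := Z (m + 1)
  have hm : ((m : ℤ) + 1) ≠ 0 := by positivity
  apply mul_left_cancel₀ hm
  have e : ((m : ℤ) + 1) * (((m : ℤ) + 2) * (X (m + 1) + V (m + 1)) - (m + 1) * (X m + V m))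
      - ((m : ℤ) + 1) * ((8 * (m + 1) + 6) * g (m + 1)) = 0 := by
    rw [X_ext m, V_ext m, X, V, g, ← Finset.sum_add_distrib, ← Finset.sum_add_distrib,
      Finset.mul_sum, Finset.mul_sum, ← Finset.sum_sub_distrib, Finset.mul_sum, Finset.mul_sum,
      Finset.mul_sum, ← Finset.sum_sub_distrib, ← neg_eq_zero, ← Finset.sum_neg_distrib, ← hz]
    refine Finset.sum_congr rfl fun j _ => ?_
    have h1 := pred_choose m j
    have h2 : (((m : ℤ) + 1) * (m.choose j : ℤ)) ^ 2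
        = ((m + 1 - j) * ((m + 1).choose j : ℤ)) ^ 2 := by rw [h1]
    have h3 := congrArg (fun x : ℕ => (x : ℤ)) (Nat.add_one_mul_choose_eq (m + 1) j)
    have h4 : ((m + 1 + 1).choose (j + 1) : ℤ) = ((m + 1).choose j : ℤ)
        + ((m + 1).choose (j + 1) : ℤ) := by
      rw [Nat.choose_succ_succ']
      push_cast
      rfl
    push_cast at h3
    rw [cb j]
    push_cast
    rw [h4] at h3 ⊢
    generalize ((m + 1).choose (j + 1) : ℤ) = e at *
    generalize ((m + 1).choose j : ℤ) = a at *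
    generalize (m.choose j : ℤ) = b at *
    generalize (catalan j : ℤ) = c at *
    linear_combination ((-1) ^ j * (5 * ((j + 1) * c) + 2 * m * c)) * h2
      + ((m : ℤ) + 1) * (-1) ^ j * c * e * h1 + ((m : ℤ) + 1) * a * c * (-1) ^ j * h3
  linear_combination e

end Pool.Agent.R902.Franel1
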