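import Pool.Agent.R902.Franel1

/-!
Binomial transforms: `∑_m C(n,m) T_m = n^2 H_{n-1}`.
-/

set_option linter.unusedSectionVars false

namespace Pool.Agent.R902.Franel2

open Finset Pool.Agent.R902.Sym2 Pool.Agent.R902.Franel1

/-- `S_n` -/
def S (n : ℕ) : ℤ := ∑ k ∈ range (n - 2), (-1) ^ k * ((2 * k).choose k : ℤ) *
  ((n - 3).choose k : ℤ) * (k.choose (n - 3 - k) : ℤ)

/-- `T_m` -/
def T (m : ℕ) : ℤ := S (m + 2) + 12 * S (m + 1) + 16 * S m

/-- `f_m = S_{m+3}` -/
def f (m : ℕ) : ℤ := ∑ j ∈ range (m + 1), (-1) ^ j * ((2 * j).choose j : ℤ) *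
  (m.choose j : ℤ) * (j.choose (m - j) : ℤ)

theorem S_eq (m : ℕ) : S (m + 3) = f m := rfl

theorem S_zero : S 0 = 0 := rfl
theorem S_one : S 1 = 0 := rfl
theorem S_two : S 2 = 0 := rfl

/-- the binomial transform of `f` is `g` -/
theorem B_f (k : ℕ) : B f k = g k := by
  rw [B, g]
  have h1 : ∀ m ∈ range (k + 1), (k.choose m : ℤ) * f m = ∑ j ∈ range (k + 1),
      (k.choose m : ℤ) * ((-1) ^ j * ((2 * j).choose j : ℤ) * (m.choose j : ℤ) *
        (j.choose (m - j) : ℤ)) := by
    intro m hm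
    have hm := Finset.mem_range.1 hm
    rw [f, Finset.mul_sum]
    apply Finset.sum_subset (Finset.range_mono (by omega))
    intro j _ hj
    have hj : m + 1 ≤ j := by simpa using hj
    rw [Nat.choose_eq_zero_of_lt (by omega : m < j)]
    simp
  rw [Finset.sum_congr rfl h1, Finset.sum_comm]
  refine Finset.sum_congr rfl fun j hj => ?_
  have hj := Finset.mem_range.1 hj
  obtain ⟨l, rfl⟩ : ∃ l, k = j + l := ⟨k - j, by omega⟩
  -- inner sum
  have h2 : ∑ m ∈ range (j + l + 1), ((j + l).choose m : ℤ) * ((-1) ^ j *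
      ((2 * j).choose j : ℤ) * (m.choose j : ℤ) * (j.choose (m - j) : ℤ))
      = (-1) ^ j * ((2 * j).choose j : ℤ) * ((j + l).choose j : ℤ) *
        ∑ i ∈ range (l + 1), (l.choose i : ℤ) * (j.choose i : ℤ) := by
    rw [add_assoc, Finset.sum_range_add]
    have h0 : ∑ m ∈ range j, ((j + l).choose m : ℤ) * ((-1) ^ j *
        ((2 * j).choose j : ℤ) * (m.choose j : ℤ) * (j.choose (m - j) : ℤ)) = 0 := by
      apply Finset.sum_eq_zero
      intro m hm
      rw [Nat.choose_eq_zero_of_lt (Finset.mem_range.1 hm)]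
      simp
    rw [h0, zero_add, Finset.mul_sum]
    refine Finset.sum_congr rfl fun i hi => ?_
    have h := congrArg (fun x : ℕ => (x : ℤ)) (Nat.choose_mul (n := j + l) (k := j + i) (s := j)
      (by omega))
    rw [show j + l - j = l by omega, show j + i - j = i by omega] at h
    push_cast at h
    rw [show j + i - j = i by omega]
    linear_combination ((-1) ^ j * ((2 * j).choose j : ℤ) * (j.choose i : ℤ)) * h
  have h3 : ∑ i ∈ range (l + 1), (l.choose i : ℤ) * (j.choose i : ℤ) = ((j + l).choose j : ℤ) := by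
    have h4 := Nat.add_choose_eq j l j
    rw [h4, Finset.Nat.sum_antidiagonal_eq_sum_range_succ_mk]
    push_cast
    have e : ∀ N, l ≤ N → ∑ i ∈ range (l + 1), (l.choose i : ℤ) * (j.choose i : ℤ)
        = ∑ i ∈ range (N + 1), (l.choose i : ℤ) * (j.choose i : ℤ) := by
      intro N hN
      apply Finset.sum_subset (Finset.range_mono (by omega))
      intro i _ hi
      have hi : l + 1 ≤ i := by simpa using hi
      rw [Nat.choose_eq_zero_of_lt (by omega : l < i)]
      simp
    have e' : ∀ N, j ≤ N → ∑ i ∈ range (j + 1), (l.choose i : ℤ) * (j.choose i : ℤ)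
        = ∑ i ∈ range (N + 1), (l.choose i : ℤ) * (j.choose i : ℤ) := by
      intro N hN
      apply Finset.sum_subset (Finset.range_mono (by omega))
      intro i _ hi
      have hi : j + 1 ≤ i := by simpa using hi
      rw [Nat.choose_eq_zero_of_lt (by omega : j < i)]
      simp
    rw [e (l + j) (by omega), ← e' (l + j) (by omega), Nat.succ_eq_add_one,
      ← Finset.sum_range_reflect (fun x => ((j.choose x : ℕ) : ℤ) * ((l.choose (j - x) : ℕ) : ℤ))
        (j + 1)]
    refine Finset.sum_congr rfl fun i hi => ?_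
    have hi := Finset.mem_range.1 hi
    rw [show j + 1 - 1 - i = j - i by omega, Nat.choose_symm (by omega : i ≤ j),
      show j - (j - i) = i by omega]
    ring
  rw [h2, h3]
  ring

/-- `∑_{k<n} g_k` -/
def g1 (n : ℕ) : ℤ := ∑ k ∈ range n, g k

/-- `∑_{k<n} (8k^2+12k+5) g_k = n^2 x_n` -/
theorem sumI (m : ℕ) : ∑ k ∈ range (m + 1), (8 * (k : ℤ) ^ 2 + 12 * k + 5) * g k
    = ((m : ℤ) + 1) ^ 2 * X m := by
  induction m with
  | zero => simp [X, g]
  | succ m ih =>
    rw [Finset.sum_range_succ, ih]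
    have := recI m
    push_cast
    linear_combination -this

/-- `∑_{k<n} (8k+6) g_k = n (x_n+v_n)` -/
theorem sumII (m : ℕ) : ∑ k ∈ range (m + 1), (8 * (k : ℤ) + 6) * g k
    = ((m : ℤ) + 1) * (X m + V m) := by
  induction m with
  | zero => simp [X, V, g]
  | succ m ih =>
    rw [Finset.sum_range_succ, ih]
    have := recII m
    push_cast
    linear_combination -this

/-- `H_m` -/
def H (m : ℕ) : ℤ := 8 * g1 (m + 1) - X m - 2 * V m

theorem B_S2 (n : ℕ) : B (fun k => S (k + 2)) n = g1 n := by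
  induction n with
  | zero => simp [B, g1, S_two]
  | succ n ih =>
    rw [B_succ, ih]
    have : B (fun k => S (k + 1 + 2)) n = g n := by
      rw [← B_f]
      rfl
    rw [this, g1, g1, Finset.sum_range_succ]

theorem B_S1 (n : ℕ) : 4 * B (fun k => S (k + 1)) n = (4 * n - 1) * g1 n
    - ∑ k ∈ range n, (4 * (k : ℤ) + 3) * g k := by
  induction n with
  | zero => simp [B, g1, S_one]
  | succ n ih =>
    rw [B_succ, mul_add, ih]
    have : B (fun k => S (k + 1 + 1)) n = g1 n := B_S2 n
    rw [this, g1, g1, Finset.sum_range_succ, Finset.sum_range_succ]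
    push_cast
    ring

theorem B_T (n : ℕ) : B T n = 8 * (n : ℤ) ^ 2 * g1 n
    + ∑ k ∈ range n, (8 * (k : ℤ) ^ 2 + 12 * k + 5) * g k
    - 4 * n * ∑ k ∈ range n, (4 * (k : ℤ) + 3) * g k := by
  induction n with
  | zero => simp [B, T, S_zero, S_one, S_two]
  | succ n ih =>
    rw [B_succ, ih]
    have h1 : B (fun k => T (k + 1)) n = g n + 12 * g1 n + 16 * B (fun k => S (k + 1)) n := by
      have : (fun k => T (k + 1)) = fun k => (f k + 12 * S (k + 2)) + 16 * S (k + 1) := by
        funext k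
        rw [T, ← S_eq]
      rw [this, B_add, B_add, B_smul, B_smul, B_f, B_S2]
    have h2 := B_S1 n
    rw [h1, g1, g1, Finset.sum_range_succ, Finset.sum_range_succ, Finset.sum_range_succ]
    rw [g1] at h2
    push_cast
    linear_combination 4 * h2

/-- `∑_m C(n,m) T_m = n^2 H_{n-1}` -/
theorem B_T' (m : ℕ) : B T (m + 1) = ((m : ℤ) + 1) ^ 2 * H m := by
  rw [B_T, sumI, H]
  have h2 := sumII m
  have h3 : ∑ k ∈ range (m + 1), (8 * (k : ℤ) + 6) * g k
      = 2 * ∑ k ∈ range (m + 1), (4 * (k : ℤ) + 3) * g k := by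
    rw [Finset.mul_sum]
    refine Finset.sum_congr rfl fun k _ => by ring
  rw [h3] at h2
  push_cast
  linear_combination (-2 * ((m : ℤ) + 1)) * h2

theorem B_inv (w : ℕ → ℤ) (n : ℕ) : B (fun k => (-1) ^ k * B w k) n = (-1) ^ n * w n := by
  induction n generalizing w with
  | zero => simp [B]
  | succ n ih =>
    rw [B_succ, ih w]
    have : (fun k => (-1) ^ (k + 1) * B w (k + 1))
        = fun k => (-1) * ((-1) ^ k * B w k) + (-1) * ((-1) ^ k * B (fun i => w (i + 1)) k) := by
      funext k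
      rw [B_succ, pow_succ]
      ring
    rw [this, B_add, B_smul, B_smul, ih w, ih (fun i => w (i + 1)), pow_succ]
    ring

/-- `A(N) = ∑_{k ≤ N} (-1)^k T_k / k` -/
def A (N : ℕ) : ℚ := ∑ k ∈ Icc 1 N, (-1) ^ k * (T k : ℚ) / k

/-- evaluation of `A(N)` -/
theorem A_eq (N : ℕ) : A N = (N : ℚ) * ((∑ n ∈ range N, (-1) ^ (n + 1) * ((N - 1).choose n : ℤ) *
    H n : ℤ) : ℚ) := by
  have key : ∀ N, A N = ((∑ n ∈ range N, (-1) ^ (n + 1) * (N.choose (n + 1) : ℤ) *
      ((n + 1) * H n) : ℤ) : ℚ) := by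
    intro N
    induction N with
    | zero => simp [A]
    | succ N ih =>
      rw [A, Finset.sum_Icc_succ_top (by omega), ← A, ih]
      have h1 := B_inv T (N + 1)
      rw [B, Finset.sum_range_succ'] at h1
      have h2 : ((N + 1).choose 0 : ℤ) * ((-1) ^ 0 * B T 0) = 0 := by
        simp [B, T, S_zero, S_one, S_two]
      rw [h2, add_zero] at h1
      have h3 : ∑ k ∈ range (N + 1), ((N + 1).choose (k + 1) : ℤ) * ((-1) ^ (k + 1) * B T (k + 1))
          = ((N : ℤ) + 1) * ∑ k ∈ range (N + 1), (-1) ^ (k + 1) * (N.choose k : ℤ) *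
            ((k + 1) * H k) := by
        rw [Finset.mul_sum]
        refine Finset.sum_congr rfl fun k _ => ?_
        rw [B_T']
        have e := congrArg (fun x : ℕ => (x : ℤ)) (Nat.add_one_mul_choose_eq N k)
        push_cast at e
        linear_combination (-((-1) ^ (k + 1) * ((k : ℤ) + 1) * H k)) * e
      rw [h3] at h1
      have h4 : (∑ n ∈ range (N + 1), (-1) ^ (n + 1) * ((N + 1).choose (n + 1) : ℤ) *
          ((n + 1) * H n)) = (∑ n ∈ range N, (-1) ^ (n + 1) * (N.choose (n + 1) : ℤ) *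
          ((n + 1) * H n)) + ∑ k ∈ range (N + 1), (-1) ^ (k + 1) * (N.choose k : ℤ) *
            ((k + 1) * H k) := by
        have h5 : (∑ n ∈ range N, (-1) ^ (n + 1) * (N.choose (n + 1) : ℤ) * ((n + 1) * H n))
            = ∑ n ∈ range (N + 1), (-1) ^ (n + 1) * (N.choose (n + 1) : ℤ) * ((n + 1) * H n) := by
          rw [Finset.sum_range_succ, Nat.choose_succ_self]
          simp
        rw [h5, ← Finset.sum_add_distrib]
        refine Finset.sum_congr rfl fun n _ => ?_
        rw [Nat.choose_succ_succ']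
        push_cast
        ring
      rw [h4]
      have h6 : ((-1 : ℚ)) ^ (N + 1) * (T (N + 1) : ℚ) / ((N + 1 : ℕ) : ℚ)
          = ((∑ k ∈ range (N + 1), (-1) ^ (k + 1) * (N.choose k : ℤ) * ((k + 1) * H k) : ℤ) : ℚ) := by
        have h7 := congrArg (fun x : ℤ => (x : ℚ)) h1
        have h8 : (((N + 1 : ℕ)) : ℚ) ≠ 0 := by positivity
        rw [div_eq_iff h8]
        push_cast at h7 ⊢
        linear_combination -h7
      rw [h6]
      push_cast
      ring
  rw [key N]
  rcases N with _ | N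
  · simp
  · rw [Nat.add_sub_cancel]
    have : (∑ n ∈ range (N + 1), (-1) ^ (n + 1) * ((N + 1).choose (n + 1) : ℤ) * ((n + 1) * H n))
        = ((N : ℤ) + 1) * ∑ n ∈ range (N + 1), (-1) ^ (n + 1) * (N.choose n : ℤ) * H n := by
      rw [Finset.mul_sum]
      refine Finset.sum_congr rfl fun k _ => ?_
      have e := congrArg (fun x : ℕ => (x : ℤ)) (Nat.add_one_mul_choose_eq N k)
      push_cast at e
      linear_combination (-((-1) ^ (k + 1) * H k)) * e
    rw [this]
    push_cast
    ring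

end Pool.Agent.R902.Franel2
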