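import Mathlib

/-!
Small toolbox for supercongruences: computations in `ZMod (p ^ k)`.
-/

namespace Pool.Agent.R902

open Finset

/-- Sum over `range p` of a function of the residue equals the sum over `ZMod p`. -/
theorem sum_range_zmod {M : Type*} [AddCommMonoid M] (p : ℕ) [NeZero p] (f : ZMod p → M) :
    ∑ j ∈ range p, f (j : ZMod p) = ∑ x : ZMod p, f x := by
  refine Finset.sum_nbij' (fun j => (j : ZMod p)) ZMod.val ?_ ?_ ?_ ?_ ?_
  · intro j _; exact Finset.mem_univ _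
  · intro x _; exact Finset.mem_range.2 (ZMod.val_lt x)
  · intro j hj; exact ZMod.val_cast_of_lt (Finset.mem_range.1 hj)
  · intro x _; simp
  · intro j _; rfl

/-- Power sums vanish in `ZMod p` for exponents below `p - 1`. -/
theorem sum_range_pow (p : ℕ) [hp : Fact p.Prime] (i : ℕ) (h : i < p - 1) :
    ∑ j ∈ range p, (j : ZMod p) ^ i = 0 := by
  rw [sum_range_zmod p (fun x => x ^ i)]
  have := FiniteField.sum_pow_lt_card_sub_one (ZMod p) i (by rw [ZMod.card]; exact h)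
  exact this

/-- Negative power sums vanish in `ZMod p`. -/
theorem sum_range_inv_pow (p : ℕ) [hp : Fact p.Prime] (i : ℕ) (h0 : 0 < i) (h : i < p - 1) :
    ∑ j ∈ range p, ((j : ZMod p)⁻¹) ^ i = 0 := by
  rw [← sum_range_pow p (p - 1 - i) (by omega)]
  refine Finset.sum_congr rfl fun j _ => ?_
  by_cases hj : (j : ZMod p) = 0
  · rw [hj, inv_zero, zero_pow h0.ne', zero_pow (by omega)]
  · have h1 : (j : ZMod p) ^ (p - 1 - i) * (j : ZMod p) ^ i = 1 := by
      rw [← pow_add, show p - 1 - i + i = p - 1 by omega]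
      exact ZMod.pow_card_sub_one_eq_one hj
    rw [inv_pow]
    exact (eq_inv_of_mul_eq_one_left h1).symm

/-- If `x : ZMod (p ^ (a + b))` reduces to `0` modulo `p ^ b` then `p ^ a * x = 0`. -/
theorem pow_mul_eq_zero (p a b : ℕ) [hp : Fact p.Prime] (x : ZMod (p ^ (a + b)))
    (h : ZMod.castHom (pow_dvd_pow p (Nat.le_add_left b a)) (ZMod (p ^ b)) x = 0) :
    (p : ZMod (p ^ (a + b))) ^ a * x = 0 := by
  have : NeZero (p ^ (a + b)) := ⟨pow_ne_zero _ hp.1.ne_zero⟩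
  have hx : ((x.val : ℕ) : ZMod (p ^ (a + b))) = x := ZMod.natCast_zmod_val x
  have h2 : ((x.val : ℕ) : ZMod (p ^ b)) = 0 := by
    rw [← hx, map_natCast] at h
    exact h
  rw [ZMod.natCast_eq_zero_iff] at h2
  obtain ⟨c, hc⟩ := h2
  rw [← hx, hc]
  have : (((p ^ (a + b) : ℕ)) : ZMod (p ^ (a + b))) = 0 := ZMod.natCast_self _
  push_cast at this ⊢
  rw [← mul_assoc, ← pow_add, this, zero_mul]

theorem isUnit_natCast (p k j : ℕ) [hp : Fact p.Prime] (h0 : 0 < j) (h : j < p) :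
    IsUnit ((j : ℕ) : ZMod (p ^ k)) := by
  rw [ZMod.isUnit_iff_coprime]
  apply Nat.Coprime.pow_right
  exact ((Nat.Prime.coprime_iff_not_dvd hp.1).2 (Nat.not_dvd_of_pos_of_lt h0 h)).symm

/-- If `x : ZMod (p ^ (a + 1))` reduces to `0` modulo `p` then `p ^ a * x = 0`. -/
theorem pow_mul_eq_zero_one (p a : ℕ) [hp : Fact p.Prime] (x : ZMod (p ^ (a + 1)))
    (h : ZMod.castHom (dvd_pow_self p (Nat.succ_ne_zero a)) (ZMod p) x = 0) :
    (p : ZMod (p ^ (a + 1))) ^ a * x = 0 := by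
  have : NeZero (p ^ (a + 1)) := ⟨pow_ne_zero _ hp.1.ne_zero⟩
  have hx : ((x.val : ℕ) : ZMod (p ^ (a + 1))) = x := ZMod.natCast_zmod_val x
  have h2 : ((x.val : ℕ) : ZMod p) = 0 := by
    rw [← hx, map_natCast] at h
    exact h
  rw [ZMod.natCast_eq_zero_iff] at h2
  obtain ⟨c, hc⟩ := h2
  rw [← hx, hc]
  have : (((p ^ (a + 1) : ℕ)) : ZMod (p ^ (a + 1))) = 0 := ZMod.natCast_self _
  push_cast at this ⊢
  rw [← mul_assoc, ← pow_succ, this, zero_mul]

theorem mul_inv_natCast (p k j : ℕ) [hp : Fact p.Prime] (h0 : 0 < j) (h : j < p) :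
    ((j : ℕ) : ZMod (p ^ k)) * ((j : ℕ) : ZMod (p ^ k))⁻¹ = 1 :=
  ZMod.mul_inv_of_unit _ (isUnit_natCast p k j h0 h)

/-- Reduction modulo `p` commutes with inversion of `1 ≤ j < p`. -/
theorem castHom_inv (p k j : ℕ) [hp : Fact p.Prime] (h0 : 0 < j) (h : j < p)
    (hd : p ∣ p ^ k) :
    ZMod.castHom hd (ZMod p) (((j : ℕ) : ZMod (p ^ k))⁻¹) = ((j : ℕ) : ZMod p)⁻¹ := by
  have h1 := congrArg (ZMod.castHom hd (ZMod p)) (mul_inv_natCast p k j h0 h)
  rw [map_mul, map_natCast, map_one] at h1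
  exact eq_inv_of_mul_eq_one_right h1

/-- Negative power sums vanish in `ZMod p` when `p - 1` does not divide the exponent. -/
theorem sum_range_inv_pow' (p : ℕ) [hp : Fact p.Prime] (i : ℕ) (h : ¬ (p - 1) ∣ i) :
    ∑ j ∈ range p, ((j : ZMod p)⁻¹) ^ i = 0 := by
  have h0 : i ≠ 0 := by rintro rfl; exact h (dvd_zero _)
  rw [sum_range_zmod p (fun x => x⁻¹ ^ i)]
  have h1 : ∑ x : ZMod p, x⁻¹ ^ i = ∑ x : ZMod p, x ^ i := by
    refine Finset.sum_nbij' (fun x => x⁻¹) (fun x => x⁻¹) ?_ ?_ ?_ ?_ ?_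
    · intro x _; exact Finset.mem_univ _
    · intro x _; exact Finset.mem_univ _
    · intro x _; exact inv_inv x
    · intro x _; exact inv_inv x
    · intro x _; rfl
  rw [h1]
  have h2 := FiniteField.sum_pow_units (ZMod p) i
  rw [if_neg (by rw [ZMod.card]; exact h)] at h2
  rw [← h2]
  symm
  have h3 : ∑ x : ZMod p, x ^ i = ∑ x ∈ (Finset.univ : Finset (ZMod p)) \ {0}, x ^ i := by
    rw [← Finset.sum_sdiff (Finset.subset_univ ({0} : Finset (ZMod p))), Finset.sum_singleton,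
      zero_pow h0, add_zero]
  rw [h3]
  refine Finset.sum_bij (fun x _ => (x : ZMod p)) ?_ ?_ ?_ ?_
  · intro x _; simp
  · intro a _ b _ hab; exact Units.ext hab
  · intro b hb
    have hb0 : b ≠ 0 := by simpa using hb
    exact ⟨Units.mk0 b hb0, Finset.mem_univ _, rfl⟩
  · intro x _; rfl

theorem choose_prod_succ (n k : ℕ) :
    (k + 1) ^ 2 * (n.choose (k + 1) * (n + 1 + (k + 1)).choose (k + 1))
      = (n - k) * (n + 2 + k) * (n.choose k * (n + 1 + k).choose k) := by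
  have h2 := Nat.choose_succ_right_eq n k
  have h1 := Nat.add_one_mul_choose_eq (n + 1 + k) k
  calc (k + 1) ^ 2 * (n.choose (k + 1) * (n + 1 + (k + 1)).choose (k + 1))
      = (n.choose (k + 1) * (k + 1)) * ((n + 1 + k + 1).choose (k + 1) * (k + 1)) := by
        rw [show n + 1 + (k + 1) = n + 1 + k + 1 by ring]; ring
    _ = (n.choose k * (n - k)) * ((n + 1 + k + 1) * (n + 1 + k).choose k) := by rw [h2, ← h1]
    _ = _ := by ring

/-- In `ZMod (p^(a+2))`, `p = n+1`: `p^a (C(p-1,k) C(p+k,k))^2 = p^a` for `k ≤ p - 1`. -/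
theorem choose_prod_sq (n a : ℕ) [hp : Fact (n + 1).Prime] (k : ℕ) (hk : k ≤ n) :
    (((n + 1 : ℕ) : ZMod ((n + 1) ^ (a + 2)))) ^ a *
      ((n.choose k * (n + 1 + k).choose k : ℕ) : ZMod ((n + 1) ^ (a + 2))) ^ 2
      = (((n + 1 : ℕ) : ZMod ((n + 1) ^ (a + 2)))) ^ a := by
  have h5 : (((n + 1 : ℕ) : ZMod ((n + 1) ^ (a + 2)))) ^ a *
      (((n + 1 : ℕ) : ZMod ((n + 1) ^ (a + 2)))) ^ 2 = 0 := by
    rw [← pow_add, ← Nat.cast_pow]; exact ZMod.natCast_self _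
  induction k with
  | zero => simp
  | succ k ih =>
    have ih' := ih (by omega)
    have hu : IsUnit (((k + 1 : ℕ) : ZMod ((n + 1) ^ (a + 2))) ^ 4) :=
      (isUnit_natCast (n + 1) (a + 2) (k + 1) (by omega) (by omega)).pow 4
    apply hu.mul_left_cancel
    have h1 : ((k + 1 : ℕ) : ZMod ((n + 1) ^ (a + 2))) ^ 2 *
        ((n.choose (k + 1) * (n + 1 + (k + 1)).choose (k + 1) : ℕ) : ZMod ((n + 1) ^ (a + 2)))
        = (((n + 1 : ℕ) : ZMod ((n + 1) ^ (a + 2))) ^ 2 -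
            ((k + 1 : ℕ) : ZMod ((n + 1) ^ (a + 2))) ^ 2) *
          ((n.choose k * (n + 1 + k).choose k : ℕ) : ZMod ((n + 1) ^ (a + 2))) := by
      rw [← Nat.cast_pow, ← Nat.cast_mul, choose_prod_succ, Nat.cast_mul, Nat.cast_mul,
        Nat.cast_sub (by omega : k ≤ n)]
      push_cast
      ring
    generalize ((n.choose (k + 1) * (n + 1 + (k + 1)).choose (k + 1) : ℕ) :
      ZMod ((n + 1) ^ (a + 2))) = X at h1 ⊢
    generalize ((n.choose k * (n + 1 + k).choose k : ℕ) : ZMod ((n + 1) ^ (a + 2))) = Y at h1 ih'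
    generalize ((n + 1 : ℕ) : ZMod ((n + 1) ^ (a + 2))) = q at *
    generalize ((k + 1 : ℕ) : ZMod ((n + 1) ^ (a + 2))) = x at *
    calc x ^ 4 * (q ^ a * X ^ 2) = q ^ a * (x ^ 2 * X) ^ 2 := by ring
      _ = (q ^ 2 - x ^ 2) ^ 2 * (q ^ a * Y ^ 2) := by rw [h1]; ring
      _ = (q ^ 2 - x ^ 2) ^ 2 * q ^ a := by rw [ih']
      _ = x ^ 4 * q ^ a := by linear_combination (q ^ 2 - 2 * x ^ 2) * h5

end Pool.Agent.R902
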