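import Pool.Agent.R902.Franel2
import Pool.Agent.R902.ZM

/-!
The sum of `H_m` over `m < p` modulo `p`.
-/

set_option linter.unusedSectionVars false

namespace Pool.Agent.R902.Franel3

open Finset Polynomial Pool.Agent.R902 Pool.Agent.R902.Franel1 Pool.Agent.R902.Franel2

variable (p : ℕ) [hp : Fact p.Prime]

theorem split {M : Type*} [AddCommMonoid M] (F : ℕ → M) (q : ℕ) (h : 1 ≤ q) :
    ∑ i ∈ range q, F i = ∑ i ∈ range (q - 1), F i + F (q - 1) := by
  rw [← Finset.sum_range_succ, Nat.sub_add_cancel h]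

theorem sum_top : ∑ k ∈ range p, (k : ZMod p) ^ (p - 1) = -1 := by
  have hp2 := hp.1.two_le
  have h1 : ∑ k ∈ range p, (k : ZMod p) ^ (p - 1)
      = ∑ k ∈ Ico 1 p, (k : ZMod p) ^ (p - 1) := by
    rw [Finset.range_eq_Ico, Finset.sum_eq_sum_Ico_succ_bot hp.1.pos, Nat.cast_zero,
      zero_pow (by omega), zero_add, zero_add]
  have h4 : ∀ k ∈ Ico 1 p, (k : ZMod p) ^ (p - 1) = 1 := by
    intro k hk
    have hk := Finset.mem_Ico.1 hk
    apply ZMod.pow_card_sub_one_eq_one
    rw [Ne, ZMod.natCast_eq_zero_iff]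
    intro h
    have := Nat.le_of_dvd (by omega) h
    omega
  rw [h1, Finset.sum_congr rfl h4]
  simp
  rw [Nat.cast_sub (by omega), ZMod.natCast_self]
  simp

theorem sum_poly (P : (ZMod p)[X]) (h : P.natDegree < p) :
    ∑ k ∈ range p, P.eval (k : ZMod p) = -P.coeff (p - 1) := by
  have hp2 := hp.1.two_le
  have h1 : ∀ k ∈ range p, P.eval (k : ZMod p) = ∑ i ∈ range p, P.coeff i * (k : ZMod p) ^ i := by
    intro k _
    rw [eval_eq_sum_range' h]
  rw [Finset.sum_congr rfl h1, Finset.sum_comm]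
  simp only [← Finset.mul_sum]
  rw [split _ p hp.1.one_le, sum_top, Finset.sum_eq_zero]
  · ring
  · intro i hi
    have hi := Finset.mem_range.1 hi
    rw [sum_range_pow p i hi, mul_zero]

theorem fac_ne (j : ℕ) (h : j < p) : (j.factorial : ZMod p) ≠ 0 := by
  rw [Ne, ZMod.natCast_eq_zero_iff, hp.1.dvd_factorial]
  omega

theorem nat_ne (j : ℕ) (h0 : 0 < j) (h : j < p) : (j : ZMod p) ≠ 0 := by
  rw [Ne, ZMod.natCast_eq_zero_iff]
  intro h1
  have := Nat.le_of_dvd h0 h1
  omega

theorem eval_desc (j k : ℕ) : (descPochhammer (ZMod p) j).eval (k : ZMod p)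
    = (j.factorial : ZMod p) * (k.choose j : ZMod p) := by
  rw [descPochhammer_eval_eq_descFactorial, Nat.descFactorial_eq_factorial_mul_choose]
  push_cast
  rfl

theorem sum_sq_lt (n : ℕ) (hn : p = 2 * n + 1) (j : ℕ) (hj : j < n) :
    ∑ k ∈ range p, (k.choose j : ZMod p) ^ 2 = 0 ∧
    ∑ k ∈ range p, (k : ZMod p) * (k.choose j : ZMod p) ^ 2 = 0 := by
  have hf := fac_ne p j (by omega)
  have hd : (descPochhammer (ZMod p) j).natDegree = j := descPochhammer_natDegree _ _
  refine ⟨?_, ?_⟩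
  · apply mul_left_cancel₀ (pow_ne_zero 2 hf)
    rw [mul_zero, Finset.mul_sum]
    have h := sum_poly p ((descPochhammer (ZMod p) j) ^ 2) (by
      refine lt_of_le_of_lt (natDegree_pow_le) ?_
      rw [hd]
      omega)
    have hc : ((descPochhammer (ZMod p) j) ^ 2).coeff (p - 1) = 0 := by
      apply coeff_eq_zero_of_natDegree_lt
      refine lt_of_le_of_lt (natDegree_pow_le) ?_
      rw [hd]
      omega
    rw [hc, neg_zero] at h
    rw [← h]
    refine Finset.sum_congr rfl fun k _ => ?_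
    rw [eval_pow, eval_desc]
    ring
  · apply mul_left_cancel₀ (pow_ne_zero 2 hf)
    rw [mul_zero, Finset.mul_sum]
    have hdeg : (Polynomial.X * (descPochhammer (ZMod p) j) ^ 2).natDegree < p - 1 := by
      refine lt_of_le_of_lt natDegree_mul_le ?_
      have h1 := natDegree_pow_le (p := descPochhammer (ZMod p) j) (n := 2)
      rw [hd] at h1
      have h2 := natDegree_X_le (R := ZMod p)
      omega
    have h := sum_poly p (Polynomial.X * (descPochhammer (ZMod p) j) ^ 2) (by omega)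
    rw [coeff_eq_zero_of_natDegree_lt hdeg, neg_zero] at h
    rw [← h]
    refine Finset.sum_congr rfl fun k _ => ?_
    rw [eval_mul, eval_X, eval_pow, eval_desc]
    ring

theorem sum_sq_eq (n : ℕ) (hn : p = 2 * n + 1) :
    (n.factorial : ZMod p) ^ 2 * ∑ k ∈ range p, (k.choose n : ZMod p) ^ 2 = -1 := by
  have hd : (descPochhammer (ZMod p) n).natDegree = n := descPochhammer_natDegree _ _
  have hm := monic_descPochhammer (ZMod p) n
  have h := sum_poly p ((descPochhammer (ZMod p) n) ^ 2) (by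
    refine lt_of_le_of_lt (natDegree_pow_le) ?_
    rw [hd]
    omega)
  have hc : ((descPochhammer (ZMod p) n) ^ 2).coeff (p - 1) = 1 := by
    have h1 := (hm.pow 2).coeff_natDegree
    rw [hm.natDegree_pow, hd] at h1
    rw [show p - 1 = 2 * n by omega]
    exact h1
  rw [hc] at h
  rw [← h, Finset.mul_sum]
  refine Finset.sum_congr rfl fun k _ => ?_
  rw [eval_pow, eval_desc]
  ring

theorem choose_pred (k : ℕ) (hkp : k < p) : ((p - 1).choose k : ZMod p) = (-1) ^ k := by
  induction k with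
  | zero => simp
  | succ k ih =>
    have ih := ih (by omega)
    apply mul_left_cancel₀ (nat_ne p (k + 1) (by omega) hkp)
    have a3 := congrArg (fun x : ℕ => (x : ZMod p)) (Nat.choose_succ_right_eq (p - 1) k)
    simp only [Nat.cast_mul] at a3
    have hp1 : ((p - 1 : ℕ) : ZMod p) = -1 := by
      rw [Nat.cast_sub hp.1.one_le, ZMod.natCast_self]
      simp
    rw [Nat.cast_sub (by omega), ih, hp1] at a3
    push_cast at a3 ⊢
    rw [pow_succ]
    linear_combination a3

theorem cb_mid (n : ℕ) (hn : p = 2 * n + 1) : ((2 * n).choose n : ZMod p) = (-1) ^ n := by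
  have := choose_pred p n (by omega)
  rwa [show p - 1 = 2 * n by omega] at this

theorem cb_zero (j : ℕ) (h1 : p ≤ 2 * j) (h2 : j < p) : ((2 * j).choose j : ZMod p) = 0 := by
  rw [ZMod.natCast_eq_zero_iff, two_mul]
  exact hp.1.dvd_choose_add h2 h2 (by omega)

theorem sq_sum_mid (n : ℕ) (hn : p = 2 * n + 1) :
    ∑ k ∈ range p, (k.choose n : ZMod p) ^ 2 = (-1) ^ n := by
  have h := sum_sq_eq p n hn
  have h1 : ((2 * n).choose n : ZMod p) * (n.factorial : ZMod p) ^ 2 = -1 := by
    have h2 := Nat.choose_mul_factorial_mul_factorial (n := 2 * n) (k := n) (by omega)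
    rw [show 2 * n - n = n by omega] at h2
    have h3 := congrArg (fun x : ℕ => (x : ZMod p)) h2
    push_cast at h3
    have h4 := ZMod.wilsons_lemma p
    rw [show p - 1 = 2 * n by omega] at h4
    rw [h4] at h3
    linear_combination h3
  rw [cb_mid p n hn] at h1
  have h2 : ((-1 : ZMod p)) ^ n * (-1) ^ n = 1 := by rw [← mul_pow]; norm_num
  have hf := pow_ne_zero 2 (fac_ne p n (by omega))
  apply mul_left_cancel₀ hf
  linear_combination h - h1

theorem cat_zero (j : ℕ) (h1 : p ≤ 2 * j) (h2 : j + 1 < p) : ((catalan j : ℕ) : ZMod p) = 0 := by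
  have h3 := cb_zero p j h1 (by omega)
  have h4 := succ_mul_catalan_eq_centralBinom j
  rw [Nat.centralBinom] at h4
  rw [← h4] at h3
  push_cast at h3
  have h5 := nat_ne p (j + 1) (by omega) h2
  push_cast at h5
  exact (mul_eq_zero.1 h3).resolve_left h5

theorem cat_last (h3 : 3 ≤ p) : ((catalan (p - 1) : ℕ) : ZMod p) = -1 := by
  have h := congrArg (fun x : ℤ => (x : ZMod p)) (cb_succ (p - 1))
  rw [show p - 1 + 1 = p by omega] at h
  have h1 : ((2 * p).choose p : ZMod p) = 2 := by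
    have := Choose.choose_modEq_choose_mod_mul_choose_div_nat (n := 2 * p) (k := p) (p := p)
    rw [Nat.mul_mod_left, Nat.mod_self, Nat.div_self hp.1.pos, Nat.mul_div_cancel _ hp.1.pos] at this
    have h2 := (ZMod.natCast_eq_natCast_iff _ _ _).2 this
    rw [h2]
    norm_num
  push_cast at h
  rw [h1, Nat.cast_sub hp.1.one_le, ZMod.natCast_self] at h
  push_cast at h
  have u2 : (2 : ZMod p) ≠ 0 := by
    have := nat_ne p 2 (by norm_num) (by omega)
    exact_mod_cast this
  apply mul_left_cancel₀ u2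
  linear_combination h

/-- general evaluation: only `j = n` and `j = p-1` contribute -/
theorem pick (n : ℕ) (hn : p = 2 * n + 1) (hn1 : 1 ≤ n) (F : ℕ → ZMod p)
    (h1 : ∀ j < n, F j = 0) (h2 : ∀ j, n < j → j + 1 < p → F j = 0) :
    ∑ j ∈ range p, F j = F n + F (p - 1) := by
  rw [split F p hp.1.one_le]
  congr 1
  rw [Finset.sum_eq_single n]
  · intro j hj hjn
    have hj := Finset.mem_range.1 hj
    rcases Nat.lt_or_ge j n with h | h
    · exact h1 j h
    · exact h2 j (by omega) (by omega)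
  · intro h
    exact absurd (Finset.mem_range.2 (by omega)) h

theorem ext_g (k : ℕ) (hk : k < p) : ((g k : ℤ) : ZMod p) = ∑ j ∈ range p,
    (k.choose j : ZMod p) ^ 2 * ((2 * j).choose j : ZMod p) * (-1) ^ j := by
  rw [g]
  push_cast
  apply Finset.sum_subset (Finset.range_mono (by omega))
  intro j _ hj
  have hj : k + 1 ≤ j := by simpa using hj
  rw [Nat.choose_eq_zero_of_lt (by omega : k < j)]
  simp

theorem sum_g (n : ℕ) (hn : p = 2 * n + 1) (hn1 : 1 ≤ n) :
    ∑ k ∈ range p, ((g k : ℤ) : ZMod p) = (-1) ^ n := by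
  rw [Finset.sum_congr rfl fun k hk => ext_g p k (Finset.mem_range.1 hk), Finset.sum_comm]
  have h : ∀ j ∈ range p, ∑ k ∈ range p, (k.choose j : ZMod p) ^ 2 * ((2 * j).choose j : ZMod p) *
      (-1) ^ j = (∑ k ∈ range p, (k.choose j : ZMod p) ^ 2) * ((2 * j).choose j : ZMod p) *
      (-1) ^ j := by
    intro j _
    rw [Finset.sum_mul, Finset.sum_mul]
  rw [Finset.sum_congr rfl h, pick p n hn hn1]
  · rw [sq_sum_mid p n hn, cb_mid p n hn, cb_zero p (p - 1) (by omega) (by omega)]
    have h2 : ((-1 : ZMod p)) ^ n * (-1) ^ n = 1 := by rw [← mul_pow]; norm_num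
    linear_combination (-1) ^ n * h2
  · intro j hj
    rw [(sum_sq_lt p n hn j hj).1]
    ring
  · intro j hj hj'
    rw [cb_zero p j (by omega) (by omega)]
    ring

theorem sum_kg (n : ℕ) (hn : p = 2 * n + 1) (hn1 : 1 ≤ n) :
    ∑ k ∈ range p, (k : ZMod p) * ((g k : ℤ) : ZMod p)
      = ∑ k ∈ range p, (k : ZMod p) * (k.choose n : ZMod p) ^ 2 := by
  have h0 : ∀ k ∈ range p, (k : ZMod p) * ((g k : ℤ) : ZMod p) = ∑ j ∈ range p,
      (k : ZMod p) * ((k.choose j : ZMod p) ^ 2 * ((2 * j).choose j : ZMod p) * (-1) ^ j) := by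
    intro k hk
    rw [ext_g p k (Finset.mem_range.1 hk), Finset.mul_sum]
  rw [Finset.sum_congr rfl h0, Finset.sum_comm]
  have h : ∀ j ∈ range p, ∑ k ∈ range p, (k : ZMod p) * ((k.choose j : ZMod p) ^ 2 *
      ((2 * j).choose j : ZMod p) * (-1) ^ j)
      = (∑ k ∈ range p, (k : ZMod p) * (k.choose j : ZMod p) ^ 2) *
        ((2 * j).choose j : ZMod p) * (-1) ^ j := by
    intro j _
    rw [Finset.sum_mul, Finset.sum_mul]
    refine Finset.sum_congr rfl fun k _ => by ring
  rw [Finset.sum_congr rfl h, pick p n hn hn1]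
  · rw [cb_mid p n hn, cb_zero p (p - 1) (by omega) (by omega)]
    have h2 : ((-1 : ZMod p)) ^ n * (-1) ^ n = 1 := by rw [← mul_pow]; norm_num
    linear_combination (∑ k ∈ range p, (k : ZMod p) * (k.choose n : ZMod p) ^ 2) * h2
  · intro j hj
    rw [(sum_sq_lt p n hn j hj).2]
    ring
  · intro j hj hj'
    rw [cb_zero p j (by omega) (by omega)]
    ring

theorem rel_kg (n : ℕ) (hn : p = 2 * n + 1) (hn1 : 1 ≤ n) :
    4 * ∑ k ∈ range p, (k : ZMod p) * (k.choose n : ZMod p) ^ 2 = -3 * (-1) ^ n := by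
  have h := congrArg (fun x : ℤ => (x : ZMod p)) (sumII (p - 1))
  rw [Nat.sub_add_cancel hp.1.one_le] at h
  push_cast at h
  rw [Nat.cast_sub hp.1.one_le, ZMod.natCast_self] at h
  have h2 : ∑ k ∈ range p, (8 * (k : ZMod p) + 6) * ((g k : ℤ) : ZMod p)
      = 8 * ∑ k ∈ range p, (k : ZMod p) * ((g k : ℤ) : ZMod p)
        + 6 * ∑ k ∈ range p, ((g k : ℤ) : ZMod p) := by
    rw [Finset.mul_sum, Finset.mul_sum, ← Finset.sum_add_distrib]
    refine Finset.sum_congr rfl fun k _ => by ring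
  rw [h2, sum_kg p n hn hn1, sum_g p n hn hn1] at h
  have u2 : (2 : ZMod p) ≠ 0 := by
    have := nat_ne p 2 (by norm_num) (by omega)
    exact_mod_cast this
  apply mul_left_cancel₀ u2
  push_cast at h
  linear_combination h

theorem cat_mid (n : ℕ) (hn : p = 2 * n + 1) (hn1 : 1 ≤ n) :
    ((catalan n : ℕ) : ZMod p) * (-1) ^ n = 2 := by
  have h1 := congrArg (fun x : ℤ => (x : ZMod p)) (cb n)
  push_cast at h1
  rw [cb_mid p n hn] at h1
  have hp0 : (p : ZMod p) = 0 := ZMod.natCast_self p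
  have hpn : (p : ZMod p) = 2 * (n : ZMod p) + 1 := by
    have := congrArg (fun x : ℕ => (x : ZMod p)) hn
    simp only [Nat.cast_add, Nat.cast_mul, Nat.cast_ofNat, Nat.cast_one] at this
    exact this
  rw [hp0] at hpn
  have h2 : ((-1 : ZMod p)) ^ n * (-1) ^ n = 1 := by rw [← mul_pow]; norm_num
  linear_combination 2 * h2 - 2 * (-1) ^ n * h1 + ((catalan n : ℕ) : ZMod p) * (-1) ^ n * hpn

theorem sum_X (n : ℕ) (hn : p = 2 * n + 1) (hn1 : 1 ≤ n) :
    ∑ m ∈ range p, ((Franel1.X m : ℤ) : ZMod p) = 2 * (-1) ^ n + 2 := by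
  have h0 : ∀ m ∈ range p, ((Franel1.X m : ℤ) : ZMod p) = 5 * ((g m : ℤ) : ZMod p) + ∑ j ∈ range p,
      (m : ZMod p) * (m.choose j : ZMod p) ^ 2 * (2 * ((catalan j : ℕ) : ZMod p) * (-1) ^ j) := by
    intro m hm
    have hm := Finset.mem_range.1 hm
    rw [ext_g p m hm, Franel1.X, Finset.mul_sum, ← Finset.sum_add_distrib]
    push_cast
    have : ∀ j, (m.choose j : ZMod p) ^ 2 * (-1) ^ j * (5 * ((2 * j).choose j : ZMod p)
        + 2 * (m : ZMod p) * ((catalan j : ℕ) : ZMod p))
        = 5 * ((m.choose j : ZMod p) ^ 2 * ((2 * j).choose j : ZMod p) * (-1) ^ j)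
          + (m : ZMod p) * (m.choose j : ZMod p) ^ 2 *
            (2 * ((catalan j : ℕ) : ZMod p) * (-1) ^ j) := fun j => by ring
    simp only [this]
    apply Finset.sum_subset (Finset.range_mono (by omega))
    intro j _ hj
    have hj : m + 1 ≤ j := by simpa using hj
    rw [Nat.choose_eq_zero_of_lt (by omega : m < j)]
    simp
  rw [Finset.sum_congr rfl h0, Finset.sum_add_distrib, ← Finset.mul_sum, sum_g p n hn hn1,
    Finset.sum_comm]
  have h : ∀ j ∈ range p, ∑ m ∈ range p, (m : ZMod p) * (m.choose j : ZMod p) ^ 2 *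
      (2 * ((catalan j : ℕ) : ZMod p) * (-1) ^ j)
      = (∑ m ∈ range p, (m : ZMod p) * (m.choose j : ZMod p) ^ 2) *
        (2 * ((catalan j : ℕ) : ZMod p) * (-1) ^ j) := by
    intro j _
    rw [Finset.sum_mul]
  rw [Finset.sum_congr rfl h, pick p n hn hn1]
  · have e1 : ∑ m ∈ range p, (m : ZMod p) * (m.choose (p - 1) : ZMod p) ^ 2 = -1 := by
      rw [split _ p hp.1.one_le, Finset.sum_eq_zero]
      · rw [Nat.choose_self, Nat.cast_sub hp.1.one_le, ZMod.natCast_self]
        simp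
      · intro m hm
        rw [Nat.choose_eq_zero_of_lt (Finset.mem_range.1 hm)]
        simp
    have e2 : ((-1 : ZMod p)) ^ (p - 1) = 1 := by
      rw [show p - 1 = 2 * n by omega, pow_mul]
      norm_num
    have e3 := cat_mid p n hn hn1
    have e4 := rel_kg p n hn hn1
    rw [e1, cat_last p (by omega), e2]
    linear_combination 2 * (∑ m ∈ range p, (m : ZMod p) * (m.choose n : ZMod p) ^ 2) * e3 + e4
  · intro j hj
    rw [(sum_sq_lt p n hn j hj).2]
    ring
  · intro j hj hj'
    rw [cat_zero p j (by omega) hj']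
    ring

theorem sum_V (n : ℕ) (hn : p = 2 * n + 1) (hn1 : 1 ≤ n) :
    ∑ m ∈ range p, ((V m : ℤ) : ZMod p) = (-1) ^ n - 1 := by
  have h0 : ∀ m ∈ range p, ((V m : ℤ) : ZMod p) = ∑ j ∈ range p,
      ((m + 1).choose (j + 1) : ZMod p) * (m.choose j : ZMod p) *
        (((catalan j : ℕ) : ZMod p) * (-1) ^ j) := by
    intro m hm
    have hm := Finset.mem_range.1 hm
    rw [V]
    push_cast
    have : ∀ j, ((m + 1).choose (j + 1) : ZMod p) * (m.choose j : ZMod p) *
        ((catalan j : ℕ) : ZMod p) * (-1) ^ j = ((m + 1).choose (j + 1) : ZMod p) *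
        (m.choose j : ZMod p) * (((catalan j : ℕ) : ZMod p) * (-1) ^ j) := fun j => by ring
    simp only [this]
    apply Finset.sum_subset (Finset.range_mono (by omega))
    intro j _ hj
    have hj : m + 1 ≤ j := by simpa using hj
    rw [Nat.choose_eq_zero_of_lt (by omega : m < j)]
    simp
  rw [Finset.sum_congr rfl h0, Finset.sum_comm]
  have h : ∀ j ∈ range p, ∑ m ∈ range p, ((m + 1).choose (j + 1) : ZMod p) *
      (m.choose j : ZMod p) * (((catalan j : ℕ) : ZMod p) * (-1) ^ j)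
      = (∑ m ∈ range p, ((m + 1).choose (j + 1) : ZMod p) * (m.choose j : ZMod p)) *
        (((catalan j : ℕ) : ZMod p) * (-1) ^ j) := by
    intro j _
    rw [Finset.sum_mul]
  have inner : ∀ j : ℕ, ((j : ZMod p) + 1) * ∑ m ∈ range p, ((m + 1).choose (j + 1) : ZMod p) *
      (m.choose j : ZMod p) = (∑ m ∈ range p, (m : ZMod p) * (m.choose j : ZMod p) ^ 2)
        + ∑ m ∈ range p, (m.choose j : ZMod p) ^ 2 := by
    intro j
    rw [Finset.mul_sum, ← Finset.sum_add_distrib]
    refine Finset.sum_congr rfl fun m _ => ?_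
    have e := congrArg (fun x : ℕ => (x : ZMod p)) (Nat.add_one_mul_choose_eq m j)
    push_cast at e
    linear_combination (-(m.choose j : ZMod p)) * e
  rw [Finset.sum_congr rfl h, pick p n hn hn1]
  · have e1 : ∑ m ∈ range p, ((m + 1).choose (p - 1 + 1) : ZMod p) * (m.choose (p - 1) : ZMod p)
        = 1 := by
      rw [split _ p hp.1.one_le, Finset.sum_eq_zero]
      · rw [Nat.choose_self, Nat.choose_self]
        simp
      · intro m hm
        rw [Nat.choose_eq_zero_of_lt (Finset.mem_range.1 hm)]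
        simp
    have e2 : ((-1 : ZMod p)) ^ (p - 1) = 1 := by
      rw [show p - 1 = 2 * n by omega, pow_mul]
      norm_num
    have e3 := cat_mid p n hn hn1
    have e4 := rel_kg p n hn hn1
    have e5 := inner n
    have hp0 : (p : ZMod p) = 0 := ZMod.natCast_self p
    have hpn : (p : ZMod p) = 2 * (n : ZMod p) + 1 := by
      have := congrArg (fun x : ℕ => (x : ZMod p)) hn
      simp only [Nat.cast_add, Nat.cast_mul, Nat.cast_ofNat, Nat.cast_one] at this
      exact this
    rw [hp0] at hpn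
    rw [sq_sum_mid p n hn] at e5
    rw [e1, cat_last p (by omega), e2, e3]
    linear_combination 4 * e5 + e4 + 2 *
      (∑ m ∈ range p, ((m + 1).choose (n + 1) : ZMod p) * (m.choose n : ZMod p)) * hpn
  · intro j hj
    have e := inner j
    rw [(sum_sq_lt p n hn j hj).2, (sum_sq_lt p n hn j hj).1, add_zero] at e
    have h5 := nat_ne p (j + 1) (by omega) (by omega)
    push_cast at h5
    rw [(mul_eq_zero.1 e).resolve_left h5]
    ring
  · intro j hj hj'
    rw [cat_zero p j (by omega) hj']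
    ring

theorem sum_g1 (n : ℕ) (hn : p = 2 * n + 1) (hn1 : 1 ≤ n) :
    4 * ∑ m ∈ range p, ((g1 (m + 1) : ℤ) : ZMod p) = 3 * (-1) ^ n := by
  have key : ∀ N : ℕ, ∑ m ∈ range N, g1 (m + 1) = N * ∑ k ∈ range N, g k
      - ∑ k ∈ range N, (k : ℤ) * g k := by
    intro N
    induction N with
    | zero => simp
    | succ N ih =>
      rw [Finset.sum_range_succ, ih, g1, Finset.sum_range_succ, Finset.sum_range_succ]
      push_cast
      ring
  have h := congrArg (fun x : ℤ => (x : ZMod p)) (key p)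
  push_cast at h
  rw [ZMod.natCast_self, sum_kg p n hn hn1] at h
  have e4 := rel_kg p n hn hn1
  linear_combination 4 * h - e4

/-- the total -/
theorem sum_H (n : ℕ) (hn : p = 2 * n + 1) (hn1 : 1 ≤ n) :
    ∑ m ∈ range p, ((H m : ℤ) : ZMod p) = 2 * (-1) ^ n := by
  have h0 : ∀ m ∈ range p, ((H m : ℤ) : ZMod p) = 8 * ((g1 (m + 1) : ℤ) : ZMod p)
      - ((Franel1.X m : ℤ) : ZMod p) - 2 * ((V m : ℤ) : ZMod p) := by
    intro m _
    rw [H]
    push_cast
    ring
  rw [Finset.sum_congr rfl h0, Finset.sum_sub_distrib, Finset.sum_sub_distrib, ← Finset.mul_sum,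
    ← Finset.mul_sum, sum_X p n hn hn1, sum_V p n hn hn1]
  have h := sum_g1 p n hn hn1
  linear_combination 2 * h

theorem final (n : ℕ) (hn : p = 2 * n + 1) (hn1 : 1 ≤ n) :
    ∑ m ∈ range p, (-1) ^ (m + 1) * ((p - 1).choose m : ZMod p) * ((H m : ℤ) : ZMod p)
      = 2 * (-1) ^ (n + 1) := by
  have h0 : ∀ m ∈ range p, (-1) ^ (m + 1) * ((p - 1).choose m : ZMod p) * ((H m : ℤ) : ZMod p)
      = -((H m : ℤ) : ZMod p) := by
    intro m hm
    rw [choose_pred p m (Finset.mem_range.1 hm)]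
    have h2 : ((-1 : ZMod p)) ^ m * (-1) ^ m = 1 := by rw [← mul_pow]; norm_num
    rw [pow_succ]
    linear_combination (-((H m : ℤ) : ZMod p)) * h2
  rw [Finset.sum_congr rfl h0, Finset.sum_neg_distrib, sum_H p n hn hn1]
  ring

end Pool.Agent.R902.Franel3
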