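import Mathlib

/-!
The exact identity for `∑_{k<n} k C(6k,3k) C(3k,k) / 864^k` coming from the quadratic
transformation of the Gauss hypergeometric function.
-/

namespace Pool.Agent.R902.Half1

open Finset

/-- `(1/12)_k (5/12)_k / (k!)^2` -/
def c (k : ℕ) : ℚ := ∏ j ∈ range k, ((12 * (j : ℚ) + 1) * (12 * j + 5) / (144 * ((j : ℚ) + 1) ^ 2))

theorem c_zero : c 0 = 1 := by simp [c]

theorem c_succ (k : ℕ) : 144 * ((k : ℚ) + 1) ^ 2 * c (k + 1) = (12 * k + 1) * (12 * k + 5) * c k := by
  rw [c, Finset.prod_range_succ, ← c]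
  field_simp

/-- `(1/6)_k (5/6)_k / (k!)^2` -/
def b (k : ℕ) : ℚ := ((6 * k).choose (3 * k) : ℚ) * ((3 * k).choose k : ℚ) / 432 ^ k

theorem b_zero : b 0 = 1 := by simp [b]

theorem b_fac (k : ℕ) : b k * ((3 * k).factorial * (2 * k).factorial * (k.factorial : ℚ))
    = ((6 * k).factorial : ℚ) / 432 ^ k := by
  have h1 := Nat.choose_mul_factorial_mul_factorial (n := 6 * k) (k := 3 * k) (by omega)
  have h2 := Nat.choose_mul_factorial_mul_factorial (n := 3 * k) (k := k) (by omega)
  rw [show 6 * k - 3 * k = 3 * k by omega] at h1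
  rw [show 3 * k - k = 2 * k by omega] at h2
  have h1' := congrArg (fun x : ℕ => (x : ℚ)) h1
  have h2' := congrArg (fun x : ℕ => (x : ℚ)) h2
  push_cast at h1' h2'
  rw [b, ← h1']
  have h3 : ((3 * k).factorial : ℚ) ≠ 0 := by exact_mod_cast (Nat.factorial_ne_zero _)
  field_simp
  linear_combination ((6 * k).choose (3 * k) : ℚ) * h2'

theorem fac6 (k : ℕ) : ((6 * (k + 1)).factorial : ℚ) = (6 * k + 6) * (6 * k + 5) * (6 * k + 4) *
    (6 * k + 3) * (6 * k + 2) * (6 * k + 1) * ((6 * k).factorial : ℚ) := by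
  rw [show 6 * (k + 1) = 6 * k + 1 + 1 + 1 + 1 + 1 + 1 by ring]
  repeat rw [Nat.factorial_succ]
  push_cast
  ring

theorem fac3 (k : ℕ) : ((3 * (k + 1)).factorial : ℚ) = (3 * k + 3) * (3 * k + 2) * (3 * k + 1) *
    ((3 * k).factorial : ℚ) := by
  rw [show 3 * (k + 1) = 3 * k + 1 + 1 + 1 by ring]
  repeat rw [Nat.factorial_succ]
  push_cast
  ring

theorem fac2 (k : ℕ) : ((2 * (k + 1)).factorial : ℚ) = (2 * k + 2) * (2 * k + 1) *
    ((2 * k).factorial : ℚ) := by
  rw [show 2 * (k + 1) = 2 * k + 1 + 1 by ring]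
  repeat rw [Nat.factorial_succ]
  push_cast
  ring

theorem b_succ (k : ℕ) : 36 * ((k : ℚ) + 1) ^ 2 * b (k + 1) = (6 * k + 1) * (6 * k + 5) * b k := by
  have h1 := b_fac k
  have h2 := b_fac (k + 1)
  rw [fac6, fac3, fac2, Nat.factorial_succ, pow_succ] at h2
  push_cast at h2
  have e0 : ((6 * k).factorial : ℚ) = 432 ^ k * (b k * ((3 * k).factorial * (2 * k).factorial *
      (k.factorial : ℚ))) := by
    rw [h1]
    field_simp
  rw [e0] at h2
  have h3 : ((3 * k).factorial : ℚ) ≠ 0 := by exact_mod_cast (Nat.factorial_ne_zero _)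
  have h4 : ((2 * k).factorial : ℚ) ≠ 0 := by exact_mod_cast (Nat.factorial_ne_zero _)
  have h5 : (k.factorial : ℚ) ≠ 0 := by exact_mod_cast (Nat.factorial_ne_zero _)
  have h6 : (3 * (k : ℚ) + 1) ≠ 0 := by positivity
  have h7 : (3 * (k : ℚ) + 2) ≠ 0 := by positivity
  have h8 : (2 * (k : ℚ) + 1) ≠ 0 := by positivity
  have h9 : ((k : ℚ) + 1) ≠ 0 := by positivity
  have h10 : (3 * (k : ℚ) + 3) ≠ 0 := by positivity
  have h11 : (2 * (k : ℚ) + 2) ≠ 0 := by positivity
  have h12 : (432 : ℚ) ^ k ≠ 0 := by positivity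
  field_simp at h2
  have h13 : (3 * (k : ℚ) + 1) * (3 * k + 2) * (2 * k + 1) ≠ 0 := by positivity
  apply mul_left_cancel₀ h13
  linear_combination (1 / 72 : ℚ) * h2

/-- the coefficient of `x^m` in `(4x(1-x))^k` -/
def P (m k : ℕ) : ℚ := if k ≤ m then 4 ^ k * (-1) ^ (m - k) * (k.choose (m - k) : ℚ) else 0

theorem P_gt {m k : ℕ} (h : m < k) : P m k = 0 := by rw [P, if_neg (by omega)]

theorem P_add (k d : ℕ) : P (k + d) k = 4 ^ k * (-1) ^ d * (k.choose d : ℚ) := by
  rw [P, if_pos (by omega), show k + d - k = d by omega]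

theorem P_self (k : ℕ) : P k k = 4 ^ k := by
  have := P_add k 0
  simpa using this

theorem P_zero_right (m : ℕ) : P (m + 1) 0 = 0 := by
  have := P_add 0 (m + 1)
  rw [zero_add] at this
  rw [this]
  simp

theorem choose_rec (k d : ℕ) : ((d : ℚ) + 1) * (k.choose (d + 1) : ℚ) = (k - d) * (k.choose d : ℚ) := by
  rcases Nat.lt_or_ge k d with h | h
  · rw [Nat.choose_eq_zero_of_lt h, Nat.choose_eq_zero_of_lt (by omega)]
    simp
  · have := congrArg (fun x : ℕ => (x : ℚ)) (Nat.choose_succ_right_eq k d)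
    simp only [Nat.cast_mul, Nat.cast_sub h] at this
    push_cast at this
    linear_combination this

theorem choose_rec' (k d : ℕ) : ((k : ℚ) + 1 - d) * ((k + 1).choose d : ℚ)
    = (k + 1) * (k.choose d : ℚ) := by
  cases d with
  | zero => simp
  | succ d =>
    have h1 := congrArg (fun x : ℕ => (x : ℚ)) (Nat.add_one_mul_choose_eq k d)
    have h2 := choose_rec k d
    have h3 : ((k + 1).choose (d + 1) : ℚ) = (k.choose d : ℚ) + (k.choose (d + 1) : ℚ) := by
      rw [Nat.choose_succ_succ]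
      push_cast
      ring
    rw [h3]
    push_cast
    linear_combination (-1 : ℚ) * h2

/-- step in `m` -/
theorem P_step (m k : ℕ) : ((m : ℚ) + 1 - k) * P (m + 1) k = -(2 * k - m) * P m k := by
  rcases Nat.lt_or_ge m k with h | h
  · rw [P_gt h]
    rcases Nat.lt_or_ge (m + 1) k with h1 | h1
    · rw [P_gt h1]
      ring
    · obtain rfl : k = m + 1 := by omega
      push_cast
      ring
  · obtain ⟨d, rfl⟩ := Nat.exists_eq_add_of_le h
    rw [add_assoc, P_add, P_add]
    have h1 := choose_rec k d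
    push_cast
    rw [pow_succ]
    linear_combination (-4 ^ k * (-1) ^ d) * h1

/-- the key relation -/
theorem P_rel (m k : ℕ) : 36 * ((m : ℚ) + 1) ^ 2 * P (m + 1) (k + 1)
    - (6 * m + 1) * (6 * m + 5) * P m (k + 1)
    = 144 * ((k : ℚ) + 1) ^ 2 * P m k
      - (12 * (k + 1) + 1) * (12 * (k + 1) + 5) * P m (k + 1) := by
  rcases Nat.lt_or_ge m (k + 1) with h | h
  · rw [P_gt h]
    rcases Nat.lt_or_ge m k with h1 | h1
    · rw [P_gt h1, P_gt (by omega)]
      ring
    · obtain rfl : k = m := by omega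
      rw [P_self, P_self]
      ring
  · obtain ⟨d, rfl⟩ := Nat.exists_eq_add_of_le h
    rw [show k + 1 + d + 1 = (k + 1) + (d + 1) by ring, P_add (k + 1) (d + 1), P_add (k + 1) d,
      show k + 1 + d = k + (d + 1) by ring, P_add k (d + 1)]
    have h1 := choose_rec (k + 1) d
    have h2 := choose_rec' k (d + 1)
    push_cast at h1 h2 ⊢
    rw [pow_succ, pow_succ]
    linear_combination (-144 * 4 ^ k * (-1) ^ d * (3 * (k + 1) + d + 1)) * h1
      - (144 * 4 ^ k * (-1) ^ d * (k + 1)) * h2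

theorem P_rel_zero (m : ℕ) : 36 * ((m : ℚ) + 1) ^ 2 * P (m + 1) 0
    - (6 * m + 1) * (6 * m + 5) * P m 0 = - (1 * 5) * P m 0 := by
  rw [P_zero_right]
  cases m with
  | zero => norm_num
  | succ m => rw [P_zero_right]; ring

/-- the quadratic transformation, coefficientwise -/
theorem b_eq (m : ℕ) : b m = ∑ k ∈ range (m + 1), P m k * c k := by
  induction m with
  | zero => simp [b_zero, c_zero, P]
  | succ m ih =>
    have hm : 36 * ((m : ℚ) + 1) ^ 2 ≠ 0 := by positivity
    apply mul_left_cancel₀ hm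
    rw [b_succ, ih]
    -- telescoping
    have tel : ∀ K : ℕ, ∑ k ∈ range (K + 1), (36 * ((m : ℚ) + 1) ^ 2 * P (m + 1) k
        - (6 * m + 1) * (6 * m + 5) * P m k) * c k
        = -(12 * K + 1) * (12 * K + 5) * c K * P m K := by
      intro K
      induction K with
      | zero =>
        rw [Finset.sum_range_one, P_rel_zero]
        push_cast
        ring
      | succ K ihK =>
        rw [Finset.sum_range_succ, ihK, P_rel]
        have := c_succ K
        push_cast
        linear_combination (P m K) * this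
    have h := tel (m + 1)
    rw [P_gt (Nat.lt_succ_self m), mul_zero] at h
    have h2 : ∑ k ∈ range (m + 1 + 1), (36 * ((m : ℚ) + 1) ^ 2 * P (m + 1) k
        - (6 * m + 1) * (6 * m + 5) * P m k) * c k
        = 36 * ((m : ℚ) + 1) ^ 2 * ∑ k ∈ range (m + 1 + 1), P (m + 1) k * c k
          - (6 * m + 1) * (6 * m + 5) * ∑ k ∈ range (m + 1 + 1), P m k * c k := by
      rw [Finset.mul_sum, Finset.mul_sum, ← Finset.sum_sub_distrib]
      refine Finset.sum_congr rfl fun k _ => by ring
    rw [h2, Finset.sum_range_succ (fun k => P m k * c k), P_gt (Nat.lt_succ_self m)] at h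
    linear_combination -h

/-- partial sums in `m` -/
theorem P_sum (n k : ℕ) : ∑ m ∈ range n, (m : ℚ) * P m k / 2 ^ m
    = -2 * (n - k) * P n k / 2 ^ n := by
  induction n with
  | zero =>
    rcases Nat.eq_zero_or_pos k with h | h
    · subst h; simp
    · rw [P_gt h]; simp
  | succ n ih =>
    rw [Finset.sum_range_succ, ih, pow_succ]
    have h := P_step n k
    push_cast
    field_simp
    linear_combination h

/-- the sum `W_n` -/
def W (n : ℕ) : ℚ := ∑ k ∈ range n, ((n : ℚ) - k) * P n k * c k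

/-- the exact formula -/
theorem S_eq (n : ℕ) : ∑ m ∈ range n, (m : ℚ) * b m / 2 ^ m = -2 * W n / 2 ^ n := by
  have h1 : ∀ m ∈ range n, (m : ℚ) * b m / 2 ^ m
      = ∑ k ∈ range n, ((m : ℚ) * P m k / 2 ^ m) * c k := by
    intro m hm
    have hm := Finset.mem_range.1 hm
    rw [b_eq]
    have : ∑ k ∈ range (m + 1), P m k * c k = ∑ k ∈ range n, P m k * c k := by
      apply Finset.sum_subset (Finset.range_mono (by omega))
      intro k _ hk
      have hk : m + 1 ≤ k := by simpa using hk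
      rw [P_gt (by omega)]
      ring
    rw [this, Finset.mul_sum, Finset.sum_div]
    refine Finset.sum_congr rfl fun k _ => by ring
  rw [Finset.sum_congr rfl h1, Finset.sum_comm]
  have h2 : ∀ k ∈ range n, ∑ m ∈ range n, ((m : ℚ) * P m k / 2 ^ m) * c k
      = (-2 / 2 ^ n) * (((n : ℚ) - k) * P n k * c k) := by
    intro k _
    rw [← Finset.sum_mul, P_sum]
    ring
  rw [Finset.sum_congr rfl h2, ← Finset.mul_sum, W]
  ring

end Pool.Agent.R902.Half1
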