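import Mathlib

/-!
Elementary estimates for the `p`-adic norm on the rationals.
-/

set_option linter.unusedSectionVars false

namespace Pool.Agent.R902.NormP

variable {p : ℕ} [hp : Fact p.Prime]

theorem N_add {x y t : ℚ} (hx : padicNorm p x ≤ t) (hy : padicNorm p y ≤ t) :
    padicNorm p (x + y) ≤ t :=
  padicNorm.nonarchimedean.trans (max_le hx hy)

theorem N_sub {x y t : ℚ} (hx : padicNorm p x ≤ t) (hy : padicNorm p y ≤ t) :
    padicNorm p (x - y) ≤ t := by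
  rw [sub_eq_add_neg]
  exact N_add hx (by rw [padicNorm.neg]; exact hy)

theorem N_mul (x y : ℚ) : padicNorm p (x * y) = padicNorm p x * padicNorm p y :=
  padicNorm.mul x y

theorem N_nonneg (x : ℚ) : 0 ≤ padicNorm p x := padicNorm.nonneg x

theorem N_nat (n : ℕ) : padicNorm p (n : ℚ) ≤ 1 := by
  have := padicNorm.of_int (p := p) (n : ℤ)
  simpa using this

theorem N_int (n : ℤ) : padicNorm p (n : ℚ) ≤ 1 := padicNorm.of_int n

theorem N_pow (x : ℚ) (k : ℕ) : padicNorm p (x ^ k) = padicNorm p x ^ k := by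
  induction k with
  | zero => simp
  | succ k ih => rw [pow_succ, N_mul, ih, pow_succ]

theorem N_p : padicNorm p (p : ℚ) = 1 / p := by
  have := padicNorm.padicNorm_p_of_prime (p := p)
  rw [this, one_div]

theorem N_nat_one {n : ℕ} (h : ¬ p ∣ n) : padicNorm p (n : ℚ) = 1 := by
  have := (padicNorm.int_eq_one_iff (p := p) (n : ℤ)).2 (by exact_mod_cast h)
  simpa using this

theorem N_pos {x : ℚ} (h : x ≠ 0) : 0 < padicNorm p x :=
  lt_of_le_of_ne (N_nonneg x) (Ne.symm (padicNorm.nonzero h))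

theorem N_one_of {x d : ℚ} (h : padicNorm p (x - 1) ≤ d) (hd : d < 1) : padicNorm p x = 1 := by
  have h1 : padicNorm p (1 : ℚ) = 1 := by simp
  have h2 : padicNorm p (x - 1) ≠ padicNorm p 1 := by
    rw [h1]; exact (lt_of_le_of_lt h hd).ne
  have h3 := padicNorm.add_eq_max_of_ne h2
  rw [sub_add_cancel] at h3
  rw [h3]
  exact (max_eq_right (lt_of_le_of_lt h (hd.trans_eq h1.symm)).le).trans h1

theorem un_mul {x y d : ℚ} (hx : padicNorm p (x - 1) ≤ d) (hy : padicNorm p (y - 1) ≤ d)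
    (hd : d < 1) : padicNorm p (x * y - 1) ≤ d := by
  have : x * y - 1 = (x - 1) * y + (y - 1) := by ring
  rw [this]
  refine N_add ?_ hy
  rw [N_mul, N_one_of hy hd, mul_one]
  exact hx

theorem un_div {x y d : ℚ} (hx : padicNorm p (x - 1) ≤ d) (hy : padicNorm p (y - 1) ≤ d)
    (hd : d < 1) : padicNorm p (x / y - 1) ≤ d := by
  have hy1 := N_one_of hy hd
  have hy0 : y ≠ 0 := by
    rintro rfl
    simp at hy1
  have h1 : padicNorm p (x / y - 1) * padicNorm p y = padicNorm p (x - y) := by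
    rw [← N_mul]
    congr 1
    field_simp
  rw [hy1, mul_one] at h1
  rw [h1, show x - y = (x - 1) - (y - 1) by ring]
  exact N_sub hx hy

theorem un_prod (f : ℕ → ℚ) (k : ℕ) {d : ℚ} (h0 : 0 ≤ d) (hd : d < 1)
    (h : ∀ j < k, padicNorm p (f j - 1) ≤ d) : padicNorm p (∏ j ∈ Finset.range k, f j - 1) ≤ d := by
  induction k with
  | zero => simpa using h0
  | succ k ih =>
    rw [Finset.prod_range_succ]
    exact un_mul (ih fun j hj => h j (by omega)) (h k (by omega)) hd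

theorem un_pow {x d : ℚ} (h0 : 0 ≤ d) (hd : d < 1) (hx : padicNorm p (x - 1) ≤ d) (k : ℕ) :
    padicNorm p (x ^ k - 1) ≤ d := by
  have := un_prod (p := p) (fun _ => x) k h0 hd (fun _ _ => hx)
  simpa using this

theorem N_dvd (n : ℤ) (a : ℕ) (h : (p : ℤ) ^ a ∣ n) : padicNorm p (n : ℚ) ≤ 1 / (p : ℚ) ^ a := by
  obtain ⟨c, rfl⟩ := h
  push_cast
  rw [N_mul, N_pow, N_p]
  have := N_int (p := p) c
  calc (1 / (p : ℚ)) ^ a * padicNorm p (c : ℚ) ≤ (1 / (p : ℚ)) ^ a * 1 := by gcongr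
    _ = 1 / (p : ℚ) ^ a := by rw [mul_one, one_div_pow]

theorem un_int (n : ℤ) (h : (p : ℤ) ∣ n - 1) : padicNorm p ((n : ℚ) - 1) ≤ 1 / p := by
  have := N_dvd (p := p) (n - 1) 1 (by rwa [pow_one])
  push_cast at this
  rwa [pow_one] at this

/-- lower bound for the norm of a positive integer -/
theorem N_ge (j : ℕ) (hj : 0 < j) : 1 / (j : ℚ) ≤ padicNorm p (j : ℚ) := by
  have h0 : (j : ℚ) ≠ 0 := by exact_mod_cast hj.ne'
  have h3 : padicNorm p (j : ℚ) = (p : ℚ) ^ (-(padicValRat p (j : ℚ))) := by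
    rw [padicNorm.eq_zpow_of_nonzero h0]
  rw [h3, padicValRat.of_nat, zpow_neg, zpow_natCast, one_div]
  have hpos : 0 < (p : ℚ) := by exact_mod_cast hp.1.pos
  gcongr
  have h4 : p ^ padicValNat p j ≤ j := Nat.le_of_dvd hj pow_padicValNat_dvd
  exact_mod_cast h4

theorem N_pow_p (a : ℕ) : padicNorm p (((p ^ a : ℕ) : ℚ)) = 1 / (p : ℚ) ^ a := by
  push_cast
  rw [N_pow, N_p, one_div_pow]

/-- `|k| ≤ |p^a - k|` for `0 ≤ k < p^a` -/
theorem N_compl (a k : ℕ) (h : k < p ^ a) : padicNorm p (k : ℚ)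
    ≤ padicNorm p (((p ^ a : ℕ) : ℚ) - k) := by
  have h1 : (k : ℚ) = ((p ^ a : ℕ) : ℚ) - (((p ^ a : ℕ) : ℚ) - k) := by ring
  have h2 : (((p ^ a : ℕ) : ℚ) - k) = ((p ^ a - k : ℕ) : ℚ) := by
    rw [Nat.cast_sub h.le]
  have h3 : padicNorm p ((p ^ a : ℕ) : ℚ) ≤ padicNorm p (((p ^ a : ℕ) : ℚ) - k) := by
    rw [N_pow_p, h2]
    refine le_trans ?_ (N_ge (p ^ a - k) (by omega))
    have h4 : 0 < ((p ^ a - k : ℕ) : ℚ) := by exact_mod_cast (by omega : 0 < p ^ a - k)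
    have h5 : ((p ^ a - k : ℕ) : ℚ) ≤ (p : ℚ) ^ a := by
      exact_mod_cast Nat.sub_le _ _
    gcongr
  calc padicNorm p (k : ℚ) = padicNorm p (((p ^ a : ℕ) : ℚ) - (((p ^ a : ℕ) : ℚ) - k)) := by
        rw [← h1]
    _ ≤ _ := N_sub h3 le_rfl

end Pool.Agent.R902.NormP
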