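import Pool.Agent.R902.Half1
import Pool.Agent.R902.NormP

/-!
The 5-adic analysis of the sums `W_n` for `n = 5^a`.
-/

set_option linter.unusedSectionVars false

namespace Pool.Agent.R902.Half2

open Finset Pool.Agent.R902.Half1 Pool.Agent.R902.NormP

instance five : Fact (Nat.Prime 5) := ⟨by norm_num⟩

/-- the 5-adic norm -/
abbrev N (x : ℚ) : ℚ := padicNorm 5 x

theorem mulN (x y : ℚ) : N (x * y) = N x * N y := padicNorm.mul x y

theorem N5 : N 5 = 1 / 5 := by
  have := N_p (p := 5)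
  exact_mod_cast this

theorem Nu {x : ℚ} (n : ℕ) (h : ¬ 5 ∣ n) (hx : x = n) : N x = 1 := by
  rw [hx]
  exact N_nat_one h

/-! ### the sequence `c` -/

theorem c_step (m : ℕ) : N (c (m + 1)) * N ((m : ℚ) + 1) ^ 2
    = N (12 * (m : ℚ) + 1) * N (12 * (m : ℚ) + 5) * N (c m) := by
  have h := congrArg N (c_succ m)
  rw [mulN, mulN, mulN, mulN] at h
  have h1 : N 144 = 1 := Nu 144 (by norm_num) (by norm_num)
  have h2 : N (((m : ℚ) + 1) ^ 2) = N ((m : ℚ) + 1) ^ 2 := N_pow _ _
  rw [h1, h2, one_mul] at h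
  rw [← h]
  ring

theorem c_one (K : ℕ) : N (c (5 * K + 1)) = N (12 * (K : ℚ) + 1) * N (c (5 * K)) / 5 := by
  have h := c_step (5 * K)
  have e1 : N (((5 * K : ℕ) : ℚ) + 1) = 1 :=
    Nu (5 * K + 1) (by omega) (by push_cast; ring)
  have e2 : N (12 * ((5 * K : ℕ) : ℚ) + 1) = 1 :=
    Nu (60 * K + 1) (by omega) (by push_cast; ring)
  have e3 : N (12 * ((5 * K : ℕ) : ℚ) + 5) = N (12 * (K : ℚ) + 1) / 5 := by
    have : 12 * ((5 * K : ℕ) : ℚ) + 5 = 5 * (12 * (K : ℚ) + 1) := by push_cast; ring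
    rw [this, mulN, N5]
    ring
  rw [e1, e2, e3] at h
  rw [one_pow, mul_one] at h
  rw [h]
  ring

theorem c_two (K : ℕ) : N (c (5 * K + 2)) = N (12 * (K : ℚ) + 1) * N (c (5 * K)) / 5 := by
  have h := c_step (5 * K + 1)
  have e1 : N (((5 * K + 1 : ℕ) : ℚ) + 1) = 1 :=
    Nu (5 * K + 2) (by omega) (by push_cast; ring)
  have e2 : N (12 * ((5 * K + 1 : ℕ) : ℚ) + 1) = 1 :=
    Nu (60 * K + 13) (by omega) (by push_cast; ring)
  have e3 : N (12 * ((5 * K + 1 : ℕ) : ℚ) + 5) = 1 :=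
    Nu (60 * K + 17) (by omega) (by push_cast; ring)
  rw [e1, e2, e3, one_pow, mul_one, one_mul, one_mul, c_one] at h
  exact h

theorem c_three (K : ℕ) : N (c (5 * K + 3))
    = N (12 * (K : ℚ) + 5) * N (12 * (K : ℚ) + 1) * N (c (5 * K)) / 25 := by
  have h := c_step (5 * K + 2)
  have e1 : N (((5 * K + 2 : ℕ) : ℚ) + 1) = 1 :=
    Nu (5 * K + 3) (by omega) (by push_cast; ring)
  have e2 : N (12 * ((5 * K + 2 : ℕ) : ℚ) + 1) = N (12 * (K : ℚ) + 5) / 5 := by
    have : 12 * ((5 * K + 2 : ℕ) : ℚ) + 1 = 5 * (12 * (K : ℚ) + 5) := by push_cast; ring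
    rw [this, mulN, N5]
    ring
  have e3 : N (12 * ((5 * K + 2 : ℕ) : ℚ) + 5) = 1 :=
    Nu (60 * K + 29) (by omega) (by push_cast; ring)
  rw [e1, e2, e3, one_pow, mul_one, mul_one, c_two] at h
  rw [h]
  ring

theorem c_four (K : ℕ) : N (c (5 * K + 4))
    = N (12 * (K : ℚ) + 5) * N (12 * (K : ℚ) + 1) * N (c (5 * K)) / 25 := by
  have h := c_step (5 * K + 3)
  have e1 : N (((5 * K + 3 : ℕ) : ℚ) + 1) = 1 :=
    Nu (5 * K + 4) (by omega) (by push_cast; ring)
  have e2 : N (12 * ((5 * K + 3 : ℕ) : ℚ) + 1) = 1 :=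
    Nu (60 * K + 37) (by omega) (by push_cast; ring)
  have e3 : N (12 * ((5 * K + 3 : ℕ) : ℚ) + 5) = 1 :=
    Nu (60 * K + 41) (by omega) (by push_cast; ring)
  rw [e1, e2, e3, one_pow, mul_one, one_mul, one_mul, c_three] at h
  exact h

theorem c_ne (k : ℕ) : c k ≠ 0 := by
  rw [c, Finset.prod_ne_zero_iff]
  intro j _
  positivity

/-- numerators -/
def nu (K : ℕ) : ℤ := (60 * K + 1) * (60 * K + 13) * (60 * K + 37) * (60 * K + 49) *
  ((60 * K + 17) * (60 * K + 29) * (60 * K + 41) * (60 * K + 53))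

/-- denominators -/
def de (K : ℕ) : ℤ := 144 ^ 4 * ((5 * K + 1) * (5 * K + 2) * (5 * K + 3) * (5 * K + 4)) ^ 2

theorem nu_mod (K : ℕ) : (5 : ℤ) ∣ nu K - 1 := by
  refine (ZMod.intCast_zmod_eq_zero_iff_dvd _ 5).1 ?_
  rw [nu]
  push_cast
  have h60 : (60 : ZMod 5) = 0 := by decide
  rw [h60]
  simp only [zero_mul, zero_add]
  decide

theorem de_mod (K : ℕ) : (5 : ℤ) ∣ de K - 1 := by
  refine (ZMod.intCast_zmod_eq_zero_iff_dvd _ 5).1 ?_
  rw [de]
  push_cast
  have h5 : (5 : ZMod 5) = 0 := by decide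
  rw [h5]
  simp only [zero_mul, zero_add]
  decide

/-- the ratio `c(5k)/c(k)` is a product of units that are `1` modulo 5 -/
theorem rho (k : ℕ) : c (5 * k) = c k * ∏ K ∈ range k, ((nu K : ℚ) / (de K : ℚ)) := by
  induction k with
  | zero => simp
  | succ k ih =>
    have h0 := c_succ (5 * k)
    have h1 := c_succ (5 * k + 1)
    have h2 := c_succ (5 * k + 2)
    have h3 := c_succ (5 * k + 3)
    have h4 := c_succ (5 * k + 4)
    have hk := c_succ k
    rw [show 5 * (k + 1) = 5 * k + 4 + 1 by ring, Finset.prod_range_succ]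
    rw [ih] at h0
    set R : ℚ := ∏ K ∈ range k, ((nu K : ℚ) / (de K : ℚ)) with hR
    have e0 : c (5 * k + 1) = (12 * (5 * (k : ℚ)) + 1) * (12 * (5 * (k : ℚ)) + 5) * (c k * R)
        / (144 * (5 * (k : ℚ) + 1) ^ 2) := by
      rw [eq_div_iff (by positivity)]
      push_cast at h0
      linear_combination h0
    have e1 : c (5 * k + 2) = (12 * (5 * (k : ℚ) + 1) + 1) * (12 * (5 * (k : ℚ) + 1) + 5) *
        c (5 * k + 1) / (144 * (5 * (k : ℚ) + 2) ^ 2) := by
      rw [eq_div_iff (by positivity)]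
      push_cast at h1
      linear_combination h1
    have e2 : c (5 * k + 3) = (12 * (5 * (k : ℚ) + 2) + 1) * (12 * (5 * (k : ℚ) + 2) + 5) *
        c (5 * k + 2) / (144 * (5 * (k : ℚ) + 3) ^ 2) := by
      rw [eq_div_iff (by positivity)]
      push_cast at h2
      linear_combination h2
    have e3 : c (5 * k + 4) = (12 * (5 * (k : ℚ) + 3) + 1) * (12 * (5 * (k : ℚ) + 3) + 5) *
        c (5 * k + 3) / (144 * (5 * (k : ℚ) + 4) ^ 2) := by
      rw [eq_div_iff (by positivity)]
      push_cast at h3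
      linear_combination h3
    have e4 : c (5 * k + 4 + 1) = (12 * (5 * (k : ℚ) + 4) + 1) * (12 * (5 * (k : ℚ) + 4) + 5) *
        c (5 * k + 4) / (144 * (5 * (k : ℚ) + 5) ^ 2) := by
      rw [eq_div_iff (by positivity)]
      push_cast at h4
      linear_combination h4
    have ek : c (k + 1) = (12 * (k : ℚ) + 1) * (12 * (k : ℚ) + 5) * c k
        / (144 * ((k : ℚ) + 1) ^ 2) := by
      rw [eq_div_iff (by positivity)]
      linear_combination hk
    rw [e4, e3, e2, e1, e0, ek, nu, de]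
    push_cast
    field_simp
    ring

theorem rho_un (k : ℕ) : N (∏ K ∈ range k, ((nu K : ℚ) / (de K : ℚ)) - 1) ≤ 1 / 5 := by
  apply un_prod
  · norm_num
  · norm_num
  · intro j _
    apply un_div _ _ (by norm_num)
    · have := un_int (p := 5) (nu j) (nu_mod j)
      exact_mod_cast this
    · have := un_int (p := 5) (de j) (de_mod j)
      exact_mod_cast this

theorem c_five (k : ℕ) : N (c (5 * k)) = N (c k) := by
  have h : N (∏ K ∈ range k, ((nu K : ℚ) / (de K : ℚ))) = 1 := N_one_of (rho_un k) (by norm_num)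
  rw [rho, mulN, h, mul_one]

theorem c_pow (a : ℕ) : N (c (5 ^ a)) = 1 / 5 := by
  induction a with
  | zero =>
    have h := c_succ 0
    rw [c_zero] at h
    have h0 : 144 * c 1 = 5 := by
      have h1 : c (0 + 1) = c 1 := rfl
      rw [h1] at h
      push_cast at h
      linear_combination h
    have h2 := congrArg N h0
    have h3 : N 144 = 1 := Nu 144 (by norm_num) (by norm_num)
    rw [mulN, h3, one_mul, N5] at h2
    rw [pow_zero]
    exact h2
  | succ a ih => rw [pow_succ, mul_comm, c_five, ih]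

/-! ### factorials and binomials -/

theorem fac_five (k : ℕ) : ∃ u : ℚ, N (u - 1) ≤ 1 / 5 ∧
    ((5 * k).factorial : ℚ) = 5 ^ k * (-1) ^ k * (k.factorial : ℚ) * u := by
  induction k with
  | zero => exact ⟨1, by simp, by simp⟩
  | succ k ih =>
    obtain ⟨u, hu, h⟩ := ih
    refine ⟨u * (-((5 * k + 1) * (5 * k + 2) * (5 * k + 3) * (5 * k + 4))), ?_, ?_⟩
    · apply un_mul hu _ (by norm_num)
      have := un_int (p := 5) (-((5 * k + 1) * (5 * k + 2) * (5 * k + 3) * (5 * k + 4))) (by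
        refine (ZMod.intCast_zmod_eq_zero_iff_dvd _ 5).1 ?_
        push_cast
        have h5 : (5 : ZMod 5) = 0 := by decide
        rw [h5]
        simp only [zero_mul, zero_add]
        decide)
      push_cast at this
      exact this
    · rw [show 5 * (k + 1) = 5 * k + 1 + 1 + 1 + 1 + 1 by ring]
      rw [Nat.factorial_succ, Nat.factorial_succ, Nat.factorial_succ, Nat.factorial_succ,
        Nat.factorial_succ (5 * k), Nat.factorial_succ k]
      push_cast
      rw [h]
      ring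

theorem fac_norm (k d : ℕ) (hd : d < 5) : N (((5 * k + d).factorial : ℕ) : ℚ)
    = N (k.factorial : ℚ) / 5 ^ k := by
  induction d with
  | zero =>
    obtain ⟨u, hu, h⟩ := fac_five k
    have hu1 : N u = 1 := N_one_of hu (by norm_num)
    rw [add_zero, h, mulN, mulN, mulN, hu1]
    have h1 : N ((5 : ℚ) ^ k) = 1 / 5 ^ k := by
      have := N_pow_p (p := 5) k
      push_cast at this
      exact this
    have h2 : N ((-1 : ℚ) ^ k) = 1 := by
      have : N ((-1 : ℚ) ^ k) = N (-1) ^ k := N_pow _ _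
      rw [this]
      simp
    rw [h1, h2]
    ring
  | succ d ih =>
    rw [← add_assoc, Nat.factorial_succ]
    push_cast
    have h1 : N ((5 : ℚ) * k + d + 1) = 1 :=
      Nu (5 * k + d + 1) (by omega) (by push_cast; ring)
    rw [mulN, h1, one_mul]
    exact ih (by omega)

theorem fac_norm_ne (k : ℕ) : N (k.factorial : ℚ) ≠ 0 :=
  padicNorm.nonzero (by exact_mod_cast (Nat.factorial_ne_zero k))

end Pool.Agent.R902.Half2
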