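import Pool.Agent.R902.Half2

/-!
The recursion `W_{5n} = 5 W_n` modulo a high power of 5.
-/

set_option linter.unusedSectionVars false

namespace Pool.Agent.R902.Half3

open Finset Pool.Agent.R902.Half1 Pool.Agent.R902.NormP Pool.Agent.R902.Half2

theorem N_le {x : ℚ} {t : ℚ} (h : N x ≤ t) : padicNorm 5 x ≤ t := h

theorem choose_eq (a b : ℕ) : (((a + b).factorial : ℕ) : ℚ)
    = ((a + b).choose a : ℚ) * (a.factorial : ℚ) * (b.factorial : ℚ) := by
  have := congrArg (fun x : ℕ => (x : ℚ)) (Nat.choose_mul_factorial_mul_factorial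
    (n := a + b) (k := a) (by omega))
  rw [Nat.add_sub_cancel_left] at this
  push_cast at this
  exact this.symm

theorem chS (i j κ : ℕ) (h1 : 1 ≤ κ) (h2 : κ ≤ 2) :
    N ((5 * (i + j + 1) + κ).choose (5 * i + (5 - κ)) : ℚ)
      = N ((i : ℚ) + 1) * N ((i + j + 1).choose (i + 1) : ℚ) / 5 := by
  have e1 := choose_eq (5 * i + (5 - κ)) (5 * j + 2 * κ)
  rw [show 5 * i + (5 - κ) + (5 * j + 2 * κ) = 5 * (i + j + 1) + κ by omega] at e1
  have e2 := choose_eq (i + 1) j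
  rw [show i + 1 + j = i + j + 1 by ring, Nat.factorial_succ i] at e2
  have f1 := congrArg N e1
  have f2 := congrArg N e2
  push_cast at f2
  rw [mulN, mulN, fac_norm _ _ (by omega), fac_norm _ _ (by omega), fac_norm _ _ (by omega)] at f1
  rw [mulN, mulN, mulN] at f2
  rw [f2] at f1
  have g1 := fac_norm_ne i
  have g2 := fac_norm_ne j
  rw [pow_succ, pow_add] at f1
  field_simp at f1
  rw [eq_div_iff (by norm_num)]
  linear_combination -f1

theorem chL (i j κ : ℕ) (h1 : 3 ≤ κ) (h2 : κ ≤ 4) :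
    N ((5 * (i + j) + κ).choose (5 * i + (5 - κ)) : ℚ) = N ((i + j).choose i : ℚ) := by
  have e1 := choose_eq (5 * i + (5 - κ)) (5 * j + (2 * κ - 5))
  rw [show 5 * i + (5 - κ) + (5 * j + (2 * κ - 5)) = 5 * (i + j) + κ by omega] at e1
  have e2 := choose_eq i j
  have f1 := congrArg N e1
  have f2 := congrArg N e2
  rw [mulN, mulN, fac_norm _ _ (by omega), fac_norm _ _ (by omega), fac_norm _ _ (by omega)] at f1
  rw [mulN, mulN] at f2
  rw [f2] at f1
  have g1 := fac_norm_ne i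
  have g2 := fac_norm_ne j
  rw [pow_add] at f1
  field_simp at f1
  exact f1.symm

theorem ch5 (i j : ℕ) : ∃ u : ℚ, N (u - 1) ≤ 1 / 5 ∧
    ((5 * (i + j)).choose (5 * i) : ℚ) = ((i + j).choose i : ℚ) * u := by
  obtain ⟨u1, h1, f1⟩ := fac_five (i + j)
  obtain ⟨u2, h2, f2⟩ := fac_five i
  obtain ⟨u3, h3, f3⟩ := fac_five j
  have n1 : u1 ≠ 0 := by
    rintro rfl
    have := N_one_of (p := 5) h1 (by norm_num)
    simp at this
  have n2 : u2 ≠ 0 := by
    rintro rfl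
    have := N_one_of (p := 5) h2 (by norm_num)
    simp at this
  have n3 : u3 ≠ 0 := by
    rintro rfl
    have := N_one_of (p := 5) h3 (by norm_num)
    simp at this
  refine ⟨u1 / (u2 * u3), un_div h1 (un_mul h2 h3 (by norm_num)) (by norm_num), ?_⟩
  have e1 := choose_eq (5 * i) (5 * j)
  rw [← Nat.mul_add] at e1
  have e2 := choose_eq i j
  rw [f1, f2, f3, e2] at e1
  have g1 : (i.factorial : ℚ) ≠ 0 := by exact_mod_cast (Nat.factorial_ne_zero i)
  have g2 : (j.factorial : ℚ) ≠ 0 := by exact_mod_cast (Nat.factorial_ne_zero j)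
  rw [pow_add, pow_add] at e1
  field_simp at e1
  field_simp
  linear_combination -e1

/-- the summand of `W` -/
def t (n k : ℕ) : ℚ := ((n : ℚ) - k) * P n k * c k

theorem N_pm (k : ℕ) : N ((-1 : ℚ) ^ k) = 1 := by
  have : N ((-1 : ℚ) ^ k) = N (-1) ^ k := N_pow _ _
  rw [this]
  simp

theorem N_four (k : ℕ) : N ((4 : ℚ) ^ k) = 1 := by
  have h : N ((4 : ℚ) ^ k) = N 4 ^ k := N_pow _ _
  have h4 : N 4 = 1 := Nu 4 (by norm_num) (by norm_num)
  rw [h, h4, one_pow]

theorem P_of_le {n k : ℕ} (h : k ≤ n) : P n k = 4 ^ k * (-1) ^ (n - k) * (k.choose (n - k) : ℚ) := by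
  rw [P, if_pos h]

theorem N_P {n k : ℕ} (h : k ≤ n) : N (P n k) = N (k.choose (n - k) : ℚ) := by
  rw [P_of_le h, mulN, mulN, N_four, N_pm]
  ring

theorem t_zero {n k : ℕ} (h : 2 * k < n) : t n k = 0 := by
  rw [t, P_of_le (by omega), Nat.choose_eq_zero_of_lt (by omega)]
  simp

theorem N_t {n k i : ℕ} (h : n = k + i) : N (t n k) = N (i : ℚ) * N (k.choose i : ℚ) * N (c k) := by
  rw [t, mulN, mulN, N_P (by omega)]
  have e1 : (n : ℚ) - k = i := by rw [h]; push_cast; ring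
  rw [e1, show n - k = i by omega]

theorem tS (n K κ : ℕ) (h1 : 1 ≤ κ) (h2 : κ ≤ 2) (hK : K < n) :
    N (t (5 * n) (5 * K + κ)) ≤ N (t n K) / 25 := by
  rcases Nat.lt_or_ge (2 * K) n with h | h
  · rw [t_zero (by omega), t_zero h]
    simp
  · obtain ⟨i, hi⟩ : ∃ i, n = K + (i + 1) := ⟨n - K - 1, by omega⟩
    obtain ⟨j, hj⟩ : ∃ j, K = i + j + 1 := ⟨K - i - 1, by omega⟩
    have e1 : N (t (5 * n) (5 * K + κ)) = N (((5 * i + (5 - κ) : ℕ)) : ℚ) *
        N ((5 * K + κ).choose (5 * i + (5 - κ)) : ℚ) * N (c (5 * K + κ)) :=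
      N_t (by omega)
    rw [e1, N_t hi, hj, chS i j κ h1 h2, ← hj]
    have e2 : N (((5 * i + (5 - κ) : ℕ)) : ℚ) = 1 := N_nat_one (by omega)
    have e3 : N (c (5 * K + κ)) = N (12 * (K : ℚ) + 1) * N (c K) / 5 := by
      have : κ = 1 ∨ κ = 2 := by omega
      rcases this with rfl | rfl
      · rw [c_one, c_five]
      · rw [c_two, c_five]
    have e4 : N (12 * (K : ℚ) + 1) ≤ 1 := by
      have := N_nat (p := 5) (12 * K + 1)
      push_cast at this
      exact this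
    rw [e2, e3]
    push_cast
    have p1 : 0 ≤ N ((i : ℚ) + 1) * N (K.choose (i + 1) : ℚ) * N (c K) :=
      mul_nonneg (mul_nonneg (N_nonneg _) (N_nonneg _)) (N_nonneg _)
    calc 1 * (N ((i : ℚ) + 1) * N (K.choose (i + 1) : ℚ) / 5) *
          (N (12 * (K : ℚ) + 1) * N (c K) / 5)
        = N (12 * (K : ℚ) + 1) * (N ((i : ℚ) + 1) * N (K.choose (i + 1) : ℚ) * N (c K)) / 25 := by
          ring
      _ ≤ 1 * (N ((i : ℚ) + 1) * N (K.choose (i + 1) : ℚ) * N (c K)) / 25 := by gcongr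
      _ = _ := by ring

theorem tL (n K κ : ℕ) (h1 : 3 ≤ κ) (h2 : κ ≤ 4) (hK : K < n) :
    N (t (5 * n) (5 * K + κ)) ≤ N (K.choose (n - K - 1) : ℚ) * N (c (K + 1)) *
      N ((K : ℚ) + 1) ^ 2 / 25 := by
  rcases Nat.lt_or_ge (2 * K + 1) n with h | h
  · rw [t_zero (by omega)]
    have : 0 ≤ N (K.choose (n - K - 1) : ℚ) * N (c (K + 1)) * N ((K : ℚ) + 1) ^ 2 / 25 :=
      div_nonneg (mul_nonneg (mul_nonneg (N_nonneg _) (N_nonneg _)) (pow_nonneg (N_nonneg _) _))
        (by norm_num)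
    simpa using this
  · obtain ⟨i, hi⟩ : ∃ i, n = K + (i + 1) := ⟨n - K - 1, by omega⟩
    obtain ⟨j, hj⟩ : ∃ j, K = i + j := ⟨K - i, by omega⟩
    have e1 : N (t (5 * n) (5 * K + κ)) = N (((5 * i + (5 - κ) : ℕ)) : ℚ) *
        N ((5 * K + κ).choose (5 * i + (5 - κ)) : ℚ) * N (c (5 * K + κ)) :=
      N_t (by omega)
    have e0 : N ((5 * K + κ).choose (5 * i + (5 - κ)) : ℚ) = N (K.choose i : ℚ) := by
      rw [hj]
      exact chL i j κ h1 h2
    have e2 : N (((5 * i + (5 - κ) : ℕ)) : ℚ) = 1 := N_nat_one (by omega)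
    have e3 : N (c (5 * K + κ)) = N (12 * (K : ℚ) + 5) * N (12 * (K : ℚ) + 1) * N (c K) / 25 := by
      have : κ = 3 ∨ κ = 4 := by omega
      rcases this with rfl | rfl
      · rw [c_three, c_five]
      · rw [c_four, c_five]
    have e4 := c_step K
    rw [e1, e0, e2, e3, show n - K - 1 = i by omega]
    apply le_of_eq
    linear_combination (-(N (K.choose i : ℚ)) / 25) * e4

theorem t5 (n K : ℕ) (hK : K < n) : ∃ u : ℚ, N (u - 1) ≤ 1 / 5 ∧
    t (5 * n) (5 * K) = 5 * t n K * u := by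
  rcases Nat.lt_or_ge (2 * K) n with h | h
  · refine ⟨1, by simp, ?_⟩
    rw [t_zero (by omega), t_zero h]
    ring
  · obtain ⟨i, hi⟩ : ∃ i, n = K + i := ⟨n - K, by omega⟩
    obtain ⟨j, hj⟩ : ∃ j, K = i + j := ⟨K - i, by omega⟩
    obtain ⟨u, hu, hch⟩ := ch5 i j
    rw [← hj] at hch
    have hr := rho_un K
    have hc := rho K
    set r : ℚ := ∏ K ∈ range K, ((nu K : ℚ) / (de K : ℚ)) with hrdef
    have h256 : N ((256 : ℚ) ^ K - 1) ≤ 1 / 5 := by
      apply un_pow (by norm_num) (by norm_num)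
      have := un_int (p := 5) 256 (by norm_num)
      exact_mod_cast this
    refine ⟨256 ^ K * (u * r), un_mul h256 (un_mul hu hr (by norm_num)) (by norm_num), ?_⟩
    rw [t, t, hc, P_of_le (by omega), P_of_le (by omega), show 5 * n - 5 * K = 5 * i by omega,
      show n - K = i by omega, hch, pow_mul, pow_mul]
    rw [show ((4 : ℚ) ^ 5) = 4 * 256 by norm_num, mul_pow, show ((-1 : ℚ) ^ 5) = -1 by norm_num]
    push_cast
    ring

end Pool.Agent.R902.Half3
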