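import Pool.Agent.R902.Half3

/-!
`W_{5^a} = 5^{a-1} W_5` modulo `5^{a+3}` and the final evaluation.
-/

set_option linter.unusedSectionVars false

namespace Pool.Agent.R902.Half4

open Finset Pool.Agent.R902.Half1 Pool.Agent.R902.NormP Pool.Agent.R902.Half2
  Pool.Agent.R902.Half3

theorem Npow5 (a : ℕ) : N ((5 : ℚ) ^ a) = 1 / 5 ^ a := by
  have := N_pow_p (p := 5) a
  push_cast at this
  exact this

/-- non-multiples of 5 -/
theorem nonmult (a : ℕ) (ha : 1 ≤ a) (H : ∀ k < 5 ^ a, N (t (5 ^ a) k) ≤ 1 / 5 ^ (a + 2))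
    (K κ : ℕ) (hK : K < 5 ^ a) (h1 : 1 ≤ κ) (h2 : κ ≤ 4) :
    N (t (5 * 5 ^ a) (5 * K + κ)) ≤ 1 / 5 ^ (a + 4) := by
  have e25 : (1 : ℚ) / 5 ^ (a + 2) / 25 = 1 / 5 ^ (a + 4) := by
    rw [show a + 4 = a + 2 + 2 by ring, pow_add (5 : ℚ) (a + 2) 2]
    field_simp
    norm_num
  rcases Nat.lt_or_ge 2 κ with h3 | h3
  · refine (tL (5 ^ a) K κ (by omega) h2 hK).trans ?_
    rcases Nat.lt_or_ge (K + 1) (5 ^ a) with h4 | h4
    · refine le_trans ?_ ((div_le_div_of_nonneg_right (H (K + 1) h4) (by norm_num)).trans e25.le)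
      obtain ⟨i, hi⟩ : ∃ i, 5 ^ a = K + 1 + i := ⟨5 ^ a - (K + 1), by omega⟩
      rw [N_t hi, show 5 ^ a - K - 1 = i by omega]
      have h5 : N ((K : ℚ) + 1) * N (K.choose i : ℚ) ≤ N ((K + 1).choose i : ℚ) := by
        have h6 := congrArg N (choose_rec' K i)
        rw [mulN, mulN] at h6
        rw [← h6]
        have h7 : N ((K : ℚ) + 1 - i) ≤ 1 := by
          have := N_int (p := 5) ((K : ℤ) + 1 - i)
          push_cast at this
          exact this
        calc N ((K : ℚ) + 1 - i) * N ((K + 1).choose i : ℚ) ≤ 1 * N ((K + 1).choose i : ℚ) := by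
              gcongr
              exact N_nonneg _
          _ = _ := one_mul _
      have h8 : N ((K : ℚ) + 1) ≤ N (i : ℚ) := by
        have := N_compl (p := 5) a (K + 1) h4
        rw [hi] at this
        push_cast at this
        rw [show (K : ℚ) + 1 + i - (K + 1) = i by ring] at this
        exact this
      have q1 := N_nonneg (p := 5) ((K : ℚ) + 1)
      have q2 := N_nonneg (p := 5) (c (K + 1))
      have q3 := N_nonneg (p := 5) (i : ℚ)
      have q4 := N_nonneg (p := 5) ((K + 1).choose i : ℚ)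
      have q5 := N_nonneg (p := 5) (K.choose i : ℚ)
      have : N (K.choose i : ℚ) * N (c (K + 1)) * N ((K : ℚ) + 1) ^ 2
          = N ((K : ℚ) + 1) * (N ((K : ℚ) + 1) * N (K.choose i : ℚ)) * N (c (K + 1)) := by ring
      rw [this]
      gcongr
    · have hKn : K + 1 = 5 ^ a := by omega
      rw [show 5 ^ a - K - 1 = 0 by omega, Nat.choose_zero_right, hKn, c_pow]
      have e1 : N ((K : ℚ) + 1) = 1 / 5 ^ a := by
        have : (K : ℚ) + 1 = 5 ^ a := by exact_mod_cast hKn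
        rw [this, Npow5]
      rw [e1]
      have e2 : N ((1 : ℕ) : ℚ) = 1 := by simp
      rw [e2]
      obtain ⟨b, rfl⟩ : ∃ b, a = b + 1 := ⟨a - 1, by omega⟩
      have e3 : (1 : ℚ) * (1 / 5) * (1 / 5 ^ (b + 1)) ^ 2 / 25 = 1 / 5 ^ (2 * b + 5) := by
        rw [show 2 * b + 5 = (b + 1) + (b + 1) + 3 by ring, pow_add, pow_add]
        field_simp
        norm_num
        ring
      rw [e3, show b + 1 + 4 = b + 5 by ring]
      apply one_div_le_one_div_of_le (by positivity)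
      exact pow_le_pow_right₀ (by norm_num) (by omega)
  · refine (tS (5 ^ a) K κ h1 h3 hK).trans ?_
    rw [← e25]
    exact div_le_div_of_nonneg_right (H K hK) (by norm_num)

theorem H (b : ℕ) : ∀ k < 5 ^ (b + 1), N (t (5 ^ (b + 1)) k) ≤ 1 / 5 ^ (b + 3) := by
  induction b with
  | zero =>
    intro k hk
    rw [zero_add, pow_one] at hk ⊢
    interval_cases k
    · rw [t_zero (by norm_num)]; norm_num
    · rw [t_zero (by norm_num)]; norm_num
    · rw [t_zero (by norm_num)]; norm_num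
    · rw [N_t (n := 5) (k := 3) (i := 2) (by norm_num)]
      have h := c_three 0
      rw [mul_zero, c_zero] at h
      push_cast at h
      rw [mul_zero, zero_add, zero_add, N5] at h
      have e1 : N ((2 : ℕ) : ℚ) = 1 := N_nat_one (by norm_num)
      have e2 : N ((Nat.choose 3 2 : ℕ) : ℚ) = 1 := N_nat_one (by decide)
      have e3 : N (1 : ℚ) = 1 := by simp
      rw [e1, e2, h, e3]
      norm_num
    · rw [N_t (n := 5) (k := 4) (i := 1) (by norm_num)]
      have h := c_four 0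
      rw [mul_zero, c_zero] at h
      push_cast at h
      rw [mul_zero, zero_add, zero_add, N5] at h
      have e1 : N ((1 : ℕ) : ℚ) = 1 := N_nat_one (by norm_num)
      have e2 : N ((Nat.choose 4 1 : ℕ) : ℚ) = 1 := N_nat_one (by decide)
      have e3 : N (1 : ℚ) = 1 := by simp
      rw [e1, e2, h, e3]
      norm_num
  | succ b ih =>
    intro k hk
    have hk' : k = 5 * (k / 5) + k % 5 := (Nat.div_add_mod k 5).symm
    have hK : k / 5 < 5 ^ (b + 1) := by
      rw [pow_succ] at hk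
      omega
    rw [pow_succ 5 (b + 1), mul_comm]
    rcases Nat.eq_zero_or_pos (k % 5) with h0 | h0
    · rw [h0, add_zero] at hk'
      rw [hk']
      obtain ⟨u, hu, e⟩ := t5 (5 ^ (b + 1)) (k / 5) hK
      have hu1 : N u = 1 := N_one_of hu (by norm_num)
      rw [e, mulN, mulN, N5, hu1, mul_one]
      have e2 : (1 : ℚ) / 5 ^ (b + 1 + 3) = 1 / 5 * (1 / 5 ^ (b + 3)) := by
        rw [show b + 1 + 3 = (b + 3) + 1 by ring, pow_succ]
        field_simp
      rw [e2]
      gcongr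
      exact ih _ hK
    · rw [hk']
      have h1 : k % 5 < 5 := Nat.mod_lt _ (by norm_num)
      refine (nonmult (b + 1) (by omega) ih (k / 5) (k % 5) hK h0 (by omega)).trans ?_
      apply one_div_le_one_div_of_le (by positivity)
      exact pow_le_pow_right₀ (by norm_num) (by omega)

theorem block (f : ℕ → ℚ) (n : ℕ) : ∑ k ∈ range (5 * n), f k
    = ∑ K ∈ range n, (f (5 * K) + f (5 * K + 1) + f (5 * K + 2) + f (5 * K + 3) + f (5 * K + 4)) := by
  induction n with
  | zero => simp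
  | succ n ih =>
    rw [show 5 * (n + 1) = 5 * n + 1 + 1 + 1 + 1 + 1 by ring, Finset.sum_range_succ,
      Finset.sum_range_succ, Finset.sum_range_succ, Finset.sum_range_succ, Finset.sum_range_succ,
      ih, Finset.sum_range_succ]
    ring

theorem W_step (b : ℕ) : N (W (5 ^ (b + 1 + 1)) - 5 * W (5 ^ (b + 1))) ≤ 1 / 5 ^ (b + 5) := by
  have e : W (5 ^ (b + 1 + 1)) - 5 * W (5 ^ (b + 1)) = ∑ K ∈ range (5 ^ (b + 1)),
      ((t (5 * 5 ^ (b + 1)) (5 * K) - 5 * t (5 ^ (b + 1)) K)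
        + t (5 * 5 ^ (b + 1)) (5 * K + 1) + t (5 * 5 ^ (b + 1)) (5 * K + 2)
        + t (5 * 5 ^ (b + 1)) (5 * K + 3) + t (5 * 5 ^ (b + 1)) (5 * K + 4)) := by
    rw [pow_succ 5 (b + 1), mul_comm (5 ^ (b + 1)) 5]
    have h1 : W (5 * 5 ^ (b + 1)) = ∑ k ∈ range (5 * 5 ^ (b + 1)), t (5 * 5 ^ (b + 1)) k := rfl
    have h2 : W (5 ^ (b + 1)) = ∑ k ∈ range (5 ^ (b + 1)), t (5 ^ (b + 1)) k := rfl
    rw [h1, h2, block, Finset.mul_sum, ← Finset.sum_sub_distrib]
    refine Finset.sum_congr rfl fun K _ => by ring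
  rw [e]
  apply padicNorm.sum_le'
  · intro K hK
    have hK := Finset.mem_range.1 hK
    have nm := fun κ h1 h2 => nonmult (b + 1) (by omega) (H b) K κ hK h1 h2
    rw [show b + 1 + 4 = b + 5 by ring] at nm
    refine N_add (N_add (N_add (N_add ?_ (nm 1 le_rfl (by norm_num)))
      (nm 2 (by norm_num) (by norm_num))) (nm 3 (by norm_num) (by norm_num)))
      (nm 4 (by norm_num) le_rfl)
    obtain ⟨u, hu, e⟩ := t5 (5 ^ (b + 1)) K hK
    have e2 : t (5 * 5 ^ (b + 1)) (5 * K) - 5 * t (5 ^ (b + 1)) K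
        = 5 * t (5 ^ (b + 1)) K * (u - 1) := by
      rw [e]; ring
    have e3 : N (t (5 * 5 ^ (b + 1)) (5 * K) - 5 * t (5 ^ (b + 1)) K)
        = 1 / 5 * N (t (5 ^ (b + 1)) K) * N (u - 1) := by
      rw [e2, mulN, mulN, N5]
    have e4 : (1 : ℚ) / 5 ^ (b + 5) = 1 / 5 * (1 / 5 ^ (b + 3)) * (1 / 5) := by
      rw [show b + 5 = (b + 3) + 1 + 1 by ring, pow_succ, pow_succ]
      field_simp
    change N (t (5 * 5 ^ (b + 1)) (5 * K) - 5 * t (5 ^ (b + 1)) K) ≤ _
    rw [e3, e4]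
    have := H b K hK
    have q1 := N_nonneg (p := 5) (u - 1)
    gcongr
  · positivity

theorem W_main (b : ℕ) : N (W (5 ^ (b + 1)) - 5 ^ b * W 5) ≤ 1 / 5 ^ (b + 4) := by
  induction b with
  | zero => simp
  | succ b ih =>
    have e : W (5 ^ (b + 1 + 1)) - 5 ^ (b + 1) * W 5 = (W (5 ^ (b + 1 + 1)) - 5 * W (5 ^ (b + 1)))
        + 5 * (W (5 ^ (b + 1)) - 5 ^ b * W 5) := by
      rw [pow_succ]; ring
    rw [e]
    apply N_add
    · exact W_step b
    · change N (5 * (W (5 ^ (b + 1)) - 5 ^ b * W 5)) ≤ _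
      rw [mulN, N5]
      have e4 : (1 : ℚ) / 5 ^ (b + 1 + 4) = 1 / 5 * (1 / 5 ^ (b + 4)) := by
        rw [show b + 1 + 4 = (b + 4) + 1 by ring, pow_succ]
        field_simp
      rw [e4]
      gcongr

theorem W_five_eq : W 5 = 384 * c 3 - 1024 * c 4 := by
  rw [W, Finset.sum_range_succ, Finset.sum_range_succ, Finset.sum_range_succ,
    Finset.sum_range_succ, Finset.sum_range_succ, Finset.sum_range_zero]
  rw [P_of_le (by norm_num), P_of_le (by norm_num), P_of_le (by norm_num), P_of_le (by norm_num),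
    P_of_le (by norm_num)]
  have h0 : Nat.choose 0 (5 - 0) = 0 := by decide
  have h1 : Nat.choose 1 (5 - 1) = 0 := by decide
  have h2 : Nat.choose 2 (5 - 2) = 0 := by decide
  have h3 : Nat.choose 3 (5 - 3) = 3 := by decide
  have h4 : Nat.choose 4 (5 - 4) = 4 := by decide
  rw [h0, h1, h2, h3, h4]
  push_cast
  ring

theorem W_five : W 5 = -523134625 / 241864704 := by
  rw [W_five_eq, c, c, Finset.prod_range_succ, Finset.prod_range_succ, Finset.prod_range_succ,
    Finset.prod_range_zero, Finset.prod_range_succ, Finset.prod_range_succ, Finset.prod_range_succ,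
    Finset.prod_range_succ, Finset.prod_range_zero]
  norm_num

theorem N_W5 : N (W 5) ≤ 1 / 125 := by
  have h1 : W 5 * ((241864704 : ℕ) : ℚ) = ((-523134625 : ℤ) : ℚ) := by
    rw [W_five]; norm_num
  have h2 := congrArg N h1
  have h3 : N ((241864704 : ℕ) : ℚ) = 1 := N_nat_one (by norm_num)
  rw [mulN, h3, mul_one] at h2
  rw [h2]
  have := N_dvd (p := 5) (-523134625) 3 (by norm_num)
  norm_num at this ⊢
  exact this

theorem N_W5' : N (W 5 + 375) ≤ 1 / 625 := by
  have h1 : (W 5 + 375) * ((241864704 : ℕ) : ℚ) = ((90176129375 : ℤ) : ℚ) := by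
    rw [W_five]; norm_num
  have h2 := congrArg N h1
  have h3 : N ((241864704 : ℕ) : ℚ) = 1 := N_nat_one (by norm_num)
  rw [mulN, h3, mul_one] at h2
  rw [h2]
  have := N_dvd (p := 5) 90176129375 4 (by norm_num)
  norm_num at this ⊢
  exact this

/-- the evaluation of `S` -/
theorem S_main (b : ℕ) : N ((∑ m ∈ range (5 ^ (b + 1)), (m : ℚ) * Half1.b m / 2 ^ m)
    - 75 * 5 ^ (b + 1)) ≤ 1 / 5 ^ (b + 4) := by
  obtain ⟨m, hm⟩ : ∃ m, 5 ^ (b + 1) = 4 * m + 1 := by
    have : 5 ^ (b + 1) % 4 = 1 := by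
      rw [Nat.pow_mod]; simp
    exact ⟨5 ^ (b + 1) / 4, by omega⟩
  have hE : (2 : ℚ) / 2 ^ (5 ^ (b + 1)) = 1 / 16 ^ m := by
    rw [hm, pow_succ, pow_mul]
    norm_num
    field_simp
  have hE1 : N ((1 : ℚ) / 16 ^ m - 1) ≤ 1 / 5 := by
    refine un_div (by simp) ?_ (by norm_num)
    apply un_pow (by norm_num) (by norm_num)
    have := un_int (p := 5) 16 (by norm_num)
    exact_mod_cast this
  have hEn : N ((1 : ℚ) / 16 ^ m) = 1 := N_one_of hE1 (by norm_num)
  rw [S_eq]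
  have e : -2 * W (5 ^ (b + 1)) / 2 ^ (5 ^ (b + 1)) - 75 * 5 ^ (b + 1)
      = -((1 : ℚ) / 16 ^ m * (W (5 ^ (b + 1)) - 5 ^ b * W 5))
        - 5 ^ b * (((1 : ℚ) / 16 ^ m - 1) * W 5 + (W 5 + 375)) := by
    rw [← hE, pow_succ]
    ring
  rw [e]
  apply N_sub
  · rw [padicNorm.neg]
    change N ((1 : ℚ) / 16 ^ m * (W (5 ^ (b + 1)) - 5 ^ b * W 5)) ≤ _
    rw [mulN, hEn, one_mul]
    exact W_main b
  · change N (5 ^ b * (((1 : ℚ) / 16 ^ m - 1) * W 5 + (W 5 + 375))) ≤ _
    rw [mulN, Npow5]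
    have h1 : N (((1 : ℚ) / 16 ^ m - 1) * W 5 + (W 5 + 375)) ≤ 1 / 625 := by
      apply N_add
      · change N (((1 : ℚ) / 16 ^ m - 1) * W 5) ≤ _
        rw [mulN]
        calc N ((1 : ℚ) / 16 ^ m - 1) * N (W 5) ≤ 1 / 5 * (1 / 125) := by
              have := N_nonneg (p := 5) (W 5)
              have h6 := N_W5
              gcongr
          _ = _ := by norm_num
      · exact N_W5'
    have e4 : (1 : ℚ) / 5 ^ (b + 4) = 1 / 5 ^ b * (1 / 625) := by
      rw [pow_add]
      field_simp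
      norm_num
    rw [e4]
    gcongr

end Pool.Agent.R902.Half4
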