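import Pool.Agent.R902.TriGen

/-!
Expansions modulo `p^3` of the Legendre sums of index `p-1` and `p`.
-/

set_option linter.unusedSectionVars false

namespace Pool.Agent.R902.Leg3

open Finset Pool.Agent.R902

variable {Q : Type*} [CommRing Q] (p : ℕ) [hp : Fact p.Prime] (hq : (p : Q) ^ 3 = 0)
  (I : ℕ → Q) (hI : ∀ k, 0 < k → k < p → (k : Q) * I k = 1)

/-- `p ∑ z^k / k` -/
def U (z : Q) : Q := ∑ k ∈ Ico 1 p, (p : Q) * z ^ k * I k

/-- `p^2 ∑ z^k / k^2` -/
def V (z : Q) : Q := ∑ k ∈ Ico 1 p, (p : Q) ^ 2 * z ^ k * (I k) ^ 2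

include hq hI

theorem c_mod (k : ℕ) (hk : k < p) :
    (p : Q) * (((p - 1).choose k : Q) * ((p + k).choose k : Q)) = (-1) ^ k * p := by
  induction k with
  | zero => simp
  | succ k ih =>
    have ih := ih (by omega)
    have hk1 := hI (k + 1) (by omega) hk
    have a3 := congrArg (fun x : ℕ => (x : Q)) (Nat.choose_succ_right_eq (p - 1) k)
    simp only [Nat.cast_mul] at a3
    rw [Nat.cast_sub (by omega), Nat.cast_sub hp.1.one_le] at a3
    have a4 := congrArg (fun x : ℕ => (x : Q)) (Nat.add_one_mul_choose_eq (p + k) k)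
    push_cast at a3 a4 hk1
    rw [show p + (k + 1) = p + k + 1 by ring, pow_succ]
    -- multiply by (k+1)^2
    have h : ((k : Q) + 1) ^ 2 * ((p : Q) * (((p - 1).choose (k + 1) : Q) *
        ((p + k + 1).choose (k + 1) : Q))) = ((k : Q) + 1) ^ 2 * ((-1) ^ k * -1 * p) := by
      generalize ((p - 1).choose (k + 1) : Q) = x1 at *
      generalize ((p + k + 1).choose (k + 1) : Q) = y1 at *
      generalize ((p - 1).choose k : Q) = x at *
      generalize ((p + k).choose k : Q) = y at *
      have e : ((k : Q) + 1) ^ 2 * ((p : Q) * (x1 * y1))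
          = (p : Q) * ((x1 * ((k : Q) + 1)) * (y1 * ((k : Q) + 1))) := by ring
      rw [e, a3, ← a4]
      linear_combination (((p : Q)) ^ 2 - ((k : Q) + 1) ^ 2) * ih + (-1) ^ k * hq
    linear_combination (I (k + 1)) ^ 2 * h + (-(((k : Q) + 1) * I (k + 1) + 1) * ((p : Q) *
      (((p - 1).choose (k + 1) : Q) * ((p + k + 1).choose (k + 1) : Q)))
      + (((k : Q) + 1) * I (k + 1) + 1) * ((-1) ^ k * -1 * p)) * hk1

theorem e_mod (k : ℕ) (h0 : 0 < k) (hk : k < p) :
    ((p - 1).choose k : Q) * ((p - 1 + k).choose k : Q)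
      = (-1) ^ k * ((p : Q) * I k - (p : Q) ^ 2 * (I k) ^ 2) := by
  have hc := c_mod p hq I hI k hk
  have hk1 := hI k h0 hk
  have h1 : ((p : Q) + k) * ((p - 1 + k).choose k : Q) = p * ((p + k).choose k : Q) := by
    have h := Nat.choose_mul_succ_eq (p - 1 + k) k
    have h' := congrArg (fun x : ℕ => (x : Q)) h
    have hp1 := hp.1.one_le
    rw [show p - 1 + k + 1 = p + k by omega, show p + k - k = p by omega] at h'
    push_cast at h'
    linear_combination h'
  have h2 : ((p : Q) + k) * (I k - p * (I k) ^ 2 + (p : Q) ^ 2 * (I k) ^ 3) = 1 := by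
    linear_combination (I k) ^ 3 * hq + (1 - p * I k + (p : Q) ^ 2 * (I k) ^ 2) * hk1
  generalize ((p - 1).choose k : Q) = x at *
  generalize ((p - 1 + k).choose k : Q) = y1 at *
  generalize ((p + k).choose k : Q) = y at *
  have h3 : ((p : Q) + k) * (x * y1) = (-1) ^ k * p := by
    linear_combination x * h1 + hc
  linear_combination (I k - p * (I k) ^ 2 + (p : Q) ^ 2 * (I k) ^ 3) * h3 - x * y1 * h2
    + (-1) ^ k * (I k) ^ 3 * hq

theorem f_mod (k : ℕ) (h0 : 0 < k) (hk : k < p) :
    (p.choose k : Q) * ((p + k).choose k : Q)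
      = -(-1) ^ k * ((p : Q) * I k + (p : Q) ^ 2 * (I k) ^ 2) := by
  have hc := c_mod p hq I hI k hk
  have hk1 := hI k h0 hk
  have h1 : ((p : Q) - k) * (p.choose k : Q) = p * ((p - 1).choose k : Q) := by
    have hp1 := hp.1.one_le
    have h := Nat.choose_mul_succ_eq (p - 1) k
    have h' := congrArg (fun x : ℕ => (x : Q)) h
    rw [show p - 1 + 1 = p by omega] at h'
    simp only [Nat.cast_mul] at h'
    rw [Nat.cast_sub (by omega)] at h'
    linear_combination -h'
  have h2 : ((p : Q) - k) * (-(I k + p * (I k) ^ 2 + (p : Q) ^ 2 * (I k) ^ 3)) = 1 := by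
    linear_combination -(I k) ^ 3 * hq + (1 + p * I k + (p : Q) ^ 2 * (I k) ^ 2) * hk1
  generalize ((p - 1).choose k : Q) = x at *
  generalize (p.choose k : Q) = x1 at *
  generalize ((p + k).choose k : Q) = y at *
  have h3 : ((p : Q) - k) * (x1 * y) = (-1) ^ k * p := by
    linear_combination y * h1 + hc
  linear_combination (-(I k + p * (I k) ^ 2 + (p : Q) ^ 2 * (I k) ^ 3)) * h3 - x1 * y * h2
    - (-1) ^ k * (I k) ^ 3 * hq

/-- the Legendre sum of index `p-1` -/
theorem E1 (z : Q) : ∑ k ∈ range (p - 1 + 1), ((p - 1).choose k : Q) * ((p - 1 + k).choose k : Q) *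
    (-z) ^ k = 1 + U p I z - V p I z := by
  rw [show p - 1 + 1 = p from Nat.sub_add_cancel hp.1.one_le, Finset.range_eq_Ico,
    Finset.sum_eq_sum_Ico_succ_bot hp.1.pos]
  have h : ∑ k ∈ Ico (0 + 1) p, ((p - 1).choose k : Q) * ((p - 1 + k).choose k : Q) * (-z) ^ k
      = U p I z - V p I z := by
    rw [U, V, ← Finset.sum_sub_distrib, zero_add]
    refine Finset.sum_congr rfl fun k hk => ?_
    have hk := Finset.mem_Ico.1 hk
    have h1 : ((-1 : Q)) ^ k * (-z) ^ k = z ^ k := by rw [← mul_pow]; congr 1; ring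
    rw [e_mod p hq I hI k (by omega) hk.2]
    linear_combination ((p : Q) * I k - (p : Q) ^ 2 * (I k) ^ 2) * h1
  rw [h]
  simp
  ring

/-- the Legendre sum of index `p` -/
theorem E2 (hodd : Odd p) (z : Q) : ∑ k ∈ range (p + 1), (p.choose k : Q) *
    ((p + k).choose k : Q) * (-z) ^ k = 1 - ((p + p).choose p : Q) * z ^ p - U p I z - V p I z := by
  rw [Finset.sum_range_succ, Finset.range_eq_Ico, Finset.sum_eq_sum_Ico_succ_bot hp.1.pos]
  have h : ∑ k ∈ Ico (0 + 1) p, (p.choose k : Q) * ((p + k).choose k : Q) * (-z) ^ k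
      = - U p I z - V p I z := by
    rw [U, V, zero_add, ← Finset.sum_neg_distrib, ← Finset.sum_sub_distrib]
    refine Finset.sum_congr rfl fun k hk => ?_
    have hk := Finset.mem_Ico.1 hk
    have h1 : ((-1 : Q)) ^ k * (-z) ^ k = z ^ k := by rw [← mul_pow]; congr 1; ring
    rw [f_mod p hq I hI k (by omega) hk.2]
    linear_combination (-((p : Q) * I k + (p : Q) ^ 2 * (I k) ^ 2)) * h1
  rw [h, hodd.neg_pow]
  simp
  ring

theorem I_refl (k : ℕ) (h0 : 0 < k) (hk : k < p) :
    I (p - k) = -(I k + p * (I k) ^ 2 + (p : Q) ^ 2 * (I k) ^ 3) := by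
  have hk1 := hI k h0 hk
  have hk2 := hI (p - k) (by omega) (by omega)
  rw [Nat.cast_sub hk.le] at hk2
  have h2 : ((p : Q) - k) * (-(I k + p * (I k) ^ 2 + (p : Q) ^ 2 * (I k) ^ 3)) = 1 := by
    linear_combination -(I k) ^ 3 * hq + (1 + p * I k + (p : Q) ^ 2 * (I k) ^ 2) * hk1
  linear_combination (-(I k + p * (I k) ^ 2 + (p : Q) ^ 2 * (I k) ^ 3)) * hk2 - I (p - k) * h2

theorem V_refl (z z' : Q) (h : z * z' = 1) : V p I z = z ^ p * V p I z' := by
  rw [V, V, Finset.mul_sum]
  refine Finset.sum_nbij' (fun k => p - k) (fun k => p - k) ?_ ?_ ?_ ?_ ?_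
  · intro k hk
    have := Finset.mem_Ico.1 hk
    simp only [Finset.mem_Ico]
    omega
  · intro k hk
    have := Finset.mem_Ico.1 hk
    simp only [Finset.mem_Ico]
    omega
  · intro k hk
    have := Finset.mem_Ico.1 hk
    omega
  · intro k hk
    have := Finset.mem_Ico.1 hk
    omega
  · intro k hk
    have hk := Finset.mem_Ico.1 hk
    have h1 := I_refl p hq I hI k (by omega) hk.2
    have h2 : (p : Q) ^ 2 * (I (p - k)) ^ 2 = (p : Q) ^ 2 * (I k) ^ 2 := by
      rw [h1]
      linear_combination (2 * (I k) ^ 3 + p * (I k) ^ 4 + 2 * p * (I k) ^ 4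
        + 2 * (p : Q) ^ 2 * (I k) ^ 5 + (p : Q) ^ 3 * (I k) ^ 6) * hq
    have h3 : z ^ p * z' ^ (p - k) = z ^ k := by
      have : z ^ p = z ^ k * z ^ (p - k) := by rw [← pow_add]; congr 1; omega
      rw [this, mul_assoc, ← mul_pow, h, one_pow, mul_one]
    linear_combination (-(z ^ p * z' ^ (p - k))) * h2 - ((p : Q) ^ 2 * (I k) ^ 2) * h3

/-- the central binomial coefficient of index `p` -/
theorem wolst (h3 : 3 < p) (hS : V p I 1 = 0) : ((p + p).choose p : Q) = 2 := by
  have hodd : Odd p := hp.1.odd_of_ne_two (by omega)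
  have h2u := hI 2 (by norm_num) (by omega)
  have hU : U p I 1 = 0 := by
    have h1 : U p I 1 = -U p I 1 - V p I 1 := by
      have h2 : U p I 1 = ∑ k ∈ Ico 1 p, (p : Q) * 1 ^ (p - k) * I (p - k) := by
        rw [U]
        refine Finset.sum_nbij' (fun k => p - k) (fun k => p - k) ?_ ?_ ?_ ?_ ?_
        · intro k hk
          have := Finset.mem_Ico.1 hk
          simp only [Finset.mem_Ico]
          omega
        · intro k hk
          have := Finset.mem_Ico.1 hk
          simp only [Finset.mem_Ico]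
          omega
        · intro k hk
          have := Finset.mem_Ico.1 hk
          omega
        · intro k hk
          have := Finset.mem_Ico.1 hk
          omega
        · intro k hk
          have := Finset.mem_Ico.1 hk
          rw [show p - (p - k) = k by omega]
      refine h2.trans ?_
      rw [U, V, ← Finset.sum_neg_distrib, ← Finset.sum_sub_distrib]
      refine Finset.sum_congr rfl fun k hk => ?_
      have hk := Finset.mem_Ico.1 hk
      rw [I_refl p hq I hI k (by omega) hk.2]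
      simp only [one_pow]
      linear_combination (-(I k) ^ 3) * hq
    rw [hS] at h1
    push_cast at h2u
    have h4 : 2 * U p I 1 = 0 := by linear_combination h1
    linear_combination (-U p I 1) * h2u + I 2 * h4
  have h4 := E2 p hq I hI hodd 1
  rw [hU, hS] at h4
  have h5 := TriGen.T_expand (-1 : Q) 1 p
  have h6 : TriGen.T (2 * (-1) + 1 : Q) (-1 * (-1 + 1)) p = -1 := by
    have e1 : (2 * (-1) + 1 : Q) = -1 := by ring
    have e2 : (-1 * (-1 + 1) : Q) = 0 := by ring
    rw [e1, e2, TriGen.T, Finset.sum_range_succ']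
    rw [Finset.sum_eq_zero (fun j _ => by rw [zero_pow (Nat.succ_ne_zero j), mul_zero])]
    simp [hodd.neg_one_pow]
  rw [h6] at h5
  have h7 : ∑ k ∈ range (p + 1), (p.choose k : Q) * ((p + k).choose k : Q) * (-1) ^ k * 1 ^ (p - k)
      = ∑ k ∈ range (p + 1), (p.choose k : Q) * ((p + k).choose k : Q) * (-1) ^ k :=
    Finset.sum_congr rfl fun k _ => by rw [one_pow, mul_one]
  rw [h7, h4] at h5
  rw [one_pow] at h5
  linear_combination h5

end Pool.Agent.R902.Leg3
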