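import Pool.Agent.R902.Block

/-!
Sums of powers of multinomial coefficients.
-/

namespace Pool.Agent.R902.Multi

open Finset PowerSeries

/-- recursive form of the sum of `r`-th powers of multinomial coefficients -/
def W (r : ℕ) : ℕ → ℕ → ℕ
  | 0, n => if n = 0 then 1 else 0
  | c + 1, n => ∑ p ∈ antidiagonal n, n.choose p.1 ^ r * W r c p.2

/-- marked version -/
def D (r c n : ℕ) : ℕ := ∑ p ∈ antidiagonal n, p.1 * (n.choose p.1 ^ r * W r c p.2)

theorem sum_piAntidiag {ι : Type*} [DecidableEq ι] (r : ℕ) (s : Finset ι) (n : ℕ) :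
    ∑ k ∈ s.piAntidiag n, (Nat.multinomial s k) ^ r = W r s.card n := by
  induction s using Finset.cons_induction generalizing n with
  | empty =>
    rw [Finset.piAntidiag_empty, Finset.card_empty, W]
    by_cases h : n = 0
    · simp [h]
    · simp [h]
  | cons i s hi ih =>
    rw [Finset.piAntidiag_cons hi, Finset.sum_disjiUnion, Finset.card_cons, W]
    refine Finset.sum_congr rfl fun p hp => ?_
    rw [Finset.sum_map, ← ih, Finset.mul_sum]
    refine Finset.sum_congr rfl fun k hk => ?_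
    have hk := Finset.mem_piAntidiag.1 hk
    have hp := Finset.HasAntidiagonal.mem_antidiagonal.1 hp
    have h0 : k i = 0 := by
      by_contra h
      exact hi (hk.2 i h)
    rw [Nat.multinomial_cons, ← mul_pow]
    have e1 : (addRightEmbedding fun t => if t = i then p.1 else 0) k i = p.1 := by
      simp [h0]
    have e2 : ∑ j ∈ s, (addRightEmbedding fun t => if t = i then p.1 else 0) k j = p.2 := by
      rw [← hk.1]
      refine Finset.sum_congr rfl fun j hj => ?_
      have : j ≠ i := by rintro rfl; exact hi hj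
      simp [this]
    have e3 : Nat.multinomial s ((addRightEmbedding fun t => if t = i then p.1 else 0) k)
        = Nat.multinomial s k := by
      apply Nat.multinomial_congr
      intro j hj
      have : j ≠ i := by rintro rfl; exact hi hj
      simp [this]
    rw [e1, e2, e3, hp]

/-- generating series -/
noncomputable def E (r : ℕ) : PowerSeries ℚ := PowerSeries.mk fun j => 1 / ((j.factorial : ℚ)) ^ r

theorem W_eq (r c n : ℕ) :
    (W r c n : ℚ) = (n.factorial : ℚ) ^ r * PowerSeries.coeff n (E r ^ c) := by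
  induction c generalizing n with
  | zero =>
    rw [W, pow_zero, PowerSeries.coeff_one]
    by_cases h : n = 0
    · simp [h]
    · simp [h]
  | succ c ih =>
    rw [W, pow_succ', PowerSeries.coeff_mul, Finset.mul_sum]
    push_cast
    refine Finset.sum_congr rfl fun p hp => ?_
    have hp := Finset.HasAntidiagonal.mem_antidiagonal.1 hp
    rw [ih, E, PowerSeries.coeff_mk]
    subst hp
    have h1 : ((p.1 + p.2).choose p.1 : ℚ) * (p.1.factorial : ℚ) * (p.2.factorial : ℚ)
        = ((p.1 + p.2).factorial : ℚ) := by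
      rw [Nat.choose_symm_add]
      exact_mod_cast Nat.add_choose_mul_factorial_mul_factorial p.1 p.2
    have h2 : (p.1.factorial : ℚ) ≠ 0 := by positivity
    rw [← h1]
    field_simp
    rw [mul_pow, mul_pow]
    ring

theorem D_eq (r c n : ℕ) :
    (D r c n : ℚ) = (n.factorial : ℚ) ^ r *
      PowerSeries.coeff n (PowerSeries.X * PowerSeries.derivative ℚ (E r) * E r ^ c) := by
  rw [D, PowerSeries.coeff_mul, Finset.mul_sum]
  push_cast
  refine Finset.sum_congr rfl fun p hp => ?_
  have hp := Finset.HasAntidiagonal.mem_antidiagonal.1 hp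
  have h0 : PowerSeries.coeff p.1 (PowerSeries.X * PowerSeries.derivative ℚ (E r))
      = (p.1 : ℚ) * (1 / ((p.1.factorial : ℚ)) ^ r) := by
    rcases p.1 with _ | a
    · simp
    · rw [PowerSeries.coeff_succ_X_mul, PowerSeries.coeff_derivative, E, PowerSeries.coeff_mk]
      push_cast
      ring
  rw [h0, W_eq]
  subst hp
  have h1 : ((p.1 + p.2).choose p.1 : ℚ) * (p.1.factorial : ℚ) * (p.2.factorial : ℚ)
      = ((p.1 + p.2).factorial : ℚ) := by
    rw [Nat.choose_symm_add]
    exact_mod_cast Nat.add_choose_mul_factorial_mul_factorial p.1 p.2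
  have h2 : (p.1.factorial : ℚ) ≠ 0 := by positivity
  rw [← h1]
  field_simp
  rw [mul_pow, mul_pow]
  ring

/-- marking identity -/
theorem mark (r c n : ℕ) : n * W r (c + 1) n = (c + 1) * D r c n := by
  have h : ((n * W r (c + 1) n : ℕ) : ℚ) = (((c + 1) * D r c n : ℕ) : ℚ) := by
    push_cast
    rw [W_eq, D_eq]
    have h1 : PowerSeries.coeff n (PowerSeries.X * PowerSeries.derivative ℚ (E r ^ (c + 1)))
        = (n : ℚ) * PowerSeries.coeff n (E r ^ (c + 1)) := by
      rcases n with _ | a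
      · simp
      · rw [PowerSeries.coeff_succ_X_mul, PowerSeries.coeff_derivative]
        push_cast
        ring
    have h2 : PowerSeries.X * PowerSeries.derivative ℚ (E r ^ (c + 1))
        = ((c + 1 : ℕ) : PowerSeries ℚ) *
          (PowerSeries.X * PowerSeries.derivative ℚ (E r) * E r ^ c) := by
      rw [Derivation.leibniz_pow, Nat.add_sub_cancel, nsmul_eq_mul, smul_eq_mul]
      ring
    rw [h2] at h1
    rw [show ((c + 1 : ℕ) : PowerSeries ℚ) = PowerSeries.C ((c + 1 : ℕ) : ℚ) by simp,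
      PowerSeries.coeff_C_mul] at h1
    push_cast at h1
    linear_combination (-(n.factorial : ℚ) ^ r) * h1
  exact_mod_cast h

/-- the integer sequence `h` with `(c+1) h(k) = (-1)^{rk} ((c+2) k + (c+1)) W(c+1,k)` -/
def h (r c k : ℕ) : ℤ := (-1) ^ (r * k) * (((c + 2) * D r c k + W r (c + 1) k : ℕ) : ℤ)

theorem mul_h (r c k : ℕ) : ((c : ℤ) + 1) * h r c k
    = (-1) ^ (r * k) * ((((c : ℤ) + 1) + 1) * k + ((c : ℤ) + 1)) * (W r (c + 1) k : ℤ) := by
  have h1 : ((k * W r (c + 1) k : ℕ) : ℤ) = (((c + 1) * D r c k : ℕ) : ℤ) := by rw [mark]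
  rw [h]
  push_cast at h1 ⊢
  linear_combination (-(-1) ^ (r * k) * ((c : ℤ) + 2)) * h1

theorem W_succ_symm (r c n : ℕ) :
    W r (c + 1) n = ∑ k ∈ range (n + 1), n.choose k ^ r * W r c k := by
  rw [W, ← Finset.Nat.sum_antidiagonal_swap,
    ← Nat.succ_eq_add_one, ← Finset.Nat.sum_antidiagonal_eq_sum_range_succ_mk
      (fun p : ℕ × ℕ => n.choose p.1 ^ r * W r c p.1)]
  refine Finset.sum_congr rfl fun p hp => ?_
  have hp := Finset.HasAntidiagonal.mem_antidiagonal.1 hp
  simp only [Prod.fst_swap, Prod.snd_swap]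
  rw [← hp, Nat.choose_symm_add]

theorem D_symm (r c n : ℕ) :
    D r c n + ∑ k ∈ range (n + 1), k * (n.choose k ^ r * W r c k) = n * W r (c + 1) n := by
  have h1 : ∑ k ∈ range (n + 1), k * (n.choose k ^ r * W r c k)
      = ∑ p ∈ antidiagonal n, p.2 * (n.choose p.1 ^ r * W r c p.2) := by
    rw [← Finset.Nat.sum_antidiagonal_swap,
      ← Nat.succ_eq_add_one, ← Finset.Nat.sum_antidiagonal_eq_sum_range_succ_mk
        (fun p : ℕ × ℕ => p.1 * (n.choose p.1 ^ r * W r c p.1))]
    refine Finset.sum_congr rfl fun p hp => ?_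
    have hp := Finset.HasAntidiagonal.mem_antidiagonal.1 hp
    simp only [Prod.fst_swap, Prod.snd_swap]
    rw [← hp, Nat.choose_symm_add]
  rw [h1, D, ← Finset.sum_add_distrib, W, Finset.mul_sum]
  refine Finset.sum_congr rfl fun p hp => ?_
  have hp := Finset.HasAntidiagonal.mem_antidiagonal.1 hp
  rw [← add_mul, hp]

/-- the twisted sum is explicit -/
theorem twisted (r c N : ℕ) :
    ∑ k ∈ range (N + 1), N.choose k ^ r * ((c + 2) * D r c k + W r (c + 1) k)
      = (N + 1) * W r (c + 2) N := by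
  have e1 := W_succ_symm r (c + 1) N
  have e2 := D_symm r (c + 1) N
  have e3 := mark r (c + 1) N
  apply Nat.eq_of_mul_eq_mul_left (Nat.succ_pos c)
  rw [Nat.succ_eq_add_one, Finset.mul_sum]
  have e4 : ∀ k ∈ range (N + 1), (c + 1) * (N.choose k ^ r * ((c + 2) * D r c k + W r (c + 1) k))
      = (c + 2) * (k * (N.choose k ^ r * W r (c + 1) k)) +
        (c + 1) * (N.choose k ^ r * W r (c + 1) k) := by
    intro k _
    have := mark r c k
    calc (c + 1) * (N.choose k ^ r * ((c + 2) * D r c k + W r (c + 1) k))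
        = (c + 2) * N.choose k ^ r * ((c + 1) * D r c k) +
          (c + 1) * (N.choose k ^ r * W r (c + 1) k) := by ring
      _ = _ := by rw [← this]; ring
  rw [Finset.sum_congr rfl e4, Finset.sum_add_distrib, ← Finset.mul_sum, ← Finset.mul_sum, ← e1]
  rw [show c + 2 = c + 1 + 1 by ring] at *
  zify at *
  linear_combination ((c : ℤ) + 1 + 1) * e2 + e3

theorem twisted' (r c n : ℕ) (hn : 1 ≤ n) :
    ∑ k ∈ range n, Block.c n k ^ r * h r c k = (n : ℤ) * (W r (c + 2) (n - 1) : ℤ) := by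
  obtain ⟨N, rfl⟩ : ∃ N, n = N + 1 := ⟨n - 1, by omega⟩
  have h1 := congrArg (fun x : ℕ => (x : ℤ)) (twisted r c N)
  push_cast at h1 ⊢
  rw [← h1]
  refine Finset.sum_congr rfl fun k _ => ?_
  rw [Block.c, h, Nat.add_sub_cancel, mul_pow, ← pow_mul, mul_comm k r]
  push_cast
  have : ((-1 : ℤ) ^ (r * k)) * (-1) ^ (r * k) = 1 := by
    rw [← mul_pow]; simp
  linear_combination ((N.choose k : ℤ) ^ r * (((c : ℤ) + 2) * (D r c k : ℤ) +
    (W r (c + 1) k : ℤ))) * this

/-- the untwisted sum is divisible by `n` -/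
theorem dvd_sum_h (r c n : ℕ) : (n : ℤ) ∣ ∑ k ∈ range n, h r c k := by
  apply Block.dvd_sum_of_dvd_twisted r
  intro n hn
  rw [twisted' r c n hn]
  exact Dvd.intro _ rfl

/-- **Main theorem.** -/
theorem main (r m n : ℕ) (hm : 1 ≤ m) :
    ((m * n : ℕ) : ℤ) ∣ ∑ k ∈ range n, (-1) ^ (r * k) * (((m : ℤ) + 1) * k + m) * (W r m k : ℤ) := by
  obtain ⟨c, rfl⟩ : ∃ c, m = c + 1 := ⟨m - 1, by omega⟩
  have : ∑ k ∈ range n, (-1) ^ (r * k) * ((((c + 1 : ℕ) : ℤ) + 1) * k + ((c + 1 : ℕ) : ℤ)) *
      (W r (c + 1) k : ℤ) = ((c + 1 : ℕ) : ℤ) * ∑ k ∈ range n, h r c k := by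
    rw [Finset.mul_sum]
    refine Finset.sum_congr rfl fun k _ => ?_
    push_cast
    rw [mul_h]
  rw [this, Nat.cast_mul]
  exact mul_dvd_mul_left _ (dvd_sum_h r c n)

end Pool.Agent.R902.Multi
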