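import Pool.Agent.R902.Alpha

/-!
3-adic estimates for the convolution sums.
-/

set_option linter.unusedSectionVars false

namespace Pool.Agent.R902.Norm3

open Finset Pool.Agent.R902.Alpha

/-- the 3-adic norm -/
abbrev N (x : ℚ) : ℚ := padicNorm 3 x

theorem N_add {x y t : ℚ} (hx : N x ≤ t) (hy : N y ≤ t) : N (x + y) ≤ t :=
  padicNorm.nonarchimedean.trans (max_le hx hy)

theorem N_neg (x : ℚ) : N (-x) = N x := padicNorm.neg x

theorem N_sub {x y t : ℚ} (hx : N x ≤ t) (hy : N y ≤ t) : N (x - y) ≤ t := by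
  rw [sub_eq_add_neg]
  exact N_add hx (by rw [N_neg]; exact hy)

theorem N_mul (x y : ℚ) : N (x * y) = N x * N y := padicNorm.mul x y

theorem N_nonneg (x : ℚ) : 0 ≤ N x := padicNorm.nonneg x

theorem N_nat (n : ℕ) : N (n : ℚ) ≤ 1 := by
  have := padicNorm.of_int (p := 3) (n : ℤ)
  simpa using this

theorem N_pow (x : ℚ) (k : ℕ) : N (x ^ k) = N x ^ k := by
  induction k with
  | zero => simp
  | succ k ih => rw [pow_succ, N_mul, ih, pow_succ]

theorem N_three : N 3 = 1 / 3 := by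
  have := padicNorm.padicNorm_p_of_prime (p := 3)
  norm_num at this ⊢
  exact this

theorem N_natCast_dvd (n a : ℕ) (h : 3 ^ a ∣ n) : N (n : ℚ) ≤ 1 / 3 ^ a := by
  obtain ⟨c, rfl⟩ := h
  push_cast
  rw [N_mul, N_pow, N_three]
  have := N_nat c
  calc (1 / 3 : ℚ) ^ a * N (c : ℚ) ≤ (1 / 3 : ℚ) ^ a * 1 := by gcongr
    _ = 1 / 3 ^ a := by rw [mul_one, one_div_pow]

theorem N_inv_nat (j : ℕ) (hj : 0 < j) : N ((j : ℚ)⁻¹) ≤ j := by
  have h0 : (j : ℚ) ≠ 0 := by exact_mod_cast hj.ne'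
  have h1 : N ((j : ℚ)⁻¹) * N (j : ℚ) = 1 := by
    rw [← N_mul, inv_mul_cancel₀ h0]; simp
  have h2 : 1 / (j : ℚ) ≤ N (j : ℚ) := by
    have h3 : N (j : ℚ) = (3 : ℚ) ^ (-(padicValRat 3 (j : ℚ))) := by
      rw [N, padicNorm.eq_zpow_of_nonzero h0]
      norm_num
    rw [h3, padicValRat.of_nat, zpow_neg, zpow_natCast, one_div]
    gcongr
    have h4 : 3 ^ padicValNat 3 j ≤ j := Nat.le_of_dvd hj pow_padicValNat_dvd
    exact_mod_cast h4
  have hpos : (0 : ℚ) < j := by exact_mod_cast hj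
  calc N ((j : ℚ)⁻¹) = N ((j : ℚ)⁻¹) * (1 / (j : ℚ)) * j := by field_simp
    _ ≤ N ((j : ℚ)⁻¹) * N (j : ℚ) * j := by
        gcongr
        exact N_nonneg _
    _ = j := by rw [h1, one_mul]

theorem N_one_of {x d : ℚ} (h : N (x - 1) ≤ d) (hd : d < 1) : N x = 1 := by
  have h1 : N (1 : ℚ) = 1 := by simp
  have h2 : N (x - 1) ≠ N 1 := by rw [h1]; exact (lt_of_le_of_lt h hd).ne
  have h3 := padicNorm.add_eq_max_of_ne h2
  rw [sub_add_cancel] at h3
  rw [N, h3]
  exact (max_eq_right (lt_of_le_of_lt h (hd.trans_eq h1.symm)).le).trans h1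

theorem un_mul {x y d : ℚ} (hx : N (x - 1) ≤ d) (hy : N (y - 1) ≤ d) (hd : d < 1) :
    N (x * y - 1) ≤ d := by
  have : x * y - 1 = (x - 1) * y + (y - 1) := by ring
  rw [this]
  refine N_add ?_ hy
  rw [N_mul, N_one_of hy hd, mul_one]
  exact hx

theorem un_div {x y d : ℚ} (hx : N (x - 1) ≤ d) (hy : N (y - 1) ≤ d) (hd : d < 1) :
    N (x / y - 1) ≤ d := by
  have hy1 := N_one_of hy hd
  have hy0 : y ≠ 0 := by
    rintro rfl
    simp at hy1
  have h1 : N (x / y - 1) * N y = N (x - y) := by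
    rw [← N_mul]
    congr 1
    field_simp
  rw [hy1, mul_one] at h1
  rw [h1, show x - y = (x - 1) - (y - 1) by ring]
  exact N_sub hx hy

theorem un_prod (f : ℕ → ℚ) (k : ℕ) {d : ℚ} (h0 : 0 ≤ d) (hd : d < 1)
    (h : ∀ j < k, N (f j - 1) ≤ d) : N (∏ j ∈ range k, f j - 1) ≤ d := by
  induction k with
  | zero => simpa using h0
  | succ k ih =>
    rw [Finset.prod_range_succ]
    exact un_mul (ih fun j hj => h j (by omega)) (h k (by omega)) hd

/-- the product comparing `al` values -/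
def g (n i : ℕ) : ℚ := ∏ j ∈ range i, ((1 - n / (j + 1)) / (1 - 2 * n / (2 * j + 3)))

theorem al_prod (n i : ℕ) (h : i + 1 ≤ n) :
    al (n - 1 - i) * al i * (2 * i + 1) = al (n - 1) * g n i := by
  induction i with
  | zero => simp [g, al_zero]
  | succ i ih =>
    have ih := ih (by omega)
    obtain ⟨k, rfl⟩ : ∃ k, n = k + i + 2 := ⟨n - (i + 2), by omega⟩
    rw [show k + i + 2 - 1 - i = k + 1 by omega] at ih
    rw [show k + i + 2 - 1 - (i + 1) = k by omega, g, Finset.prod_range_succ, ← g, ← mul_assoc,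
      ← ih]
    have h1 := al_succ k
    have h2 := al_succ i
    have g1 : al k = 2 * (k + 1) / (2 * k + 1) * al (k + 1) := by
      field_simp
      linear_combination -h1
    have g2 : al (i + 1) = (2 * i + 1) / (2 * (i + 1)) * al i := by
      field_simp
      linear_combination h2
    rw [g1, g2]
    have e1 : (2 * (i : ℚ) + 3) ≠ 0 := by positivity
    have e2 : (2 * (k : ℚ) + 1) ≠ 0 := by positivity
    have e3 : (1 : ℚ) - 2 * ((k + i + 2 : ℕ) : ℚ) / (2 * i + 3) = -(2 * k + 1) / (2 * i + 3) := by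
      push_cast
      field_simp
      ring
    have e4 : (1 : ℚ) - ((k + i + 2 : ℕ) : ℚ) / (i + 1) = -(k + 1) / (i + 1) := by
      push_cast
      field_simp
      ring
    rw [e3, e4]
    push_cast
    field_simp
    ring

theorem choose_prod (n k : ℕ) (hn : 1 ≤ n) :
    ((n - 1).choose k : ℚ) = (-1) ^ k * ∏ l ∈ range k, (1 - (n : ℚ) / (l + 1)) := by
  induction k with
  | zero => simp
  | succ k ih =>
    have h1 : ((k : ℚ) + 1) * ((n - 1).choose (k + 1) : ℚ) = (n - 1 - k) * ((n - 1).choose k : ℚ)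
        := by
      rcases Nat.lt_or_ge (n - 1) k with h | h
      · rw [Nat.choose_eq_zero_of_lt h, Nat.choose_eq_zero_of_lt (by omega : n - 1 < k + 1)]
        simp
      · have h2 := congrArg (fun x : ℕ => (x : ℚ)) (Nat.choose_succ_right_eq (n - 1) k)
        simp only [Nat.cast_mul] at h2
        rw [Nat.cast_sub h, Nat.cast_sub hn] at h2
        push_cast at h2
        linear_combination h2
    have hk : ((k : ℚ) + 1) ≠ 0 := by positivity
    apply mul_left_cancel₀ hk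
    rw [h1, ih, Finset.prod_range_succ, pow_succ]
    field_simp
    ring

/-- the vanishing alternating sum -/
theorem AB (n : ℕ) : (∑ i ∈ range (n + 4), (n.choose (2 * i) : ℤ) * (-3) ^ i)
      - 3 * (∑ i ∈ range (n + 4), (n.choose (2 * i + 1) : ℤ) * (-3) ^ i)
      = (∑ i ∈ range (n + 4), ((n + 1).choose (2 * i) : ℤ) * (-3) ^ i) ∧
    (∑ i ∈ range (n + 4), (n.choose (2 * i) : ℤ) * (-3) ^ i)
      + (∑ i ∈ range (n + 4), (n.choose (2 * i + 1) : ℤ) * (-3) ^ i)
      = (∑ i ∈ range (n + 4), ((n + 1).choose (2 * i + 1) : ℤ) * (-3) ^ i) := by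
  refine ⟨?_, ?_⟩
  · have h1 : (∑ i ∈ range (n + 4), (n.choose (2 * i + 1) : ℤ) * (-3) ^ i)
        = ∑ i ∈ range (n + 3), (n.choose (2 * i + 1) : ℤ) * (-3) ^ i := by
      rw [Finset.sum_range_succ, Nat.choose_eq_zero_of_lt (by omega)]
      simp
    rw [h1, Finset.sum_range_succ' _ (n + 3), Finset.sum_range_succ' _ (n + 3), Finset.mul_sum,
      add_sub_right_comm, ← Finset.sum_sub_distrib]
    congr 1
    · refine Finset.sum_congr rfl fun i _ => ?_
      have h2 : (n + 1).choose (2 * (i + 1)) = n.choose (2 * i + 1) + n.choose (2 * (i + 1)) := by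
        rw [show 2 * (i + 1) = 2 * i + 1 + 1 by ring, Nat.choose_succ_succ']
      rw [h2, pow_succ]
      push_cast
      ring
    · simp
  · rw [← Finset.sum_add_distrib]
    refine Finset.sum_congr rfl fun i _ => ?_
    rw [Nat.choose_succ_succ' n (2 * i)]
    push_cast
    ring

/-- truncation independence -/
theorem ext_sum (n K : ℕ) (h : n < 2 * K + 1) (L : ℕ) (hL : K ≤ L) :
    ∑ i ∈ range L, (n.choose (2 * i + 1) : ℤ) * (-3) ^ i
      = ∑ i ∈ range K, (n.choose (2 * i + 1) : ℤ) * (-3) ^ i := by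
  symm
  apply Finset.sum_subset (Finset.range_mono hL)
  intro k _ hk
  have hk : K ≤ k := by simpa using hk
  rw [Nat.choose_eq_zero_of_lt (by omega)]
  simp

theorem ext_sum' (n K : ℕ) (h : n < 2 * K) (L : ℕ) (hL : K ≤ L) :
    ∑ i ∈ range L, (n.choose (2 * i) : ℤ) * (-3) ^ i
      = ∑ i ∈ range K, (n.choose (2 * i) : ℤ) * (-3) ^ i := by
  symm
  apply Finset.sum_subset (Finset.range_mono hL)
  intro k _ hk
  have hk : K ≤ k := by simpa using hk
  rw [Nat.choose_eq_zero_of_lt (by omega)]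
  simp

/-- `B_n = ∑ C(n,2i+1) (-3)^i` vanishes for `3 ∣ n` -/
theorem B_zero (m : ℕ) : ∀ L, 3 * m < 2 * L + 1 →
    ∑ i ∈ range L, ((3 * m).choose (2 * i + 1) : ℤ) * (-3) ^ i = 0 := by
  have key : ∀ n, (∑ i ∈ range (n + 4), ((n + 3).choose (2 * i + 1) : ℤ) * (-3) ^ i)
      = -8 * ∑ i ∈ range (n + 4), (n.choose (2 * i + 1) : ℤ) * (-3) ^ i := by
    intro n
    obtain ⟨a0, b0⟩ := AB n
    obtain ⟨a1, b1⟩ := AB (n + 1)
    obtain ⟨a2, b2⟩ := AB (n + 2)
    have x1 := ext_sum (n + 1) (n + 4) (by omega) (n + 5) (by omega)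
    have x2 := ext_sum (n + 2) (n + 4) (by omega) (n + 6) (by omega)
    have x2' := ext_sum (n + 2) (n + 4) (by omega) (n + 5) (by omega)
    have x3 := ext_sum (n + 3) (n + 4) (by omega) (n + 6) (by omega)
    have y1 := ext_sum' (n + 1) (n + 4) (by omega) (n + 5) (by omega)
    have y2 := ext_sum' (n + 2) (n + 4) (by omega) (n + 6) (by omega)
    have y2' := ext_sum' (n + 2) (n + 4) (by omega) (n + 5) (by omega)
    rw [show n + 1 + 4 = n + 5 by ring, show n + 1 + 1 = n + 2 by ring] at *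
    rw [show n + 2 + 4 = n + 6 by ring, show n + 2 + 1 = n + 3 by ring] at *
    rw [x1, y1, x2'] at b1
    rw [x1, y1, y2'] at a1
    rw [x2, y2, x3] at b2
    rw [← b2, ← b1, ← a1, ← a0, ← b0]
    ring
  induction m with
  | zero =>
    intro L _
    simp
  | succ m ih =>
    intro L hL
    have h1 := key (3 * m)
    rw [ih (3 * m + 4) (by omega), mul_zero] at h1
    rw [show 3 * m + 3 = 3 * (m + 1) by ring] at h1
    rcases Nat.le_total L (3 * m + 4) with h2 | h2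
    · rw [← ext_sum (3 * (m + 1)) L hL (3 * m + 4) h2]
      exact h1
    · rw [ext_sum (3 * (m + 1)) (3 * m + 4) (by omega) L h2]
      exact h1

theorem pow_ineq (i : ℕ) (hi : 1 ≤ i) : (2 * i + 1) ^ 2 ≤ 3 ^ (i + 1) := by
  rcases i with _ | _ | _ | i
  · omega
  · norm_num
  · norm_num
  · induction i with
    | zero => norm_num
    | succ i ih =>
      have := ih (by omega)
      calc (2 * (i + 1 + 1 + 1 + 1) + 1) ^ 2 ≤ 3 * (2 * (i + 1 + 1 + 1) + 1) ^ 2 := by nlinarith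
        _ ≤ 3 * 3 ^ (i + 1 + 1 + 1 + 1) := by omega
        _ = 3 ^ (i + 1 + 1 + 1 + 1 + 1) := by ring

theorem pow_ineq' (i : ℕ) : 2 * i + 1 ≤ 3 ^ i := by
  induction i with
  | zero => norm_num
  | succ i ih => rw [pow_succ]; omega

theorem N_al (k : ℕ) : N (al k) ≤ 1 := by
  rw [al, div_eq_mul_inv, N_mul]
  have h1 : N (((4 : ℚ) ^ k)⁻¹) = 1 := by
    have h4 : N (4 : ℚ) = 1 := by
      have := (padicNorm.nat_eq_one_iff (p := 3) 4).2 (by norm_num)
      exact_mod_cast this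
    have h2 : N (((4 : ℚ) ^ k)⁻¹) * N ((4 : ℚ) ^ k) = 1 := by
      rw [← N_mul, inv_mul_cancel₀ (by positivity)]; simp
    rw [N_pow, h4, one_pow, mul_one] at h2
    exact h2
  rw [h1, mul_one]
  exact N_nat _

section estimates

variable (n a : ℕ) (ha : 1 ≤ a) (hn : 1 ≤ n) (hna : 3 ^ a ∣ n)

include hna in
theorem N_n_div (j : ℕ) (hj : 0 < j) : N ((n : ℚ) / j) ≤ j / 3 ^ a := by
  rw [div_eq_mul_inv, N_mul]
  have h1 := N_natCast_dvd n a hna
  have h2 := N_inv_nat j hj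
  calc N (n : ℚ) * N ((j : ℚ)⁻¹) ≤ (1 / 3 ^ a) * j := by
        gcongr
        exact N_nonneg _
    _ = j / 3 ^ a := by ring

include hna in
theorem N_2n_div (j : ℕ) (hj : 0 < j) : N (2 * (n : ℚ) / j) ≤ j / 3 ^ a := by
  have h := N_n_div (2 * n) a (Dvd.dvd.mul_left hna 2) j hj
  push_cast at h
  exact h

include hna in
theorem g_un (i : ℕ) (hi : 2 * i + 1 < 3 ^ a) : N (g n i - 1) ≤ (2 * i + 1) / 3 ^ a := by
  have hd : (2 * (i : ℚ) + 1) / 3 ^ a < 1 := by
    rw [div_lt_one (by positivity)]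
    exact_mod_cast hi
  apply un_prod _ _ (by positivity) hd
  intro j hj
  apply un_div _ _ hd
  · have : (1 : ℚ) - n / (j + 1) - 1 = -(n / ((j + 1 : ℕ) : ℚ)) := by push_cast; ring
    rw [this, N_neg]
    refine (N_n_div n a hna (j + 1) (by omega)).trans ?_
    gcongr
    have : j + 1 ≤ 2 * i + 1 := by omega
    exact_mod_cast this
  · have : (1 : ℚ) - 2 * n / (2 * j + 3) - 1 = -(2 * n / ((2 * j + 3 : ℕ) : ℚ)) := by
      push_cast; ring
    rw [this, N_neg]
    refine (N_2n_div n a hna (2 * j + 3) (by omega)).trans ?_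
    gcongr
    have : 2 * j + 3 ≤ 2 * i + 1 := by omega
    exact_mod_cast this

include hna hn in
theorem h_un (i : ℕ) (hi : 2 * i + 1 < 3 ^ a) :
    N (((n - 1).choose (2 * i) : ℚ) - 1) ≤ (2 * i + 1) / 3 ^ a := by
  have hd : (2 * (i : ℚ) + 1) / 3 ^ a < 1 := by
    rw [div_lt_one (by positivity)]
    exact_mod_cast hi
  rw [choose_prod n (2 * i) hn, pow_mul, neg_one_sq, one_pow, one_mul]
  apply un_prod _ _ (by positivity) hd
  intro j hj
  have : (1 : ℚ) - n / (j + 1) - 1 = -(n / ((j + 1 : ℕ) : ℚ)) := by push_cast; ring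
  rw [this, N_neg]
  refine (N_n_div n a hna (j + 1) (by omega)).trans ?_
  gcongr
  have : j + 1 ≤ 2 * i + 1 := by omega
  exact_mod_cast this

include hna hn in
/-- first comparison -/
theorem term1 (u : ℚ) (hu : N u ≤ 1 / 3) (i : ℕ) (hi : 2 * i + 1 < 3 ^ a) :
    N ((g n i - ((n - 1).choose (2 * i) : ℚ)) * u ^ i / (2 * i + 1)) ≤ 3 / 3 ^ a := by
  rcases Nat.eq_zero_or_pos i with h0 | h0
  · subst h0
    simp [g]
    positivity
  have h1 : N (g n i - ((n - 1).choose (2 * i) : ℚ)) ≤ (2 * i + 1) / 3 ^ a := by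
    have := N_sub (g_un n a hna i hi) (h_un n a hn hna i hi)
    rwa [sub_sub_sub_cancel_right] at this
  have h2 := N_inv_nat (2 * i + 1) (by omega)
  push_cast at h2
  have h3 : N (u ^ i) ≤ (1 / 3) ^ i := by
    rw [N_pow]
    exact pow_le_pow_left₀ (N_nonneg u) hu i
  rw [div_eq_mul_inv, N_mul, N_mul]
  calc N (g n i - ((n - 1).choose (2 * i) : ℚ)) * N (u ^ i) * N ((2 * (i : ℚ) + 1)⁻¹)
      ≤ ((2 * i + 1) / 3 ^ a) * (1 / 3) ^ i * (2 * i + 1) := by
        gcongr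
        · exact N_nonneg _
        · exact N_nonneg _
    _ = ((2 * (i : ℚ) + 1) ^ 2 / 3 ^ (i + 1)) * (3 / 3 ^ a) := by
        rw [one_div_pow, pow_succ (3 : ℚ) i]
        field_simp
    _ ≤ 1 * (3 / 3 ^ a) := by
        gcongr
        rw [div_le_one (by positivity)]
        exact_mod_cast pow_ineq i h0
    _ = 3 / 3 ^ a := one_mul _

theorem N_pow_sub (u : ℚ) (k : ℕ) (hu : N u ≤ 1 / 3) (huk : N (u + 3) ≤ 1 / 3 ^ k) (i : ℕ) :
    N (u ^ (i + 1) - (-3) ^ (i + 1)) ≤ 1 / 3 ^ k * (1 / 3) ^ i := by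
  induction i with
  | zero => simpa using huk
  | succ i ih =>
    have e : u ^ (i + 1 + 1) - (-3) ^ (i + 1 + 1) = u * (u ^ (i + 1) - (-3) ^ (i + 1))
        + (u + 3) * (-3) ^ (i + 1) := by ring
    rw [e]
    apply N_add
    · rw [N_mul]
      calc N u * N (u ^ (i + 1) - (-3) ^ (i + 1)) ≤ (1 / 3) * (1 / 3 ^ k * (1 / 3) ^ i) := by
            gcongr
            exact N_nonneg _
        _ = 1 / 3 ^ k * (1 / 3) ^ (i + 1) := by rw [pow_succ]; ring
    · rw [N_mul, N_pow, N_neg, N_three]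
      gcongr

/-- second comparison -/
theorem term2 (u : ℚ) (k : ℕ) (hu : N u ≤ 1 / 3) (huk : N (u + 3) ≤ 1 / 3 ^ k) (i c : ℕ) :
    N ((c : ℚ) * (u ^ i - (-3) ^ i) / (2 * i + 1)) ≤ 3 / 3 ^ k := by
  rcases i with _ | i
  · simp
    positivity
  have h2 := N_inv_nat (2 * (i + 1) + 1) (by omega)
  have h3 := N_pow_sub u k hu huk i
  have h4 := N_nat c
  push_cast at h2 ⊢
  rw [div_eq_mul_inv, N_mul, N_mul]
  calc N (c : ℚ) * N (u ^ (i + 1) - (-3) ^ (i + 1)) * N ((2 * ((i : ℚ) + 1) + 1)⁻¹)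
      ≤ 1 * (1 / 3 ^ k * (1 / 3) ^ i) * (2 * (i + 1) + 1) := by
        gcongr
        · exact N_nonneg _
        · exact N_nonneg _
    _ = ((2 * ((i : ℚ) + 1) + 1) / 3 ^ (i + 1)) * (3 / 3 ^ k) := by
        rw [one_div_pow, pow_succ (3 : ℚ) i]
        field_simp
    _ ≤ 1 * (3 / 3 ^ k) := by
        gcongr
        rw [div_le_one (by positivity)]
        have := pow_ineq' (i + 1)
        exact_mod_cast this
    _ = 3 / 3 ^ k := one_mul _

/-- truncated main sum -/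
def F (u : ℚ) : ℚ := ∑ i ∈ range (2 * a - 1), g n i * u ^ i / (2 * i + 1)

/-- the vanishing comparison sum -/
def E0 : ℚ := ∑ i ∈ range (2 * a - 1), ((n - 1).choose (2 * i) : ℚ) * (-3) ^ i / (2 * i + 1)

/-- tail -/
def tail (u : ℚ) : ℚ := ∑ i ∈ Ico (2 * a - 1) n, al (n - 1 - i) * al i * u ^ i

include ha in
theorem small (i : ℕ) (hi : i < 2 * a - 1) : 2 * i + 1 < 3 ^ a := by
  have h1 : 4 * a - 3 < 3 ^ a := by
    obtain ⟨b, rfl⟩ : ∃ b, a = b + 1 := ⟨a - 1, by omega⟩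
    have := pow_ineq' b
    rcases b with _ | b
    · norm_num
    · have h3 : 4 * b + 5 < 3 ^ (b + 2) := by
        clear this hi
        induction b with
        | zero => norm_num
        | succ b ih => rw [pow_succ]; omega
      rw [show b + 1 + 1 = b + 2 by ring]
      omega
  omega

include ha hna hn in
theorem J_le : 2 * a - 1 ≤ n := by
  have h1 := small a ha (2 * a - 2) (by omega)
  have h2 := Nat.le_of_dvd hn hna
  omega

include ha hna hn in
theorem decomp (u : ℚ) : ∑ i ∈ range n, al (n - 1 - i) * al i * u ^ i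
    = al (n - 1) * F n a u + tail n a u := by
  have hJ := J_le n a ha hn hna
  rw [Finset.range_eq_Ico, ← Finset.sum_Ico_consecutive _ (Nat.zero_le _) hJ, F, Finset.mul_sum,
    tail, Finset.range_eq_Ico]
  congr 1
  refine Finset.sum_congr rfl fun i hi => ?_
  have hi := Finset.mem_Ico.1 hi
  have h := al_prod n i (by omega)
  have h0 : (2 * (i : ℚ) + 1) ≠ 0 := by positivity
  field_simp
  linear_combination u ^ i * h

include ha in
theorem N_tail (u : ℚ) (hu : N u ≤ 1 / 3) : N (tail n a u) ≤ (1 / 3) ^ (2 * a - 1) := by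
  apply padicNorm.sum_le'
  · intro i hi
    have hi := Finset.mem_Ico.1 hi
    have h1 := N_al (n - 1 - i)
    have h2 := N_al i
    have e : padicNorm 3 (al (n - 1 - i) * al i * u ^ i) = N (al (n - 1 - i)) * N (al i) * N u ^ i
        := by rw [← N_pow, ← N_mul, ← N_mul]
    rw [e]
    calc N (al (n - 1 - i)) * N (al i) * N u ^ i ≤ 1 * 1 * (1 / 3) ^ i := by
          gcongr <;> first | exact N_nonneg _ | exact pow_nonneg (N_nonneg _) _
      _ = (1 / 3) ^ i := by ring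
      _ ≤ (1 / 3) ^ (2 * a - 1) := pow_le_pow_of_le_one (by norm_num) (by norm_num) hi.1
  · positivity

theorem n_h (i : ℕ) (hn : 1 ≤ n) : (n : ℚ) * (((n - 1).choose (2 * i) : ℚ) / (2 * i + 1))
    = (n.choose (2 * i + 1) : ℚ) := by
  obtain ⟨m, rfl⟩ : ∃ m, n = m + 1 := ⟨n - 1, by omega⟩
  have h := congrArg (fun x : ℕ => (x : ℚ)) (Nat.add_one_mul_choose_eq m (2 * i))
  push_cast at h ⊢
  have h0 : (2 * (i : ℚ) + 1) ≠ 0 := by positivity
  field_simp
  linear_combination h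

include ha hna hn in
theorem n_E0 : (n : ℚ) * E0 n a = -∑ i ∈ Ico (2 * a - 1) n, (n.choose (2 * i + 1) : ℚ) * (-3) ^ i
    := by
  have hJ := J_le n a ha hn hna
  obtain ⟨m, hm⟩ : 3 ∣ n := (dvd_pow_self 3 (by omega : a ≠ 0)).trans hna
  have h := B_zero m n (by omega)
  have h' := congrArg (fun x : ℤ => (x : ℚ)) h
  rw [← hm] at h'
  push_cast at h'
  rw [Finset.range_eq_Ico, ← Finset.sum_Ico_consecutive _ (Nat.zero_le _) hJ] at h'
  rw [E0, Finset.mul_sum, eq_neg_iff_add_eq_zero, ← h', Finset.range_eq_Ico]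
  congr 1
  refine Finset.sum_congr rfl fun i _ => ?_
  rw [← n_h n i hn]
  ring

include ha hna hn in
theorem N_E0 (hex : N (n : ℚ) = 1 / 3 ^ a) : N (E0 n a) ≤ 3 / 3 ^ a := by
  have h1 : N ((n : ℚ) * E0 n a) ≤ (1 / 3) ^ (2 * a - 1) := by
    rw [n_E0 n a ha hn hna, N_neg]
    apply padicNorm.sum_le'
    · intro i hi
      have hi := Finset.mem_Ico.1 hi
      have e : padicNorm 3 ((n.choose (2 * i + 1) : ℚ) * (-3) ^ i)
          = N (n.choose (2 * i + 1) : ℚ) * (1 / 3) ^ i := by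
        rw [← N_three, ← N_neg 3, ← N_pow, ← N_mul]
      rw [e]
      calc N (n.choose (2 * i + 1) : ℚ) * (1 / 3) ^ i ≤ 1 * (1 / 3) ^ i := by
            gcongr
            exact N_nat _
        _ = (1 / 3) ^ i := one_mul _
        _ ≤ (1 / 3) ^ (2 * a - 1) := pow_le_pow_of_le_one (by norm_num) (by norm_num) hi.1
    · positivity
  rw [N_mul, hex] at h1
  have h2 : (1 / 3 : ℚ) ^ (2 * a - 1) = (1 / 3 ^ a) * (3 / 3 ^ a) := by
    have : 2 * a - 1 + 1 = a + a := by omega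
    have h3 : (1 / 3 : ℚ) ^ (2 * a - 1) * (1 / 3) = (1 / 3 ^ a) * (1 / 3 ^ a) := by
      rw [← pow_succ, this, pow_add, one_div_pow]
    linear_combination 3 * h3
  rw [h2] at h1
  have h4 : (0 : ℚ) < 1 / 3 ^ a := by positivity
  exact le_of_mul_le_mul_left h1 h4

include ha hna hn in
theorem N_F (hex : N (n : ℚ) = 1 / 3 ^ a) (k : ℕ) (hk : k ≤ a) (u : ℚ) (hu : N u ≤ 1 / 3)
    (huk : N (u + 3) ≤ 1 / 3 ^ k) : N (F n a u) ≤ 3 / 3 ^ k := by
  have hak : (3 : ℚ) / 3 ^ a ≤ 3 / 3 ^ k := by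
    gcongr
    norm_num
  have e : F n a u = ∑ i ∈ range (2 * a - 1), ((g n i - ((n - 1).choose (2 * i) : ℚ)) * u ^ i /
      (2 * i + 1) + ((n - 1).choose (2 * i) : ℚ) * (u ^ i - (-3) ^ i) / (2 * i + 1)) + E0 n a := by
    rw [F, E0, ← Finset.sum_add_distrib]
    refine Finset.sum_congr rfl fun i _ => by ring
  rw [e]
  apply N_add
  · apply padicNorm.sum_le'
    · intro i hi
      have hi := Finset.mem_range.1 hi
      apply N_add
      · exact (term1 n a hn hna u hu i (small a ha i hi)).trans hak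
      · exact term2 u k hu huk i _
    · positivity
  · exact (N_E0 n a ha hn hna hex).trans hak

theorem N_al_pred (ha : 1 ≤ a) (hn : 1 ≤ n) (hna : 3 ^ a ∣ n) : N (al (n - 1)) ≤ 1 / 3 ^ a := by
  obtain ⟨m, rfl⟩ : ∃ m, n = m + 1 := ⟨n - 1, by omega⟩
  rw [Nat.add_sub_cancel]
  have h := al_succ m
  have h3 : 3 ∣ m + 1 := (dvd_pow_self 3 (by omega : a ≠ 0)).trans hna
  have h1 : N (2 * (m : ℚ) + 1) = 1 := by
    have := (padicNorm.nat_eq_one_iff (p := 3) (2 * m + 1)).2 (by omega)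
    push_cast at this
    exact this
  have h2 : N (2 * ((m : ℚ) + 1)) ≤ 1 / 3 ^ a := by
    have := N_natCast_dvd (2 * (m + 1)) a (Dvd.dvd.mul_left hna 2)
    push_cast at this
    exact this
  have h4 : N ((2 * (m : ℚ) + 1) * al m) = N (al m) := by rw [N_mul, h1, one_mul]
  rw [← h4, ← h, N_mul]
  calc N (2 * ((m : ℚ) + 1)) * N (al (m + 1)) ≤ 1 / 3 ^ a * 1 := by
        gcongr
        · exact N_nonneg _
        · exact N_al _
    _ = 1 / 3 ^ a := mul_one _

/-- main estimate -/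
theorem N_S (ha : 1 ≤ a) (hn : 1 ≤ n) (hna : 3 ^ a ∣ n) (hex : N (n : ℚ) = 1 / 3 ^ a) (k : ℕ)
    (hk : k ≤ a) (u : ℚ) (hu : N u ≤ 1 / 3) (huk : N (u + 3) ≤ 1 / 3 ^ k) :
    N (∑ i ∈ range n, al (n - 1 - i) * al i * u ^ i) ≤ 1 / 3 ^ a * (3 / 3 ^ k) := by
  rw [decomp n a ha hn hna u]
  apply N_add
  · rw [N_mul]
    have h1 := N_al_pred n a ha hn hna
    have h2 := N_F n a ha hn hna hex k hk u hu huk
    gcongr
    exact N_nonneg _
  · refine (N_tail n a ha u hu).trans ?_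
    have h2 : (1 / 3 : ℚ) ^ (2 * a - 1) = (1 / 3 ^ a) * (3 / 3 ^ a) := by
      have : 2 * a - 1 + 1 = a + a := by omega
      have h3 : (1 / 3 : ℚ) ^ (2 * a - 1) * (1 / 3) = (1 / 3 ^ a) * (1 / 3 ^ a) := by
        rw [← pow_succ, this, pow_add, one_div_pow]
      linear_combination 3 * h3
    rw [h2]
    gcongr
    norm_num

end estimates

end Pool.Agent.R902.Norm3
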