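import Mathlib

/-!
The ideal `p^m Z_(p)` of the ring of `p`-integral rationals.
-/

set_option linter.unusedSectionVars false

namespace Pool.Agent.R902

open Finset

/-- `x ∈ p^m Z_(p)` -/
def Dv (p m : ℕ) (x : ℚ) : Prop := ∃ d : ℕ, ¬ p ∣ d ∧ ∃ z : ℤ, x * d = (p : ℚ) ^ m * z

namespace Dv

variable {p : ℕ} [hp : Fact p.Prime]

theorem zero (m : ℕ) : Dv p m 0 := ⟨1, by simpa using hp.1.one_lt.ne', 0, by simp⟩

theorem add {m : ℕ} {x y : ℚ} (hx : Dv p m x) (hy : Dv p m y) : Dv p m (x + y) := by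
  obtain ⟨d, hd, z, hz⟩ := hx
  obtain ⟨e, he, w, hw⟩ := hy
  refine ⟨d * e, fun h => ((hp.1.dvd_mul).1 h).elim hd he, z * e + w * d, ?_⟩
  push_cast
  linear_combination (e : ℚ) * hz + (d : ℚ) * hw

theorem neg {m : ℕ} {x : ℚ} (hx : Dv p m x) : Dv p m (-x) := by
  obtain ⟨d, hd, z, hz⟩ := hx
  refine ⟨d, hd, -z, ?_⟩
  push_cast
  linear_combination -hz

theorem sub {m : ℕ} {x y : ℚ} (hx : Dv p m x) (hy : Dv p m y) : Dv p m (x - y) := by
  rw [sub_eq_add_neg]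
  exact hx.add hy.neg

theorem sum {ι : Type*} {m : ℕ} (s : Finset ι) (f : ι → ℚ) (h : ∀ i ∈ s, Dv p m (f i)) :
    Dv p m (∑ i ∈ s, f i) := by
  classical
  induction s using Finset.induction_on with
  | empty => simpa using zero m
  | insert a s ha ih =>
    rw [Finset.sum_insert ha]
    exact (h a (Finset.mem_insert_self a s)).add
      (ih fun i hi => h i (Finset.mem_insert_of_mem hi))

theorem mul {a b : ℕ} {x y : ℚ} (hx : Dv p a x) (hy : Dv p b y) : Dv p (a + b) (x * y) := by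
  obtain ⟨d, hd, z, hz⟩ := hx
  obtain ⟨e, he, w, hw⟩ := hy
  refine ⟨d * e, fun h => ((hp.1.dvd_mul).1 h).elim hd he, z * w, ?_⟩
  push_cast
  rw [pow_add]
  linear_combination (y * e : ℚ) * hz + ((p : ℚ) ^ a * z) * hw

theorem mul' {a b c : ℕ} {x y : ℚ} (hx : Dv p a x) (hy : Dv p b y) (h : a + b = c) :
    Dv p c (x * y) := h ▸ hx.mul hy

theorem mul_left {b : ℕ} {x y : ℚ} (hx : Dv p 0 x) (hy : Dv p b y) : Dv p b (x * y) :=
  mul' hx hy (zero_add b)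

theorem mul_right {a : ℕ} {x y : ℚ} (hx : Dv p a x) (hy : Dv p 0 y) : Dv p a (x * y) :=
  mul' hx hy (add_zero a)

theorem mono {a b : ℕ} {x : ℚ} (h : b ≤ a) (hx : Dv p a x) : Dv p b x := by
  obtain ⟨d, hd, z, hz⟩ := hx
  refine ⟨d, hd, p ^ (a - b) * z, ?_⟩
  rw [hz]
  push_cast
  rw [← mul_assoc, ← pow_add]
  congr 2
  omega

theorem int (z : ℤ) : Dv p 0 (z : ℚ) :=
  ⟨1, by simpa using hp.1.one_lt.ne', z, by simp⟩

theorem nat (n : ℕ) : Dv p 0 (n : ℚ) := by exact_mod_cast int (p := p) (n : ℤ)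

theorem one : Dv p 0 (1 : ℚ) := by simpa using nat (p := p) 1

theorem ofNat (n : ℕ) [n.AtLeastTwo] : Dv p 0 (OfNat.ofNat n : ℚ) := by
  have := nat (p := p) (OfNat.ofNat n)
  rwa [Nat.cast_ofNat] at this

theorem of_dvd {m : ℕ} {z : ℤ} (h : (p : ℤ) ^ m ∣ z) : Dv p m (z : ℚ) := by
  obtain ⟨w, hw⟩ := h
  refine ⟨1, by simpa using hp.1.one_lt.ne', w, ?_⟩
  rw [hw]
  push_cast
  ring

theorem pow_self (m : ℕ) : Dv p m ((p : ℚ) ^ m) :=
  ⟨1, by simpa using hp.1.one_lt.ne', 1, by simp⟩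

theorem self : Dv p 1 (p : ℚ) := by simpa using pow_self (p := p) 1

theorem inv {n : ℕ} (h : ¬ p ∣ n) : Dv p 0 ((n : ℚ)⁻¹) := by
  have hn : (n : ℚ) ≠ 0 := by
    intro h0
    have : n = 0 := by exact_mod_cast h0
    exact h (this ▸ dvd_zero p)
  exact ⟨n, h, 1, by rw [inv_mul_cancel₀ hn]; simp⟩

theorem div {m : ℕ} {x : ℚ} {n : ℕ} (hx : Dv p m x) (h : ¬ p ∣ n) : Dv p m (x / n) := by
  rw [div_eq_mul_inv]
  exact hx.mul_right (inv h)

/-- cancel a unit -/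
theorem of_mul {m : ℕ} {x : ℚ} {n : ℕ} (h : ¬ p ∣ n) (hx : Dv p m (n * x)) : Dv p m x := by
  have hn : (n : ℚ) ≠ 0 := by
    intro h0
    have : n = 0 := by exact_mod_cast h0
    exact h (this ▸ dvd_zero p)
  have := (inv h).mul_left hx
  rwa [← mul_assoc, inv_mul_cancel₀ hn, one_mul] at this

/-- cancel `p` -/
theorem of_p_mul {m : ℕ} {x : ℚ} (hx : Dv p (m + 1) (p * x)) : Dv p m x := by
  obtain ⟨d, hd, z, hz⟩ := hx
  refine ⟨d, hd, z, ?_⟩
  have hp0 : (p : ℚ) ≠ 0 := by exact_mod_cast hp.1.ne_zero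
  apply mul_left_cancel₀ hp0
  rw [pow_succ] at hz
  linear_combination hz

theorem p_mul {m : ℕ} {x : ℚ} (hx : Dv p m x) : Dv p (m + 1) (p * x) := by
  rw [add_comm]
  exact self.mul hx

theorem pow {a : ℕ} {x : ℚ} (hx : Dv p 0 x) : Dv p 0 (x ^ a) := by
  induction a with
  | zero => simpa using one
  | succ a ih =>
    rw [pow_succ]
    exact ih.mul_left hx

theorem num {m : ℕ} {x : ℚ} (hx : Dv p m x) : (p : ℤ) ^ m ∣ x.num := by
  obtain ⟨d, hd, z, hz⟩ := hx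
  have h1 : (x.num : ℚ) * d = (p : ℚ) ^ m * z * x.den := by
    rw [← hz, mul_right_comm, Rat.mul_den_eq_num]
  have h2 : x.num * d = (p : ℤ) ^ m * z * x.den := by exact_mod_cast h1
  have h3 : (p : ℤ) ^ m ∣ x.num * d := by
    rw [h2, mul_assoc]
    exact Dvd.intro _ rfl
  have h4 : IsCoprime ((p : ℤ) ^ m) (d : ℤ) := by
    apply IsCoprime.pow_left
    rw [Nat.isCoprime_iff_coprime]
    exact (Nat.Prime.coprime_iff_not_dvd hp.1).2 hd
  exact h4.dvd_of_dvd_mul_right h3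

/-- the `p`-integral quotient -/
theorem exists_den {m : ℕ} {x : ℚ} (hx : Dv p m x) :
    ∃ c : ℚ, ¬ p ∣ c.den ∧ x = (p : ℚ) ^ m * c := by
  obtain ⟨d, hd, z, hz⟩ := hx
  have hd0 : (d : ℚ) ≠ 0 := by
    intro h0
    have : d = 0 := by exact_mod_cast h0
    exact hd (this ▸ dvd_zero p)
  refine ⟨(z : ℚ) / (d : ℚ), ?_, ?_⟩
  · intro h
    have h1 : (((z : ℚ) / (d : ℚ)).den : ℤ) ∣ (d : ℤ) := by
      have := Rat.den_dvd z d
      rwa [Rat.divInt_eq_div, Int.cast_natCast] at this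
    exact hd (h.trans (by exact_mod_cast h1))
  · field_simp
    exact hz

theorem to_zmod {m : ℕ} {z : ℤ} (hx : Dv p m (z : ℚ)) : (p : ℤ) ^ m ∣ z := by
  have := hx.num
  simpa using this

end Dv

end Pool.Agent.R902
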