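import Pool.Agent.R902.ZM

/-!
Polynomial tools for supercongruences.
-/

namespace Pool.Agent.R902

open Finset Polynomial

/-- The alternating binomial sum of a polynomial of degree `< n` vanishes. -/
theorem alt_sum_eval {R : Type*} [CommRing R] (P : R[X]) (n : ℕ) (h : P.natDegree < n) :
    ∑ k ∈ range (n + 1), (-1 : R) ^ k * (n.choose k : R) * P.eval (k : R) = 0 := by
  have h1 := congrFun (Polynomial.fwdDiff_iter_eq_zero_of_degree_lt h) (0 : R)
  rw [fwdDiff_iter_eq_sum_shift] at h1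
  have h2 : ∑ k ∈ range (n + 1), (-1 : R) ^ k * (n.choose k : R) * P.eval (k : R)
      = (-1) ^ n * ∑ k ∈ range (n + 1), ((-1 : ℤ) ^ (n - k) * n.choose k) •
        P.eval ((0 : R) + k • (1 : R)) := by
    rw [Finset.mul_sum]
    refine Finset.sum_congr rfl fun k hk => ?_
    have hk := Finset.mem_range.1 hk
    rw [zsmul_eq_mul, nsmul_eq_mul, mul_one, zero_add]
    push_cast
    have : (-1 : R) ^ n * (-1) ^ (n - k) = (-1) ^ k := by
      obtain ⟨j, rfl⟩ : ∃ j, n = k + j := ⟨n - k, by omega⟩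
      rw [Nat.add_sub_cancel_left, pow_add, mul_assoc, ← mul_pow]
      simp
    rw [← mul_assoc, ← mul_assoc, this]
  rw [h2, h1]
  simp

/-- A polynomial of degree `< p - 1` sums to zero over `ZMod p`. -/
theorem sum_range_eval (p : ℕ) [hp : Fact p.Prime] (P : (ZMod p)[X]) (h : P.natDegree < p - 1) :
    ∑ j ∈ range p, P.eval (j : ZMod p) = 0 := by
  simp only [Polynomial.eval_eq_sum_range]
  rw [Finset.sum_comm]
  apply Finset.sum_eq_zero
  intro i hi
  have hi := Finset.mem_range.1 hi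
  rw [← Finset.mul_sum, sum_range_pow p i (by omega), mul_zero]

/-- reflection `C(p-1,j)`-free: partial sums of `i^{-2}` -/
theorem reflect_inv_sq (p : ℕ) [hp : Fact p.Prime] (l : ℕ) (hl : l < p) :
    ∑ i ∈ range (p - 1 - l), (((i + 1 : ℕ) : ZMod p)⁻¹) ^ 2
      + ∑ i ∈ range l, (((i + 1 : ℕ) : ZMod p)⁻¹) ^ 2
      = ∑ i ∈ range (p - 1), (((i + 1 : ℕ) : ZMod p)⁻¹) ^ 2 := by
  induction l with
  | zero => simp
  | succ l ih =>
    rw [← ih (by omega), Finset.sum_range_succ]
    obtain ⟨n, hn⟩ : ∃ n, p - 1 - l = n + 1 := ⟨p - 1 - l - 1, by omega⟩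
    rw [show p - 1 - (l + 1) = n by omega, hn, Finset.sum_range_succ]
    have : ((n + 1 : ℕ) : ZMod p) = -((l + 1 : ℕ) : ZMod p) := by
      have h1 : ((n + 1 + (l + 1) : ℕ) : ZMod p) = 0 := by
        rw [show n + 1 + (l + 1) = p by omega]; exact ZMod.natCast_self p
      rw [Nat.cast_add] at h1
      exact eq_neg_of_add_eq_zero_left h1
    rw [this, inv_neg, neg_sq]
    ring

end Pool.Agent.R902
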