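import Pool.Agent.R902.Poly

/-!
Sums of `m`-th powers of `C(r/m, k)` modulo `p^3`.
-/

namespace Pool.Agent.R902.PowBinom

open Finset Polynomial

theorem one_sub_pow {R : Type*} [CommRing R] (y : R) (hy : y ^ 3 = 0) (m : ℕ) :
    (1 - y) ^ m = 1 - m * y + (m.choose 2 : R) * y ^ 2 := by
  induction m with
  | zero => simp
  | succ m ih =>
    rw [pow_succ, ih, Nat.choose_succ_succ' m 1, Nat.choose_one_right]
    push_cast
    linear_combination (-(m.choose 2 : R)) * hy

theorem two_mul_choose_two {R : Type*} [CommRing R] (m : ℕ) :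
    2 * (m.choose 2 : R) = (m : R) * ((m : R) - 1) := by
  induction m with
  | zero => simp
  | succ m ih =>
    rw [Nat.choose_succ_succ' m 1, Nat.choose_one_right]
    push_cast
    linear_combination ih

section

variable (p m : ℕ) [hp : Fact p.Prime]

/-- `V j = ∏_{1 ≤ i ≤ j} (1 - p/(m i))` modulo `p^3`. -/
noncomputable def V (j : ℕ) : ZMod (p ^ 3) :=
  ∏ i ∈ range j, (1 - (p : ZMod (p ^ 3)) * (m : ZMod (p ^ 3))⁻¹ * ((i + 1 : ℕ) : ZMod (p ^ 3))⁻¹)

omit hp in
theorem p_cube : (p : ZMod (p ^ 3)) ^ 3 = 0 := by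
  rw [← Nat.cast_pow]; exact ZMod.natCast_self _

theorem m_inv (hm : ¬ p ∣ m) : (m : ZMod (p ^ 3)) * (m : ZMod (p ^ 3))⁻¹ = 1 := by
  apply ZMod.mul_inv_of_unit
  rw [ZMod.isUnit_iff_coprime]
  exact Nat.Coprime.pow_right _ ((Nat.Prime.coprime_iff_not_dvd hp.1).2 hm).symm

theorem choose_eq (j : ℕ) (hj : j ≤ p - 1) :
    (-1 : ZMod (p ^ 3)) ^ j * ((p - 1).choose j : ZMod (p ^ 3))
      = ∏ i ∈ range j, (1 - (p : ZMod (p ^ 3)) * ((i + 1 : ℕ) : ZMod (p ^ 3))⁻¹) := by
  induction j with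
  | zero => simp
  | succ j ih =>
    rw [Finset.prod_range_succ, ← ih (by omega)]
    have hinv := mul_inv_natCast p 3 (j + 1) (by omega) (by have := hp.1.pos; omega)
    have h1 := Nat.choose_succ_right_eq (p - 1) j
    have h2 : ((p - 1).choose (j + 1) : ZMod (p ^ 3)) * ((j + 1 : ℕ) : ZMod (p ^ 3))
        = ((p - 1).choose j : ZMod (p ^ 3)) * ((p : ZMod (p ^ 3)) -
          ((j + 1 : ℕ) : ZMod (p ^ 3))) := by
      have h3 := congrArg (fun x : ℕ => (x : ZMod (p ^ 3))) h1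
      simp only [Nat.cast_mul] at h3
      rw [h3, show p - 1 - j = p - (j + 1) by omega, Nat.cast_sub (by have := hp.1.pos; omega)]
    generalize ((j + 1 : ℕ) : ZMod (p ^ 3))⁻¹ = u at *
    generalize ((j + 1 : ℕ) : ZMod (p ^ 3)) = x at *
    rw [pow_succ (-1 : ZMod (p ^ 3)) j]
    calc (-1 : ZMod (p ^ 3)) ^ j * -1 * ((p - 1).choose (j + 1) : ZMod (p ^ 3))
        = -(-1) ^ j * (((p - 1).choose (j + 1) : ZMod (p ^ 3)) * (x * u)) := by
          rw [hinv]; ring
      _ = -(-1) ^ j * ((((p - 1).choose (j + 1) : ZMod (p ^ 3)) * x) * u) := by ring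
      _ = _ := by rw [h2]; linear_combination (-1 : ZMod (p ^ 3)) ^ j *
                    ((p - 1).choose j : ZMod (p ^ 3)) * hinv

/-- `H j = ∑_{1 ≤ i ≤ j} 1/i^2` modulo `p^3`. -/
noncomputable def H (j : ℕ) : ZMod (p ^ 3) :=
  ∑ i ∈ range j, (((i + 1 : ℕ) : ZMod (p ^ 3))⁻¹) ^ 2

omit hp in
theorem p_sq_mul_V (j : ℕ) : (p : ZMod (p ^ 3)) ^ 2 * V p m j ^ m = (p : ZMod (p ^ 3)) ^ 2 := by
  have h : (p : ZMod (p ^ 3)) ^ 2 * V p m j = (p : ZMod (p ^ 3)) ^ 2 := by
    induction j with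
    | zero => simp [V]
    | succ j ih =>
      rw [V, Finset.prod_range_succ, ← V, ← mul_assoc, ih]
      have h3 := p_cube p
      linear_combination (-(m : ZMod (p ^ 3))⁻¹ * ((j + 1 : ℕ) : ZMod (p ^ 3))⁻¹) * h3
  have : ∀ e : ℕ, (p : ZMod (p ^ 3)) ^ 2 * V p m j ^ e = (p : ZMod (p ^ 3)) ^ 2 := by
    intro e
    induction e with
    | zero => simp
    | succ e ih => rw [pow_succ (V p m j) e, ← mul_assoc, ih, h]
  exact this m

theorem V_pow (hm : ¬ p ∣ m) (j : ℕ) (hj : j ≤ p - 1) :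
    2 * (m : ZMod (p ^ 3)) * V p m j ^ m
      = 2 * (m : ZMod (p ^ 3)) * ((-1 : ZMod (p ^ 3)) ^ j * ((p - 1).choose j : ZMod (p ^ 3)))
        + ((m : ZMod (p ^ 3)) - 1) * ((p : ZMod (p ^ 3)) ^ 2 * H p j) := by
  rw [choose_eq p j hj]
  induction j with
  | zero => simp [V, H]
  | succ j ih =>
    have ih := ih (by omega)
    have hpV := p_sq_mul_V p m j
    rw [H, Finset.sum_range_succ, ← H, V, Finset.prod_range_succ, ← V, mul_pow,
      Finset.prod_range_succ]
    have hmi := m_inv p m hm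
    have h3 := p_cube p
    set u := ((j + 1 : ℕ) : ZMod (p ^ 3))⁻¹ with hu
    set W := ∏ i ∈ range j, (1 - (p : ZMod (p ^ 3)) * ((i + 1 : ℕ) : ZMod (p ^ 3))⁻¹) with hW
    set q := (p : ZMod (p ^ 3)) with hq
    set M := (m : ZMod (p ^ 3)) with hM
    set y := q * M⁻¹ * u with hy
    have hy3 : y ^ 3 = 0 := by rw [hy]; linear_combination (M⁻¹ * u) ^ 3 * h3
    have hMy : M * y = q * u := by rw [hy]; linear_combination q * u * hmi
    have e1 : 2 * M * (1 - y) ^ m = 2 * M * (1 - q * u) + (M - 1) * (q ^ 2 * u ^ 2) := by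
      rw [one_sub_pow y hy3]
      have e2 := two_mul_choose_two (R := ZMod (p ^ 3)) m
      rw [← hM] at e2
      linear_combination M * y ^ 2 * e2 + ((M - 1) * (M * y + q * u) - 2 * M) * hMy
    have hW2 : q ^ 2 * V p m j ^ m = q ^ 2 := hpV
    calc 2 * M * (V p m j ^ m * (1 - y) ^ m) = V p m j ^ m * (2 * M * (1 - y) ^ m) := by ring
      _ = (1 - q * u) * (2 * M * V p m j ^ m) + (M - 1) * u ^ 2 * (q ^ 2 * V p m j ^ m) := by
        rw [e1]; ring
      _ = (1 - q * u) * (2 * M * W + (M - 1) * (q ^ 2 * H p j)) + (M - 1) * u ^ 2 * q ^ 2 := by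
        rw [ih, hW2]
      _ = 2 * M * (W * (1 - q * u)) + (M - 1) * (q ^ 2 * (H p j + u ^ 2)) := by
        linear_combination (-(M - 1) * H p j * u) * h3

end

/-- evaluation of the descending factorial at a reflected point -/
theorem desc_reflect (p s j : ℕ) (hj : j < p) :
    (((p + s - 1 - j).descFactorial s : ℕ) : ZMod p)
      = (-1) ^ s * ((j.descFactorial s : ℕ) : ZMod p) := by
  have h1 : ∀ k : ℕ, ((k.descFactorial s : ℕ) : ZMod p)
      = ∏ i ∈ range s, ((k : ZMod p) - (i : ZMod p)) := by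
    intro k
    rw [← descPochhammer_eval_eq_descFactorial, descPochhammer_eval_eq_prod_range]
  rw [h1, h1, ← Finset.prod_range_reflect, ← Finset.card_range s, ← Finset.prod_const,
    Finset.card_range, ← Finset.prod_mul_distrib]
  refine Finset.prod_congr rfl fun i hi => ?_
  have hi := Finset.mem_range.1 hi
  have e1 : ((p + s - 1 - j : ℕ) : ZMod p) + (j : ZMod p) + 1 = (s : ZMod p) := by
    have h2 : ((p + s - 1 - j + j + 1 : ℕ) : ZMod p) = ((p + s : ℕ) : ZMod p) := by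
      congr 1; omega
    push_cast at h2
    rw [ZMod.natCast_self, zero_add] at h2
    exact h2
  have e2 : ((s - 1 - i : ℕ) : ZMod p) + (i : ZMod p) + 1 = (s : ZMod p) := by
    have h2 : ((s - 1 - i + i + 1 : ℕ) : ZMod p) = ((s : ℕ) : ZMod p) := by
      congr 1; omega
    rw [Nat.cast_add, Nat.cast_add, Nat.cast_one] at h2
    exact h2
  linear_combination e1 - e2

theorem desc_natCast_eq (p s j : ℕ) : ((j.descFactorial s : ℕ) : ZMod p)
      = ∏ i ∈ range s, ((j : ZMod p) - (i : ZMod p)) := by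
  rw [← descPochhammer_eval_eq_descFactorial, descPochhammer_eval_eq_prod_range]

/-- The inner sums vanish: `∑_j P(j) / (j - l)^2 = 0` in polynomial form. -/
theorem sum_R (p m s l : ℕ) [hp : Fact p.Prime] (hm : 3 ≤ m) (hs : m * s + 2 ≤ p) (hl : l < s) :
    ∑ k ∈ range (p - s), (((s + k).descFactorial s : ℕ) : ZMod p) ^ m *
      (((s + k - l : ℕ) : ZMod p)⁻¹) ^ 2 = 0 := by
  set Q : (ZMod p)[X] := (∏ i ∈ (range s).erase l, (X - C (i : ZMod p))) ^ m *
    (X - C (l : ZMod p)) ^ (m - 2) with hQ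
  have hsp : s < p := by nlinarith
  have hdeg : Q.natDegree < p - 1 := by
    have h1 : Q.natDegree ≤ m * (s - 1) + (m - 2) := by
      rw [hQ]
      refine le_trans Polynomial.natDegree_mul_le (Nat.add_le_add ?_ ?_)
      · refine le_trans Polynomial.natDegree_pow_le (Nat.mul_le_mul_left _ ?_)
        refine le_trans (Polynomial.natDegree_prod_le _ _) ?_
        refine le_trans (Finset.sum_le_card_nsmul _ _ 1 fun i _ => ?_) ?_
        · rw [Polynomial.natDegree_X_sub_C]
        · rw [Finset.card_erase_of_mem (Finset.mem_range.2 hl), Finset.card_range]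
          simp
      · refine le_trans Polynomial.natDegree_pow_le ?_
        rw [Polynomial.natDegree_X_sub_C, mul_one]
    obtain ⟨s', rfl⟩ : ∃ s', s = s' + 1 := ⟨s - 1, by omega⟩
    rw [Nat.add_sub_cancel] at h1
    rw [Nat.mul_succ] at hs
    omega
  have h0 := sum_range_eval p Q hdeg
  have hr := Finset.sum_range_add (fun j : ℕ => Q.eval (j : ZMod p)) s (p - s)
  rw [Nat.add_sub_cancel' hsp.le, h0] at hr
  have hev : ∀ x : ZMod p, Q.eval x = (∏ i ∈ (range s).erase l, (x - (i : ZMod p))) ^ m *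
      (x - (l : ZMod p)) ^ (m - 2) := by
    intro x
    rw [hQ, Polynomial.eval_mul, Polynomial.eval_pow, Polynomial.eval_pow, Polynomial.eval_prod]
    simp
  have h1 : ∑ j ∈ range s, Q.eval (j : ZMod p) = 0 := by
    apply Finset.sum_eq_zero
    intro j hj
    have hj := Finset.mem_range.1 hj
    rw [hev]
    by_cases hjl : j = l
    · subst hjl
      rw [sub_self, zero_pow (by omega), mul_zero]
    · rw [Finset.prod_eq_zero (i := j) (by simp [hjl, hj]) (by simp), zero_pow (by omega),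
        zero_mul]
  rw [h1, zero_add] at hr
  rw [hr]
  refine Finset.sum_congr rfl fun k hk => ?_
  have hk := Finset.mem_range.1 hk
  rw [hev, desc_natCast_eq, ← Finset.mul_prod_erase (range s) _ (Finset.mem_range.2 hl)]
  have e1 : ((s + k - l : ℕ) : ZMod p) = ((s + k : ℕ) : ZMod p) - (l : ZMod p) := by
    rw [Nat.cast_sub (by omega)]
  have e2 : ((s + k : ℕ) : ZMod p) - (l : ZMod p) ≠ 0 := by
    rw [← e1, Ne, ZMod.natCast_eq_zero_iff]
    exact Nat.not_dvd_of_pos_of_lt (by omega) (by omega)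
  rw [e1, mul_pow]
  obtain ⟨m', rfl⟩ : ∃ m', m = m' + 2 := ⟨m - 2, by omega⟩
  rw [Nat.add_sub_cancel]
  field_simp
  ring

/-- For `s m` even, `s m ≤ p - 2`, `m ≥ 3`:
`∑_{j<p} (j(j-1)...(j-s+1))^m ∑_{i ≤ j} 1/i^2 = 0` in `ZMod p`. -/
theorem sum_desc_H (p m s : ℕ) [hp : Fact p.Prime] (hp2 : p ≠ 2) (hm : 3 ≤ m)
    (hs : m * s + 2 ≤ p) (he : Even (m * s)) :
    ∑ j ∈ range p, ((j.descFactorial s : ℕ) : ZMod p) ^ m *
      ∑ i ∈ range j, (((i + 1 : ℕ) : ZMod p)⁻¹) ^ 2 = 0 := by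
  have hsp : s < p := by nlinarith
  set G : ℕ → ZMod p := fun j => ∑ i ∈ range j, (((i + 1 : ℕ) : ZMod p)⁻¹) ^ 2 with hG
  set P : ℕ → ZMod p := fun j => ((j.descFactorial s : ℕ) : ZMod p) ^ m with hP
  have hsum : ∑ j ∈ range p, P j = 0 := by
    have h1 := sum_range_eval p ((descPochhammer (ZMod p) s) ^ m) (by
      rw [Polynomial.natDegree_pow, descPochhammer_natDegree]; omega)
    rw [← h1]
    refine Finset.sum_congr rfl fun j _ => ?_
    rw [Polynomial.eval_pow, descPochhammer_eval_eq_descFactorial]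
  have hzero : ∀ j, j < s → P j = 0 := by
    intro j hj
    rw [hP]
    simp only
    rw [Nat.descFactorial_eq_zero_iff_lt.2 hj, Nat.cast_zero, zero_pow (by omega)]
  have hsplit : ∀ g : ℕ → ZMod p, ∑ j ∈ range p, P j * g j
      = ∑ k ∈ range (p - s), P (s + k) * g (s + k) := by
    intro g
    have hr := Finset.sum_range_add (fun j : ℕ => P j * g j) s (p - s)
    rw [Nat.add_sub_cancel' hsp.le] at hr
    rw [hr, Finset.sum_eq_zero (fun j hj => by rw [hzero j (Finset.mem_range.1 hj), zero_mul]),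
      zero_add]
  have hsplit1 : ∑ k ∈ range (p - s), P (s + k) = 0 := by
    have := hsplit (fun _ => 1)
    simp only [mul_one] at this
    rw [← this, hsum]
  show ∑ j ∈ range p, P j * G j = 0
  rw [hsplit]
  -- reflection
  have hrefl : ∀ k ∈ range (p - s), P (s + (p - s - 1 - k)) * G (s + (p - s - 1 - k))
      = P (s + k) * (G (p - 1) - G k) := by
    intro k hk
    have hk := Finset.mem_range.1 hk
    have e1 : P (s + (p - s - 1 - k)) = P (s + k) := by
      rw [hP]
      simp only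
      rw [show s + (p - s - 1 - k) = p + s - 1 - (s + k) by omega,
        desc_reflect p s (s + k) (by omega), mul_pow, ← pow_mul, mul_comm s m,
        he.neg_one_pow, one_mul]
    have e2 : G (s + (p - s - 1 - k)) = G (p - 1) - G k := by
      have := reflect_inv_sq p k (by omega)
      rw [show s + (p - s - 1 - k) = p - 1 - k by omega]
      exact eq_sub_of_add_eq this
    rw [e1, e2]
  have h2 : ∑ k ∈ range (p - s), P (s + k) * G (s + k)
      = ∑ k ∈ range (p - s), P (s + k) * (G (p - 1) - G k) := by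
    rw [← Finset.sum_range_reflect (fun k => P (s + k) * G (s + k))]
    exact Finset.sum_congr rfl hrefl
  have hdiff : ∀ k ∈ range (p - s), P (s + k) * (G (s + k) - G k)
      = ∑ l ∈ range s, P (s + k) * (((s + k - l : ℕ) : ZMod p)⁻¹) ^ 2 := by
    intro k hk
    rw [← Finset.mul_sum]
    congr 1
    rw [hG]
    simp only
    rw [add_comm s k, Finset.sum_range_add, add_sub_cancel_left, ← Finset.sum_range_reflect]
    refine Finset.sum_congr rfl fun l hl => ?_
    have hl := Finset.mem_range.1 hl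
    congr 3
    omega
  have h3 : ∑ k ∈ range (p - s), P (s + k) * (G (s + k) - G k) = 0 := by
    rw [Finset.sum_congr rfl hdiff, Finset.sum_comm]
    apply Finset.sum_eq_zero
    intro l hl
    exact sum_R p m s l hm hs (Finset.mem_range.1 hl)
  have h4 : 2 * ∑ k ∈ range (p - s), P (s + k) * G (s + k) = 0 := by
    rw [two_mul]
    nth_rewrite 2 [h2]
    rw [← Finset.sum_add_distrib]
    have : ∀ k ∈ range (p - s), P (s + k) * G (s + k) + P (s + k) * (G (p - 1) - G k)
        = P (s + k) * (G (s + k) - G k) + G (p - 1) * P (s + k) := by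
      intro k _; ring
    rw [Finset.sum_congr rfl this, Finset.sum_add_distrib, h3, ← Finset.mul_sum, hsplit1]
    ring
  have h5 : (2 : ZMod p) ≠ 0 := by
    have : ((2 : ℕ) : ZMod p) ≠ 0 := by
      rw [Ne, ZMod.natCast_eq_zero_iff]
      intro hd
      exact hp2 ((Nat.prime_dvd_prime_iff_eq hp.1 Nat.prime_two).1 hd)
    exact_mod_cast this
  exact (mul_eq_zero.1 h4).resolve_left h5

section

variable (p m s : ℕ) [hp : Fact p.Prime]

omit hp in
/-- `K · ∏_{i<k} ((i + s + 1) - p/m)` is a full product. -/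
theorem prod_split (k : ℕ) :
    (∏ i ∈ range s, (((i + 1 : ℕ) : ZMod (p ^ 3)) - (p : ZMod (p ^ 3)) * (m : ZMod (p ^ 3))⁻¹)) *
      (∏ i ∈ range k, (((s + i + 1 : ℕ) : ZMod (p ^ 3)) -
        (p : ZMod (p ^ 3)) * (m : ZMod (p ^ 3))⁻¹))
      = ∏ i ∈ range (s + k), (((i + 1 : ℕ) : ZMod (p ^ 3)) -
        (p : ZMod (p ^ 3)) * (m : ZMod (p ^ 3))⁻¹) := by
  rw [Finset.prod_range_add]

theorem prod_eq_factorial_mul_V (j : ℕ) (hj : j < p) :
    ∏ i ∈ range j, (((i + 1 : ℕ) : ZMod (p ^ 3)) -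
        (p : ZMod (p ^ 3)) * (m : ZMod (p ^ 3))⁻¹) = (j.factorial : ZMod (p ^ 3)) * V p m j := by
  induction j with
  | zero => simp [V]
  | succ j ih =>
    rw [Finset.prod_range_succ, ih (by omega), V, V, Finset.prod_range_succ, Nat.factorial_succ]
    have hinv := mul_inv_natCast p 3 (j + 1) (by omega) (by omega)
    rw [Nat.cast_mul]
    generalize ((j + 1 : ℕ) : ZMod (p ^ 3))⁻¹ = u at *
    generalize ((j + 1 : ℕ) : ZMod (p ^ 3)) = x at *
    generalize ∏ i ∈ range j, (1 - (p : ZMod (p ^ 3)) * (m : ZMod (p ^ 3))⁻¹ *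
      ((i + 1 : ℕ) : ZMod (p ^ 3))⁻¹) = Y
    linear_combination ((j.factorial : ZMod (p ^ 3)) * Y * (p : ZMod (p ^ 3)) *
      (m : ZMod (p ^ 3))⁻¹) * hinv

/-- the `k`-th term, divided by the power of `m` -/
noncomputable def A (k : ℕ) : ZMod (p ^ 3) :=
  (∏ i ∈ range k, (((s + i + 1 : ℕ) : ZMod (p ^ 3)) -
        (p : ZMod (p ^ 3)) * (m : ZMod (p ^ 3))⁻¹)) * (k.factorial : ZMod (p ^ 3))⁻¹

theorem factorial_inv (k : ℕ) (hk : k < p) :
    (k.factorial : ZMod (p ^ 3)) * (k.factorial : ZMod (p ^ 3))⁻¹ = 1 := by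
  apply ZMod.mul_inv_of_unit
  rw [ZMod.isUnit_iff_coprime]
  apply Nat.Coprime.pow_right
  exact ((Nat.Prime.coprime_iff_not_dvd hp.1).2 (fun h => by
    have := (Nat.Prime.dvd_factorial hp.1).1 h
    omega)).symm

theorem sum_A (hp2 : p ≠ 2) (hm : 3 ≤ m) (hpm : ¬ p ∣ m) (hs : m * s + 2 ≤ p)
    (he : Even (m * s)) : ∑ k ∈ range p, A p m s k ^ m = 0 := by
  have hsp : s < p := by nlinarith
  have h3 := p_cube p
  set K : ZMod (p ^ 3) := ∏ i ∈ range s, (((i + 1 : ℕ) : ZMod (p ^ 3)) -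
    (p : ZMod (p ^ 3)) * (m : ZMod (p ^ 3))⁻¹) with hK
  -- `K` is a unit
  have hunit : ∀ x : ZMod (p ^ 3), ∀ j : ℕ, 0 < j → j < p →
      IsUnit ((j : ZMod (p ^ 3)) - (p : ZMod (p ^ 3)) * x) := by
    intro x j h0 hj
    have hu := mul_inv_natCast p 3 j h0 hj
    refine IsUnit.of_mul_eq_one ((j : ZMod (p ^ 3))⁻¹ * (1 + (p : ZMod (p ^ 3)) * x *
      (j : ZMod (p ^ 3))⁻¹ + ((p : ZMod (p ^ 3)) * x * (j : ZMod (p ^ 3))⁻¹) ^ 2)) ?_
    linear_combination (1 + (p : ZMod (p ^ 3)) * x * (j : ZMod (p ^ 3))⁻¹ +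
      ((p : ZMod (p ^ 3)) * x * (j : ZMod (p ^ 3))⁻¹) ^ 2) * hu -
      (x * (j : ZMod (p ^ 3))⁻¹) ^ 3 * h3
  have hKu : IsUnit K := by
    rw [hK]
    refine Finset.prod_induction _ IsUnit (fun a b ha hb => ha.mul hb) isUnit_one ?_
    intro i hi
    have hi := Finset.mem_range.1 hi
    exact hunit _ (i + 1) (by omega) (by omega)
  apply (hKu.pow m).mul_left_cancel
  rw [mul_zero, Finset.mul_sum]
  -- large indices
  have hlarge : ∀ k, p - s ≤ k → k < p → K ^ m * A p m s k ^ m = 0 := by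
    intro k h1 h2
    rw [← mul_pow, A, ← mul_assoc, hK, prod_split p m s k, mul_pow]
    have hdvd : ∃ c, ∏ i ∈ range (s + k), (((i + 1 : ℕ) : ZMod (p ^ 3)) -
        (p : ZMod (p ^ 3)) * (m : ZMod (p ^ 3))⁻¹) = (p : ZMod (p ^ 3)) * c := by
      have hpos := hp.1.pos
      rw [← Finset.mul_prod_erase (range (s + k)) _ (Finset.mem_range.2 (by omega : p - 1 < s + k))]
      refine ⟨(1 - (m : ZMod (p ^ 3))⁻¹) * ∏ x ∈ (range (s + k)).erase (p - 1),
        (((x + 1 : ℕ) : ZMod (p ^ 3)) - (p : ZMod (p ^ 3)) * (m : ZMod (p ^ 3))⁻¹), ?_⟩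
      rw [show p - 1 + 1 = p by omega]
      ring
    obtain ⟨c, hc⟩ := hdvd
    rw [hc]
    obtain ⟨m', rfl⟩ : ∃ m', m = 3 + m' := ⟨m - 3, by omega⟩
    rw [mul_pow (p : ZMod (p ^ 3)) c (3 + m'), pow_add (p : ZMod (p ^ 3)) 3 m', h3]
    ring
  -- small indices
  have hsmall : ∀ k, k < p - s → K ^ m * A p m s k ^ m
      = ((s + k).descFactorial s : ZMod (p ^ 3)) ^ m * V p m (s + k) ^ m := by
    intro k h1
    rw [← mul_pow, ← mul_pow, A, ← mul_assoc, hK, prod_split p m s k,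
      prod_eq_factorial_mul_V p m (s + k) (by omega)]
    congr 1
    have hf := factorial_inv p k (by omega)
    have hd := Nat.factorial_mul_descFactorial (show s ≤ s + k by omega)
    rw [Nat.add_sub_cancel_left] at hd
    have hd' := congrArg (fun x : ℕ => (x : ZMod (p ^ 3))) hd
    simp only [Nat.cast_mul] at hd'
    rw [← hd']
    linear_combination (((s + k).descFactorial s : ZMod (p ^ 3)) * V p m (s + k)) * hf
  have hsum1 : ∑ k ∈ range p, K ^ m * A p m s k ^ m
      = ∑ j ∈ range p, ((j.descFactorial s : ℕ) : ZMod (p ^ 3)) ^ m * V p m j ^ m := by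
    have hr1 := Finset.sum_range_add (fun k => K ^ m * A p m s k ^ m) (p - s) s
    have hr2 := Finset.sum_range_add
      (fun j => ((j.descFactorial s : ℕ) : ZMod (p ^ 3)) ^ m * V p m j ^ m) s (p - s)
    rw [show p - s + s = p by omega] at hr1
    rw [Nat.add_sub_cancel' hsp.le] at hr2
    rw [hr1, hr2]
    rw [Finset.sum_eq_zero (s := range s) (f := fun x => K ^ m * A p m s (p - s + x) ^ m)
      (fun j hj => hlarge _ (by omega) (by have := Finset.mem_range.1 hj; omega)), add_zero]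
    rw [Finset.sum_eq_zero (s := range s) (f := fun j => ((j.descFactorial s : ℕ) :
      ZMod (p ^ 3)) ^ m * V p m j ^ m) (fun j hj => by
        rw [Nat.descFactorial_eq_zero_iff_lt.2 (Finset.mem_range.1 hj), Nat.cast_zero,
          zero_pow (by omega), zero_mul]), zero_add]
    exact Finset.sum_congr rfl fun k hk => hsmall k (Finset.mem_range.1 hk)
  rw [hsum1]
  -- multiply by `2m`
  have h2u : IsUnit (2 * (m : ZMod (p ^ 3))) := by
    apply IsUnit.mul
    · have := isUnit_natCast p 3 2 (by norm_num) (by have := hp.1.two_le; omega)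
      exact_mod_cast this
    · exact IsUnit.of_mul_eq_one _ (m_inv p m hpm)
  apply h2u.mul_left_cancel
  rw [mul_zero, Finset.mul_sum]
  have hstep : ∀ j ∈ range p, 2 * (m : ZMod (p ^ 3)) *
      (((j.descFactorial s : ℕ) : ZMod (p ^ 3)) ^ m * V p m j ^ m)
      = 2 * (m : ZMod (p ^ 3)) * ((-1 : ZMod (p ^ 3)) ^ j * ((p - 1).choose j : ZMod (p ^ 3)) *
          ((j.descFactorial s : ℕ) : ZMod (p ^ 3)) ^ m)
        + ((m : ZMod (p ^ 3)) - 1) * ((p : ZMod (p ^ 3)) ^ 2 *
          (((j.descFactorial s : ℕ) : ZMod (p ^ 3)) ^ m * H p j)) := by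
    intro j hj
    have hj := Finset.mem_range.1 hj
    have := V_pow p m hpm j (by omega)
    linear_combination ((j.descFactorial s : ℕ) : ZMod (p ^ 3)) ^ m * this
  rw [Finset.sum_congr rfl hstep, Finset.sum_add_distrib, ← Finset.mul_sum, ← Finset.mul_sum,
    ← Finset.mul_sum]
  -- first sum
  have hfirst : ∑ j ∈ range p, (-1 : ZMod (p ^ 3)) ^ j * ((p - 1).choose j : ZMod (p ^ 3)) *
          ((j.descFactorial s : ℕ) : ZMod (p ^ 3)) ^ m = 0 := by
    have h1 := alt_sum_eval (R := ℤ) ((descPochhammer ℤ s) ^ m) (p - 1) (by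
      rw [Polynomial.natDegree_pow, descPochhammer_natDegree]; omega)
    have hpos := hp.1.pos
    rw [show p - 1 + 1 = p by omega] at h1
    have h2 := congrArg (fun x : ℤ => (x : ZMod (p ^ 3))) h1
    simp only [Polynomial.eval_pow, descPochhammer_eval_eq_descFactorial] at h2
    push_cast at h2
    exact h2
  have hsecond : (p : ZMod (p ^ 3)) ^ 2 * ∑ j ∈ range p,
      ((j.descFactorial s : ℕ) : ZMod (p ^ 3)) ^ m * H p j = 0 := by
    apply pow_mul_eq_zero_one p 2
    rw [map_sum]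
    rw [← sum_desc_H p m s hp2 hm hs he]
    refine Finset.sum_congr rfl fun j hj => ?_
    have hj := Finset.mem_range.1 hj
    rw [map_mul, map_pow, map_natCast, H, map_sum]
    congr 1
    refine Finset.sum_congr rfl fun i hi => ?_
    have hi := Finset.mem_range.1 hi
    rw [map_pow, castHom_inv p 3 (i + 1) (by omega) (by omega)]
  rw [hfirst, hsecond, mul_zero, mul_zero, add_zero]

end

end Pool.Agent.R902.PowBinom
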