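import Pool.Agent.R902.Tri

/-!
The truncated Legendre function `A(t) = ∑_k C(n,k)^2 t^k`, `p = 2n+1`: quadratic transformation
and symmetry.
-/

set_option linter.unusedSectionVars false

namespace Pool.Agent.R902.QuadL

open Finset Polynomial

section exact

variable {R : Type*} [CommRing R]

theorem coeff_left (n : ℕ) (x : R) :
    (((1 + C x * X) ^ n * (X + C x) ^ n : R[X])).coeff n
      = ∑ j ∈ range (n + 1), ((n.choose j : R)) ^ 2 * x ^ (2 * j) := by
  rw [coeff_mul, Finset.Nat.sum_antidiagonal_eq_sum_range_succ_mk]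
  refine Finset.sum_congr rfl fun j hj => ?_
  have hj : j ≤ n := by
    have := Finset.mem_range.1 hj
    omega
  have h1 : ((1 + C x * X) ^ n : R[X]).coeff j = (n.choose j : R) * x ^ j := by
    rw [add_comm, add_pow, finsetSum_coeff]
    rw [Finset.sum_eq_single j]
    · rw [one_pow, mul_one, mul_pow, ← C_pow, mul_comm, ← mul_assoc, ← C_eq_natCast, ← C_mul,
        coeff_C_mul_X_pow, if_pos rfl]
    · intro i _ hi
      rw [one_pow, mul_one, mul_pow, ← C_pow, mul_comm, ← mul_assoc, ← C_eq_natCast, ← C_mul,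
        coeff_C_mul_X_pow, if_neg hi.symm]
    · intro h
      exact absurd (Finset.mem_range.2 (by omega)) h
  have h2 : ((X + C x) ^ n : R[X]).coeff (n - j) = (n.choose j : R) * x ^ j := by
    rw [coeff_X_add_C_pow, Nat.sub_sub_self hj, Nat.choose_symm hj, mul_comm]
  rw [h1, h2]
  ring

theorem coeff_X_sub_one (j : ℕ) :
    (((X - 1) ^ (2 * j) : R[X])).coeff j = ((2 * j).choose j : R) * (-1) ^ j := by
  have h : (X - 1 : R[X]) = X + C (-1) := by simp [sub_eq_add_neg]
  rw [h, coeff_X_add_C_pow, show 2 * j - j = j by omega, mul_comm]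

theorem coeff_right (n : ℕ) (x : R) :
    (((X * C ((1 + x) ^ 2) + C x * (X - 1) ^ 2) ^ n : R[X])).coeff n
      = ∑ j ∈ range (n + 1), (n.choose j : R) * ((2 * j).choose j : R) * (-1) ^ j * x ^ j *
        (1 + x) ^ (2 * (n - j)) := by
  rw [add_comm, add_pow, finsetSum_coeff]
  refine Finset.sum_congr rfl fun j hj => ?_
  have hj : j ≤ n := by
    have := Finset.mem_range.1 hj
    omega
  have h1 : ((C x * (X - 1) ^ 2) ^ j * (X * C ((1 + x) ^ 2)) ^ (n - j) * (n.choose j : R[X]))
      = C ((n.choose j : R) * x ^ j * (1 + x) ^ (2 * (n - j))) * (X - 1) ^ (2 * j) *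
        X ^ (n - j) := by
    rw [mul_pow, mul_pow, ← C_pow, ← C_pow, ← pow_mul, ← pow_mul, ← C_eq_natCast]
    simp only [C_mul]
    ring
  rw [h1, coeff_mul_X_pow', if_pos (by omega), show n - (n - j) = j by omega, coeff_C_mul,
    coeff_X_sub_one]
  ring

/-- quadratic transformation, exact form -/
theorem quad (n : ℕ) (x : R) :
    ∑ j ∈ range (n + 1), ((n.choose j : R)) ^ 2 * x ^ (2 * j)
      = ∑ j ∈ range (n + 1), (n.choose j : R) * ((2 * j).choose j : R) * (-1) ^ j * x ^ j *
        (1 + x) ^ (2 * (n - j)) := by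
  rw [← coeff_left, ← coeff_right, ← mul_pow]
  congr 2
  simp only [C_pow, C_add, map_one]
  ring

end exact

section prime

variable (p : ℕ) [hp : Fact p.Prime]

/-- `A(t) = ∑_k C(n,k)^2 t^k` in `Z/p` -/
noncomputable def A (n : ℕ) (t : ZMod p) : ZMod p :=
  ∑ k ∈ range (n + 1), ((n.choose k : ZMod p)) ^ 2 * t ^ k

theorem choose_mod (n : ℕ) (hn : p = 2 * n + 1) (j : ℕ) (hj : j ≤ n) :
    ((2 * j).choose j : ZMod p) = (n.choose j : ZMod p) * (-4) ^ j := by
  have hpn : (p : ZMod p) = 2 * (n : ZMod p) + 1 := by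
    have := congrArg (fun x : ℕ => (x : ZMod p)) hn
    simp only [Nat.cast_add, Nat.cast_mul, Nat.cast_ofNat, Nat.cast_one] at this
    exact this
  have hp0 : (p : ZMod p) = 0 := ZMod.natCast_self p
  rw [hp0] at hpn
  induction j with
  | zero => simp
  | succ j ih =>
    have ih := ih (by omega)
    have hu : ((j + 1 : ℕ) : ZMod p) ≠ 0 := by
      rw [Ne, ZMod.natCast_eq_zero_iff]
      intro h
      have := Nat.le_of_dvd (by omega) h
      omega
    apply mul_left_cancel₀ hu
    have a1 := congrArg (fun x : ℕ => (x : ZMod p)) (Nat.succ_mul_centralBinom_succ j)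
    rw [Nat.centralBinom, Nat.centralBinom] at a1
    have a2 := Nat.choose_succ_right_eq n j
    have a3 := congrArg (fun x : ℕ => (x : ZMod p)) a2
    simp only [Nat.cast_mul] at a3
    rw [Nat.cast_sub (by omega)] at a3
    push_cast at a1 a3 ⊢
    rw [a1, ih, pow_succ]
    linear_combination 4 * (-4) ^ j * a3 - 2 * (n.choose j : ZMod p) * (-4) ^ j * hpn

theorem choose_add_mod (n : ℕ) (hn : p = 2 * n + 1) (j : ℕ) (hj : j ≤ n) :
    ((n + j).choose j : ZMod p) * (-1) ^ j = (n.choose j : ZMod p) := by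
  have hpn : (p : ZMod p) = 2 * (n : ZMod p) + 1 := by
    have := congrArg (fun x : ℕ => (x : ZMod p)) hn
    simp only [Nat.cast_add, Nat.cast_mul, Nat.cast_ofNat, Nat.cast_one] at this
    exact this
  have hp0 : (p : ZMod p) = 0 := ZMod.natCast_self p
  rw [hp0] at hpn
  induction j with
  | zero => simp
  | succ j ih =>
    have ih := ih (by omega)
    have hu : ((j + 1 : ℕ) : ZMod p) ≠ 0 := by
      rw [Ne, ZMod.natCast_eq_zero_iff]
      intro h
      have := Nat.le_of_dvd (by omega) h
      omega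
    apply mul_left_cancel₀ hu
    have a1 := congrArg (fun x : ℕ => (x : ZMod p)) (Nat.add_one_mul_choose_eq (n + j) j)
    have a2 := Nat.choose_succ_right_eq n j
    have a3 := congrArg (fun x : ℕ => (x : ZMod p)) a2
    simp only [Nat.cast_mul] at a3
    rw [Nat.cast_sub (by omega)] at a3
    rw [show n + (j + 1) = n + j + 1 by ring]
    push_cast at a1 a3 ⊢
    rw [pow_succ]
    linear_combination (-1) ^ j * a1 - (n + j + 1) * ih - a3 + (n.choose j : ZMod p) * hpn

/-- symmetry -/
theorem A_symm (n : ℕ) (hn : p = 2 * n + 1) (t : ZMod p) :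
    A p n t = (-1) ^ n * A p n (1 - t) := by
  have h : ∀ t : ZMod p, A p n t = aeval t (shiftedLegendre n) := by
    intro t
    rw [A, shiftedLegendre, map_sum]
    refine Finset.sum_congr rfl fun k hk => ?_
    have hk : k ≤ n := by
      have := Finset.mem_range.1 hk
      omega
    simp only [map_mul, aeval_X_pow, aeval_C]
    have h1 := choose_add_mod p n hn k hk
    have h2 : (n + k).choose n = (n + k).choose k := by
      rw [← Nat.choose_symm_of_eq_add (show n + k = k + n by ring)]
    rw [h2]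
    simp only [map_pow, map_neg, map_one, map_natCast]
    linear_combination (-(n.choose k : ZMod p) * t ^ k) * h1
  rw [h, h, shiftedLegendre_eval_symm]

/-- quadratic transformation modulo `p` -/
theorem A_quad (n : ℕ) (hn : p = 2 * n + 1) (x : ZMod p) (hx : (1 + x) ^ 2 = 2) :
    A p n (x ^ 2) = A p n (2 * x) := by
  have h := quad n x
  have h20 : (2 : ZMod p) ≠ 0 := by
    have : ((2 : ℕ) : ZMod p) ≠ 0 := by
      rw [Ne, ZMod.natCast_eq_zero_iff]
      intro h
      have h1 := (Nat.dvd_prime Nat.prime_two).1 h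
      have := hp.1.one_lt
      omega
    exact_mod_cast this
  have h0 : (1 + x) ≠ 0 := by
    intro h0
    rw [h0] at hx
    exact h20 (by rw [← hx]; ring)
  have h2n : (2 : ZMod p) ^ n = 1 := by
    rw [← hx, ← pow_mul, show 2 * n = p - 1 by omega]
    exact ZMod.pow_card_sub_one_eq_one h0
  rw [A, A]
  have h1 : ∑ k ∈ range (n + 1), ((n.choose k : ZMod p)) ^ 2 * (x ^ 2) ^ k
      = ∑ k ∈ range (n + 1), ((n.choose k : ZMod p)) ^ 2 * x ^ (2 * k) :=
    Finset.sum_congr rfl fun k _ => by rw [← pow_mul]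
  rw [h1, h]
  refine Finset.sum_congr rfl fun j hj => ?_
  have hj : j ≤ n := by
    have := Finset.mem_range.1 hj
    omega
  rw [choose_mod p n hn j hj, pow_mul, hx]
  have h3 : (-4 : ZMod p) ^ j * (-1) ^ j * 2 ^ (n - j) = 2 ^ j := by
    rw [← mul_pow, show (-4 : ZMod p) * (-1) = 2 * 2 by norm_num, mul_pow, mul_assoc, ← pow_add,
      show j + (n - j) = n by omega, h2n, mul_one]
  rw [mul_pow 2 x]
  linear_combination ((n.choose j : ZMod p)) ^ 2 * x ^ j * h3

/-- vanishing at `2x`, `(1+x)^2 = 2`, for odd `n` -/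
theorem A_zero (n : ℕ) (hn : p = 2 * n + 1) (hodd : Odd n) (x : ZMod p) (hx : (1 + x) ^ 2 = 2) :
    A p n (2 * x) = 0 := by
  have h20 : (2 : ZMod p) ≠ 0 := by
    have : ((2 : ℕ) : ZMod p) ≠ 0 := by
      rw [Ne, ZMod.natCast_eq_zero_iff]
      intro h
      have h1 := (Nat.dvd_prime Nat.prime_two).1 h
      have := hp.1.one_lt
      omega
    exact_mod_cast this
  have h1 := A_symm p n hn (2 * x)
  have h2 := A_quad p n hn x hx
  have h3 : 1 - 2 * x = x ^ 2 := by linear_combination -hx
  rw [h3, h2, hodd.neg_one_pow] at h1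
  apply mul_left_cancel₀ h20
  linear_combination h1

end prime

end Pool.Agent.R902.QuadL
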