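import Pool.Agent.R902.PI

/-!
Reduction modulo `p` of `p`-integral rationals.
-/

set_option linter.unusedSectionVars false

namespace Pool.Agent.R902.Red

open Finset Pool.Agent.R902

variable {p : ℕ} [hp : Fact p.Prime]

theorem den_ne {x : ℚ} (h : Dv p 0 x) : (x.den : ZMod p) ≠ 0 := by
  obtain ⟨c, hc, hx⟩ := h.exists_den
  rw [pow_zero, one_mul] at hx
  rw [Ne, ZMod.natCast_eq_zero_iff, hx]
  exact hc

theorem add {x y : ℚ} (hx : Dv p 0 x) (hy : Dv p 0 y) :
    (((x + y : ℚ)) : ZMod p) = (x : ZMod p) + (y : ZMod p) :=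
  Rat.cast_add_of_ne_zero (den_ne hx) (den_ne hy)

theorem mul {x y : ℚ} (hx : Dv p 0 x) (hy : Dv p 0 y) :
    (((x * y : ℚ)) : ZMod p) = (x : ZMod p) * (y : ZMod p) :=
  Rat.cast_mul_of_ne_zero (den_ne hx) (den_ne hy)

theorem sub {x y : ℚ} (hx : Dv p 0 x) (hy : Dv p 0 y) :
    (((x - y : ℚ)) : ZMod p) = (x : ZMod p) - (y : ZMod p) :=
  Rat.cast_sub_of_ne_zero (den_ne hx) (den_ne hy)

theorem pow {x : ℚ} (hx : Dv p 0 x) (k : ℕ) :
    (((x ^ k : ℚ)) : ZMod p) = (x : ZMod p) ^ k := by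
  induction k with
  | zero => simp
  | succ k ih => rw [pow_succ, mul hx.pow hx, ih, pow_succ]

theorem sum {ι : Type*} (s : Finset ι) (f : ι → ℚ) (h : ∀ i ∈ s, Dv p 0 (f i)) :
    (((∑ i ∈ s, f i : ℚ)) : ZMod p) = ∑ i ∈ s, ((f i : ℚ) : ZMod p) := by
  classical
  induction s using Finset.induction_on with
  | empty => simp
  | insert a s ha ih =>
    have h1 : ∀ i ∈ s, Dv p 0 (f i) := fun i hi => h i (Finset.mem_insert_of_mem hi)
    rw [Finset.sum_insert ha, Finset.sum_insert ha,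
      add (h a (Finset.mem_insert_self a s)) (Dv.sum s f h1), ih h1]

theorem eq_zero_iff {x : ℚ} (hx : Dv p 0 x) : (x : ZMod p) = 0 ↔ Dv p 1 x := by
  have hd := den_ne hx
  constructor
  · intro h
    rw [Rat.cast_def, div_eq_zero_iff] at h
    have h1 := h.resolve_right hd
    rw [ZMod.intCast_zmod_eq_zero_iff_dvd] at h1
    obtain ⟨c, hc⟩ := h1
    refine ⟨x.den, ?_, c, ?_⟩
    · rwa [Ne, ZMod.natCast_eq_zero_iff] at hd
    · rw [Rat.mul_den_eq_num, hc]
      push_cast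
      ring
  · intro h
    have h1 := h.num
    rw [pow_one] at h1
    rw [Rat.cast_def, (ZMod.intCast_zmod_eq_zero_iff_dvd _ _).2 h1, zero_div]

end Pool.Agent.R902.Red
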