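import Pool.Agent.R902.Red

/-!
The sequence `s_k = (6k)! k! / (2(2k+1) (3k)! (2k)!^2)` modulo `p`.
-/

set_option linter.unusedSectionVars false

namespace Pool.Agent.R902.SixK

open Finset Pool.Agent.R902

/-- `e_m = ∑ C(m+k,2k) (-4)^k` -/
theorem e_f (m : ℕ) : (∑ k ∈ range (m + 1), ((m + k).choose (2 * k) : ℤ) * (-4) ^ k
      = (-1) ^ m * (2 * m + 1)) ∧
    (∑ k ∈ range (m + 1), ((m + k).choose (2 * k + 1) : ℤ) * (-4) ^ k = (-1) ^ (m + 1) * m) := by
  induction m with
  | zero => simp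
  | succ m ih =>
    obtain ⟨h1, h2⟩ := ih
    have f1 : ∑ k ∈ range (m + 1 + 1), ((m + 1 + k).choose (2 * k + 1) : ℤ) * (-4) ^ k
        = (-1) ^ (m + 1 + 1) * ((m + 1 : ℕ) : ℤ) := by
      have h3 : ∀ k ∈ range (m + 1 + 1), ((m + 1 + k).choose (2 * k + 1) : ℤ) * (-4) ^ k
          = ((m + k).choose (2 * k) : ℤ) * (-4) ^ k
            + ((m + k).choose (2 * k + 1) : ℤ) * (-4) ^ k := by
        intro k _
        rw [show m + 1 + k = (m + k) + 1 by ring, Nat.choose_succ_succ']
        push_cast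
        ring
      rw [Finset.sum_congr rfl h3, Finset.sum_add_distrib, Finset.sum_range_succ _ (m + 1),
        Finset.sum_range_succ _ (m + 1), h1, h2,
        Nat.choose_eq_zero_of_lt (by omega : m + (m + 1) < 2 * (m + 1)),
        Nat.choose_eq_zero_of_lt (by omega : m + (m + 1) < 2 * (m + 1) + 1)]
      push_cast
      ring
    refine ⟨?_, f1⟩
    rw [Finset.sum_range_succ'] at h1 ⊢
    have h4 : ∀ k ∈ range (m + 1), ((m + 1 + (k + 1)).choose (2 * (k + 1)) : ℤ) * (-4) ^ (k + 1)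
        = ((m + (k + 1)).choose (2 * (k + 1)) : ℤ) * (-4) ^ (k + 1)
          - 4 * (((m + 1 + k).choose (2 * k + 1) : ℤ) * (-4) ^ k) := by
      intro k _
      rw [show m + 1 + (k + 1) = (m + 1 + k) + 1 by ring, show 2 * (k + 1) = 2 * k + 1 + 1 by ring,
        Nat.choose_succ_succ', show m + (k + 1) = m + 1 + k by ring]
      push_cast
      ring
    rw [Finset.sum_congr rfl h4, Finset.sum_sub_distrib, ← Finset.mul_sum,
      Finset.sum_range_succ _ m]
    rw [Finset.sum_range_succ _ (m + 1)] at f1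
    rw [Nat.choose_eq_zero_of_lt (by omega : m + (m + 1) < 2 * (m + 1))]
    rw [Nat.choose_eq_zero_of_lt (by omega : m + 1 + (m + 1) < 2 * (m + 1) + 1)] at f1
    simp only [mul_zero, add_zero, Nat.choose_zero_right, Nat.cast_one, Nat.cast_zero, zero_mul,
      pow_zero, mul_one] at h1 f1 ⊢
    rw [f1]
    push_cast
    linear_combination h1

/-- first solution of the recurrence -/
def v (M k : ℕ) : ℤ := (((M + k).choose (2 * k) : ℤ) + 2 * ((M + k).choose (2 * k + 1) : ℤ)) *
  (-4) ^ k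

theorem sum_v (M n : ℕ) (h : M < n) : ∑ k ∈ range n, v M k = (-1) ^ M := by
  have h1 : ∑ k ∈ range (M + 1), v M k = (-1) ^ M := by
    have h2 : ∀ k ∈ range (M + 1), v M k = ((M + k).choose (2 * k) : ℤ) * (-4) ^ k
        + 2 * (((M + k).choose (2 * k + 1) : ℤ) * (-4) ^ k) := fun k _ => by rw [v]; ring
    rw [Finset.sum_congr rfl h2, Finset.sum_add_distrib, ← Finset.mul_sum, (e_f M).1, (e_f M).2]
    ring
  rw [← h1]
  symm
  apply Finset.sum_subset (Finset.range_mono (by omega))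
  intro k _ hk
  have hk : M + 1 ≤ k := by simpa using hk
  rw [v, Nat.choose_eq_zero_of_lt (by omega), Nat.choose_eq_zero_of_lt (by omega)]
  simp

theorem v_rec (M k : ℕ) : ((k : ℤ) + 1) * (2 * k + 3) * v M (k + 1)
    = -2 * ((M : ℤ) + k + 1) * (M - k) * v M k := by
  rcases Nat.lt_or_ge M k with h | h
  · rw [v, v, Nat.choose_eq_zero_of_lt (by omega), Nat.choose_eq_zero_of_lt (by omega),
      Nat.choose_eq_zero_of_lt (by omega), Nat.choose_eq_zero_of_lt (by omega)]
    simp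
  -- A = C(M+k,2k), B = C(M+k,2k+1)
  have hB := congrArg (fun x : ℕ => (x : ℤ)) (Nat.choose_succ_right_eq (M + k) (2 * k))
  have hC := congrArg (fun x : ℕ => (x : ℤ)) (Nat.add_one_mul_choose_eq (M + k) (2 * k + 1))
  -- C(M+k+1,2k+2)
  have hD : ((M + (k + 1)).choose (2 * (k + 1) + 1) : ℤ) * (2 * k + 3)
      = ((M + (k + 1)).choose (2 * (k + 1)) : ℤ) * (M - k - 1) := by
    have h1 := Nat.choose_succ_right_eq (M + (k + 1)) (2 * (k + 1))
    rcases Nat.lt_or_ge M (k + 1) with h2 | h2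
    · rw [Nat.choose_eq_zero_of_lt (by omega : M + (k + 1) < 2 * (k + 1)),
        Nat.choose_eq_zero_of_lt (by omega : M + (k + 1) < 2 * (k + 1) + 1)]
      simp
    · have h3 := congrArg (fun x : ℕ => (x : ℤ)) h1
      simp only [Nat.cast_mul] at h3
      rw [Nat.cast_sub (by omega)] at h3
      push_cast at h3
      linear_combination h3
  simp only [Nat.cast_mul] at hB
  rw [Nat.cast_sub (by omega)] at hB
  push_cast at hB hC
  rw [show M + k + 1 = M + (k + 1) by ring, show 2 * k + 1 + 1 = 2 * (k + 1) by ring] at hC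
  rw [v, v, pow_succ]
  generalize ((M + (k + 1)).choose (2 * (k + 1)) : ℤ) = c1 at *
  generalize ((M + (k + 1)).choose (2 * (k + 1) + 1) : ℤ) = c2 at *
  generalize ((M + k).choose (2 * k) : ℤ) = a at *
  generalize ((M + k).choose (2 * k + 1) : ℤ) = b at *
  linear_combination (-4) ^ k * (-4 * ((k : ℤ) + 1) * (2 * hD) + (2 * M + 1) * 2 * hC
    + 2 * ((M : ℤ) + k + 1) * (-hB))

/-- second solution of the recurrence, `N = M + 1` -/
def h (M j : ℕ) : ℤ := (((M + 1 + j).choose (2 * j) : ℤ) + ((M + j).choose (2 * j) : ℤ)) *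
  (-4) ^ j

theorem sum_h (M n : ℕ) (hM : M < n) : ∑ j ∈ range (n + 1), h M j = 2 * (-1) ^ (M + 1) := by
  have h1 : ∀ j ∈ range (n + 1), h M j = ((M + 1 + j).choose (2 * j) : ℤ) * (-4) ^ j
      + ((M + j).choose (2 * j) : ℤ) * (-4) ^ j := fun j _ => by rw [h]; ring
  rw [Finset.sum_congr rfl h1, Finset.sum_add_distrib]
  have h2 : ∀ L, L ≤ n → ∑ j ∈ range (n + 1), ((L + j).choose (2 * j) : ℤ) * (-4) ^ j
      = (-1) ^ L * (2 * L + 1) := by
    intro L hL
    rw [← (e_f L).1]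
    symm
    apply Finset.sum_subset (Finset.range_mono (by omega))
    intro k _ hk
    have hk : L + 1 ≤ k := by simpa using hk
    rw [Nat.choose_eq_zero_of_lt (by omega)]
    simp
  rw [h2 (M + 1) (by omega), h2 M (by omega)]
  push_cast
  ring

theorem h_rec (M j : ℕ) : (2 * (j : ℤ) + 1) * (j + 1) * h M (j + 1)
    = 2 * ((j : ℤ) ^ 2 - (M + 1) ^ 2) * h M j := by
  -- a = C(M+1+j,2j), b = C(M+j,2j), (M+1+j) b = (M+1-j) a
  rcases Nat.lt_or_ge (M + 1) j with hlt | hge
  · rw [h, h, Nat.choose_eq_zero_of_lt (by omega), Nat.choose_eq_zero_of_lt (by omega),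
      Nat.choose_eq_zero_of_lt (by omega), Nat.choose_eq_zero_of_lt (by omega)]
    simp
  have hb : ((M : ℤ) + 1 + j) * ((M + j).choose (2 * j) : ℤ)
      = (M + 1 - j) * ((M + 1 + j).choose (2 * j) : ℤ) := by
    have h1 := Nat.choose_mul_succ_eq (M + j) (2 * j)
    have h2 := congrArg (fun x : ℕ => (x : ℤ)) h1
    simp only [Nat.cast_mul] at h2
    rw [Nat.cast_sub (by omega)] at h2
    push_cast at h2
    rw [show M + j + 1 = M + 1 + j by ring] at h2
    linear_combination h2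
  have hA : (2 * (j : ℤ) + 1) * (2 * j + 2) * ((M + 1 + (j + 1)).choose (2 * (j + 1)) : ℤ)
      = (M + j + 2) * (M + j + 1) * ((M + j).choose (2 * j) : ℤ) := by
    have h1 := congrArg (fun x : ℕ => (x : ℤ)) (Nat.add_one_mul_choose_eq (M + j + 1) (2 * j + 1))
    have h2 := congrArg (fun x : ℕ => (x : ℤ)) (Nat.add_one_mul_choose_eq (M + j) (2 * j))
    rw [show M + 1 + (j + 1) = M + j + 1 + 1 by ring, show 2 * (j + 1) = 2 * j + 1 + 1 by ring]
    push_cast at h1 h2 ⊢
    linear_combination -(2 * (j : ℤ) + 1) * h1 - (M + j + 2) * h2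
  have hB : (2 * (j : ℤ) + 1) * (2 * j + 2) * ((M + (j + 1)).choose (2 * (j + 1)) : ℤ)
      = (M + 1 - j) * (M - j) * ((M + 1 + j).choose (2 * j) : ℤ) := by
    rcases Nat.lt_or_ge M (j + 1) with hlt' | hge'
    · rw [Nat.choose_eq_zero_of_lt (by omega)]
      rcases (show j = M ∨ j = M + 1 by omega) with rfl | rfl
      · simp
      · simp
    · have h1 := Nat.choose_succ_right_eq (M + 1 + j) (2 * j)
      have h2 := Nat.choose_succ_right_eq (M + 1 + j) (2 * j + 1)
      have h3 := congrArg (fun x : ℕ => (x : ℤ)) h1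
      have h4 := congrArg (fun x : ℕ => (x : ℤ)) h2
      simp only [Nat.cast_mul] at h3 h4
      rw [Nat.cast_sub (by omega)] at h3 h4
      push_cast at h3 h4
      rw [show M + (j + 1) = M + 1 + j by ring, show 2 * (j + 1) = 2 * j + 1 + 1 by ring]
      linear_combination (2 * (j : ℤ) + 1) * h4 + (M - j) * h3
  rw [h, h, pow_succ]
  generalize ((M + 1 + (j + 1)).choose (2 * (j + 1)) : ℤ) = a' at *
  generalize ((M + (j + 1)).choose (2 * (j + 1)) : ℤ) = b' at *
  generalize ((M + 1 + j).choose (2 * j) : ℤ) = a at *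
  generalize ((M + j).choose (2 * j) : ℤ) = b at *
  linear_combination (-4) ^ j * (-2 * hA - 2 * hB + (-2) * (2 * j + 1) * hb)

end Pool.Agent.R902.SixK
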