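import Pool.Agent.R902.ZM

/-!
Symmetry modulo `p^2` of `∑_k C(p-1,k) C(2k,k)^2 x^k`.
-/

set_option linter.unusedSectionVars false

namespace Pool.Agent.R902.Sym2

open Finset

/-! ### binomial transform -/

/-- `∑_k C(m,k) w_k` -/
def B (w : ℕ → ℤ) (m : ℕ) : ℤ := ∑ k ∈ range (m + 1), (m.choose k : ℤ) * w k

theorem B_succ (w : ℕ → ℤ) (m : ℕ) : B w (m + 1) = B w m + B (fun k => w (k + 1)) m := by
  have h1 : B w m = ∑ k ∈ range (m + 2), (m.choose k : ℤ) * w k := by
    rw [B, Finset.sum_range_succ _ (m + 1), Nat.choose_succ_self]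
    simp
  rw [h1, B, B, Finset.sum_range_succ', Finset.sum_range_succ' _ (m + 1), add_right_comm,
    ← Finset.sum_add_distrib]
  congr 1
  · refine Finset.sum_congr rfl fun k _ => ?_
    rw [Nat.choose_succ_succ']
    push_cast
    ring
  · simp

theorem B_mul (w : ℕ → ℤ) (m : ℕ) : B (fun k => (k : ℤ) * w k) (m + 1)
    = (m + 1) * B (fun k => w (k + 1)) m := by
  rw [B, Finset.sum_range_succ', B, Finset.mul_sum]
  simp only [Nat.cast_zero, zero_mul, mul_zero, add_zero]
  refine Finset.sum_congr rfl fun k _ => ?_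
  have h := congrArg (fun x : ℕ => (x : ℤ)) (Nat.add_one_mul_choose_eq m k)
  push_cast at h ⊢
  linear_combination (-(w (k + 1))) * h

theorem B_add (u v : ℕ → ℤ) (m : ℕ) : B (fun k => u k + v k) m = B u m + B v m := by
  rw [B, B, B, ← Finset.sum_add_distrib]
  refine Finset.sum_congr rfl fun k _ => by ring

theorem B_smul (a : ℤ) (v : ℕ → ℤ) (m : ℕ) : B (fun k => a * v k) m = a * B v m := by
  rw [B, B, Finset.mul_sum]
  refine Finset.sum_congr rfl fun k _ => by ring

theorem B_congr (u v : ℕ → ℤ) (m : ℕ) (h : ∀ k, u k = v k) : B u m = B v m := by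
  rw [B, B]
  refine Finset.sum_congr rfl fun k _ => by rw [h]

/-- the three term recurrence -/
theorem B_rec (w : ℕ → ℤ) (a b : ℤ) (hw : ∀ k : ℕ, ((k : ℤ) + 1) ^ 2 * w (k + 1)
    = -(((k : ℤ) + a) * ((k : ℤ) + b)) * w k) (m : ℕ) :
    ((m : ℤ) + 2) ^ 2 * (B w (m + 2) - B w (m + 1))
      = (m + 1) * (m + 2 - (a + b)) * (B w (m + 1) - B w m) - a * b * B w (m + 1) := by
  have d0 := B_succ w m
  have d1 := B_succ w (m + 1)
  have d2 := B_succ (fun k => w (k + 1)) m
  -- P m = B (k w_{k+1}) m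
  have P1 := B_mul (fun k => w (k + 1)) m
  have P2 := B_succ (fun k => (k : ℤ) * w (k + 1)) m
  -- B (k^2 w) (m+1)
  have Q1 := B_mul (fun k => (k : ℤ) * w k) m
  have Q2 : B (fun k => (k : ℤ) * ((k : ℤ) * w k)) (m + 1)
      + (a + b) * B (fun k => (k : ℤ) * w k) (m + 1) + a * b * B w (m + 1)
      = -(B (fun k => (k : ℤ) * ((k : ℤ) * w (k + 1))) (m + 1)
        + 2 * B (fun k => (k : ℤ) * w (k + 1)) (m + 1) + B (fun k => w (k + 1)) (m + 1)) := by
    rw [← B_smul, ← B_smul, ← B_add, ← B_add, ← B_smul, ← B_add, ← B_add, ← neg_one_mul, ← B_smul]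
    apply B_congr
    intro k
    have := hw k
    linear_combination this
  have Q3 := B_mul (fun k => (k : ℤ) * w (k + 1)) m
  have Q4 := B_mul w m
  have R1 : B (fun k => ((k + 1 : ℕ) : ℤ) * w (k + 1)) m
      = B (fun k => (k : ℤ) * w (k + 1)) m + B (fun k => w (k + 1)) m := by
    rw [← B_add]
    apply B_congr
    intro k
    push_cast
    ring
  have R2 : B (fun k => ((k + 1 : ℕ) : ℤ) * w (k + 1 + 1)) m
      = B (fun k => (k : ℤ) * w (k + 1 + 1)) m + B (fun k => w (k + 1 + 1)) m := by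
    rw [← B_add]
    apply B_congr
    intro k
    push_cast
    ring
  rw [R1] at Q1
  rw [R2] at Q3 P2
  rw [Q1, Q4, Q3] at Q2
  rw [P1] at Q2 P2
  generalize B (fun k => (k : ℤ) * w (k + 1 + 1)) m = x1 at *
  generalize B (fun k => w (k + 1 + 1)) m = x2 at *
  generalize B (fun k => (k : ℤ) * w (k + 1)) m = x3 at *
  generalize B (fun k => w (k + 1)) (m + 1) = x4 at *
  generalize B (fun k => w (k + 1)) m = x5 at *
  rw [show m + 2 = m + 1 + 1 by ring]
  linear_combination ((m : ℤ) + 2) ^ 2 * d1 - (m + 1) * (m + 2 - (a + b)) * d0 + Q2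
    + ((m : ℤ) + 1) * P2 + ((m : ℤ) + 1) * (m + 3) * d2

/-- `w_k = C(2n,k) C(n+k,k)` -/
def w (n k : ℕ) : ℤ := ((2 * n).choose k : ℤ) * ((n + k).choose k : ℤ)

theorem w_succ (n k : ℕ) : ((k : ℤ) + 1) ^ 2 * w n (k + 1)
    = -(((k : ℤ) + (-2 * n)) * ((k : ℤ) + (n + 1))) * w n k := by
  have h1 : ((k : ℤ) + 1) * ((2 * n).choose (k + 1) : ℤ) = (2 * n - k) * ((2 * n).choose k : ℤ) := by
    have h := Nat.choose_succ_right_eq (2 * n) k
    rcases Nat.lt_or_ge (2 * n) k with hk | hk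
    · rw [Nat.choose_eq_zero_of_lt hk, Nat.choose_eq_zero_of_lt (by omega : 2 * n < k + 1)]
      simp
    · have h' := congrArg (fun x : ℕ => (x : ℤ)) h
      simp only [Nat.cast_mul] at h'
      rw [Nat.cast_sub hk] at h'
      push_cast at h'
      linear_combination h'
  have h2 : ((k : ℤ) + 1) * ((n + (k + 1)).choose (k + 1) : ℤ)
      = (n + 1 + k) * ((n + k).choose k : ℤ) := by
    have h := congrArg (fun x : ℕ => (x : ℤ)) (Nat.add_one_mul_choose_eq (n + k) k)
    push_cast at h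
    rw [show n + (k + 1) = n + k + 1 by ring]
    linear_combination -h
  rw [w, w]
  linear_combination ((k : ℤ) + 1) * ((n + (k + 1)).choose (k + 1) : ℤ) * h1 +
    ((2 * n - k) * ((2 * n).choose k : ℤ)) * h2

section prime

variable (p : ℕ) [hp : Fact p.Prime]

theorem p_sq : (p : ZMod (p ^ 2)) ^ 2 = 0 := by
  rw [← Nat.cast_pow]
  exact ZMod.natCast_self (p ^ 2)

/-- `∑_k C(m,k) w_k = (-1)^m w_m` modulo `p^2`, `p = 2n+1` -/
theorem B_mod (n : ℕ) (hn : p = 2 * n + 1) (m : ℕ) (hm : m < p) :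
    ((B (w n) m : ℤ) : ZMod (p ^ 2)) = (-1) ^ m * ((w n m : ℤ) : ZMod (p ^ 2)) := by
  have hpn : (p : ZMod (p ^ 2)) = 2 * (n : ZMod (p ^ 2)) + 1 := by
    have := congrArg (fun x : ℕ => (x : ZMod (p ^ 2))) hn
    simp only [Nat.cast_add, Nat.cast_mul, Nat.cast_ofNat, Nat.cast_one] at this
    exact this
  have hp2 := p_sq p
  induction m using Nat.strong_induction_on with
  | _ m ih =>
    rcases m with _ | _ | m
    · simp [B]
    · have h1 : B (w n) 1 = w n 0 + w n 1 := by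
        rw [B, Finset.sum_range_succ, Finset.sum_range_one]; simp
      have h2 := w_succ n 0
      have h3 : w n 0 = 1 := by simp [w]
      rw [zero_add, h1]
      rw [h3] at h2 ⊢
      simp only [Nat.cast_zero, zero_add, one_pow, one_mul, mul_one] at h2
      rw [h2]
      push_cast
      rw [hpn] at hp2
      linear_combination hp2
    · have i1 := ih (m + 1) (by omega) (by omega)
      have i0 := ih m (by omega) (by omega)
      have hr := B_rec (w n) (-2 * n) (n + 1) (w_succ n) m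
      have hr' := congrArg (fun x : ℤ => (x : ZMod (p ^ 2))) hr
      have s1 := congrArg (fun x : ℤ => (x : ZMod (p ^ 2))) (w_succ n (m + 1))
      have s0 := congrArg (fun x : ℤ => (x : ZMod (p ^ 2))) (w_succ n m)
      simp only [Int.cast_mul, Int.cast_sub, Int.cast_add, Int.cast_neg, Int.cast_pow,
        Int.cast_natCast, Int.cast_ofNat, Int.cast_one] at hr' s1 s0
      rw [i1, i0] at hr'
      have hu := isUnit_natCast p 2 (m + 2) (by omega) (by omega)
      have hu' : IsUnit (((m + 1 : ℕ) : ZMod (p ^ 2)) - (p : ZMod (p ^ 2))) := by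
        have h1 := isUnit_natCast p 2 (p - (m + 1)) (by omega) (by omega)
        rw [Nat.cast_sub (by omega)] at h1
        have := h1.neg
        rwa [neg_sub] at this
      apply (hu.pow 2).mul_left_cancel
      apply hu'.mul_left_cancel
      rw [hpn] at hp2 ⊢
      push_cast at hr' s1 s0 ⊢
      generalize ((w n m : ℤ) : ZMod (p ^ 2)) = w0 at *
      generalize ((w n (m + 1) : ℤ) : ZMod (p ^ 2)) = w1 at *
      rw [show m + 1 + 1 = m + 2 by ring] at *
      generalize ((w n (m + 2) : ℤ) : ZMod (p ^ 2)) = w2 at *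
      generalize ((B (w n) (m + 2) : ℤ) : ZMod (p ^ 2)) = b2 at *
      rw [pow_succ (-1 : ZMod (p ^ 2)) (m + 1), pow_succ (-1 : ZMod (p ^ 2)) m] at *
      generalize (-1 : ZMod (p ^ 2)) ^ m = e at *
      linear_combination ((m : ZMod (p ^ 2)) - 2 * n) * hr' - ((m : ZMod (p ^ 2)) - 2 * n) * e * s1
        - e * (m + 1) * s0 + e * w1 * (2 * n + 1) * hp2

/-- `G(y) = ∑_k C(n,k) w_k y^k` -/
noncomputable def G (n : ℕ) (y : ZMod (p ^ 2)) : ZMod (p ^ 2) :=
  ∑ k ∈ range (n + 1), (n.choose k : ZMod (p ^ 2)) * ((w n k : ℤ) : ZMod (p ^ 2)) * y ^ k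

theorem shift_binom {R : Type*} [CommRing R] (n k : ℕ) (hk : k ≤ n) (z : R) :
    (n.choose k : R) * z ^ k * (1 + z) ^ (n - k)
      = ∑ m ∈ range (n + 1), (n.choose m : R) * (m.choose k : R) * z ^ m := by
  obtain ⟨j, rfl⟩ : ∃ j, n = k + j := ⟨n - k, by omega⟩
  rw [Nat.add_sub_cancel_left, add_assoc, Finset.sum_range_add]
  have h0 : ∑ m ∈ range k, ((k + j).choose m : R) * (m.choose k : R) * z ^ m = 0 := by
    apply Finset.sum_eq_zero
    intro m hm
    rw [Nat.choose_eq_zero_of_lt (Finset.mem_range.1 hm)]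
    simp
  rw [h0, zero_add, add_comm 1 z, add_pow, Finset.mul_sum]
  refine Finset.sum_congr rfl fun i hi => ?_
  have hi := Finset.mem_range.1 hi
  have h := congrArg (fun x : ℕ => (x : R)) (Nat.choose_mul (n := k + j) (k := k + i) (s := k) (by omega))
  rw [show k + j - k = j by omega, show k + i - k = i by omega] at h
  push_cast at h
  rw [one_pow, mul_one, pow_add]
  linear_combination (-(z ^ k * z ^ i)) * h

/-- the symmetry `(1-y)^n G(y/(y-1)) = G(y)` modulo `p^2` -/
theorem G_symm (n : ℕ) (hn : p = 2 * n + 1) (y y' : ZMod (p ^ 2)) (h : y' * (y - 1) = y) :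
    (1 - y) ^ n * G p n y' = G p n y := by
  have h1 : ∀ k ∈ range (n + 1), (1 - y) ^ n * ((n.choose k : ZMod (p ^ 2)) *
      ((w n k : ℤ) : ZMod (p ^ 2)) * y' ^ k) = ∑ m ∈ range (n + 1),
        ((n.choose m : ZMod (p ^ 2)) * (-y) ^ m) *
        ((m.choose k : ZMod (p ^ 2)) * ((w n k : ℤ) : ZMod (p ^ 2))) := by
    intro k hk
    have hk := Finset.mem_range.1 hk
    have h2 := shift_binom n k (by omega) (-y)
    have h3 : (1 - y) ^ n * y' ^ k = (-y) ^ k * (1 + -y) ^ (n - k) := by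
      have : (1 - y) ^ n = (1 - y) ^ k * (1 - y) ^ (n - k) := by
        rw [← pow_add]; congr 1; omega
      rw [this, mul_right_comm, ← mul_pow]
      have h4 : (1 - y) * y' = -y := by linear_combination -h
      rw [h4, ← sub_eq_add_neg]
    have h5 : (1 - y) ^ n * ((n.choose k : ZMod (p ^ 2)) *
      ((w n k : ℤ) : ZMod (p ^ 2)) * y' ^ k) = ((w n k : ℤ) : ZMod (p ^ 2)) *
        ((n.choose k : ZMod (p ^ 2)) * (-y) ^ k * (1 + -y) ^ (n - k)) := by
      linear_combination ((n.choose k : ZMod (p ^ 2)) * ((w n k : ℤ) : ZMod (p ^ 2))) * h3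
    rw [h5, h2, Finset.mul_sum]
    refine Finset.sum_congr rfl fun m _ => by ring
  rw [G, Finset.mul_sum, Finset.sum_congr rfl h1, Finset.sum_comm, G]
  refine Finset.sum_congr rfl fun m hm => ?_
  have hm := Finset.mem_range.1 hm
  rw [← Finset.mul_sum]
  have h6 : ∑ k ∈ range (n + 1), (m.choose k : ZMod (p ^ 2)) * ((w n k : ℤ) : ZMod (p ^ 2))
      = ((B (w n) m : ℤ) : ZMod (p ^ 2)) := by
    rw [B, Int.cast_sum]
    symm
    have : ∀ k, (((m.choose k : ℤ) * w n k : ℤ) : ZMod (p ^ 2))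
        = (m.choose k : ZMod (p ^ 2)) * ((w n k : ℤ) : ZMod (p ^ 2)) := fun k => by push_cast; rfl
    simp only [this]
    apply Finset.sum_subset (Finset.range_mono (by omega))
    intro k _ hk
    have hk : m + 1 ≤ k := by simpa using hk
    rw [Nat.choose_eq_zero_of_lt (by omega)]
    simp
  rw [h6, B_mod p n hn m (by omega)]
  have h7 : (-y) ^ m * (-1) ^ m = y ^ m := by rw [← mul_pow]; congr 1; ring
  linear_combination ((n.choose m : ZMod (p ^ 2)) * ((w n m : ℤ) : ZMod (p ^ 2))) * h7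

/-- `C(2k,k)^2 = (-16)^k C(n,k) C(n+k,k)` modulo `p^2` -/
theorem centralBinom_sq (n : ℕ) (hn : p = 2 * n + 1) (k : ℕ) (hk : k < p) :
    (((2 * k).choose k : ℕ) : ZMod (p ^ 2)) ^ 2
      = (n.choose k : ZMod (p ^ 2)) * ((n + k).choose k : ZMod (p ^ 2)) * (-16) ^ k := by
  have hpn : (p : ZMod (p ^ 2)) = 2 * (n : ZMod (p ^ 2)) + 1 := by
    have := congrArg (fun x : ℕ => (x : ZMod (p ^ 2))) hn
    simp only [Nat.cast_add, Nat.cast_mul, Nat.cast_ofNat, Nat.cast_one] at this
    exact this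
  have hp2 := p_sq p
  rw [hpn] at hp2
  induction k with
  | zero => simp
  | succ k ih =>
    have ih := ih (by omega)
    have hu := isUnit_natCast p 2 (k + 1) (by omega) hk
    apply (hu.pow 2).mul_left_cancel
    have a1 := congrArg (fun x : ℕ => (x : ZMod (p ^ 2))) (Nat.succ_mul_centralBinom_succ k)
    rw [Nat.centralBinom, Nat.centralBinom] at a1
    have a2 : ((k : ZMod (p ^ 2)) + 1) * (n.choose (k + 1) : ZMod (p ^ 2))
        = ((n : ZMod (p ^ 2)) - k) * (n.choose k : ZMod (p ^ 2)) := by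
      have h := Nat.choose_succ_right_eq n k
      rcases Nat.lt_or_ge n k with h0 | h0
      · rw [Nat.choose_eq_zero_of_lt h0, Nat.choose_eq_zero_of_lt (by omega : n < k + 1)]
        simp
      · have h' := congrArg (fun x : ℕ => (x : ZMod (p ^ 2))) h
        simp only [Nat.cast_mul] at h'
        rw [Nat.cast_sub h0] at h'
        push_cast at h'
        linear_combination h'
    have a3 : ((k : ZMod (p ^ 2)) + 1) * ((n + (k + 1)).choose (k + 1) : ZMod (p ^ 2))
        = ((n : ZMod (p ^ 2)) + 1 + k) * ((n + k).choose k : ZMod (p ^ 2)) := by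
      have h := congrArg (fun x : ℕ => (x : ZMod (p ^ 2))) (Nat.add_one_mul_choose_eq (n + k) k)
      push_cast at h
      rw [show n + (k + 1) = n + k + 1 by ring]
      linear_combination -h
    push_cast at a1 ⊢
    have a4 : (((k : ZMod (p ^ 2)) + 1) * ((2 * (k + 1)).choose (k + 1) : ZMod (p ^ 2))) ^ 2
        = 4 * (2 * k + 1) ^ 2 * (((2 * k).choose k : ℕ) : ZMod (p ^ 2)) ^ 2 := by
      rw [a1]; ring
    have a5 : (((k : ZMod (p ^ 2)) + 1) * (n.choose (k + 1) : ZMod (p ^ 2))) *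
        (((k : ZMod (p ^ 2)) + 1) * ((n + (k + 1)).choose (k + 1) : ZMod (p ^ 2)))
        = (((n : ZMod (p ^ 2)) - k) * (n.choose k : ZMod (p ^ 2))) *
          (((n : ZMod (p ^ 2)) + 1 + k) * ((n + k).choose k : ZMod (p ^ 2))) := by
      rw [a2, a3]
    rw [ih] at a4
    rw [pow_succ (-16 : ZMod (p ^ 2)) k]
    linear_combination a4 + (16 * (-16) ^ k) * a5 + (4 * (-16) ^ k * (n.choose k : ZMod (p ^ 2)) *
      ((n + k).choose k : ZMod (p ^ 2))) * hp2

/-- the weighted sums are values of `G` -/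
theorem sum_eq_G (n : ℕ) (hn : p = 2 * n + 1) (x : ZMod (p ^ 2)) :
    ∑ k ∈ range p, ((p - 1).choose k : ZMod (p ^ 2)) * x ^ k *
      (((2 * k).choose k : ℕ) : ZMod (p ^ 2)) ^ 2 = G p n (-16 * x) := by
  have h1 : ∑ k ∈ range p, ((p - 1).choose k : ZMod (p ^ 2)) * x ^ k *
      (((2 * k).choose k : ℕ) : ZMod (p ^ 2)) ^ 2
      = ∑ k ∈ range p, (n.choose k : ZMod (p ^ 2)) * ((w n k : ℤ) : ZMod (p ^ 2)) *
        (-16 * x) ^ k := by
    refine Finset.sum_congr rfl fun k hk => ?_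
    rw [centralBinom_sq p n hn k (Finset.mem_range.1 hk), w, show p - 1 = 2 * n by omega, mul_pow]
    push_cast
    ring
  rw [h1, G]
  symm
  apply Finset.sum_subset (Finset.range_mono (by omega))
  intro k _ hk
  have hk : n + 1 ≤ k := by simpa using hk
  rw [Nat.choose_eq_zero_of_lt (by omega : n < k)]
  simp

end prime

end Pool.Agent.R902.Sym2
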