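import Pool.Agent.R902.Leg3
import Pool.Agent.R902.ZM

/-!
The numbers `T_{p-1}(3,3)`, `T_p(3,3)` modulo `p^3`.
-/

set_option linter.unusedSectionVars false

namespace Pool.Agent.R902.T33

open Finset Pool.Agent.R902 Pool.Agent.R902.Leg3

section ring

variable {Q : Type*} [CommRing Q]

theorem T_eq (z : Q) (hz : z ^ 2 - z + 1 = 0) (n : ℕ) : TriGen.T (3 : Q) 3 n
    = (2 * z - 1) ^ n * ∑ k ∈ range (n + 1), (n.choose k : Q) * ((n + k).choose k : Q) *
      (-z) ^ k := by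
  have h := TriGen.T_expand (-(2 * z - 1) * z) (2 * z - 1) n
  have e1 : 2 * (-(2 * z - 1) * z) + (2 * z - 1) = 3 := by linear_combination (-4) * hz
  have e2 : -(2 * z - 1) * z * (-(2 * z - 1) * z + (2 * z - 1)) = 3 := by
    linear_combination (4 * z ^ 2 - 4 * z - 3) * hz
  rw [e1, e2] at h
  rw [h, Finset.mul_sum]
  refine Finset.sum_congr rfl fun k hk => ?_
  have hk := Finset.mem_range.1 hk
  have h1 : (2 * z - 1) ^ n = (2 * z - 1) ^ k * (2 * z - 1) ^ (n - k) := by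
    rw [← pow_add]; congr 1; omega
  rw [h1, show -(2 * z - 1) * z = (2 * z - 1) * (-z) by ring, mul_pow]
  ring

variable (p : ℕ) [hp : Fact p.Prime] (hq : (p : Q) ^ 3 = 0)
  (I : ℕ → Q) (hI : ∀ k, 0 < k → k < p → (k : Q) * I k = 1)

theorem V_fac (z : Q) : V p I z = (p : Q) ^ 2 * ∑ k ∈ Ico 1 p, z ^ k * (I k) ^ 2 := by
  rw [V, Finset.mul_sum]
  refine Finset.sum_congr rfl fun k _ => by ring

include hq

theorem p_V (z : Q) : (p : Q) * V p I z = 0 := by
  rw [V_fac]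
  linear_combination (∑ k ∈ Ico 1 p, z ^ k * (I k) ^ 2) * hq

theorem V_V (z z' : Q) : V p I z * V p I z' = 0 := by
  rw [V_fac, V_fac]
  linear_combination ((p : Q) * (∑ k ∈ Ico 1 p, z ^ k * (I k) ^ 2) *
    ∑ k ∈ Ico 1 p, z' ^ k * (I k) ^ 2) * hq

include hI

theorem core (h3 : 3 < p) (hS : V p I 1 = 0) (z : Q) (hz : z ^ 2 - z + 1 = 0)
    (hzp : z ^ p + (1 - z) ^ p = 1) :
    TriGen.T (3 : Q) 3 (p - 1) = (2 * z - 1) ^ (p - 1) * (1 - V p I (1 - z) - V p I z) ∧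
    TriGen.T (3 : Q) 3 p = (2 * z - 1) * (2 * z - 1) ^ (p - 1) *
      (1 - 2 * z ^ p + V p I (1 - z) - V p I z) := by
  have hodd : Odd p := hp.1.odd_of_ne_two (by omega)
  have heven : Even (p - 1) := by
    rcases hodd with ⟨m, hm⟩
    exact ⟨m, by omega⟩
  have h2u := hI 2 (by norm_num) (by omega)
  have h3u := hI 3 (by norm_num) h3
  push_cast at h2u h3u
  have hz' : (1 - z) ^ 2 - (1 - z) + 1 = 0 := by linear_combination hz
  have W := wolst p hq I hI h3 hS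
  have a0 := T_eq z hz (p - 1)
  have a0' := T_eq (1 - z) hz' (p - 1)
  have a1 := T_eq z hz p
  have a1' := T_eq (1 - z) hz' p
  rw [E1 p hq I hI] at a0 a0'
  rw [E2 p hq I hI hodd, W] at a1 a1'
  have hs : 2 * (1 - z) - 1 = -(2 * z - 1) := by ring
  rw [hs, heven.neg_pow] at a0'
  rw [hs, hodd.neg_pow] at a1'
  have hpp : (2 * z - 1) ^ p = (2 * z - 1) * (2 * z - 1) ^ (p - 1) := by
    rw [← pow_succ', Nat.sub_add_cancel hp.1.one_le]
  rw [hpp] at a1 a1'
  have hs2 : (2 * z - 1) ^ 2 = -3 := by linear_combination 4 * hz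
  have hu : (2 * z - 1) * (-(2 * z - 1) * I 3) = 1 := by
    linear_combination -(I 3) * hs2 + h3u
  have hWu : (2 * z - 1) ^ (p - 1) * (-(2 * z - 1) * I 3) ^ (p - 1) = 1 := by
    rw [← mul_pow, hu, one_pow]
  generalize (2 * z - 1) ^ (p - 1) = w at *
  generalize (-(2 * z - 1) * I 3) ^ (p - 1) = wi at *
  generalize V p I z = v at *
  generalize V p I (1 - z) = v' at *
  generalize U p I z = u at *
  generalize U p I (1 - z) = u' at *
  have r0 : u - v = u' - v' := by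
    linear_combination wi * a0' - wi * a0 - (u - v - u' + v') * hWu
  have r1 : u + v + u' + v' = 0 := by
    have r2 : (2 * z - 1) * w * (1 - 2 * z ^ p - u - v + (1 - 2 * (1 - z) ^ p - u' - v')) = 0 := by
      linear_combination a1' - a1
    linear_combination (-wi * (-(2 * z - 1) * I 3)) * r2
      + (1 - 2 * z ^ p - u - v + (1 - 2 * (1 - z) ^ p - u' - v')) *
        (w * wi * hu + hWu) - 2 * hzp
  have r3 : u = -v' := by
    have : 2 * (u + v') = 0 := by linear_combination r0 + r1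
    linear_combination I 2 * this - (u + v') * h2u
  refine ⟨?_, ?_⟩
  · rw [a0, r3]; ring
  · rw [a1, r3]; ring

theorem case5 (h3 : 3 < p) (hS : V p I 1 = 0) (z : Q) (hz : z ^ 2 - z + 1 = 0)
    (hzp : z ^ p = 1 - z) :
    3 * (2 * (p : Q) + 1) * TriGen.T (3 : Q) 3 p * TriGen.T (3 : Q) 3 (p - 1)
      + 3 * p * (TriGen.T (3 : Q) 3 (p - 1)) ^ 2 - (p + 1) * (TriGen.T (3 : Q) 3 p) ^ 2
      = -6 * (4 * p + 3) * (-3) ^ (p - 1) := by
  have hzz : z * (1 - z) = 1 := by linear_combination -hz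
  have hzp' : (1 - z) ^ p = z := by
    have h1 : z ^ p * (1 - z) ^ p = 1 := by rw [← mul_pow, hzz, one_pow]
    rw [hzp] at h1
    linear_combination z * h1 - (1 - z) ^ p * hzz
  obtain ⟨h0, h1⟩ := core p hq I hI h3 hS z hz (by rw [hzp, hzp']; ring)
  have hV := V_refl p hq I hI z (1 - z) hzz
  have hV2 := V_V p hq I z z
  rw [hzp] at hV h1
  have hV' : V p I (1 - z) = z * V p I z := by
    linear_combination -z * hV - V p I (1 - z) * hzz
  have hs2 : (2 * z - 1) ^ 2 = -3 := by linear_combination 4 * hz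
  have hsz : (2 * z - 1) * (z - 1) = -(1 + z) := by linear_combination 2 * hz
  have hW2 : ((2 * z - 1) ^ (p - 1)) ^ 2 = (-3) ^ (p - 1) := by
    rw [← pow_mul, mul_comm (p - 1) 2, pow_mul, hs2]
  rw [← hW2, h0, h1, hV']
  generalize (2 * z - 1) ^ (p - 1) = w at *
  generalize V p I z = v at *
  have h01 : ((2 * z - 1) * w * (1 - 2 * (1 - z) + z * v - v)) * (w * (1 - z * v - v))
      = w ^ 2 * (-3 + 2 * (1 + z) * v) := by
    linear_combination w ^ 2 * ((1 - (1 + z) * v) * hs2 + v * hsz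
      - (2 * z - 1) * (z - 1) * (1 + z) * hV2)
  have h11 : ((2 * z - 1) * w * (1 - 2 * (1 - z) + z * v - v)) ^ 2
      = w ^ 2 * (9 + 6 * (1 + z) * v) := by
    linear_combination w ^ 2 * (((2 * z - 1) ^ 2 + 2 * (2 * z - 1) * (z - 1) * v
      + (z - 1) ^ 2 * v ^ 2) * hs2 - 3 * hs2 - 6 * v * hsz - 3 * (z - 1) ^ 2 * hV2)
  have h00 : (w * (1 - z * v - v)) ^ 2 = w ^ 2 * (1 - 2 * (1 + z) * v) := by
    linear_combination w ^ 2 * (1 + z) ^ 2 * hV2
  linear_combination 3 * (2 * (p : Q) + 1) * h01 + 3 * p * h00 - (p + 1) * h11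

theorem case1 (h3 : 3 < p) (hS : V p I 1 = 0) (z : Q) (hz : z ^ 2 - z + 1 = 0)
    (hzp : z ^ p = z) :
    (p : Q) * (3 * (2 * (p : Q) + 1) * TriGen.T (3 : Q) 3 p * TriGen.T (3 : Q) 3 (p - 1)
      + 3 * p * (TriGen.T (3 : Q) 3 (p - 1)) ^ 2 - (p + 1) * (TriGen.T (3 : Q) 3 p) ^ 2)
      = 12 * p ^ 2 * (-3) ^ (p - 1) := by
  have hzz : z * (1 - z) = 1 := by linear_combination -hz
  have hzp' : (1 - z) ^ p = 1 - z := by
    have h1 : z ^ p * (1 - z) ^ p = 1 := by rw [← mul_pow, hzz, one_pow]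
    rw [hzp] at h1
    linear_combination (1 - z) * h1 - (1 - z) ^ p * hzz
  obtain ⟨h0, h1⟩ := core p hq I hI h3 hS z hz (by rw [hzp, hzp']; ring)
  have v0 := p_V p hq I z
  have v1 := p_V p hq I (1 - z)
  rw [hzp] at h1
  have hs2 : (2 * z - 1) ^ 2 = -3 := by linear_combination 4 * hz
  have hW2 : ((2 * z - 1) ^ (p - 1)) ^ 2 = (-3) ^ (p - 1) := by
    rw [← pow_mul, mul_comm (p - 1) 2, pow_mul, hs2]
  have p0 : (p : Q) * TriGen.T (3 : Q) 3 (p - 1) = p * (2 * z - 1) ^ (p - 1) := by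
    rw [h0]
    linear_combination -(2 * z - 1) ^ (p - 1) * (v0 + v1)
  have p1 : (p : Q) * TriGen.T (3 : Q) 3 p = 3 * p * (2 * z - 1) ^ (p - 1) := by
    rw [h1]
    linear_combination (2 * z - 1) * (2 * z - 1) ^ (p - 1) * (v1 - v0)
      - (p : Q) * (2 * z - 1) ^ (p - 1) * hs2
  rw [← hW2]
  generalize (2 * z - 1) ^ (p - 1) = w at *
  generalize TriGen.T (3 : Q) 3 (p - 1) = t0 at *
  generalize TriGen.T (3 : Q) 3 p = t1 at *
  linear_combination (3 * (2 * (p : Q) + 1) * t0 - (p + 1) * t1 - (p + 1) * 3 * w) * p1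
    + (3 * (2 * (p : Q) + 1) * 3 * w + 3 * p * t0 + 3 * p * w) * p0

end ring

end Pool.Agent.R902.T33
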