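import Pool.Agent.R902.Poly

/-!
The cubic transformation modulo `p` behind the sums `∑ C(2j,j)/(3j+1)`.
-/

namespace Pool.Agent.R902.Tri

open Finset Polynomial

section

variable (p n : ℕ) [hp : Fact p.Prime]

/-- `c_j = C(n,j) (-4)^j`, which is `C(2j,j)` modulo `p = 2n+1`. -/
noncomputable def c (j : ℕ) : ZMod p := (n.choose j : ZMod p) * (-4) ^ j

/-- `e_j = 1/(3j+1)` (zero if `p ∣ 3j+1`). -/
noncomputable def e (j : ℕ) : ZMod p := ((3 * j + 1 : ℕ) : ZMod p)⁻¹

/-- `θ F = 3 X F' + F` -/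
noncomputable def θ (F : (ZMod p)[X]) : (ZMod p)[X] := 3 * (X * derivative F) + F

noncomputable def Φ : (ZMod p)[X] := ∑ j ∈ range (n + 1), C (c p n j * e p j) * X ^ j

noncomputable def Mp : (ZMod p)[X] :=
  ∑ j ∈ range (n + 1), C (c p n j * e p j) * ((1 - X) ^ (3 * j + 1) * (27 * X ^ 2) ^ (n - j))

noncomputable def R : (ZMod p)[X] := Mp p n + C ((-1) ^ n) * ((X ^ p + 2) * Φ p n)

theorem θ_add (F G : (ZMod p)[X]) : θ p (F + G) = θ p F + θ p G := by
  simp only [θ, derivative_add]; ring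

theorem θ_C_mul (a : ZMod p) (F : (ZMod p)[X]) : θ p (C a * F) = C a * θ p F := by
  simp only [θ, derivative_C_mul]; ring

theorem θ_sum {ι : Type*} (s : Finset ι) (F : ι → (ZMod p)[X]) :
    θ p (∑ i ∈ s, F i) = ∑ i ∈ s, θ p (F i) := by
  simp only [θ, derivative_sum, Finset.mul_sum, Finset.sum_add_distrib]

theorem coeff_θ (F : (ZMod p)[X]) (k : ℕ) :
    (θ p F).coeff k = ((3 * k + 1 : ℕ) : ZMod p) * F.coeff k := by
  have h3 : (3 : (ZMod p)[X]) = C 3 := (map_ofNat C 3).symm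
  rw [θ, coeff_add, h3, coeff_C_mul]
  rcases k with _ | k
  · simp
  · rw [coeff_X_mul, coeff_derivative]
    push_cast
    ring

theorem X_mul_derivative_pow (k : ℕ) :
    X * derivative ((27 * X ^ 2 : (ZMod p)[X]) ^ k) = 2 * (k : (ZMod p)[X]) * (27 * X ^ 2) ^ k := by
  rcases k with _ | k
  · simp
  · have h27 : (27 : (ZMod p)[X]) = C 27 := (map_ofNat C 27).symm
    have h2 : (2 : (ZMod p)[X]) = C 2 := (map_ofNat C 2).symm
    rw [derivative_pow, h27, derivative_C_mul, derivative_X_pow, Nat.add_sub_cancel, h2]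
    push_cast
    simp only [map_natCast, map_add, map_one]
    ring

theorem two_n (hpn : p = 2 * n + 1) : (2 : ZMod p) * n + 1 = 0 := by
  have h : ((2 * n + 1 : ℕ) : ZMod p) = 0 := by rw [← hpn]; exact ZMod.natCast_self p
  push_cast at h
  exact h

theorem θ_term (hpn : p = 2 * n + 1) (j : ℕ) (hj : j ≤ n) :
    θ p ((1 - X) ^ (3 * j + 1) * (27 * X ^ 2) ^ (n - j))
      = - C ((3 * j + 1 : ℕ) : ZMod p) * ((X + 2) * ((1 - X) ^ (3 * j) * (27 * X ^ 2) ^ (n - j))) := by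
  have h1 : derivative ((1 - X : (ZMod p)[X]) ^ (3 * j + 1))
      = - C ((3 * j + 1 : ℕ) : ZMod p) * (1 - X) ^ (3 * j) := by
    rw [derivative_pow, Nat.add_sub_cancel, derivative_sub, derivative_one, derivative_X]
    push_cast
    ring
  have h2 := X_mul_derivative_pow p (n - j)
  have h3 : (2 : (ZMod p)[X]) * ((n - j : ℕ) : (ZMod p)[X]) = - 1 - 2 * (j : (ZMod p)[X]) := by
    have h := two_n p n hpn
    have h' : (C ((2 : ZMod p) * n + 1) : (ZMod p)[X]) = 0 := by rw [h, C_0]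
    rw [Nat.cast_sub hj]
    simp only [map_add, map_mul, map_one, map_natCast, map_ofNat] at h'
    linear_combination h'
  rw [θ, derivative_mul, h1]
  have h4 : (C ((3 * j + 1 : ℕ) : ZMod p) : (ZMod p)[X]) = 3 * (j : (ZMod p)[X]) + 1 := by
    simp only [Nat.cast_add, Nat.cast_mul, Nat.cast_ofNat, Nat.cast_one, map_add, map_mul,
      map_natCast, map_ofNat, map_one]
  rw [h4]
  rw [h3] at h2
  linear_combination 3 * (1 - X) ^ (3 * j + 1) * h2

/-- `d_j = e_j (3j+1)`, which is `1` unless `p ∣ 3j+1`, when it is `0`. -/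
noncomputable def d (j : ℕ) : ZMod p := e p j * ((3 * j + 1 : ℕ) : ZMod p)

theorem θ_X_pow (j : ℕ) : θ p (X ^ j) = C ((3 * j + 1 : ℕ) : ZMod p) * X ^ j := by
  ext k
  rw [coeff_θ, coeff_C_mul, coeff_X_pow]
  by_cases h : k = j
  · subst h; simp
  · simp [h]

theorem θ_Φ : θ p (Φ p n) = ∑ j ∈ range (n + 1), C (c p n j * d p j) * X ^ j := by
  rw [Φ, θ_sum]
  refine Finset.sum_congr rfl fun j _ => ?_
  rw [θ_C_mul, θ_X_pow, d, ← mul_assoc, ← C_mul]
  congr 2
  ring

theorem θ_Mp (hpn : p = 2 * n + 1) : θ p (Mp p n) = - (X + 2) *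
    ∑ j ∈ range (n + 1), C (c p n j * d p j) * ((1 - X) ^ (3 * j) * (27 * X ^ 2) ^ (n - j)) := by
  rw [Mp, θ_sum, Finset.mul_sum]
  refine Finset.sum_congr rfl fun j hj => ?_
  have hj := Finset.mem_range.1 hj
  rw [θ_C_mul, θ_term p n hpn j (by omega), d]
  rw [show c p n j * (e p j * ((3 * j + 1 : ℕ) : ZMod p))
    = (c p n j * e p j) * ((3 * j + 1 : ℕ) : ZMod p) by ring, C_mul (a := c p n j * e p j)]
  ring

/-- full binomial sums -/
theorem sum_full : ∑ j ∈ range (n + 1), C (c p n j) * X ^ j = (1 - 4 * X : (ZMod p)[X]) ^ n := by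
  rw [show (1 - 4 * X : (ZMod p)[X]) = -4 * X + 1 by ring, add_pow]
  refine Finset.sum_congr rfl fun j _ => ?_
  rw [c, C_mul, one_pow, mul_pow]
  simp only [map_natCast, map_pow, map_neg, map_ofNat]
  ring

theorem sum_full' : ∑ j ∈ range (n + 1), C (c p n j) * ((1 - X) ^ (3 * j) * (27 * X ^ 2) ^ (n - j))
    = ((X + 2) ^ 2 * (4 * X - 1) : (ZMod p)[X]) ^ n := by
  rw [show ((X + 2) ^ 2 * (4 * X - 1) : (ZMod p)[X]) = -4 * (1 - X) ^ 3 + 27 * X ^ 2 by ring,
    add_pow]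
  refine Finset.sum_congr rfl fun j _ => ?_
  rw [c, C_mul, mul_pow (-4 : (ZMod p)[X]) ((1 - X) ^ 3) j, ← pow_mul (1 - X : (ZMod p)[X]) 3 j]
  simp only [map_natCast, map_pow, map_neg, map_ofNat]
  ring

theorem pow_p (a : ZMod p) : a ^ p = a := ZMod.pow_card a

theorem X_add_two_pow : (X + 2 : (ZMod p)[X]) ^ p = X ^ p + 2 := by
  rw [add_pow_char]
  congr 1
  rw [show (2 : (ZMod p)[X]) = C 2 from (map_ofNat C 2).symm, ← C_pow, pow_p]

theorem key_poly (hpn : p = 2 * n + 1) :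
    (X + 2 : (ZMod p)[X]) * ((X + 2) ^ 2 * (4 * X - 1)) ^ n
      = C ((-1) ^ n) * ((X ^ p + 2) * (1 - 4 * X) ^ n) := by
  have h : (X + 2 : (ZMod p)[X]) ^ p = (X + 2) ^ (2 * n + 1) :=
    congrArg (fun k => (X + 2 : (ZMod p)[X]) ^ k) hpn
  rw [← X_add_two_pow p, h]
  rw [show (4 * X - 1 : (ZMod p)[X]) = (-1) * (1 - 4 * X) by ring, mul_pow, mul_pow,
    ← pow_mul, C_pow, C_neg, C_1]
  ring

theorem θ_Xp_mul (F : (ZMod p)[X]) : θ p ((X ^ p + 2) * F) = (X ^ p + 2) * θ p F := by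
  have h : derivative (X ^ p + 2 : (ZMod p)[X]) = 0 := by
    rw [derivative_add, derivative_X_pow, ZMod.natCast_self]
    have : (2 : (ZMod p)[X]) = C 2 := (map_ofNat C 2).symm
    rw [this, derivative_C]
    simp
  rw [θ, θ, derivative_mul, h]
  ring

theorem θ_R : θ p (R p n) = θ p (Mp p n) + C ((-1) ^ n) * ((X ^ p + 2) * θ p (Φ p n)) := by
  rw [R, θ_add, θ_C_mul, θ_Xp_mul]

theorem natDegree_R (hpn : p = 2 * n + 1) : (R p n).natDegree ≤ 3 * n + 1 := by
  rw [R]
  refine (natDegree_add_le _ _).trans (max_le ?_ ?_)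
  · rw [Mp]
    refine natDegree_sum_le_of_forall_le _ _ fun j hj => ?_
    have hj := Finset.mem_range.1 hj
    refine (natDegree_C_mul_le _ _).trans ?_
    refine natDegree_mul_le.trans ?_
    have h1 : ((1 - X : (ZMod p)[X]) ^ (3 * j + 1)).natDegree ≤ 3 * j + 1 := by
      refine natDegree_pow_le.trans ?_
      have : (1 - X : (ZMod p)[X]).natDegree ≤ 1 := by
        refine (natDegree_sub_le _ _).trans ?_
        simp
      nlinarith
    have h2 : ((27 * X ^ 2 : (ZMod p)[X]) ^ (n - j)).natDegree ≤ 2 * (n - j) := by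
      refine natDegree_pow_le.trans ?_
      have : (27 * X ^ 2 : (ZMod p)[X]).natDegree ≤ 2 := by
        rw [show (27 : (ZMod p)[X]) = C 27 from (map_ofNat C 27).symm]
        refine (natDegree_C_mul_le _ _).trans ?_
        simp
      nlinarith
    omega
  · refine (natDegree_C_mul_le _ _).trans ?_
    refine natDegree_mul_le.trans ?_
    have h1 : (X ^ p + 2 : (ZMod p)[X]).natDegree ≤ p := by
      refine (natDegree_add_le _ _).trans (max_le ?_ ?_)
      · simp
      · rw [show (2 : (ZMod p)[X]) = C 2 from (map_ofNat C 2).symm]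
        simp
    have h2 : (Φ p n).natDegree ≤ n := by
      rw [Φ]
      refine natDegree_sum_le_of_forall_le _ _ fun j hj => ?_
      have hj := Finset.mem_range.1 hj
      refine (natDegree_C_mul_le _ _).trans ?_
      rw [natDegree_X_pow]
      omega
    omega

/-! ### evaluations -/

theorem four_pow_n (hpn : p = 2 * n + 1) (h5 : 5 ≤ p) : (4 : ZMod p) ^ n = 1 := by
  have h2 : (2 : ZMod p) ≠ 0 := by
    have : ((2 : ℕ) : ZMod p) ≠ 0 := by
      rw [Ne, ZMod.natCast_eq_zero_iff]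
      exact Nat.not_dvd_of_pos_of_lt (by norm_num) (by omega)
    exact_mod_cast this
  have h := ZMod.pow_card_sub_one_eq_one h2
  rw [show (4 : ZMod p) = 2 ^ 2 by norm_num, ← pow_mul]
  rw [show 2 * n = p - 1 by omega]
  exact h

theorem two_ne (h5 : 5 ≤ p) : (2 : ZMod p) ≠ 0 := by
  have : ((2 : ℕ) : ZMod p) ≠ 0 := by
    rw [Ne, ZMod.natCast_eq_zero_iff]
    exact Nat.not_dvd_of_pos_of_lt (by norm_num) (by omega)
  exact_mod_cast this

theorem three_ne (h5 : 5 ≤ p) : (3 : ZMod p) ≠ 0 := by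
  have : ((3 : ℕ) : ZMod p) ≠ 0 := by
    rw [Ne, ZMod.natCast_eq_zero_iff]
    exact Nat.not_dvd_of_pos_of_lt (by norm_num) (by omega)
  exact_mod_cast this

theorem four_ne (h5 : 5 ≤ p) : (4 : ZMod p) ≠ 0 := by
  rw [show (4 : ZMod p) = 2 ^ 2 by norm_num]
  exact pow_ne_zero _ (two_ne p h5)

/-- `ψ = Φ(1/4) = ∑ (-1)^j C(n,j)/(3j+1)` -/
noncomputable def ψ : ZMod p := ∑ j ∈ range (n + 1), (-1) ^ j * (n.choose j : ZMod p) * e p j

/-- `Φ(1)` -/
noncomputable def Φ1 : ZMod p := ∑ j ∈ range (n + 1), c p n j * e p j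

theorem eval_Φ_one : (Φ p n).eval 1 = Φ1 p n := by
  simp [Φ, Φ1, eval_finsetSum]

theorem eval_Φ_quarter (h5 : 5 ≤ p) : (Φ p n).eval (4⁻¹) = ψ p n := by
  rw [Φ, ψ, eval_finsetSum]
  refine Finset.sum_congr rfl fun j _ => ?_
  rw [eval_mul, eval_C, eval_pow, eval_X, c]
  have h4 := four_ne p h5
  rw [show (-4 : ZMod p) = (-1) * 4 by ring, mul_pow, inv_pow]
  field_simp

theorem eval_R_one : (R p n).eval 1 = 3 * (-1) ^ n * Φ1 p n := by
  rw [R, eval_add, eval_mul, eval_mul, eval_C, eval_Φ_one, Mp, eval_finsetSum]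
  rw [Finset.sum_eq_zero (fun j _ => by
    rw [eval_mul, eval_mul, eval_pow]
    simp)]
  simp
  ring

theorem eval_R_quarter (hpn : p = 2 * n + 1) (h5 : 5 ≤ p) :
    (R p n).eval (4⁻¹) = 3 / 4 * 27 ^ n * ψ p n + 9 / 4 * (-1) ^ n * ψ p n := by
  have h4 := four_ne p h5
  have h4n := four_pow_n p n hpn h5
  rw [R, eval_add, eval_mul, eval_mul, eval_C, eval_Φ_quarter p n h5]
  have h1 : (Mp p n).eval (4⁻¹) = 3 / 4 * 27 ^ n * ψ p n := by
    rw [Mp, eval_finsetSum, ψ, Finset.mul_sum]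
    refine Finset.sum_congr rfl fun j hj => ?_
    have hj := Finset.mem_range.1 hj
    rw [eval_mul, eval_C, eval_mul, eval_pow, eval_pow, c]
    simp only [eval_sub, eval_one, eval_X, eval_mul, eval_pow, eval_ofNat]
    have e1 : (1 - (4 : ZMod p)⁻¹) = 3 / 4 := by field_simp; norm_num
    have e2 : (27 * (4 : ZMod p)⁻¹ ^ 2) = 27 / 16 := by
      rw [show (16 : ZMod p) = 4 ^ 2 by norm_num]; field_simp
    rw [e1, e2]
    have e3 : (27 : ZMod p) ^ n = 27 ^ j * 27 ^ (n - j) := by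
      rw [← pow_add]; congr 1; omega
    have e4 : (4 : ZMod p) ^ j * 4 ^ (n - j) = 1 := by
      rw [← pow_add, ← h4n]; congr 1; omega
    have e5 : (-4 : ZMod p) ^ j * (3 / 4) ^ (3 * j + 1) * (27 / 16) ^ (n - j)
        = (-1) ^ j * (3 / 4) * (27 ^ j * 27 ^ (n - j)) := by
      rw [pow_succ, pow_mul, show ((3 : ZMod p) / 4) ^ 3 = 27 / (4 ^ 3) by rw [div_pow]; norm_num,
        show (-4 : ZMod p) = (-1) * 4 by ring, mul_pow, div_pow, div_pow,
        show (16 : ZMod p) = 4 ^ 2 by norm_num]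
      have h6 : ((4 : ZMod p) ^ 3) ^ j * (4 ^ 2) ^ (n - j) = 4 ^ j := by
        rw [← pow_mul, ← pow_mul, show 3 * j = j + j * 2 by ring, pow_add, pow_mul (4 : ZMod p) j 2,
          mul_comm 2 (n - j), pow_mul (4 : ZMod p) (n - j) 2]
        calc (4 : ZMod p) ^ j * (4 ^ j) ^ 2 * (4 ^ (n - j)) ^ 2
            = 4 ^ j * (4 ^ j * 4 ^ (n - j)) ^ 2 := by ring
          _ = 4 ^ j := by rw [e4]; ring
      have h7 : ((4 : ZMod p) ^ 3) ^ j ≠ 0 := pow_ne_zero _ (pow_ne_zero _ h4)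
      have h8 : ((4 : ZMod p) ^ 2) ^ (n - j) ≠ 0 := pow_ne_zero _ (pow_ne_zero _ h4)
      calc (-1 : ZMod p) ^ j * 4 ^ j * (27 ^ j / (4 ^ 3) ^ j * (3 / 4)) *
            (27 ^ (n - j) / (4 ^ 2) ^ (n - j))
          = (-1) ^ j * (3 / 4) * (27 ^ j * 27 ^ (n - j)) *
              (4 ^ j / ((4 ^ 3) ^ j * (4 ^ 2) ^ (n - j))) := by
            field_simp
        _ = _ := by rw [h6, div_self (pow_ne_zero _ h4), mul_one]
    calc (n.choose j : ZMod p) * (-4) ^ j * e p j * ((3 / 4) ^ (3 * j + 1) * (27 / 16) ^ (n - j))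
        = (n.choose j : ZMod p) * e p j * ((-4 : ZMod p) ^ j * (3 / 4) ^ (3 * j + 1) *
            (27 / 16) ^ (n - j)) := by ring
      _ = _ := by rw [e5, e3]; ring
  rw [h1]
  simp only [eval_add, eval_pow, eval_X, eval_ofNat, pow_p]
  field_simp
  ring

theorem eval_R_neg_two (hpn : p = 2 * n + 1) (h5 : 5 ≤ p) :
    (R p n).eval (-2) = 3 * 27 ^ n * ψ p n := by
  have h4 := four_ne p h5
  have h4n := four_pow_n p n hpn h5
  rw [R, eval_add, eval_mul, eval_mul, eval_C]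
  have h0 : (X ^ p + 2 : (ZMod p)[X]).eval (-2) = 0 := by
    simp only [eval_add, eval_pow, eval_X, eval_ofNat, pow_p]
    ring
  rw [h0, zero_mul, mul_zero, add_zero, Mp, eval_finsetSum, ψ, Finset.mul_sum]
  refine Finset.sum_congr rfl fun j hj => ?_
  have hj := Finset.mem_range.1 hj
  rw [eval_mul, eval_C, eval_mul, eval_pow, eval_pow, c]
  simp only [eval_sub, eval_one, eval_X, eval_mul, eval_pow, eval_ofNat]
  have e3 : (27 : ZMod p) ^ n = 27 ^ j * 27 ^ (n - j) := by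
    rw [← pow_add]; congr 1; omega
  have e4 : (4 : ZMod p) ^ j * 4 ^ (n - j) = 1 := by
    rw [← pow_add, ← h4n]; congr 1; omega
  rw [show (1 - -2 : ZMod p) = 3 by norm_num, show (27 * (-2) ^ 2 : ZMod p) = 27 * 4 by norm_num,
    pow_succ, pow_mul, show (3 : ZMod p) ^ 3 = 27 by norm_num, mul_pow,
    show (-4 : ZMod p) = (-1) * 4 by ring, mul_pow, e3]
  linear_combination (3 * (n.choose j : ZMod p) * (-1) ^ j * e p j * 27 ^ j * 27 ^ (n - j)) * e4

/-! ### the case `p ≡ 2 (mod 3)` -/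

theorem d_eq_one (j : ℕ) (hj : ¬ p ∣ 3 * j + 1) : d p j = 1 := by
  rw [d, e]
  apply inv_mul_cancel₀
  rw [Ne, ZMod.natCast_eq_zero_iff]
  exact hj

theorem θ_R_two (m : ℕ) (hpn : p = 2 * n + 1) (hm : p + 1 = 3 * m) : θ p (R p n) = 0 := by
  have hnd : ∀ j, j ≤ n → ¬ p ∣ 3 * j + 1 := by
    intro j hj hd
    obtain ⟨q, hq⟩ := hd
    have hq2 : q < 2 := by
      by_contra h
      push Not at h
      have : p * 2 ≤ p * q := Nat.mul_le_mul_left _ h
      omega
    interval_cases q <;> omega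
  have hcd : ∀ j ∈ range (n + 1), c p n j * d p j = c p n j := by
    intro j hj
    have hj := Finset.mem_range.1 hj
    rw [d_eq_one p j (hnd j (by omega)), mul_one]
  rw [θ_R, θ_Mp p n hpn, θ_Φ]
  rw [Finset.sum_congr rfl (fun j hj => by rw [hcd j hj] :
    ∀ j ∈ range (n + 1), C (c p n j * d p j) * ((1 - X) ^ (3 * j) * (27 * X ^ 2) ^ (n - j))
      = C (c p n j) * ((1 - X) ^ (3 * j) * (27 * X ^ 2) ^ (n - j)))]
  rw [Finset.sum_congr rfl (fun j hj => by rw [hcd j hj] :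
    ∀ j ∈ range (n + 1), C (c p n j * d p j) * (X : (ZMod p)[X]) ^ j = C (c p n j) * X ^ j)]
  rw [sum_full, sum_full']
  linear_combination (-1 : (ZMod p)[X]) * key_poly p n hpn

theorem R_two (m : ℕ) (hpn : p = 2 * n + 1) (hm : p + 1 = 3 * m) :
    R p n = C ((R p n).coeff (2 * m - 1)) * X ^ (2 * m - 1) := by
  ext k
  rw [coeff_C_mul, coeff_X_pow]
  by_cases hk : k = 2 * m - 1
  · rw [if_pos hk, mul_one, hk]
  · rw [if_neg hk, mul_zero]
    by_cases hk2 : k ≤ 3 * n + 1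
    · have h1 : (θ p (R p n)).coeff k = 0 := by rw [θ_R_two p n m hpn hm, coeff_zero]
      rw [coeff_θ] at h1
      rcases mul_eq_zero.1 h1 with h2 | h2
      · exfalso
        rw [ZMod.natCast_eq_zero_iff] at h2
        obtain ⟨q, hq⟩ := h2
        have hq2 : q < 5 := by
          by_contra h
          push Not at h
          have : p * 5 ≤ p * q := Nat.mul_le_mul_left _ h
          omega
        interval_cases q <;> omega
      · exact h2
    · apply coeff_eq_zero_of_natDegree_lt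
      have := natDegree_R p n hpn
      omega

/-- `Φ(1) 4^m = 2 ψ` for `p = 3m - 1`. -/
theorem Φ1_two (m : ℕ) (hpn : p = 2 * n + 1) (hm : p + 1 = 3 * m) (h5 : 5 ≤ p) :
    Φ1 p n * 4 ^ m = 2 * ψ p n := by
  set r := (R p n).coeff (2 * m - 1) with hr
  have hR := R_two p n m hpn hm
  rw [← hr] at hR
  have h2 := two_ne p h5
  have h3 := three_ne p h5
  have h4 := four_ne p h5
  have e1 : 3 * (-1) ^ n * Φ1 p n = r := by
    rw [← eval_R_one, hR]; simp
  have e2 : 3 * 27 ^ n * ψ p n = r * (-2) ^ (2 * m - 1) := by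
    rw [← eval_R_neg_two p n hpn h5, hR]; simp
  have e3 : 3 / 4 * 27 ^ n * ψ p n + 9 / 4 * (-1) ^ n * ψ p n = r * (4⁻¹) ^ (2 * m - 1) := by
    rw [← eval_R_quarter p n hpn h5, hR]; simp
  -- (-2)^(2m-1) * 4^(2m-1) = -2
  have e4 : (-2 : ZMod p) ^ (2 * m - 1) * 4 ^ (2 * m - 1) = -2 := by
    rw [← mul_pow, show (-2 * 4 : ZMod p) = (-2) ^ 3 by norm_num, ← pow_mul]
    have h6 : (-2 : ZMod p) ≠ 0 := neg_ne_zero.2 h2
    have h7 := ZMod.pow_card_sub_one_eq_one h6
    rw [show 3 * (2 * m - 1) = (p - 1) * 2 + 1 by omega, pow_succ, pow_mul, h7]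
    ring
  have e5 : (-2 : ZMod p) ^ (2 * m - 1) = - 2 * (4⁻¹) ^ (2 * m - 1) := by
    have h8 : (4 : ZMod p) ^ (2 * m - 1) ≠ 0 := pow_ne_zero _ h4
    apply mul_right_cancel₀ h8
    rw [e4, mul_assoc, ← mul_pow, inv_mul_cancel₀ h4, one_pow, mul_one]
  have e6 : 27 ^ n * ψ p n = - (-1) ^ n * ψ p n := by
    have h9 : (9 : ZMod p) ≠ 0 := by
      rw [show (9 : ZMod p) = 3 ^ 2 by norm_num]; exact pow_ne_zero _ h3
    have h10 : 3 * 27 ^ n * ψ p n
        = -2 * (3 / 4 * 27 ^ n * ψ p n + 9 / 4 * (-1) ^ n * ψ p n) := by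
      rw [e2, e3, e5]; ring
    apply mul_left_cancel₀ h9
    have h11 : (4 : ZMod p) * (3 * 27 ^ n * ψ p n)
        = -2 * (3 * 27 ^ n * ψ p n + 9 * (-1) ^ n * ψ p n) := by
      have q3 : (4 : ZMod p) * (3 / 4) = 3 := by field_simp
      have q9 : (4 : ZMod p) * (9 / 4) = 9 := by field_simp
      linear_combination 4 * h10 - 2 * 27 ^ n * ψ p n * q3 - 2 * (-1) ^ n * ψ p n * q9
    have h12 : (2 : ZMod p) * (9 * (27 ^ n * ψ p n)) = 2 * (9 * (-(-1) ^ n * ψ p n)) := by
      linear_combination h11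
    exact mul_left_cancel₀ h2 h12
  have hn1 : ((-1 : ZMod p) ^ n) ≠ 0 := pow_ne_zero _ (neg_ne_zero.2 one_ne_zero)
  have e7 : (-1 : ZMod p) ^ n * ψ p n = (-1) ^ n * (Φ1 p n * 2 ^ (2 * m - 1)) := by
    have h13 : (3 : ZMod p) * ((-1 : ZMod p) ^ n * ψ p n)
        = 3 * ((-1) ^ n * (Φ1 p n * 2 ^ (2 * m - 1))) := by
      have h14 : (-2 : ZMod p) ^ (2 * m - 1) = - 2 ^ (2 * m - 1) := by
        apply Odd.neg_pow
        exact ⟨m - 1, by omega⟩
      rw [h14, ← e1] at e2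
      linear_combination (3 : ZMod p) * e6 - e2
    exact mul_left_cancel₀ h3 h13
  have e8 := mul_left_cancel₀ hn1 e7
  rw [e8, show (4 : ZMod p) = 2 ^ 2 by norm_num, ← pow_mul]
  rw [show 2 * m = (2 * m - 1) + 1 by omega, pow_succ, Nat.add_sub_cancel]
  ring

/-! ### partial fractions -/

omit hp in
/-- `∑_j (-1)^j C(n,j)/(x+j) · ∏_{i≤n} (x+i) = n!` in a field. -/
theorem partial_fractions {K : Type*} [Field K] (n : ℕ) (x : K)
    (hx : ∀ i, i ≤ n → x + (i : K) ≠ 0) :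
    (∑ j ∈ range (n + 1), (-1) ^ j * (n.choose j : K) * (x + (j : K))⁻¹) *
      ∏ i ∈ range (n + 1), (x + (i : K)) = (n.factorial : K) := by
  induction n generalizing x with
  | zero =>
    have h := hx 0 le_rfl
    simp at h
    simp [h]
  | succ n ih =>
    have ih1 := ih x (fun i hi => hx i (by omega))
    have ih2 := ih (x + 1) (fun i hi => by
      have := hx (i + 1) (by omega)
      push_cast at this
      rwa [add_assoc, add_comm (1 : K) (i : K)])
    have h0 := hx 0 (by omega)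
    have hl := hx (n + 1) le_rfl
    push_cast at h0 hl
    rw [add_zero] at h0
    set S1 := ∑ j ∈ range (n + 1), (-1) ^ j * (n.choose j : K) * (x + (j : K))⁻¹ with hS1
    set S2 := ∑ j ∈ range (n + 1), (-1) ^ j * (n.choose j : K) * (x + 1 + (j : K))⁻¹ with hS2
    have hsum : ∑ j ∈ range (n + 1 + 1), (-1) ^ j * ((n + 1).choose j : K) * (x + (j : K))⁻¹
        = S1 - S2 := by
      rw [Finset.sum_range_succ']
      simp only [Nat.choose_zero_right, pow_zero, Nat.cast_zero, add_zero, Nat.cast_one, one_mul]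
      have h1 : ∀ j ∈ range (n + 1), (-1 : K) ^ (j + 1) * ((n + 1).choose (j + 1) : K) *
          (x + ((j + 1 : ℕ) : K))⁻¹ = (-1) ^ (j + 1) * (n.choose (j + 1) : K) *
            (x + ((j + 1 : ℕ) : K))⁻¹ - (-1) ^ j * (n.choose j : K) * (x + 1 + (j : K))⁻¹ := by
        intro j _
        rw [Nat.choose_succ_succ']
        push_cast
        rw [show x + ((j : K) + 1) = x + 1 + (j : K) by ring]
        ring
      rw [Finset.sum_congr rfl h1, Finset.sum_sub_distrib, ← hS2]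
      have h2 : ∑ j ∈ range (n + 1), (-1 : K) ^ (j + 1) * (n.choose (j + 1) : K) *
            (x + ((j + 1 : ℕ) : K))⁻¹ + x⁻¹ = S1 := by
        have h3 : S1 = ∑ j ∈ range (n + 1 + 1), (-1) ^ j * (n.choose j : K) * (x + (j : K))⁻¹ := by
          rw [Finset.sum_range_succ _ (n + 1), Nat.choose_succ_self]
          simp [hS1]
        rw [h3, Finset.sum_range_succ' _ (n + 1)]
        simp
      linear_combination h2
    rw [hsum, sub_mul]
    have hp1 : ∏ i ∈ range (n + 1 + 1), (x + (i : K))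
        = (∏ i ∈ range (n + 1), (x + (i : K))) * (x + ((n + 1 : ℕ) : K)) := by
      rw [Finset.prod_range_succ]
    have hp2 : ∏ i ∈ range (n + 1 + 1), (x + (i : K))
        = (∏ i ∈ range (n + 1), (x + 1 + (i : K))) * x := by
      rw [Finset.prod_range_succ']
      simp only [Nat.cast_zero, add_zero]
      congr 1
      refine Finset.prod_congr rfl fun i _ => ?_
      push_cast
      ring
    have e1 : S1 * ∏ i ∈ range (n + 1 + 1), (x + (i : K))
        = (n.factorial : K) * (x + ((n + 1 : ℕ) : K)) := by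
      rw [hp1, ← mul_assoc, ih1]
    have e2 : S2 * ∏ i ∈ range (n + 1 + 1), (x + (i : K)) = (n.factorial : K) * x := by
      rw [hp2, ← mul_assoc, ih2]
    rw [e1, e2, Nat.factorial_succ]
    push_cast
    ring

/-- `C(2m,m) m! n! = 4^m (n+m)!` modulo `p = 2n+1`. -/
theorem centralBinom_mod (hpn : p = 2 * n + 1) (m : ℕ) :
    (m.centralBinom : ZMod p) * (m.factorial : ZMod p) * (n.factorial : ZMod p)
      = 4 ^ m * ((n + m).factorial : ZMod p) := by
  have h2n := two_n p n hpn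
  induction m with
  | zero => simp
  | succ m ih =>
    have h1 := congrArg (fun k : ℕ => (k : ZMod p)) (Nat.succ_mul_centralBinom_succ m)
    push_cast at h1
    rw [Nat.factorial_succ, ← add_assoc, Nat.factorial_succ]
    push_cast
    calc ((m + 1).centralBinom : ZMod p) * (((m : ZMod p) + 1) * (m.factorial : ZMod p)) *
          (n.factorial : ZMod p)
        = (((m : ZMod p) + 1) * ((m + 1).centralBinom : ZMod p)) *
          ((m.factorial : ZMod p) * (n.factorial : ZMod p)) := by ring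
      _ = 2 * (2 * (m : ZMod p) + 1) * ((m.centralBinom : ZMod p) * (m.factorial : ZMod p) *
            (n.factorial : ZMod p)) := by rw [h1]; ring
      _ = 2 * (2 * (m : ZMod p) + 1) * (4 ^ m * ((n + m).factorial : ZMod p)) := by rw [ih]
      _ = _ := by
        linear_combination (-2 * 4 ^ m * ((n + m).factorial : ZMod p)) * h2n

/-- `C(2j,j) = C(n,j) (-4)^j` modulo `p = 2n+1` for `j < p`. -/
theorem centralBinom_eq_c (hpn : p = 2 * n + 1) (j : ℕ) (hj : j < p) :
    (j.centralBinom : ZMod p) = c p n j := by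
  have h2n := two_n p n hpn
  induction j with
  | zero => simp [c]
  | succ j ih =>
    have ih := ih (by omega)
    have hne : ((j + 1 : ℕ) : ZMod p) ≠ 0 := by
      rw [Ne, ZMod.natCast_eq_zero_iff]
      exact Nat.not_dvd_of_pos_of_lt (by omega) hj
    apply mul_left_cancel₀ hne
    have h1 := congrArg (fun k : ℕ => (k : ZMod p)) (Nat.succ_mul_centralBinom_succ j)
    push_cast at h1 ⊢
    rw [h1, ih, c, c, pow_succ]
    rcases Nat.lt_or_ge n j with hk | hk
    · rw [Nat.choose_eq_zero_of_lt hk, Nat.choose_eq_zero_of_lt (by omega)]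
      simp
    · have h3 := congrArg (fun x : ℕ => (x : ZMod p)) (Nat.choose_succ_right_eq n j)
      simp only [Nat.cast_mul, Nat.cast_sub hk] at h3
      push_cast at h3
      linear_combination (4 * (-4 : ZMod p) ^ j) * h3 +
        (2 * (n.choose j : ZMod p) * (-4) ^ j) * h2n

/-- `C(2m,m) ψ = 4^m` for `p = 3m - 1`. -/
theorem ψ_two (m : ℕ) (hpn : p = 2 * n + 1) (hm : p + 1 = 3 * m) :
    (m.centralBinom : ZMod p) * ψ p n = 4 ^ m := by
  have hm3 : (3 : ZMod p) * (m : ZMod p) = 1 := by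
    have h : ((3 * m : ℕ) : ZMod p) = ((p + 1 : ℕ) : ZMod p) := by rw [hm]
    push_cast at h
    rw [ZMod.natCast_self, zero_add] at h
    exact h
  have hne : ∀ i, i ≤ n → (m : ZMod p) + (i : ZMod p) ≠ 0 := by
    intro i hi
    rw [← Nat.cast_add, Ne, ZMod.natCast_eq_zero_iff]
    exact Nat.not_dvd_of_pos_of_lt (by omega) (by omega)
  have h1 := partial_fractions n (m : ZMod p) hne
  have h2 : ψ p n = (m : ZMod p) * ∑ j ∈ range (n + 1), (-1) ^ j * (n.choose j : ZMod p) *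
      ((m : ZMod p) + (j : ZMod p))⁻¹ := by
    rw [ψ, Finset.mul_sum]
    refine Finset.sum_congr rfl fun j hj => ?_
    have hj := Finset.mem_range.1 hj
    have hj' := hne j (by omega)
    have h3 : ((3 * j + 1 : ℕ) : ZMod p) = 3 * ((m : ZMod p) + (j : ZMod p)) := by
      push_cast
      linear_combination -hm3
    have h4 : e p j = (m : ZMod p) * ((m : ZMod p) + (j : ZMod p))⁻¹ := by
      rw [e, h3]
      apply inv_eq_of_mul_eq_one_right
      calc 3 * ((m : ZMod p) + (j : ZMod p)) * ((m : ZMod p) * ((m : ZMod p) + (j : ZMod p))⁻¹)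
          = (3 * (m : ZMod p)) * (((m : ZMod p) + (j : ZMod p)) *
            ((m : ZMod p) + (j : ZMod p))⁻¹) := by ring
        _ = 1 := by rw [hm3, mul_inv_cancel₀ hj', one_mul]
    rw [h4]
    ring
  have hcb := centralBinom_mod p n hpn m
  obtain ⟨m', rfl⟩ : ∃ m', m = m' + 1 := ⟨m - 1, by omega⟩
  have hprod : ∀ k : ℕ, (m'.factorial : ZMod p) * ∏ i ∈ range k, (((m' + 1 : ℕ) : ZMod p) +
      (i : ZMod p)) = ((m' + k).factorial : ZMod p) := by
    intro k
    induction k with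
    | zero => simp
    | succ k ih =>
      rw [Finset.prod_range_succ, ← mul_assoc, ih, ← add_assoc, Nat.factorial_succ]
      push_cast
      ring
  have hP := hprod (n + 1)
  set P := ∏ i ∈ range (n + 1), (((m' + 1 : ℕ) : ZMod p) + (i : ZMod p)) with hPdef
  have hP0 : P ≠ 0 := by
    rw [hPdef, Finset.prod_ne_zero_iff]
    intro i hi
    exact hne i (by have := Finset.mem_range.1 hi; omega)
  have hf0 : (m'.factorial : ZMod p) ≠ 0 := by
    rw [Ne, ZMod.natCast_eq_zero_iff]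
    intro h
    have := (Nat.Prime.dvd_factorial hp.1).1 h
    omega
  apply mul_right_cancel₀ (mul_ne_zero hf0 hP0)
  rw [h2]
  have e1 : n + (m' + 1) = m' + (n + 1) := by ring
  rw [e1, ← hP, Nat.factorial_succ] at hcb
  push_cast at hcb h1 ⊢
  linear_combination hcb + ((m' + 1).centralBinom : ZMod p) * ((m' : ZMod p) + 1) *
    (m'.factorial : ZMod p) * h1

/-- **Case `p ≡ 2 (mod 3)`**: `C(2m,m) ∑_j C(2j,j)/(3j+1) = 2` modulo `p = 3m - 1`. -/
theorem main_two (m : ℕ) (hpn : p = 2 * n + 1) (hm : p + 1 = 3 * m) (h5 : 5 ≤ p) :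
    (m.centralBinom : ZMod p) * ∑ j ∈ range (n + 1), (j.centralBinom : ZMod p) *
      ((3 * j + 1 : ℕ) : ZMod p)⁻¹ = 2 := by
  have h1 : ∑ j ∈ range (n + 1), (j.centralBinom : ZMod p) * ((3 * j + 1 : ℕ) : ZMod p)⁻¹
      = Φ1 p n := by
    rw [Φ1]
    refine Finset.sum_congr rfl fun j hj => ?_
    have hj := Finset.mem_range.1 hj
    rw [centralBinom_eq_c p n hpn j (by omega), e]
  rw [h1]
  have h2 := Φ1_two p n m hpn hm h5
  have h3 := ψ_two p n m hpn hm
  have h4 : (4 : ZMod p) ^ m ≠ 0 := pow_ne_zero _ (four_ne p h5)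
  apply mul_right_cancel₀ h4
  linear_combination (m.centralBinom : ZMod p) * h2 + 2 * h3

end

end Pool.Agent.R902.Tri
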