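import Pool.Agent.R902.TriSum
import Pool.Agent.R902.FinLog

/-!
The case `p ≡ 1 (mod 3)` of the sums `∑ C(2j,j)/(3j+1)` modulo `p`.
-/

namespace Pool.Agent.R902.Tri1

open Finset Polynomial Pool.Agent.R902.Tri

section

variable (p : ℕ) [hp : Fact p.Prime]

/-- `G(n,m) = ∑_{j ≤ n} (-1)^j C(n,j)/(j-m)`, the term `j = m` being omitted. -/
noncomputable def G (n m : ℕ) : ZMod p :=
  ∑ j ∈ range (n + 1), (-1) ^ j * (n.choose j : ZMod p) * ((j : ZMod p) - (m : ZMod p))⁻¹

noncomputable def H (n : ℕ) : ZMod p := ∑ i ∈ range n, ((i + 1 : ℕ) : ZMod p)⁻¹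

theorem G_zero (n : ℕ) (hn : n < p) : G p n 0 = - H p n := by
  induction n with
  | zero => simp [G, H]
  | succ n ih =>
    have ih := ih (by omega)
    have hne : ((n + 1 : ℕ) : ZMod p) ≠ 0 := by
      rw [Ne, ZMod.natCast_eq_zero_iff]
      exact Nat.not_dvd_of_pos_of_lt (by omega) hn
    rw [G] at ih ⊢
    rw [H, Finset.sum_range_succ (fun i => ((i + 1 : ℕ) : ZMod p)⁻¹) n, ← H]
    have h1 : ∑ j ∈ range (n + 1 + 1), (-1 : ZMod p) ^ j * ((n + 1).choose j : ZMod p) *
        ((j : ZMod p) - ((0 : ℕ) : ZMod p))⁻¹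
        = ∑ j ∈ range (n + 1), (-1 : ZMod p) ^ j * (n.choose j : ZMod p) *
          ((j : ZMod p) - ((0 : ℕ) : ZMod p))⁻¹
        - ∑ j ∈ range (n + 1), (-1 : ZMod p) ^ j * (n.choose j : ZMod p) *
          ((j + 1 : ℕ) : ZMod p)⁻¹ := by
      rw [Finset.sum_range_succ']
      have h2 : ∑ j ∈ range (n + 1), (-1 : ZMod p) ^ j * (n.choose j : ZMod p) *
          ((j : ZMod p) - ((0 : ℕ) : ZMod p))⁻¹
          = ∑ j ∈ range (n + 1), (-1 : ZMod p) ^ (j + 1) * (n.choose (j + 1) : ZMod p) *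
          (((j + 1 : ℕ) : ZMod p) - ((0 : ℕ) : ZMod p))⁻¹ := by
        rw [Finset.sum_range_succ', Finset.sum_range_succ _ n, Nat.choose_succ_self]
        simp
      rw [h2, ← Finset.sum_sub_distrib]
      simp only [Nat.cast_zero, sub_zero, inv_zero, mul_zero, add_zero]
      refine Finset.sum_congr rfl fun j _ => ?_
      rw [Nat.choose_succ_succ']
      push_cast
      ring
    rw [h1, ih]
    have h3 : ∑ j ∈ range (n + 1), (-1 : ZMod p) ^ j * (n.choose j : ZMod p) *
          ((j + 1 : ℕ) : ZMod p)⁻¹ = ((n + 1 : ℕ) : ZMod p)⁻¹ := by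
      have h4 : ∀ j ∈ range (n + 1), (-1 : ZMod p) ^ j * (n.choose j : ZMod p) *
          ((j + 1 : ℕ) : ZMod p)⁻¹ = ((n + 1 : ℕ) : ZMod p)⁻¹ *
            ((-1) ^ j * ((n + 1).choose (j + 1) : ZMod p)) := by
        intro j hj
        have hj := Finset.mem_range.1 hj
        have hje : ((j + 1 : ℕ) : ZMod p) ≠ 0 := by
          rw [Ne, ZMod.natCast_eq_zero_iff]
          exact Nat.not_dvd_of_pos_of_lt (by omega) (by omega)
        have h5 := congrArg (fun x : ℕ => (x : ZMod p)) (Nat.add_one_mul_choose_eq n j)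
        simp only [Nat.cast_mul] at h5
        field_simp
        linear_combination h5
      rw [Finset.sum_congr rfl h4, ← Finset.mul_sum]
      have h6 : ∑ j ∈ range (n + 1), (-1 : ZMod p) ^ j * ((n + 1).choose (j + 1) : ZMod p)
          = 1 := by
        have h7 := Int.alternating_sum_range_choose_of_ne (n := n + 1) (by omega)
        rw [Finset.sum_range_succ'] at h7
        have h8 := congrArg (fun x : ℤ => (x : ZMod p)) h7
        push_cast at h8
        have h9 : ∑ j ∈ range (n + 1), (-1 : ZMod p) ^ j * ((n + 1).choose (j + 1) : ZMod p)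
            = - ∑ j ∈ range (n + 1), (-1 : ZMod p) ^ (j + 1) *
              ((n + 1).choose (j + 1) : ZMod p) := by
          rw [← Finset.sum_neg_distrib]
          refine Finset.sum_congr rfl fun j _ => ?_
          rw [pow_succ]; ring
        rw [h9]
        simp only [Nat.choose_zero_right, Nat.cast_one, mul_one] at h8
        linear_combination -h8
      rw [h6, mul_one]
    rw [h3]
    ring

theorem G_self (n : ℕ) (hn : n < p) : G p n n = (-1) ^ n * H p n := by
  have h0 := G_zero p n hn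
  have h1 : G p n n = - (-1) ^ n * G p n 0 := by
    rw [G, G, ← Finset.sum_range_reflect, Finset.mul_sum]
    refine Finset.sum_congr rfl fun j hj => ?_
    have hj := Finset.mem_range.1 hj
    rw [show n + 1 - 1 - j = n - j by omega, Nat.choose_symm (by omega), Nat.cast_sub (by omega)]
    have h2 : ((n : ZMod p) - (j : ZMod p) - (n : ZMod p)) = - (j : ZMod p) := by ring
    rw [h2, inv_neg, Nat.cast_zero, sub_zero]
    have h3 : (-1 : ZMod p) ^ n = (-1) ^ (n - j) * (-1) ^ j := by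
      rw [← pow_add]; congr 1; omega
    have h4 : (-1 : ZMod p) ^ j * (-1) ^ j = 1 := by rw [← mul_pow]; simp
    rw [h3]
    linear_combination ((-1 : ZMod p) ^ (n - j) * (n.choose j : ZMod p) * (j : ZMod p)⁻¹) * h4
  rw [h1, h0]
  ring

theorem H_succ (n : ℕ) : H p (n + 1) = H p n + ((n + 1 : ℕ) : ZMod p)⁻¹ := by
  rw [H, Finset.sum_range_succ, ← H]

/-- closed form of `G(n,m)` for `m ≤ n < p` -/
theorem G_eq (n m : ℕ) (hn : n < p) (hm : m ≤ n) :
    G p n m = (-1) ^ m * (n.choose m : ZMod p) * (H p m - H p (n - m)) := by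
  induction n generalizing m with
  | zero =>
    obtain rfl : m = 0 := by omega
    simp [G, H]
  | succ n ih =>
    rcases Nat.eq_zero_or_pos m with h0 | h0
    · subst h0
      rw [G_zero p (n + 1) hn]
      simp [H]
    · obtain ⟨k, rfl⟩ : ∃ k, m = k + 1 := ⟨m - 1, by omega⟩
      rcases Nat.lt_or_ge k n with hkn | hkn
      · have ih1 := ih (k + 1) (by omega) (by omega)
        have ih2 := ih k (by omega) (by omega)
        have h1 : G p (n + 1) (k + 1) = G p n (k + 1) - G p n k := by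
          rw [G, Finset.sum_range_succ']
          have h2 : ∑ j ∈ range (n + 1), (-1 : ZMod p) ^ (j + 1) *
              ((n + 1).choose (j + 1) : ZMod p) *
              (((j + 1 : ℕ) : ZMod p) - ((k + 1 : ℕ) : ZMod p))⁻¹
              = ∑ j ∈ range (n + 1), (-1 : ZMod p) ^ (j + 1) * (n.choose (j + 1) : ZMod p) *
              (((j + 1 : ℕ) : ZMod p) - ((k + 1 : ℕ) : ZMod p))⁻¹ - G p n k := by
            rw [G, ← Finset.sum_sub_distrib]
            refine Finset.sum_congr rfl fun j _ => ?_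
            rw [Nat.choose_succ_succ']
            have : (((j + 1 : ℕ) : ZMod p) - ((k + 1 : ℕ) : ZMod p))
                = (j : ZMod p) - (k : ZMod p) := by push_cast; ring
            rw [this]
            push_cast
            ring
          rw [h2]
          have h3 : G p n (k + 1) = ∑ j ∈ range (n + 1), (-1 : ZMod p) ^ (j + 1) *
              (n.choose (j + 1) : ZMod p) *
              (((j + 1 : ℕ) : ZMod p) - ((k + 1 : ℕ) : ZMod p))⁻¹ +
              (((0 : ℕ) : ZMod p) - ((k + 1 : ℕ) : ZMod p))⁻¹ := by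
            rw [G, Finset.sum_range_succ', Finset.sum_range_succ _ n, Nat.choose_succ_self]
            simp
          rw [h3]
          simp
          ring
        rw [h1, ih1, ih2]
        obtain ⟨d, hd⟩ : ∃ d, n = k + 1 + d := ⟨n - (k + 1), by omega⟩
        have e1 : n - (k + 1) = d := by omega
        have e2 : n - k = d + 1 := by omega
        have e3 : n + 1 - (k + 1) = d + 1 := by omega
        rw [e1, e2, e3, H_succ p k, H_succ p d, Nat.choose_succ_succ' n k]
        have hk1 : ((k + 1 : ℕ) : ZMod p) ≠ 0 := by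
          rw [Ne, ZMod.natCast_eq_zero_iff]
          exact Nat.not_dvd_of_pos_of_lt (by omega) (by omega)
        have hd1 : ((d + 1 : ℕ) : ZMod p) ≠ 0 := by
          rw [Ne, ZMod.natCast_eq_zero_iff]
          exact Nat.not_dvd_of_pos_of_lt (by omega) (by omega)
        have h5 := congrArg (fun x : ℕ => (x : ZMod p)) (Nat.choose_succ_right_eq n k)
        simp only [Nat.cast_mul] at h5
        rw [e2] at h5
        have h6 : (n.choose (k + 1) : ZMod p) * ((d + 1 : ℕ) : ZMod p)⁻¹
            = (n.choose k : ZMod p) * ((k + 1 : ℕ) : ZMod p)⁻¹ := by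
          field_simp
          linear_combination h5
        push_cast
        push_cast at h6
        rw [pow_succ]
        linear_combination (-(-1 : ZMod p) ^ k) * h6
      · obtain rfl : k = n := by omega
        rw [G_self p (k + 1) hn, Nat.choose_self, Nat.sub_self]
        simp [H]

/-! ### the polynomial identity -/

/-- `L = ∑_{i<p} X^i / i` -/
noncomputable def L : (ZMod p)[X] := ∑ i ∈ range p, C ((i : ZMod p)⁻¹) * X ^ i

theorem coeff_L (k : ℕ) : (L p).coeff k = if k < p then (k : ZMod p)⁻¹ else 0 := by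
  rw [L, finsetSum_coeff]
  simp only [coeff_C_mul, coeff_X_pow]
  simp

theorem eval_L (x : ZMod p) : (L p).eval x = FinLog.W p x := by
  rw [L, FinLog.W, eval_finsetSum]
  refine Finset.sum_congr rfl fun i _ => ?_
  rw [eval_mul, eval_C, eval_pow, eval_X, mul_comm]

theorem geom : (1 - X : (ZMod p)[X]) ^ (p - 1) = ∑ i ∈ range p, X ^ i := by
  have h1 : (1 - X : (ZMod p)[X]) ≠ 0 := by
    intro h
    have := congrArg (fun q => eval 0 q) h
    simp at this
  apply mul_right_cancel₀ h1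
  rw [← pow_succ, show p - 1 + 1 = p by have := hp.1.pos; omega, sub_pow_char, one_pow]
  have h2 := geom_sum_mul (X : (ZMod p)[X]) p
  linear_combination h2

variable (l : ℕ)

theorem hn_d (hp7 : p = 6 * l + 1) (j : ℕ) (hj : j ≤ 3 * l) :
    c p (3 * l) j * d p j = if j = 2 * l then 0 else c p (3 * l) j := by
  by_cases h : j = 2 * l
  · rw [if_pos h, d]
    have : ((3 * j + 1 : ℕ) : ZMod p) = 0 := by
      rw [h, show 3 * (2 * l) + 1 = p by omega]
      exact ZMod.natCast_self p
    rw [this, mul_zero, mul_zero]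
  · rw [if_neg h, d_eq_one p j, mul_one]
    rintro ⟨q, hq⟩
    have hq2 : q < 2 := by
      by_contra h'
      push Not at h'
      have : p * 2 ≤ p * q := Nat.mul_le_mul_left _ h'
      omega
    interval_cases q <;> omega

theorem sum_d (hp7 : p = 6 * l + 1) (F : ℕ → (ZMod p)[X]) :
    ∑ j ∈ range (3 * l + 1), C (c p (3 * l) j * d p j) * F j
      = ∑ j ∈ range (3 * l + 1), C (c p (3 * l) j) * F j
        - C (c p (3 * l) (2 * l)) * F (2 * l) := by
  have h1 : ∀ j ∈ range (3 * l + 1), C (c p (3 * l) j * d p j) * F j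
      = C (c p (3 * l) j) * F j - if j = 2 * l then C (c p (3 * l) j) * F j else 0 := by
    intro j hj
    have hj := Finset.mem_range.1 hj
    rw [hn_d p l hp7 j (by omega)]
    by_cases h : j = 2 * l
    · simp [h]
    · simp [h]
  rw [Finset.sum_congr rfl h1, Finset.sum_sub_distrib, Finset.sum_ite_eq' (range (3 * l + 1))
    (2 * l) (fun j => C (c p (3 * l) j) * F j), if_pos (Finset.mem_range.2 (by omega))]

theorem θ_R_one (hp7 : p = 6 * l + 1) : θ p (R p (3 * l))
    = C (c p (3 * l) (2 * l)) * (X ^ (2 * l) * (C (27 ^ l) * ((X + 2) * ∑ i ∈ range p, X ^ i)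
        - C ((-1) ^ (3 * l)) * (X ^ p + 2))) := by
  have hpn : p = 2 * (3 * l) + 1 := by omega
  rw [θ_R, θ_Mp p (3 * l) hpn, θ_Φ,
    sum_d p l hp7 (fun j => ((1 - X) ^ (3 * j) * (27 * X ^ 2) ^ (3 * l - j))),
    sum_d p l hp7 (fun j => X ^ j), sum_full, sum_full', ← geom p]
  have h1 : (27 * X ^ 2 : (ZMod p)[X]) ^ (3 * l - 2 * l) = C (27 ^ l) * X ^ (2 * l) := by
    rw [show 3 * l - 2 * l = l by omega, mul_pow, ← pow_mul, C_pow,
      show (C 27 : (ZMod p)[X]) = 27 from map_ofNat C 27]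
  have h2 : 3 * (2 * l) = p - 1 := by omega
  simp only [h1, h2]
  linear_combination (-1 : (ZMod p)[X]) * key_poly p (3 * l) hpn

theorem X_add_two_geom : (X + 2 : (ZMod p)[X]) * ∑ i ∈ range p, X ^ i
    = X ^ p + 2 + 3 * (X * ∑ i ∈ range (p - 1), X ^ i) := by
  have hpos := hp.1.pos
  have h1 : ∑ i ∈ range p, (X : (ZMod p)[X]) ^ i = ∑ i ∈ range (p - 1), X ^ i + X ^ (p - 1) := by
    have := Finset.sum_range_succ (fun i : ℕ => (X : (ZMod p)[X]) ^ i) (p - 1)
    rw [show p - 1 + 1 = p by omega] at this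
    exact this
  have h2 := geom_sum_mul (X : (ZMod p)[X]) (p - 1)
  have h3 : (X : (ZMod p)[X]) ^ p = X * X ^ (p - 1) := by
    rw [← pow_succ', show p - 1 + 1 = p by omega]
  rw [h1, h3]
  linear_combination (-2 : (ZMod p)[X]) * h2

theorem c_ne_zero (hp7 : p = 6 * l + 1) (h5 : 5 ≤ p) : c p (3 * l) (2 * l) ≠ 0 := by
  rw [c]
  apply mul_ne_zero
  · rw [Ne, ZMod.natCast_eq_zero_iff]
    intro h
    have h9 := Nat.choose_mul_factorial_mul_factorial (show 2 * l ≤ 3 * l by omega)
    have h8 : p ∣ (3 * l).factorial := by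
      rw [← h9]
      exact Dvd.dvd.mul_right (Dvd.dvd.mul_right h _) _
    have := (Nat.Prime.dvd_factorial hp.1).1 h8
    omega
  · exact pow_ne_zero _ (neg_ne_zero.2 (four_ne p h5))

/-- coefficients of `θ R` in the form needed -/
theorem kappa (hp7 : p = 6 * l + 1) (h5 : 5 ≤ p) : (27 : ZMod p) ^ l = (-1) ^ (3 * l) := by
  have h1 : (θ p (R p (3 * l))).coeff (2 * l) = 0 := by
    rw [coeff_θ]
    have : ((3 * (2 * l) + 1 : ℕ) : ZMod p) = 0 := by
      rw [show 3 * (2 * l) + 1 = p by omega]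
      exact ZMod.natCast_self p
    rw [this, zero_mul]
  rw [θ_R_one p l hp7, coeff_C_mul, X_add_two_geom] at h1
  have h2 := (mul_eq_zero.1 h1).resolve_left (c_ne_zero p l hp7 h5)
  have h3 := coeff_X_pow_mul (C (27 ^ l) * (X ^ p + 2 + 3 * (X * ∑ i ∈ range (p - 1),
    (X : (ZMod p)[X]) ^ i)) - C ((-1) ^ (3 * l)) * (X ^ p + 2)) (2 * l) 0
  rw [zero_add] at h3
  rw [h3, coeff_zero_eq_eval_zero] at h2
  simp only [eval_sub, eval_mul, eval_C, eval_add, eval_pow, eval_X, eval_ofNat] at h2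
  rw [zero_pow (by omega : p ≠ 0)] at h2
  have h4 : (2 : ZMod p) * ((27 : ZMod p) ^ l - (-1) ^ (3 * l)) = 0 := by linear_combination h2
  exact sub_eq_zero.1 ((mul_eq_zero.1 h4).resolve_left (two_ne p h5))

theorem θ_R_one' (hp7 : p = 6 * l + 1) (h5 : 5 ≤ p) : θ p (R p (3 * l))
    = C (3 * c p (3 * l) (2 * l) * (-1) ^ (3 * l)) *
      (X ^ (2 * l) * (X * ∑ i ∈ range (p - 1), X ^ i)) := by
  rw [θ_R_one p l hp7, X_add_two_geom, kappa p l hp7 h5, C_mul, C_mul,
    show (C 3 : (ZMod p)[X]) = 3 from map_ofNat C 3]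
  ring

theorem coeff_XS (k : ℕ) : ((X : (ZMod p)[X]) * ∑ i ∈ range (p - 1), X ^ i).coeff k
    = if 1 ≤ k ∧ k < p then 1 else 0 := by
  rcases k with _ | k
  · simp
  · rw [coeff_X_mul, finsetSum_coeff]
    simp only [coeff_X_pow]
    rw [Finset.sum_ite_eq]
    have : (k ∈ range (p - 1)) ↔ (1 ≤ k + 1 ∧ k + 1 < p) := by
      rw [Finset.mem_range]; omega
    simp only [this]

/-- `R = X^m (r₀ + A δ L + r₁ X^p)` -/
theorem R_one (hp7 : p = 6 * l + 1) (h5 : 5 ≤ p) : R p (3 * l)
    = X ^ (2 * l) * (C ((R p (3 * l)).coeff (2 * l)) +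
        C (c p (3 * l) (2 * l) * (-1) ^ (3 * l)) * L p +
        C ((R p (3 * l)).coeff (2 * l + p)) * X ^ p) := by
  have h3 := three_ne p h5
  ext k
  rw [coeff_X_pow_mul']
  have hθ := congrArg (fun q : (ZMod p)[X] => q.coeff k) (θ_R_one' p l hp7 h5)
  rw [coeff_θ, coeff_C_mul, coeff_X_pow_mul', coeff_XS] at hθ
  by_cases hk : 2 * l ≤ k
  · obtain ⟨i, rfl⟩ : ∃ i, k = 2 * l + i := ⟨k - 2 * l, by omega⟩
    rw [if_pos hk, Nat.add_sub_cancel_left] at hθ ⊢
    have hcast : ((3 * (2 * l + i) + 1 : ℕ) : ZMod p) = 3 * (i : ZMod p) := by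
      rw [show 3 * (2 * l + i) + 1 = p + 3 * i by omega, Nat.cast_add, ZMod.natCast_self]
      push_cast
      ring
    rw [hcast] at hθ
    simp only [coeff_add, coeff_C_mul, coeff_C, coeff_X_pow, coeff_L]
    rcases Nat.lt_trichotomy i p with hip | hip | hip
    · rcases Nat.eq_zero_or_pos i with h0 | h0
      · subst h0
        have hp0 : ¬ (0 = p) := by omega
        simp [hp0]
      · have hi0 : ¬ (i = 0) := by omega
        have hip' : ¬ (i = p) := by omega
        rw [if_pos ⟨h0, hip⟩] at hθ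
        rw [if_neg hi0, if_pos hip, if_neg hip', mul_zero, add_zero, zero_add]
        have hine : (i : ZMod p) ≠ 0 := by
          rw [Ne, ZMod.natCast_eq_zero_iff]
          exact Nat.not_dvd_of_pos_of_lt (by omega) hip
        apply mul_left_cancel₀ (mul_ne_zero h3 hine)
        rw [hθ]
        field_simp
    · subst hip
      simp [hp.1.ne_zero]
    · have hi0 : ¬ (i = 0) := by omega
      have hip1 : ¬ (i < p) := by omega
      have hip2 : ¬ (i = p) := by omega
      rw [if_neg hi0, if_neg hip1, if_neg hip2]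
      simp only [mul_zero, add_zero]
      rw [if_neg (by omega : ¬ (1 ≤ i ∧ i < p)), mul_zero] at hθ
      rcases mul_eq_zero.1 hθ with h6 | h6
      · have h7 := (mul_eq_zero.1 h6).resolve_left h3
        rw [ZMod.natCast_eq_zero_iff] at h7
        obtain ⟨q, hq⟩ := h7
        have hq2 : 2 ≤ q := by
          by_contra h
          push Not at h
          have : p * q ≤ p * 1 := Nat.mul_le_mul_left _ (by omega)
          omega
        have hq3 : p * 2 ≤ p * q := Nat.mul_le_mul_left _ hq2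
        apply coeff_eq_zero_of_natDegree_lt
        have := natDegree_R p (3 * l) (by omega)
        omega
      · exact h6
  · rw [if_neg hk] at hθ ⊢
    rw [mul_zero] at hθ
    rcases mul_eq_zero.1 hθ with h6 | h6
    · exfalso
      rw [ZMod.natCast_eq_zero_iff] at h6
      obtain ⟨q, hq⟩ := h6
      have hq2 : q < 1 := by
        by_contra h
        push Not at h
        have : p * 1 ≤ p * q := Nat.mul_le_mul_left _ h
        omega
      interval_cases q
      omega
    · exact h6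

/-- `Φ(1) = 0` for `p = 6l+1`. -/
theorem Φ1_one (hp7 : p = 6 * l + 1) (h5 : 5 ≤ p) : Φ1 p (3 * l) = 0 := by
  have hpn : p = 2 * (3 * l) + 1 := by omega
  have hp2 : p ≠ 2 := by omega
  have h2 := two_ne p h5
  have h3 := three_ne p h5
  have h4 := four_ne p h5
  set A := c p (3 * l) (2 * l) with hA
  set r0 := (R p (3 * l)).coeff (2 * l) with hr0
  set r1 := (R p (3 * l)).coeff (2 * l + p) with hr1
  set δ : ZMod p := (-1) ^ (3 * l) with hδ
  have hδ2 : δ * δ = 1 := by rw [hδ, ← mul_pow]; simp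
  have hR := R_one p l hp7 h5
  rw [← hA, ← hr0, ← hr1, ← hδ] at hR
  have hev : ∀ x : ZMod p, (R p (3 * l)).eval x
      = x ^ (2 * l) * (r0 + A * δ * FinLog.W p x + r1 * x) := by
    intro x
    rw [hR]
    simp only [eval_mul, eval_pow, eval_X, eval_add, eval_C, eval_L, pow_p]
  have h27 : (27 : ZMod p) ^ (3 * l) = δ := by
    rw [mul_comm 3 l, pow_mul, kappa p l hp7 h5, ← hδ]
    linear_combination δ * hδ2
  have hψ : ∀ x : ZMod p, x = x := fun _ => rfl
  have e1 := hev 1
  rw [eval_R_one, ← hδ, one_pow, one_mul] at e1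
  have hW1 : FinLog.W p 1 = 0 := by
    rw [FinLog.W]
    have := sum_range_inv_pow p 1 (by norm_num) (by omega)
    simpa using this
  rw [hW1] at e1
  have e2 := hev (4⁻¹)
  rw [eval_R_quarter p (3 * l) hpn h5, ← hδ, h27] at e2
  have e3 := hev (-2)
  rw [eval_R_neg_two p (3 * l) hpn h5, h27] at e3
  have hW4 : (4 : ZMod p) * FinLog.W p 4⁻¹ = - FinLog.W p 4 := FinLog.W_inv p 4 h4
  have hW := FinLog.W_four p hp2
  -- 4^m (1/4)^m = 1 and (-2)^m 4^m = 1
  have f1 : (4 : ZMod p) ^ (2 * l) * (4⁻¹) ^ (2 * l) = 1 := by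
    rw [← mul_pow, mul_inv_cancel₀ h4, one_pow]
  have f2 : (4 : ZMod p) ^ (2 * l) * (-2) ^ (2 * l) = 1 := by
    rw [← mul_pow, show (4 * -2 : ZMod p) = (-2) ^ 3 by norm_num, ← pow_mul,
      show 3 * (2 * l) = p - 1 by omega]
    exact ZMod.pow_card_sub_one_eq_one (neg_ne_zero.2 h2)
  have q3 : (3 : ZMod p) / 4 + 9 / 4 = 3 := by field_simp; norm_num
  have g2 : 3 * δ * (4 ^ (2 * l) * ψ p (3 * l)) = r0 + A * δ * FinLog.W p 4⁻¹ + r1 * 4⁻¹ := by
    linear_combination 4 ^ (2 * l) * e2 + (r0 + A * δ * FinLog.W p 4⁻¹ + r1 * 4⁻¹) * f1 -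
      4 ^ (2 * l) * δ * ψ p (3 * l) * q3
  have g3 : 3 * δ * (4 ^ (2 * l) * ψ p (3 * l)) = r0 + A * δ * FinLog.W p (-2) + r1 * (-2) := by
    linear_combination 4 ^ (2 * l) * e3 + (r0 + A * δ * FinLog.W p (-2) + r1 * (-2)) * f2
  -- the value of ψ
  have hm0 : ((2 * l : ℕ) : ZMod p) * 3 + 1 = 0 := by
    have : ((3 * (2 * l) + 1 : ℕ) : ZMod p) = 0 := by
      rw [show 3 * (2 * l) + 1 = p by omega]; exact ZMod.natCast_self p
    push_cast at this ⊢
    linear_combination this
  have g4 : 3 * ψ p (3 * l) = G p (3 * l) (2 * l) := by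
    rw [ψ, G, Finset.mul_sum]
    refine Finset.sum_congr rfl fun j _ => ?_
    have : ((3 * j + 1 : ℕ) : ZMod p) = 3 * ((j : ZMod p) - ((2 * l : ℕ) : ZMod p)) := by
      push_cast at hm0 ⊢
      linear_combination hm0
    rw [e, this, mul_inv]
    field_simp
  have g5 := G_eq p (3 * l) (2 * l) (by omega) (by omega)
  rw [show 3 * l - 2 * l = l by omega] at g5
  have g6 := FinLog.W_neg_one p l hp7 hp2
  have g7 : FinLog.W p (-1) = H p l - H p (2 * l) := g6
  have g8 : 3 * (4 ^ (2 * l) * ψ p (3 * l)) = - A * FinLog.W p (-1) := by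
    have : A = 4 ^ (2 * l) * ((-1) ^ (2 * l) * ((3 * l).choose (2 * l) : ZMod p)) := by
      rw [hA, c, show (-4 : ZMod p) = 4 * (-1) by ring, mul_pow]
      ring
    rw [this, g7]
    linear_combination 4 ^ (2 * l) * g4 + 4 ^ (2 * l) * g5
  -- combine
  have q4 : (4 : ZMod p) * 4⁻¹ = 1 := mul_inv_cancel₀ h4
  have h9 : (3 : ZMod p) * (3 * δ * Φ1 p (3 * l)) = 0 := by
    linear_combination 3 * e1 - 4 * g2 + g3 + 3 * δ * g8 - A * δ * hW4 + A * δ * hW - r1 * q4
  have hδ0 : δ ≠ 0 := by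
    intro h
    rw [h] at hδ2
    simp at hδ2
  have h10 := (mul_eq_zero.1 h9).resolve_left h3
  exact (mul_eq_zero.1 h10).resolve_left (mul_ne_zero h3 hδ0)

end

end Pool.Agent.R902.Tri1
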