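import Pool.Agent.R902.Tri1

/-!
The partial sums of `a(n) = ∑_j C(n+j,j) C(n,j) C(n-j,j)` at a prime `p ≡ 1 (mod 3)`.
-/

namespace Pool.Agent.R902.Tri1Sum

open Finset Pool.Agent.R902.TriSum

section

variable (p : ℕ) [hp : Fact p.Prime]

theorem prod_choose (k : ℕ) (hk : k < p) :
    (((p - 1).choose k * (p + k).choose k : ℕ) : ZMod (p ^ 2)) = (-1) ^ k := by
  induction k with
  | zero => simp
  | succ k ih =>
    have ih := ih (by omega)
    have h1 := congrArg (fun x : ℕ => (x : ZMod (p ^ 2))) (choose_prod_succ (p - 1) k)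
    rw [show p - 1 + 1 = p by omega, show p - 1 + 2 + k = p + (k + 1) by omega] at h1
    have hu := isUnit_natCast p 2 (k + 1) (by omega) hk
    have hu2 := hu.pow 2
    apply hu2.mul_left_cancel
    rw [Nat.cast_mul, Nat.cast_mul ((p - 1 - k) * (p + (k + 1))), ih, Nat.cast_mul,
      Nat.cast_pow] at h1
    rw [Nat.cast_mul ((p - 1).choose (k + 1)), h1, Nat.cast_mul]
    have h3 : ((p - 1 - k : ℕ) : ZMod (p ^ 2)) = (p : ZMod (p ^ 2)) - ((k + 1 : ℕ) : ZMod (p ^ 2)) := by
      rw [show p - 1 - k = p - (k + 1) by omega, Nat.cast_sub (by omega)]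
    have h4 : (p : ZMod (p ^ 2)) * (p : ZMod (p ^ 2)) = 0 := by
      rw [← Nat.cast_mul, ← sq]
      exact ZMod.natCast_self (p ^ 2)
    rw [h3, Nat.cast_add p (k + 1), pow_succ (-1 : ZMod (p ^ 2)) k]
    linear_combination ((-1 : ZMod (p ^ 2)) ^ k) * h4

/-- the sum modulo `p^2` for `p = 6l + 1` -/
theorem sum_one (l : ℕ) (hp7 : p = 6 * l + 1) :
    ((∑ k ∈ range p, a k : ℕ) : ZMod (p ^ 2))
      = ((2 * l).centralBinom : ZMod (p ^ 2)) + (p : ZMod (p ^ 2)) *
        ∑ j ∈ (range (3 * l + 1)).erase (2 * l), (j.centralBinom : ZMod (p ^ 2)) *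
          ((3 * j + 1 : ℕ) : ZMod (p ^ 2))⁻¹ := by
  have hl : 0 < l := by
    rcases Nat.eq_zero_or_pos l with h | h
    · subst h
      have := hp.1.two_le
      omega
    · exact h
  rw [sum_a, Nat.cast_sum]
  have h0 : ∑ j ∈ range p, (((p + j).choose (3 * j + 1) * ((3 * j).choose j * j.centralBinom) : ℕ) :
        ZMod (p ^ 2)) = ∑ j ∈ range (3 * l + 1),
        (((p + j).choose (3 * j + 1) * ((3 * j).choose j * j.centralBinom) : ℕ) :
        ZMod (p ^ 2)) := by
    symm
    apply Finset.sum_subset (Finset.range_mono (by omega))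
    intro j _ hj
    have hj : 3 * l + 1 ≤ j := by simpa using hj
    rw [term_zero p j (by omega), Nat.cast_zero]
  rw [h0, ← Finset.add_sum_erase (range (3 * l + 1)) _ (Finset.mem_range.2 (by omega : 2 * l < 3 * l + 1)),
    Finset.mul_sum]
  congr 1
  · -- the special term
    have h1 := term_factor (p - 1) (2 * l)
    rw [show p - 1 + 1 = p by omega, show 3 * (2 * l) + 1 = p by omega,
      Nat.mul_right_inj (by omega)] at h1
    rw [show 3 * (2 * l) + 1 = p by omega, h1]
    have h2 : (p - 1).choose (2 * (2 * l)) = (p - 1).choose (2 * l) := by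
      rw [← Nat.choose_symm (by omega : 2 * l ≤ p - 1)]
      congr 1
      omega
    have h3 := prod_choose p (2 * l) (by omega)
    rw [h2, Nat.cast_mul, mul_comm ((p + 2 * l).choose (2 * l)), h3, pow_mul]
    simp
  · refine Finset.sum_congr rfl fun j hj => ?_
    have hj1 := Finset.mem_range.1 (Finset.mem_of_mem_erase hj)
    have hj2 := Finset.ne_of_mem_erase hj
    have hnd : ¬ p ∣ 3 * j + 1 := by
      rintro ⟨q, hq⟩
      have hq2 : q < 2 := by
        by_contra h
        push Not at h
        have : p * 2 ≤ p * q := Nat.mul_le_mul_left _ h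
        omega
      interval_cases q <;> omega
    have hu := unit_of_not_dvd p (3 * j + 1) hnd
    rw [← mul_assoc (p : ZMod (p ^ 2)), ← term_mod p j (by omega)]
    generalize (((p + j).choose (3 * j + 1) * ((3 * j).choose j * j.centralBinom) : ℕ) :
        ZMod (p ^ 2)) = T
    linear_combination -T * hu

theorem dvd_one (l : ℕ) (hp7 : p = 6 * l + 1) :
    ((p : ℤ) ^ 2) ∣ ((∑ k ∈ range p, a k : ℕ) : ℤ) - ((2 * l).centralBinom : ℤ) := by
  have h5 : 5 ≤ p := by
    have := hp.1.two_le
    omega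
  have h1 := (ZMod.intCast_zmod_eq_zero_iff_dvd (((∑ k ∈ range p, a k : ℕ) : ℤ) -
    ((2 * l).centralBinom : ℤ)) (p ^ 2)).1 (by
      rw [Int.cast_sub, Int.cast_natCast, Int.cast_natCast, sum_one p l hp7]
      have h2 : (p : ZMod (p ^ (1 + 1))) ^ 1 * (
          ∑ j ∈ (range (3 * l + 1)).erase (2 * l), (j.centralBinom : ZMod (p ^ (1 + 1))) *
          ((3 * j + 1 : ℕ) : ZMod (p ^ (1 + 1)))⁻¹) = 0 := by
        apply pow_mul_eq_zero_one p 1
        rw [map_sum]
        have h3 := Tri1.Φ1_one p l hp7 h5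
        rw [Tri.Φ1, ← Finset.add_sum_erase (range (3 * l + 1)) _
          (Finset.mem_range.2 (by omega : 2 * l < 3 * l + 1))] at h3
        have h4 : Tri.e p (2 * l) = 0 := by
          rw [Tri.e, show 3 * (2 * l) + 1 = p by omega, ZMod.natCast_self, inv_zero]
        rw [h4, mul_zero, zero_add] at h3
        rw [← h3]
        refine Finset.sum_congr rfl fun j hj => ?_
        have hj1 := Finset.mem_range.1 (Finset.mem_of_mem_erase hj)
        have hj2 := Finset.ne_of_mem_erase hj
        have hnd : ¬ p ∣ 3 * j + 1 := by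
          rintro ⟨q, hq⟩
          have hq2 : q < 2 := by
            by_contra h
            push Not at h
            have : p * 2 ≤ p * q := Nat.mul_le_mul_left _ h
            omega
          interval_cases q <;> omega
        rw [map_mul, map_natCast, ← Tri.centralBinom_eq_c p (3 * l) (by omega) j (by omega), Tri.e]
        congr 1
        exact castHom_inv' p (3 * j + 1) hnd _
      rw [pow_one] at h2
      have h3 : (p : ZMod (p ^ 2)) * (
          ∑ j ∈ (range (3 * l + 1)).erase (2 * l), (j.centralBinom : ZMod (p ^ 2)) *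
          ((3 * j + 1 : ℕ) : ZMod (p ^ 2))⁻¹) = 0 := h2
      linear_combination h3)
  exact_mod_cast h1

end

end Pool.Agent.R902.Tri1Sum
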