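import Mathlib

/-!
Generalised central trinomial and Motzkin numbers.
-/

set_option linter.unusedSectionVars false

namespace Pool.Agent.R902.TriGen

open Finset Polynomial

variable {R : Type*} [CommRing R]

/-- generalised central trinomial coefficient -/
def T (b c : R) (n : ℕ) : R :=
  ∑ j ∈ range (n / 2 + 1), (n.choose (2 * j) : R) * ((2 * j).choose j : R) * b ^ (n - 2 * j) * c ^ j

/-- generalised Motzkin number -/
def M (b c : R) (n : ℕ) : R :=
  ∑ j ∈ range (n / 2 + 1), (n.choose (2 * j) : R) * (catalan j : R) * b ^ (n - 2 * j) * c ^ j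

theorem T_ext (b c : R) (n N : ℕ) (h : n / 2 + 1 ≤ N) : T b c n = ∑ j ∈ range N,
    (n.choose (2 * j) : R) * ((2 * j).choose j : R) * b ^ (n - 2 * j) * c ^ j := by
  rw [T]
  apply Finset.sum_subset (Finset.range_mono h)
  intro k _ hk
  have hk : n / 2 + 1 ≤ k := by simpa using hk
  rw [Nat.choose_eq_zero_of_lt (by omega)]
  simp

theorem M_ext (b c : R) (n N : ℕ) (h : n / 2 + 1 ≤ N) : M b c n = ∑ j ∈ range N,
    (n.choose (2 * j) : R) * (catalan j : R) * b ^ (n - 2 * j) * c ^ j := by
  rw [M]
  apply Finset.sum_subset (Finset.range_mono h)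
  intro k _ hk
  have hk : n / 2 + 1 ≤ k := by simpa using hk
  rw [Nat.choose_eq_zero_of_lt (by omega)]
  simp

theorem coeff_sq (c : R) (i : ℕ) : (((X ^ 2 + C c) ^ i : R[X])).coeff i
    = if 2 ∣ i then c ^ (i / 2) * (i.choose (i / 2) : R) else 0 := by
  have h : ((X ^ 2 + C c) ^ i : R[X]) = expand R 2 ((X + C c) ^ i) := by
    simp
  rw [h, coeff_expand (by norm_num)]
  split_ifs with h2
  · rw [coeff_X_add_C_pow]
    congr 2
    omega
  · rfl

theorem T_coeff (b c : R) (n : ℕ) : T b c n = (((X ^ 2 + C b * X + C c) ^ n : R[X])).coeff n := by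
  have h : (X ^ 2 + C b * X + C c : R[X]) = (X ^ 2 + C c) + C b * X := by ring
  rw [h, add_pow, finsetSum_coeff]
  have h1 : ∀ i ∈ range (n + 1), ((X ^ 2 + C c) ^ i * (C b * X) ^ (n - i) * (n.choose i : R[X])).coeff n
      = if 2 ∣ i then (n.choose i : R) * (i.choose (i / 2) : R) * b ^ (n - i) * c ^ (i / 2)
        else 0 := by
    intro i hi
    have hi := Finset.mem_range.1 hi
    have h2 : ((X ^ 2 + C c) ^ i * (C b * X) ^ (n - i) * (n.choose i : R[X]))
        = C (b ^ (n - i) * (n.choose i : R)) * (X ^ 2 + C c) ^ i * X ^ (n - i) := by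
      rw [mul_pow, ← C_pow, C_mul, ← C_eq_natCast]
      ring
    rw [h2, coeff_mul_X_pow', if_pos (by omega), coeff_C_mul, show n - (n - i) = i by omega,
      coeff_sq]
    split_ifs
    · ring
    · ring
  rw [Finset.sum_congr rfl h1, ← Finset.sum_filter]
  rw [T]
  refine Finset.sum_nbij' (fun j => 2 * j) (fun i => i / 2) ?_ ?_ ?_ ?_ ?_
  · intro j hj
    have := Finset.mem_range.1 hj
    simp only [Finset.mem_filter, Finset.mem_range]
    exact ⟨by omega, Dvd.intro j rfl⟩
  · intro i hi
    simp only [Finset.mem_filter, Finset.mem_range] at hi ⊢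
    omega
  · intro j _
    simp
  · intro i hi
    simp only [Finset.mem_filter, Finset.mem_range] at hi
    omega
  · intro j _
    rw [show 2 * j / 2 = j by omega]

/-- expansion at a splitting `x^2+bx+c = (x+z)(x+z+s)` -/
theorem T_expand (z s : R) (n : ℕ) : T (2 * z + s) (z * (z + s)) n
    = ∑ k ∈ range (n + 1), (n.choose k : R) * ((n + k).choose k : R) * z ^ k * s ^ (n - k) := by
  rw [T_coeff]
  have h : (X ^ 2 + C (2 * z + s) * X + C (z * (z + s)) : R[X]) = (X + C z) * ((X + C z) + C s) := by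
    simp only [C_add, C_mul]
    have : (C (2 : R)) = (2 : R[X]) := map_ofNat C 2
    rw [this]
    ring
  rw [h, mul_pow, add_pow (X + C z) (C s), Finset.mul_sum, finsetSum_coeff]
  refine Finset.sum_congr rfl fun k hk => ?_
  have hk := Finset.mem_range.1 hk
  have h2 : (X + C z) ^ n * ((X + C z) ^ k * C s ^ (n - k) * (n.choose k : R[X]))
      = C (s ^ (n - k) * (n.choose k : R)) * (X + C z) ^ (n + k) := by
    rw [← C_pow, C_mul, ← C_eq_natCast, pow_add]
    ring
  rw [h2, coeff_C_mul, coeff_X_add_C_pow, show n + k - n = k by omega]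
  have h3 : (n + k).choose n = (n + k).choose k := by
    rw [← Nat.choose_symm_of_eq_add (show n + k = k + n by ring)]
  rw [h3]
  ring

theorem central_cat (i : ℕ) : (2 * (i + 1)).choose (i + 1) = 2 * (2 * i + 1) * catalan i := by
  have h1 := Nat.succ_mul_centralBinom_succ i
  have h2 := succ_mul_catalan_eq_centralBinom i
  rw [Nat.centralBinom] at h1
  apply Nat.eq_of_mul_eq_mul_left (Nat.succ_pos i)
  rw [h1, ← h2]
  simp only [Nat.succ_eq_add_one]
  ring

/-- first relation -/
theorem relA (b c : R) (m : ℕ) : T b c (m + 2) = b * T b c (m + 1) + 2 * c * (m + 1) * M b c m := by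
  have hT2 := T_ext b c (m + 2) (m + 2) (by omega)
  have hT1 := T_ext b c (m + 1) (m + 2) (by omega)
  have hM := M_ext b c m (m + 1) (by omega)
  rw [hT2, hT1, hM, Finset.sum_range_succ', Finset.sum_range_succ' _ (m + 1), Finset.mul_sum,
    mul_add, Finset.mul_sum, add_right_comm, ← Finset.sum_add_distrib]
  congr 1
  · refine Finset.sum_congr rfl fun i _ => ?_
    have h1 := Nat.add_one_mul_choose_eq m (2 * i)
    have h3 := central_cat i
    have h4 : (((m + 1).choose (2 * i + 1) : ℕ) : R) * ((2 * (i + 1)).choose (i + 1) : R)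
        = 2 * (m + 1) * ((m.choose (2 * i) : R) * (catalan i : R)) := by
      have := congrArg (fun x : ℕ => (x : R) * (2 * (catalan i : R))) h1
      rw [h3]
      push_cast at this ⊢
      linear_combination -this
    have h5 : (m + 2).choose (2 * (i + 1)) = (m + 1).choose (2 * i + 1)
        + (m + 1).choose (2 * (i + 1)) := by
      rw [show 2 * (i + 1) = 2 * i + 1 + 1 by ring, show m + 2 = m + 1 + 1 by ring,
        Nat.choose_succ_succ']
    rcases Nat.lt_or_ge m (2 * i + 1) with h6 | h6
    · rw [h5, Nat.choose_eq_zero_of_lt (by omega : m + 1 < 2 * (i + 1)),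
        show m + 2 - 2 * (i + 1) = m - 2 * i by omega, pow_succ c i]
      push_cast
      linear_combination (b ^ (m - 2 * i) * c ^ i * c) * h4
    · have h7 : b ^ (m - 2 * i) = b ^ (m + 1 - 2 * (i + 1)) * b := by
        rw [← pow_succ]; congr 1; omega
      rw [h5, show m + 2 - 2 * (i + 1) = m - 2 * i by omega, pow_succ c i]
      push_cast
      rw [h7]
      linear_combination (b ^ (m + 1 - 2 * (i + 1)) * b * c ^ i * c) * h4
  · simp
    ring

/-- second relation -/
theorem relB (b c : R) (n : ℕ) : 2 * c * (n + 2) * M b c n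
    = b * T b c (n + 1) - (b ^ 2 - 4 * c) * T b c n := by
  have hT1 := T_ext b c (n + 1) (n + 2) (by omega)
  have hT0 := T_ext b c n (n + 2) (by omega)
  have hT0' := T_ext b c n (n + 1) (by omega)
  have hM := M_ext b c n (n + 1) (by omega)
  have key : b * T b c (n + 1) - b ^ 2 * T b c n = ∑ i ∈ range (n + 1),
      ((n.choose (2 * i + 1) : R) * ((2 * (i + 1)).choose (i + 1) : R) *
        b ^ (n - 2 * i) * c ^ (i + 1)) := by
    rw [hT1, hT0, Finset.sum_range_succ', Finset.sum_range_succ' _ (n + 1), mul_add, mul_add,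
      Finset.mul_sum, Finset.mul_sum, add_sub_add_comm, ← Finset.sum_sub_distrib]
    have h0 : b * (((n + 1).choose (2 * 0) : R) * ((2 * 0).choose 0 : R) * b ^ (n + 1 - 2 * 0) *
        c ^ 0) - b ^ 2 * ((n.choose (2 * 0) : R) * ((2 * 0).choose 0 : R) * b ^ (n - 2 * 0) *
        c ^ 0) = 0 := by
      simp
      ring
    rw [h0, add_zero]
    refine Finset.sum_congr rfl fun i _ => ?_
    have h5 : (n + 1).choose (2 * (i + 1)) = n.choose (2 * i + 1) + n.choose (2 * (i + 1)) := by
      rw [show 2 * (i + 1) = 2 * i + 1 + 1 by ring, Nat.choose_succ_succ']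
    rw [h5]
    push_cast
    rcases Nat.lt_or_ge n (2 * i + 1) with h6 | h6
    · rw [Nat.choose_eq_zero_of_lt h6, Nat.choose_eq_zero_of_lt (by omega : n < 2 * (i + 1))]
      simp
    · have e1 : b ^ (n - 2 * i) = b ^ (n + 1 - 2 * (i + 1)) * b := by
        rw [← pow_succ]; congr 1; omega
      rcases Nat.lt_or_ge n (2 * i + 2) with h7 | h7
      · rw [Nat.choose_eq_zero_of_lt (by omega : n < 2 * (i + 1)), e1]
        push_cast
        ring
      · have e2 : b ^ (n + 1 - 2 * (i + 1)) = b ^ (n - 2 * (i + 1)) * b := by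
          rw [← pow_succ]; congr 1; omega
        rw [e1, e2]
        ring
  have e : b * T b c (n + 1) - (b ^ 2 - 4 * c) * T b c n
      = (b * T b c (n + 1) - b ^ 2 * T b c n) + 4 * c * T b c n := by ring
  rw [e, key, hM, hT0', Finset.mul_sum, Finset.mul_sum, ← Finset.sum_add_distrib]
  refine Finset.sum_congr rfl fun i _ => ?_
  have h3 := central_cat i
  have h8 : ((2 * i).choose i : R) = (i + 1) * (catalan i : R) := by
    have := congrArg (fun x : ℕ => (x : R)) (succ_mul_catalan_eq_centralBinom i)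
    rw [Nat.centralBinom] at this
    push_cast at this
    exact this.symm
  have h9 : (n.choose (2 * i + 1) : R) * (2 * i + 1) = (n.choose (2 * i) : R) * (n - 2 * i) := by
    have h := Nat.choose_succ_right_eq n (2 * i)
    rcases Nat.lt_or_ge n (2 * i) with h0 | h0
    · rw [Nat.choose_eq_zero_of_lt h0, Nat.choose_eq_zero_of_lt (by omega : n < 2 * i + 1)]
      simp
    · have h' := congrArg (fun x : ℕ => (x : R)) h
      simp only [Nat.cast_mul] at h'
      rw [Nat.cast_sub h0] at h'
      push_cast at h'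
      exact h'
  rw [h3, h8]
  push_cast
  rw [pow_succ c i]
  linear_combination (-(2 * (catalan i : R) * b ^ (n - 2 * i) * (c ^ i * c))) * h9

/-- three term recurrence -/
theorem T_rec (b c : R) (m : ℕ) : ((m : R) + 2) * T b c (m + 2)
    = b * (2 * m + 3) * T b c (m + 1) - (b ^ 2 - 4 * c) * (m + 1) * T b c m := by
  have h1 := relA b c m
  have h2 := relB b c m
  linear_combination ((m : R) + 2) * h1 + (m + 1) * h2

end Pool.Agent.R902.TriGen
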