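import Pool.Agent.R902.Tri

/-!
The partial sums of `a(n) = ∑_j C(n+j,j) C(n,j) C(n-j,j)` at a prime.
-/

namespace Pool.Agent.R902.TriSum

open Finset

/-- `a(n) = ∑_{0 ≤ j ≤ n} C(n+j,j) C(n,j) C(n-j,j)` -/
def a (n : ℕ) : ℕ :=
  ∑ j ∈ range (n + 1), (n + j).choose j * n.choose j * (n - j).choose j

theorem term_eq (n j : ℕ) : (n + j).choose j * n.choose j * (n - j).choose j
    = (n + j).choose (3 * j) * ((3 * j).choose j * j.centralBinom) := by
  have h1 := Nat.choose_mul (n := n + j) (k := 3 * j) (s := j) (by omega)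
  have h2 := Nat.choose_mul (n := n) (k := 2 * j) (s := j) (by omega)
  rw [show n + j - j = n by omega, show 3 * j - j = 2 * j by omega] at h1
  rw [show 2 * j - j = j by omega] at h2
  rw [Nat.centralBinom, ← mul_assoc, h1, mul_assoc, mul_assoc, h2]

theorem hockey (N j : ℕ) : ∑ n ∈ range N, (n + j).choose (3 * j) = (N + j).choose (3 * j + 1) := by
  induction N with
  | zero =>
    rw [Finset.sum_range_zero, Nat.choose_eq_zero_of_lt (by omega)]
  | succ N ih =>
    rw [Finset.sum_range_succ, ih, show N + 1 + j = (N + j) + 1 by ring, Nat.choose_succ_succ',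
      add_comm]

theorem sum_a (N : ℕ) : ∑ n ∈ range N, a n
    = ∑ j ∈ range N, (N + j).choose (3 * j + 1) * ((3 * j).choose j * j.centralBinom) := by
  have h1 : ∀ n ∈ range N, a n
      = ∑ j ∈ range N, (n + j).choose (3 * j) * ((3 * j).choose j * j.centralBinom) := by
    intro n hn
    have hn := Finset.mem_range.1 hn
    rw [a]
    rw [Finset.sum_congr rfl fun j _ => term_eq n j]
    apply Finset.sum_subset (Finset.range_mono (by omega))
    intro j _ hj
    have hj : n + 1 ≤ j := by simpa using hj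
    rw [Nat.choose_eq_zero_of_lt (by omega), zero_mul]
  rw [Finset.sum_congr rfl h1, Finset.sum_comm]
  refine Finset.sum_congr rfl fun j _ => ?_
  rw [← Finset.sum_mul, hockey]

/-- the factorisation of the `j`-th term at `N = q+1` -/
theorem term_factor (q j : ℕ) : (3 * j + 1) *
    ((q + 1 + j).choose (3 * j + 1) * ((3 * j).choose j * j.centralBinom))
      = (q + 1) * (j.centralBinom * ((q + 1 + j).choose j * q.choose (2 * j))) := by
  have h1 := Nat.choose_mul (n := q + 1 + j) (k := 3 * j + 1) (s := j) (by omega)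
  rw [show q + 1 + j - j = q + 1 by omega, show 3 * j + 1 - j = 2 * j + 1 by omega] at h1
  have h2 := Nat.choose_mul_succ_eq (3 * j) j
  rw [show 3 * j + 1 - j = 2 * j + 1 by omega] at h2
  have h3 := Nat.add_one_mul_choose_eq q (2 * j)
  calc (3 * j + 1) * ((q + 1 + j).choose (3 * j + 1) * ((3 * j).choose j * j.centralBinom))
      = (q + 1 + j).choose (3 * j + 1) * ((3 * j).choose j * (3 * j + 1)) * j.centralBinom := by
        ring
    _ = ((q + 1 + j).choose (3 * j + 1) * (3 * j + 1).choose j) * (2 * j + 1) * j.centralBinom := by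
        rw [h2]; ring
    _ = (q + 1 + j).choose j * ((q + 1).choose (2 * j + 1) * (2 * j + 1)) * j.centralBinom := by
        rw [h1]; ring
    _ = _ := by rw [← h3]; ring

section

variable (p : ℕ) [hp : Fact p.Prime]

theorem choose_pred (k : ℕ) (hk : k < p) : ((p - 1).choose k : ZMod p) = (-1) ^ k := by
  induction k with
  | zero => simp
  | succ k ih =>
    have h1 : p.choose (k + 1) = (p - 1).choose k + (p - 1).choose (k + 1) := by
      obtain ⟨q, hq⟩ : ∃ q, p = q + 1 := ⟨p - 1, by omega⟩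
      rw [hq, Nat.choose_succ_succ', Nat.add_sub_cancel]
    have h2 : (p.choose (k + 1) : ZMod p) = 0 := by
      rw [ZMod.natCast_eq_zero_iff]
      exact hp.1.dvd_choose_self (by omega) hk
    rw [h1] at h2
    push_cast at h2
    rw [ih (by omega)] at h2
    rw [pow_succ]
    linear_combination h2

theorem choose_add (j : ℕ) (hj : j < p) : ((p + j).choose j : ZMod p) = 1 := by
  have h := Choose.choose_modEq_choose_mod_mul_choose_div_nat (n := p + j) (k := j) (p := p)
  rw [Nat.add_mod_left, Nat.mod_eq_of_lt hj, Nat.choose_self, Nat.div_eq_of_lt hj,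
    Nat.choose_zero_right, mul_one] at h
  have := (ZMod.natCast_eq_natCast_iff _ _ _).2 h
  simpa using this

/-- modulo `p^2`, the `j`-th term times `3j+1` is `p C(2j,j)` -/
theorem term_mod (j : ℕ) (hj : 2 * j < p) : ((3 * j + 1 : ℕ) : ZMod (p ^ 2)) *
    (((p + j).choose (3 * j + 1) * ((3 * j).choose j * j.centralBinom) : ℕ) : ZMod (p ^ 2))
      = (p : ZMod (p ^ 2)) * (j.centralBinom : ZMod (p ^ 2)) := by
  have hp1 := hp.1.pos
  have h1 := term_factor (p - 1) j
  rw [show p - 1 + 1 = p by omega] at h1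
  rw [← Nat.cast_mul, h1, Nat.cast_mul, Nat.cast_mul]
  have h2 : (p : ZMod (p ^ (1 + 1))) ^ 1 * ((((p + j).choose j * (p - 1).choose (2 * j) : ℕ) :
      ZMod (p ^ (1 + 1))) - 1) = 0 := by
    apply pow_mul_eq_zero_one p 1
    rw [map_sub, map_natCast, map_one, Nat.cast_mul, choose_add p j (by omega),
      choose_pred p (2 * j) hj, pow_mul]
    simp
  rw [pow_one] at h2
  have h3 : (p : ZMod (p ^ 2)) * (((p + j).choose j * (p - 1).choose (2 * j) : ℕ) :
      ZMod (p ^ 2)) = (p : ZMod (p ^ 2)) := by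
    have h4 := h2
    rw [mul_sub, mul_one, sub_eq_zero] at h4
    exact h4
  linear_combination (j.centralBinom : ZMod (p ^ 2)) * h3

theorem unit_of_not_dvd (k : ℕ) (hk : ¬ p ∣ k) :
    (k : ZMod (p ^ 2)) * (k : ZMod (p ^ 2))⁻¹ = 1 := by
  apply ZMod.mul_inv_of_unit
  rw [ZMod.isUnit_iff_coprime]
  exact Nat.Coprime.pow_right _ ((Nat.Prime.coprime_iff_not_dvd hp.1).2 hk).symm

theorem castHom_inv' (k : ℕ) (hk : ¬ p ∣ k) (hd : p ∣ p ^ 2) :
    ZMod.castHom hd (ZMod p) ((k : ZMod (p ^ 2))⁻¹) = (k : ZMod p)⁻¹ := by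
  have h1 := congrArg (ZMod.castHom hd (ZMod p)) (unit_of_not_dvd p k hk)
  rw [map_mul, map_natCast, map_one] at h1
  exact eq_inv_of_mul_eq_one_right h1

omit hp in
theorem term_zero (j : ℕ) (hj : p ≤ 2 * j) :
    (p + j).choose (3 * j + 1) * ((3 * j).choose j * j.centralBinom) = 0 := by
  rw [Nat.choose_eq_zero_of_lt (by omega), zero_mul]

/-- the sum modulo `p^2` for `p = 3m - 1` -/
theorem sum_two (n m : ℕ) (hpn : p = 2 * n + 1) (hm : p + 1 = 3 * m) :
    ((∑ k ∈ range p, a k : ℕ) : ZMod (p ^ 2))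
      = (p : ZMod (p ^ 2)) * ∑ j ∈ range (n + 1), (j.centralBinom : ZMod (p ^ 2)) *
          ((3 * j + 1 : ℕ) : ZMod (p ^ 2))⁻¹ := by
  rw [sum_a, Nat.cast_sum, Finset.mul_sum]
  symm
  have h1 : ∀ j ∈ range (n + 1), (p : ZMod (p ^ 2)) * ((j.centralBinom : ZMod (p ^ 2)) *
      ((3 * j + 1 : ℕ) : ZMod (p ^ 2))⁻¹)
      = (((p + j).choose (3 * j + 1) * ((3 * j).choose j * j.centralBinom) : ℕ) :
        ZMod (p ^ 2)) := by
    intro j hj
    have hj := Finset.mem_range.1 hj
    have hnd : ¬ p ∣ 3 * j + 1 := by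
      rintro ⟨q, hq⟩
      have hq2 : q < 2 := by
        by_contra h
        push Not at h
        have : p * 2 ≤ p * q := Nat.mul_le_mul_left _ h
        omega
      interval_cases q <;> omega
    have hu := unit_of_not_dvd p (3 * j + 1) hnd
    rw [← mul_assoc, ← term_mod p j (by omega)]
    generalize (((p + j).choose (3 * j + 1) * ((3 * j).choose j * j.centralBinom) : ℕ) :
        ZMod (p ^ 2)) = T
    linear_combination T * hu
  rw [Finset.sum_congr rfl h1]
  apply Finset.sum_subset (Finset.range_mono (by omega))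
  intro j _ hj
  have hj : n + 1 ≤ j := by simpa using hj
  rw [term_zero p j (by omega), Nat.cast_zero]

/-- `p^2 ∣ C(2m,m) ∑_{k<p} a(k) - 2p` for `p = 3m - 1 ≥ 5`. -/
theorem dvd_two (m : ℕ) (hm : p + 1 = 3 * m) (h5 : 5 ≤ p) :
    ((p : ℤ) ^ 2) ∣ (m.centralBinom : ℤ) * ((∑ k ∈ range p, a k : ℕ) : ℤ) - 2 * p := by
  have hodd : ∃ n, p = 2 * n + 1 := by
    rcases hp.1.eq_two_or_odd' with h | h
    · omega
    · exact h
  obtain ⟨n, hpn⟩ := hodd
  have h1 := (ZMod.intCast_zmod_eq_zero_iff_dvd ((m.centralBinom : ℤ) *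
    ((∑ k ∈ range p, a k : ℕ) : ℤ) - 2 * p) (p ^ 2)).1 (by
      rw [Int.cast_sub, Int.cast_mul, Int.cast_natCast, Int.cast_natCast, sum_two p n m hpn hm]
      push_cast
      have h2 : (p : ZMod (p ^ (1 + 1))) ^ 1 * ((m.centralBinom : ZMod (p ^ (1 + 1))) *
          ∑ j ∈ range (n + 1), (j.centralBinom : ZMod (p ^ (1 + 1))) *
          ((3 * j + 1 : ℕ) : ZMod (p ^ (1 + 1)))⁻¹ - 2) = 0 := by
        apply pow_mul_eq_zero_one p 1
        rw [map_sub, map_mul, map_natCast, map_sum, map_ofNat,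
          ← Tri.main_two p n m hpn hm h5, sub_eq_zero]
        congr 1
        refine Finset.sum_congr rfl fun j hj => ?_
        have hj := Finset.mem_range.1 hj
        have hnd : ¬ p ∣ 3 * j + 1 := by
          rintro ⟨q, hq⟩
          have hq2 : q < 2 := by
            by_contra h
            push Not at h
            have : p * 2 ≤ p * q := Nat.mul_le_mul_left _ h
            omega
          interval_cases q <;> omega
        rw [map_mul, map_natCast]
        congr 1
        exact castHom_inv' p (3 * j + 1) hnd _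
      rw [pow_one] at h2
      have h3 : (p : ZMod (p ^ 2)) * ((m.centralBinom : ZMod (p ^ 2)) *
          ∑ j ∈ range (n + 1), (j.centralBinom : ZMod (p ^ 2)) *
          ((3 * j + 1 : ℕ) : ZMod (p ^ 2))⁻¹ - 2) = 0 := h2
      push_cast at h3
      linear_combination h3)
  exact_mod_cast h1

end

end Pool.Agent.R902.TriSum
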