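import Pool.Agent.R902.Multi

/-!
The case `m = 2`: power sums of binomial coefficients, with the 2-adic refinement for odd exponents.
-/

namespace Pool.Agent.R902.Two

open Finset Pool.Agent.R902.Multi

/-- sum of the `r`-th powers of the binomial coefficients `C(n,k)` -/
def f (n r : ℕ) : ℕ := ∑ k ∈ range (n + 1), n.choose k ^ r

theorem W_one (r n : ℕ) : W r 1 n = 1 := by
  rw [W_succ_symm, Finset.sum_eq_single 0]
  · simp [W]
  · intro k _ hk
    simp [W, hk]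
  · simp

theorem W_two (r n : ℕ) : W r 2 n = f n r := by
  rw [W_succ_symm, f]
  simp only [W_one, mul_one]

theorem dvd_two (r n : ℕ) :
    ((2 * n : ℕ) : ℤ) ∣ ∑ k ∈ range n, (-1) ^ (r * k) * (3 * (k : ℤ) + 2) * (f k r : ℤ) := by
  have := Multi.main r 2 n (by norm_num)
  simp only [W_two] at this
  push_cast at this ⊢
  convert this using 4

theorem W_one_eq (c n : ℕ) : W 1 c n = c ^ n := by
  induction c generalizing n with
  | zero =>
    rw [W]
    by_cases h : n = 0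
    · simp [h]
    · simp [h]
  | succ c ih =>
    rw [W_succ_symm, add_pow]
    refine Finset.sum_congr rfl fun k _ => ?_
    rw [ih]
    simp [mul_comm]

theorem pow_mod_two (x r : ℕ) (hr : 1 ≤ r) : x ^ r ≡ x [MOD 2] := by
  rcases Nat.even_or_odd x with h | h
  · have h1 : x % 2 = 0 := Nat.even_iff.1 h
    have h2 : (x ^ r) % 2 = 0 := Nat.even_iff.1 (h.pow_of_ne_zero (by omega))
    rw [Nat.ModEq, h1, h2]
  · have h1 : x % 2 = 1 := Nat.odd_iff.1 h
    have h2 : (x ^ r) % 2 = 1 := Nat.odd_iff.1 h.pow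
    rw [Nat.ModEq, h1, h2]

theorem sum_modEq {ι : Type*} (s : Finset ι) (m : ℕ) (f g : ι → ℕ)
    (h : ∀ i ∈ s, f i ≡ g i [MOD m]) : ∑ i ∈ s, f i ≡ ∑ i ∈ s, g i [MOD m] := by
  classical
  induction s using Finset.induction_on with
  | empty => exact Nat.ModEq.refl _
  | insert a s ha ih =>
    rw [Finset.sum_insert ha, Finset.sum_insert ha]
    exact Nat.ModEq.add (h a (by simp)) (ih fun i hi => h i (by simp [hi]))

theorem W_mod_two (r c n : ℕ) (hr : 1 ≤ r) : W r c n ≡ W 1 c n [MOD 2] := by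
  induction c generalizing n with
  | zero => exact Nat.ModEq.refl _
  | succ c ih =>
    rw [W, W]
    apply sum_modEq
    intro p _
    rw [pow_one]
    exact Nat.ModEq.mul (pow_mod_two _ r hr) (ih _)

theorem D_mod_two (r c n : ℕ) (hr : 1 ≤ r) : D r c n ≡ D 1 c n [MOD 2] := by
  rw [D, D]
  apply sum_modEq
  intro p _
  rw [pow_one]
  exact Nat.ModEq.mul_left _ (Nat.ModEq.mul (pow_mod_two _ r hr) (W_mod_two _ _ _ hr))

theorem h_even (r k : ℕ) (hr : 1 ≤ r) (hk : 2 ≤ k) : (2 : ℤ) ∣ h r 1 k := by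
  rw [h]
  apply Dvd.dvd.mul_left
  rw [show (2 : ℤ) = ((2 : ℕ) : ℤ) by norm_num, Int.natCast_dvd_natCast]
  have h1 : (1 + 2) * D r 1 k + W r (1 + 1) k ≡ (1 + 2) * D 1 1 k + W 1 (1 + 1) k [MOD 2] :=
    Nat.ModEq.add (Nat.ModEq.mul_left _ (D_mod_two _ _ _ hr)) (W_mod_two _ _ _ hr)
  have h2 := mark 1 1 k
  rw [W_one_eq] at h1 h2
  obtain ⟨j, rfl⟩ : ∃ j, k = j + 2 := ⟨k - 2, by omega⟩
  have h3 : D 1 1 (j + 2) = 2 * ((j + 2) * 2 ^ j) := by
    have : (1 + 1) * D 1 1 (j + 2) = 2 * (2 * ((j + 2) * 2 ^ j)) := by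
      rw [← h2]; ring
    omega
  rw [h3] at h1
  rw [← Nat.modEq_zero_iff_dvd]
  refine h1.trans ?_
  rw [Nat.modEq_zero_iff_dvd]
  refine ⟨3 * ((j + 2) * 2 ^ j) + 2 * 2 ^ j, ?_⟩
  ring

theorem W_three_odd (r n : ℕ) (hr : 1 ≤ r) : ∃ w : ℕ, W r 3 n = 2 * w + 1 := by
  have h1 := W_mod_two r 3 n hr
  rw [W_one_eq] at h1
  have h2 : Odd (3 ^ n) := Odd.pow (by decide)
  have h3 : Odd (W r 3 n) := by
    rw [Nat.odd_iff] at h2 ⊢
    rw [← h2]
    exact h1
  exact h3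

theorem h_zero (r : ℕ) : h r 1 0 = 1 := by
  simp [h, D, W]

theorem h_one (r : ℕ) (hr : Odd r) : h r 1 1 = -5 := by
  have h1 := mul_h r 1 1
  have h2 : W r (1 + 1) 1 = 2 := by
    rw [show 1 + 1 = 2 by rfl, W_two, f]
    simp [Finset.sum_range_succ]
  rw [h2, mul_one, hr.neg_one_pow] at h1
  push_cast at h1
  linarith

theorem two_adic_aux (r : ℕ) (hr : Odd r) (n a : ℕ) (ha : 1 ≤ a) (hn : 2 ^ a ∣ n) :
    (2 : ℤ) ^ (a + 1) ∣ (1 - (n : ℤ)) ^ r - 1 + n := by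
  obtain ⟨t, rfl⟩ := hr
  obtain ⟨m, rfl⟩ := hn
  have h1 : (1 - ((2 ^ a * m : ℕ) : ℤ)) ^ (2 * t + 1) - 1 + ((2 ^ a * m : ℕ) : ℤ)
      = (1 - ((2 ^ a * m : ℕ) : ℤ)) * (((1 - ((2 ^ a * m : ℕ) : ℤ)) ^ 2) ^ t - 1 ^ t) := by
    rw [pow_succ, pow_mul, one_pow]
    ring
  rw [h1]
  apply Dvd.dvd.mul_left
  refine dvd_trans ?_ (sub_dvd_pow_sub_pow _ _ t)
  obtain ⟨b, rfl⟩ : ∃ b, a = b + 1 := ⟨a - 1, by omega⟩
  refine ⟨(m : ℤ) * (2 ^ b * m - 1), ?_⟩
  push_cast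
  ring

theorem two_adic (r : ℕ) (hr : Odd r) (a : ℕ) (ha : 1 ≤ a) :
    ∀ q, (2 : ℤ) ^ (a + 1) ∣ Block.blk (h r 1) (2 ^ a) q := by
  induction a using Nat.strong_induction_on with
  | _ a ih =>
    have hr1 : 1 ≤ r := hr.pos
    have := Block.step 2 r Nat.prime_two (h r 1) 1 1 a ha
      (fun s hs1 hs2 q => by exact_mod_cast ih s hs2 hs1 q) (by
      intro N hN
      have hn2 : 2 ≤ 2 ^ a * N := by
        calc 2 = 2 ^ 1 * 1 := by norm_num
          _ ≤ 2 ^ a * N := Nat.mul_le_mul (Nat.pow_le_pow_right (by norm_num) ha) hN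
      have hpos : 1 ≤ 2 ^ a * N := by omega
      have e1 := twisted' r 1 (2 ^ a * N) hpos
      have hexp : 2 ^ a * N = 2 * (2 ^ (a - 1) * N) := by
        rw [← mul_assoc, ← pow_succ']; congr 2; omega
      have hN' : 1 ≤ 2 ^ (a - 1) * N := Nat.mul_pos (by positivity) hN
      -- difference
      have e2 : ∑ k ∈ range (2 ^ a * N), Block.c (2 ^ (a - 1) * N) (k / 2 ^ 1) ^ r * h r 1 k
          = ((2 ^ a * N : ℕ) : ℤ) * (W r (1 + 2) (2 ^ a * N - 1) : ℤ) -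
            ∑ k ∈ range (2 ^ a * N), (Block.c (2 ^ a * N) k ^ r -
              Block.c (2 ^ (a - 1) * N) (k / 2 ^ 1) ^ r) * h r 1 k := by
        rw [← e1, ← Finset.sum_sub_distrib]
        refine Finset.sum_congr rfl fun k _ => ?_
        ring
      obtain ⟨M, hM⟩ : ∃ M, 2 ^ a * N = M + 1 + 1 := ⟨2 ^ a * N - 2, by omega⟩
      have e3 : ∑ k ∈ range (2 ^ a * N), (Block.c (2 ^ a * N) k ^ r -
              Block.c (2 ^ (a - 1) * N) (k / 2 ^ 1) ^ r) * h r 1 k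
          = ∑ k ∈ range M, (Block.c (2 ^ a * N) (k + 1 + 1) ^ r -
              Block.c (2 ^ (a - 1) * N) ((k + 1 + 1) / 2 ^ 1) ^ r) * h r 1 (k + 1 + 1)
            + ((1 - ((2 ^ a * N : ℕ) : ℤ)) ^ r - 1) * (-5) := by
        nth_rewrite 1 [hM]
        rw [Finset.sum_range_succ', Finset.sum_range_succ', h_zero, h_one r hr]
        have c1 : Block.c (2 ^ a * N) (0 + 1) = 1 - ((2 ^ a * N : ℕ) : ℤ) := by
          rw [Block.c]
          simp only [zero_add, pow_one, Nat.choose_one_right]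
          rw [Nat.cast_sub hpos]
          push_cast
          ring
        have c2 : Block.c (2 ^ (a - 1) * N) ((0 + 1) / 2 ^ 1) = 1 := by
          norm_num [Block.c]
        have c3 : Block.c (2 ^ (a - 1) * N) (0 / 2 ^ 1) = 1 := by
          norm_num [Block.c]
        have c4 : Block.c (2 ^ a * N) 0 = 1 := by
          norm_num [Block.c]
        rw [c1, c2, c3, c4, one_pow]
        ring
      have e4 : (2 : ℤ) ^ (a + 1) ∣ ∑ k ∈ range M, (Block.c (2 ^ a * N) (k + 1 + 1) ^ r -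
              Block.c (2 ^ (a - 1) * N) ((k + 1 + 1) / 2 ^ 1) ^ r) * h r 1 (k + 1 + 1) := by
        apply Finset.dvd_sum
        intro k _
        rw [pow_succ (2 : ℤ) a]
        apply mul_dvd_mul
        · refine dvd_trans ?_ (sub_dvd_pow_sub_pow _ _ r)
          rw [hexp, pow_one]
          have := Block.c_congr 2 (2 ^ (a - 1) * N) (k + 1 + 1) a Nat.prime_two hN' (by
            rw [← hexp]; exact Dvd.intro _ rfl)
          exact_mod_cast this
        · exact h_even r (k + 1 + 1) hr1 (by omega)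
      have e5 := two_adic_aux r hr (2 ^ a * N) a ha (Dvd.intro _ rfl)
      obtain ⟨w, hw⟩ := W_three_odd r (2 ^ a * N - 1) hr1
      rw [e2, e3, show 1 + 2 = 3 by rfl, hw]
      have e6 : ((2 ^ a * N : ℕ) : ℤ) * ((2 * w + 1 : ℕ) : ℤ) -
          (∑ k ∈ range M, (Block.c (2 ^ a * N) (k + 1 + 1) ^ r -
              Block.c (2 ^ (a - 1) * N) ((k + 1 + 1) / 2 ^ 1) ^ r) * h r 1 (k + 1 + 1)
            + ((1 - ((2 ^ a * N : ℕ) : ℤ)) ^ r - 1) * (-5))
          = 2 ^ (a + 1) * ((N : ℤ) * (w - 2)) - (∑ k ∈ range M, (Block.c (2 ^ a * N) (k + 1 + 1) ^ r -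
              Block.c (2 ^ (a - 1) * N) ((k + 1 + 1) / 2 ^ 1) ^ r) * h r 1 (k + 1 + 1))
            + 5 * ((1 - ((2 ^ a * N : ℕ) : ℤ)) ^ r - 1 + ((2 ^ a * N : ℕ) : ℤ)) := by
        push_cast
        ring
      rw [e6]
      have e7 : (((2 : ℕ) : ℤ)) = 2 := by norm_num
      rw [e7]
      exact dvd_add (dvd_sub (Dvd.intro _ rfl) e4) (Dvd.dvd.mul_left e5 5))
    intro q
    exact_mod_cast this q

/-- `2n ∣ ∑_{k<n} h(k)` for `n ≥ 2` and odd exponents. -/
theorem dvd_sum_h_odd (r : ℕ) (hr : Odd r) (n : ℕ) (hn : 2 ≤ n) :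
    ((2 * n : ℕ) : ℤ) ∣ ∑ k ∈ range n, h r 1 k := by
  have hr1 : 1 ≤ r := hr.pos
  apply Block.dvd_of_prime_pow
  intro p a hp ha
  by_cases h2 : p = 2
  · subst h2
    rcases Nat.lt_or_ge a 2 with ha2 | ha2
    · refine dvd_trans (pow_dvd_pow _ (show a ≤ 1 by omega)) ?_
      rw [pow_one]
      obtain ⟨M, rfl⟩ : ∃ M, n = M + 1 + 1 := ⟨n - 2, by omega⟩
      rw [Finset.sum_range_succ', Finset.sum_range_succ', h_zero, h_one r hr]
      have : ((2 : ℕ) : ℤ) ∣ ∑ k ∈ range M, h r 1 (k + 1 + 1) := by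
        apply Finset.dvd_sum
        intro k _
        exact_mod_cast h_even r (k + 1 + 1) hr1 (by omega)
      obtain ⟨x, hx⟩ := this
      rw [hx]
      refine ⟨x - 2, ?_⟩
      push_cast
      ring
    · obtain ⟨b, rfl⟩ : ∃ b, a = b + 1 := ⟨a - 1, by omega⟩
      rw [pow_succ, mul_comm] at ha
      have ha' := Nat.dvd_of_mul_dvd_mul_left (by norm_num) ha
      obtain ⟨Q, rfl⟩ := ha'
      rw [Block.sum_blocks' (h r 1) (2 ^ b) Q (by positivity)]
      apply Finset.dvd_sum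
      intro q _
      have := two_adic r hr b (by omega) q
      exact_mod_cast this
  · have hcop : Nat.Coprime (p ^ a) 2 := by
      apply Nat.Coprime.pow_left
      rw [Nat.Prime.coprime_iff_not_dvd hp]
      intro hd
      exact h2 ((Nat.prime_dvd_prime_iff_eq hp Nat.prime_two).1 hd)
    have ha' : p ^ a ∣ n := Nat.Coprime.dvd_of_dvd_mul_left hcop ha
    exact dvd_trans (by exact_mod_cast ha') (dvd_sum_h r 1 n)

theorem four_dvd (r n : ℕ) (hr : Odd r) (hn : 2 ≤ n) :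
    ((4 * n : ℕ) : ℤ) ∣ ∑ k ∈ range n, (-1) ^ k * (3 * (k : ℤ) + 2) * (f k r : ℤ) := by
  have h1 : ∑ k ∈ range n, (-1) ^ k * (3 * (k : ℤ) + 2) * (f k r : ℤ)
      = 2 * ∑ k ∈ range n, h r 1 k := by
    rw [Finset.mul_sum]
    refine Finset.sum_congr rfl fun k _ => ?_
    have := mul_h r 1 k
    rw [show 1 + 1 = 2 by rfl, W_two, pow_mul, hr.neg_one_pow] at this
    push_cast at this
    linear_combination -this
  rw [h1, show ((4 * n : ℕ) : ℤ) = 2 * ((2 * n : ℕ) : ℤ) by push_cast; ring]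
  exact mul_dvd_mul_left _ (dvd_sum_h_odd r hr n hn)

end Pool.Agent.R902.Two
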